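import Pool.Agent.Lib.MP_b07157_agB.ODefs

/-!
# Curves with ordinary multiple points: definitions
-/

noncomputable section

namespace MPb07157

open MvPolynomial

/-- All points of the curve are quasi-homogeneous points or ordinary multiple points of the
reduced curve where the multiplicity of `f` is not `d/3`. -/
def AllOrd (f : MvPolynomial (Fin 3) ℂ) (d : ℕ) : Prop :=
  ∀ p ≠ 0, eval p f = 0 → IsWHAt f p ∨ OrdAt f d p

end MPb07157
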