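import Pool.Agent.Lib.MP_b07157_agB2.Rg

/-!
# Reduced fractions
-/

noncomputable section

namespace MPb07157.OK

open MvPolynomial

variable {q : Fin 3 → ℂ} {g g' : Kf} {k k' : ℤ}

namespace RgA

theorem eq_C_of_pderiv {p : MvPolynomial (Fin 3) ℂ} (h : ∀ i, pderiv i p = 0) :
    p = C (coeff 0 p) := by
  classical
  ext m
  rw [coeff_C]
  split_ifs with hm
  · rw [← hm]
  · obtain ⟨i, hi⟩ : ∃ i, m i ≠ 0 := by
      by_contra hcon
      push Not at hcon
      exact hm (Finsupp.ext fun i => (hcon i).symm)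
    have h1 : coeff (m - Finsupp.single i 1) (pderiv i p) = 0 := by rw [h i, coeff_zero]
    have h2 : m - Finsupp.single i 1 + Finsupp.single i 1 = m :=
      tsub_add_cancel_of_le (by rw [Finsupp.single_le_iff]; omega)
    rw [coeff_pderiv, h2] at h1
    refine (mul_eq_zero.mp h1).resolve_right ?_
    exact Nat.cast_add_one_ne_zero _

theorem totalDegree_pderiv_lt {i : Fin 3} {p : MvPolynomial (Fin 3) ℂ} (h : pderiv i p ≠ 0) :
    (pderiv i p).totalDegree < p.totalDegree := by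
  classical
  obtain ⟨m, hm, hd⟩ := Finset.exists_mem_eq_sup (pderiv i p).support (support_nonempty.2 h)
    (fun s => s.sum fun _ e => e)
  have h1 : (pderiv i p).totalDegree = m.sum fun _ e => e := hd
  have h2 : coeff (m + Finsupp.single i 1) p ≠ 0 := by
    intro h3
    apply mem_support_iff.1 hm
    rw [coeff_pderiv, h3, zero_mul]
  have h4 := le_totalDegree (mem_support_iff.2 h2)
  have h5 : ((m + Finsupp.single i 1).sum fun _ e => e) = (m.sum fun _ e => e) + 1 := by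
    rw [Finsupp.sum_add_index' (fun _ => rfl) (fun _ _ _ => rfl), Finsupp.sum_single_index rfl]
  omega

theorem pderiv_eq_zero_of_dvd {i : Fin 3} {p : MvPolynomial (Fin 3) ℂ} (h : p ∣ pderiv i p) :
    pderiv i p = 0 := by
  by_contra h0
  have h1 := totalDegree_pderiv_lt h0
  obtain ⟨c, hc⟩ := h
  have hp : p ≠ 0 := by
    rintro rfl
    exact h0 (by simp)
  have hc0 : c ≠ 0 := by
    rintro rfl
    exact h0 (by rw [hc, mul_zero])
  have h2 : (pderiv i p).totalDegree = p.totalDegree + c.totalDegree := by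
    conv_lhs => rw [hc]
    exact totalDegree_mul_of_isDomain hp hc0
  omega

theorem dvd_pow_of_zeros {b h : MvPolynomial (Fin 3) ℂ} (H : ∀ q, eval q h ≠ 0 → eval q b ≠ 0) :
    ∃ N : ℕ, b ∣ h ^ N := by
  have h1 : h ∈ (Ideal.span {b}).radical := by
    rw [← vanishingIdeal_zeroLocus_eq_radical (K := ℂ), mem_vanishingIdeal_iff]
    intro q hq
    rw [mem_zeroLocus_iff] at hq
    have h2 := hq b (Ideal.mem_span_singleton_self b)
    by_contra h3
    exact H q h3 h2
  obtain ⟨N, hN⟩ := h1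
  exact ⟨N, Ideal.mem_span_singleton.1 hN⟩

end RgA

/-- A reduced fraction. -/
theorem exists_reduced (g : Kf) : ∃ a b : MvPolynomial (Fin 3) ℂ, b ≠ 0 ∧ g * fr b = fr a ∧
    (∀ q, RegAt q g ↔ eval q b ≠ 0) ∧ IsRelPrime a b := by
  obtain ⟨a, b, hab, h⟩ := IsFractionRing.exists_reduced_fraction (A := MvPolynomial (Fin 3) ℂ) g
  have hb0 : (b : MvPolynomial (Fin 3) ℂ) ≠ 0 := nonZeroDivisors.coe_ne_zero b
  have hg : g * fr (b : MvPolynomial (Fin 3) ℂ) = fr a := by
    rw [← h]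
    exact IsLocalization.mk'_spec Kf a b
  refine ⟨a, b, hb0, hg, fun q => ⟨?_, fun hq => ⟨a, b, hq, hg⟩⟩, hab⟩
  rintro ⟨a', b', hb', e'⟩ hq
  have h1 : a * b' = a' * (b : MvPolynomial (Fin 3) ℂ) := by
    apply fr_injective
    rw [map_mul, map_mul, ← hg, ← e']
    ring
  have h2 : (b : MvPolynomial (Fin 3) ℂ) ∣ b' := by
    have h3 : (b : MvPolynomial (Fin 3) ℂ) ∣ a * b' := by
      rw [h1]
      exact dvd_mul_left _ _
    exact hab.symm.dvd_of_dvd_mul_left h3
  obtain ⟨c, hc⟩ := h2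
  apply hb'
  rw [hc, map_mul, hq, zero_mul]

/-- A function which is regular off `h = 0` has a power of `h` as denominator. -/
theorem exists_pow {h : MvPolynomial (Fin 3) ℂ} (H : ∀ q, eval q h ≠ 0 → RegAt q g) :
    ∃ (N : ℕ) (a : MvPolynomial (Fin 3) ℂ), g * fr (h ^ N) = fr a := by
  obtain ⟨a, b, -, hg, hr, -⟩ := exists_reduced g
  obtain ⟨N, c, hc⟩ := RgA.dvd_pow_of_zeros (b := b) fun q hq => (hr q).1 (H q hq)
  refine ⟨N, a * c, ?_⟩
  rw [hc, map_mul, map_mul, ← hg]
  ring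

/-- **Hartogs.** -/
theorem hartogs {h h' : MvPolynomial (Fin 3) ℂ} (hh : IsRelPrime h h')
    (H : ∀ q, eval q h ≠ 0 → RegAt q g) (H' : ∀ q, eval q h' ≠ 0 → RegAt q g) :
    ∃ a, g = fr a := by
  obtain ⟨a, b, -, hg, hr, -⟩ := exists_reduced g
  obtain ⟨N, hN⟩ := RgA.dvd_pow_of_zeros (b := b) fun q hq => (hr q).1 (H q hq)
  obtain ⟨N', hN'⟩ := RgA.dvd_pow_of_zeros (b := b) fun q hq => (hr q).1 (H' q hq)
  have hu : IsUnit b := (hh.pow (m := N) (n := N')) hN hN'
  obtain ⟨u, hu⟩ := isUnit_iff_exists_inv.1 hu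
  refine ⟨a * u, ?_⟩
  rw [map_mul, ← hg, mul_assoc, ← map_mul, hu, map_one, mul_one]

/-- Functions which are killed by all derivations are constant. -/
theorem const_of_DK (h : ∀ i, DK i g = 0) : ∃ c : ℂ, g = algebraMap ℂ Kf c := by
  obtain ⟨a, b, hb, hg, -, hab⟩ := exists_reduced g
  have key : ∀ i, a * pderiv i b = b * pderiv i a := by
    intro i
    apply fr_injective
    have e := congrArg (DK i) hg
    rw [DK_mul, DK_fr, DK_fr, h i, mul_zero, add_zero] at e
    rw [map_mul, map_mul, ← e, ← hg]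
    ring
  have hb' : ∀ i, pderiv i b = 0 := by
    intro i
    apply RgA.pderiv_eq_zero_of_dvd
    refine hab.symm.dvd_of_dvd_mul_left (y := a) ?_
    rw [key i]
    exact dvd_mul_right _ _
  have ha' : ∀ i, pderiv i a = 0 := by
    intro i
    have := key i
    rw [hb' i, mul_zero] at this
    exact (mul_eq_zero.1 this.symm).resolve_left hb
  have eb := RgA.eq_C_of_pderiv hb'
  have ea := RgA.eq_C_of_pderiv ha'
  have hb1 : coeff 0 b ≠ 0 := by
    intro h0
    apply hb
    rw [eb, h0, C_0]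
  refine ⟨coeff 0 a / coeff 0 b, ?_⟩
  have hfb : fr b ≠ 0 := fr_ne_zero hb
  apply mul_right_cancel₀ hfb
  rw [hg, ← fr_C, ← map_mul]
  congr 1
  conv_lhs => rw [ea]
  conv_rhs => rw [eb]
  rw [← C_mul, coeff_C, if_pos rfl, div_mul_cancel₀ _ hb1]

end MPb07157.OK
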