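import Pool.Agent.Lib.MP_b07157_agB2.Rg
import Mathlib.RingTheory.MvPolynomial.EulerIdentity
import Mathlib.RingTheory.Localization.NumDen

/-!
# Homogeneous rational functions
-/

noncomputable section

namespace MPb07157.OK

open MvPolynomial

variable {q : Fin 3 → ℂ} {g g' : Kf} {k k' : ℤ}

namespace RgBaux

/-- The Euler operator. -/
def eu (p : MvPolynomial (Fin 3) ℂ) : MvPolynomial (Fin 3) ℂ := ∑ i, X i * pderiv i p

theorem eu_add (p p' : MvPolynomial (Fin 3) ℂ) : eu (p + p') = eu p + eu p' := by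
  simp only [eu, map_add, mul_add, Finset.sum_add_distrib]

theorem coeff_eu (p : MvPolynomial (Fin 3) ℂ) (v : Fin 3 →₀ ℕ) :
    coeff v (eu p) = (v.degree : ℂ) * coeff v p := by
  induction p using MvPolynomial.induction_on' with
  | monomial u a =>
    have h1 : (monomial u a).IsHomogeneous u.degree := isHomogeneous_monomial a rfl
    rw [eu, h1.sum_X_mul_pderiv, nsmul_eq_mul, ← map_natCast (C : ℂ →+* _), coeff_C_mul]
    by_cases h : u = v
    · rw [h]
    · rw [coeff_monomial, if_neg h, mul_zero, mul_zero]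
  | add p p' hp hp' => rw [eu_add, coeff_add, coeff_add, hp, hp', mul_add]

theorem eu_eq {p : MvPolynomial (Fin 3) ℂ} {c : ℂ} (hp : p ≠ 0) (h : eu p = C c * p) :
    ∃ m : ℕ, c = m ∧ p.IsHomogeneous m := by
  have key : ∀ v, coeff v p ≠ 0 → (v.degree : ℂ) = c := by
    intro v hv
    have h1 := coeff_eu p v
    rw [h, coeff_C_mul] at h1
    exact (mul_right_cancel₀ hv h1).symm
  obtain ⟨v, hv⟩ := MvPolynomial.exists_coeff_ne_zero hp
  refine ⟨v.degree, (key v hv).symm, ?_⟩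
  intro u hu
  have h1 := (key u hu).trans (key v hv).symm
  have h2 : u.degree = v.degree := by exact_mod_cast h1
  rw [← h2, Finsupp.degree_eq_weight_one]
  rfl

theorem totalDegree_eu (p : MvPolynomial (Fin 3) ℂ) : (eu p).totalDegree ≤ p.totalDegree := by
  refine totalDegree_le_of_support_subset fun v hv => ?_
  rw [mem_support_iff] at hv ⊢
  intro h
  rw [coeff_eu, h, mul_zero] at hv
  exact hv rfl

theorem fr_eu {g : Kf} {a b : MvPolynomial (Fin 3) ℂ} (e : g * fr b = fr a) :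
    (∑ i, fr (X i) * DK i g) * fr b + g * fr (eu b) = fr (eu a) := by
  have e1 : ∀ i, g * fr (pderiv i b) + fr b * DK i g = fr (pderiv i a) := by
    intro i
    have h1 := congrArg (DK i) e
    rwa [DK_mul, DK_fr, DK_fr] at h1
  rw [eu, eu, map_sum, map_sum, Finset.sum_mul, Finset.mul_sum, ← Finset.sum_add_distrib]
  refine Finset.sum_congr rfl fun i _ => ?_
  rw [map_mul, map_mul, ← e1 i]
  ring

theorem isHomogeneous_pderiv_mul {a b : MvPolynomial (Fin 3) ℂ} {m n : ℕ}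
    (ha : a.IsHomogeneous m) (hb : b.IsHomogeneous n) (i : Fin 3) :
    (pderiv i a * b).IsHomogeneous (m + n - 1) := by
  rcases Nat.eq_zero_or_pos m with rfl | hm
  · rw [← totalDegree_zero_iff_isHomogeneous, totalDegree_eq_zero_iff_eq_C] at ha
    rw [ha, pderiv_C, zero_mul]
    exact isHomogeneous_zero _ _ _
  · have h1 := (ha.pderiv (i := i)).mul hb
    have h2 : m - 1 + n = m + n - 1 := by omega
    rwa [h2] at h1

end RgBaux

open RgBaux

theorem Hk.fr {p : MvPolynomial (Fin 3) ℂ} {m : ℕ} (hp : p.IsHomogeneous m) :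
    Hk m (OK.fr p) := ⟨m, 0, p, 1, hp, isHomogeneous_one _ _, one_ne_zero, by simp, by simp⟩

theorem Hk.zero (k : ℤ) : Hk k 0 :=
  ⟨k.toNat, (-k).toNat, 0, X 0 ^ (-k).toNat, isHomogeneous_zero _ _ _, by
    simpa using (isHomogeneous_X ℂ (0 : Fin 3)).pow (-k).toNat, pow_ne_zero _ (X_ne_zero 0),
    by omega, by simp⟩

theorem Hk.add (h : Hk k g) (h' : Hk k g') : Hk k (g + g') := by
  obtain ⟨m, n, a, b, ha, hb, hb0, hk, e⟩ := h
  obtain ⟨m', n', a', b', ha', hb', hb0', hk', e'⟩ := h'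
  have h2 : m' + n = m + n' := by omega
  refine ⟨m + n', n + n', a * b' + a' * b, b * b', (ha.mul hb').add ?_, hb.mul hb',
    mul_ne_zero hb0 hb0', by push_cast; omega, ?_⟩
  · rw [← h2]
    exact ha'.mul hb
  · rw [map_mul, map_add, map_mul, map_mul, ← e, ← e']
    ring

theorem Hk.neg (h : Hk k g) : Hk k (-g) := by
  obtain ⟨m, n, a, b, ha, hb, hb0, hk, e⟩ := h
  refine ⟨m, n, -a, b, ?_, hb, hb0, hk, ?_⟩
  · exact (homogeneousSubmodule (Fin 3) ℂ m).neg_mem ha
  · rw [map_neg, ← e]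
    ring

theorem Hk.sub (h : Hk k g) (h' : Hk k g') : Hk k (g - g') := by
  rw [sub_eq_add_neg]
  exact h.add h'.neg

theorem Hk.mul (h : Hk k g) (h' : Hk k' g') : Hk (k + k') (g * g') := by
  obtain ⟨m, n, a, b, ha, hb, hb0, hk, e⟩ := h
  obtain ⟨m', n', a', b', ha', hb', hb0', hk', e'⟩ := h'
  refine ⟨m + m', n + n', a * a', b * b', ha.mul ha', hb.mul hb', mul_ne_zero hb0 hb0',
    by push_cast; omega, ?_⟩
  rw [map_mul, map_mul, ← e, ← e']
  ring

theorem Hk.inv (h : Hk k g) : Hk (-k) g⁻¹ := by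
  by_cases hg : g = 0
  · rw [hg, inv_zero]
    exact Hk.zero _
  obtain ⟨m, n, a, b, ha, hb, hb0, hk, e⟩ := h
  have hb1 := fr_ne_zero hb0
  refine ⟨n, m, b, a, hb, ha, ?_, by omega, ?_⟩
  · rintro rfl
    rw [map_zero] at e
    exact mul_ne_zero hg hb1 e
  · rw [← e, ← mul_assoc, inv_mul_cancel₀ hg, one_mul]

theorem Hk.DK (h : Hk k g) (i : Fin 3) : Hk (k - 1) (OK.DK i g) := by
  obtain ⟨m, n, a, b, ha, hb, hb0, hk, e⟩ := h
  have hb1 := fr_ne_zero hb0
  have e1 := congrArg (OK.DK i) e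
  rw [DK_mul, DK_fr, DK_fr] at e1
  rcases Nat.eq_zero_or_pos (m + n) with h0 | h0
  · have hm : m = 0 := by omega
    have hn : n = 0 := by omega
    subst hm hn
    rw [← totalDegree_zero_iff_isHomogeneous, totalDegree_eq_zero_iff_eq_C] at ha hb
    rw [ha, hb, pderiv_C, pderiv_C, map_zero, mul_zero, zero_add, ← hb] at e1
    rw [(mul_eq_zero.1 e1).resolve_left hb1]
    exact Hk.zero _
  · refine ⟨m + n - 1, n + n, pderiv i a * b - pderiv i b * a, b * b, ?_, hb.mul hb,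
      mul_ne_zero hb0 hb0, by push_cast; omega, ?_⟩
    · have h1 := isHomogeneous_pderiv_mul ha hb i
      have h2 := isHomogeneous_pderiv_mul hb ha i
      rw [Nat.add_comm n m] at h2
      exact h1.sub h2
    · rw [map_mul, map_sub, map_mul, map_mul, ← e1, ← e]
      ring

/-- Euler's formula. -/
theorem Hk.euler (h : Hk k g) : ∑ i, OK.fr (X i) * OK.DK i g = (k : ℂ) • g := by
  obtain ⟨m, n, a, b, ha, hb, hb0, hk, e⟩ := h
  have hb1 := fr_ne_zero hb0
  have h1 := fr_eu e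
  have ha' : eu a = (m : ℂ) • a := by
    rw [eu, ha.sum_X_mul_pderiv, Nat.cast_smul_eq_nsmul]
  have hb' : eu b = (n : ℂ) • b := by
    rw [eu, hb.sum_X_mul_pderiv, Nat.cast_smul_eq_nsmul]
  rw [ha', hb', map_smul, map_smul, ← e] at h1
  apply mul_right_cancel₀ hb1
  have h2 : (k : ℂ) = m - n := by
    rw [← hk]
    push_cast
    ring
  rw [h2, sub_smul, sub_mul, smul_mul_assoc, smul_mul_assoc]
  rw [mul_smul_comm] at h1
  exact eq_sub_of_add_eq h1

/-- The converse of Euler's formula. -/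
theorem hk_of_euler (h : ∑ i, fr (X i) * DK i g = (k : ℂ) • g) : Hk k g := by
  obtain ⟨a, ⟨b, hbm⟩, hab, hg⟩ := IsFractionRing.exists_reduced_fraction
    (MvPolynomial (Fin 3) ℂ) (K := Kf) g
  have hb0 : b ≠ 0 := nonZeroDivisors.ne_zero hbm
  have hab : IsRelPrime a b := hab
  have e : g * fr b = fr a := by
    rw [← hg]
    exact IsLocalization.mk'_spec Kf a ⟨b, hbm⟩
  have h1 := fr_eu e
  rw [h] at h1
  have h2 : (C (k : ℂ) * a) * b + a * eu b = b * eu a := by
    apply fr_injective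
    rw [map_add, map_mul, map_mul, map_mul, map_mul, ← h1, fr_C, ← Algebra.smul_def, ← e]
    rw [smul_mul_assoc, smul_mul_assoc]
    simp only [Algebra.smul_def]
    ring
  have h3 : b ∣ a * eu b := by
    refine ⟨eu a - C (k : ℂ) * a, ?_⟩
    linear_combination h2
  obtain ⟨c, hc⟩ := hab.symm.dvd_of_dvd_mul_left h3
  obtain ⟨c', hc'⟩ : ∃ c', c = C c' := by
    by_cases hc0 : c = 0
    · exact ⟨0, by rw [hc0, C_0]⟩
    · refine ⟨_, (totalDegree_eq_zero_iff_eq_C (p := c)).1 ?_⟩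
      have h4 := totalDegree_eu b
      rw [hc, totalDegree_mul_of_isDomain hb0 hc0] at h4
      omega
  rw [hc', mul_comm] at hc
  obtain ⟨n, hn, hbn⟩ := eu_eq hb0 hc
  by_cases ha0 : a = 0
  · rw [ha0, map_zero] at e
    rw [(mul_eq_zero.1 e).resolve_right (fr_ne_zero hb0)]
    exact Hk.zero _
  have h5 : eu a = C (k + n : ℂ) * a := by
    apply mul_left_cancel₀ hb0
    rw [← h2, hc, hn, C_add]
    ring
  obtain ⟨m, hm, ham⟩ := eu_eq ha0 h5
  refine ⟨m, n, a, b, ham, hbn, hb0, ?_, e⟩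
  have h6 : ((k + n : ℤ) : ℂ) = ((m : ℤ) : ℂ) := by
    push_cast
    exact hm
  have h7 : k + n = (m : ℤ) := by exact_mod_cast h6
  omega

theorem isHomogeneous_of_hk {p : MvPolynomial (Fin 3) ℂ} (hp : p ≠ 0) (h : Hk k (fr p)) :
    ∃ m : ℕ, (m : ℤ) = k ∧ p.IsHomogeneous m := by
  have h1 := h.euler
  have h2 : eu p = C (k : ℂ) * p := by
    apply fr_injective
    rw [map_mul, fr_C, ← Algebra.smul_def, ← h1, eu, map_sum]
    refine Finset.sum_congr rfl fun i _ => ?_
    rw [map_mul, DK_fr]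
  obtain ⟨m, hm, hpm⟩ := eu_eq hp h2
  refine ⟨m, ?_, hpm⟩
  have h3 : (k : ℂ) = ((m : ℤ) : ℂ) := by
    push_cast
    exact hm
  exact_mod_cast h3.symm

end MPb07157.OK
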