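import Pool.Agent.Lib.MP_b07157_agB2.Jo
import Pool.Agent.Lib.MP_b07157_agB2.RgA
import Pool.Agent.Lib.MP_b07157_agB2.RgB

/-!
# Approximation by Laurent polynomials at the point `(1 : 0 : 0)`
-/

noncomputable section

namespace MPb07157.OK

open MvPolynomial
open MPb07157.OB (La sg io td Ge Hm Reg ex gc)

namespace ApxAux

theorem coeff_single_eq {e : MvPolynomial (Fin 3) ℂ} {k : ℕ} (he : e.IsHomogeneous k) :
    coeff (Finsupp.single 0 k) e = eval (Pi.single 0 1) e := by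
  classical
  have key : ∀ m ∈ e.support, coeff m e * ∏ i, (Pi.single 0 1 : Fin 3 → ℂ) i ^ m i =
      if Finsupp.single 0 k = m then coeff m e else 0 := by
    intro m hm
    rw [Fin.prod_univ_three]
    by_cases h : Finsupp.single 0 k = m
    · rw [if_pos h, ← h]
      simp
    · rw [if_neg h]
      have h1 : m.degree = k := by
        by_contra hcon
        exact mem_support_iff.1 hm (he.coeff_eq_zero hcon)
      have h2 : m 1 ≠ 0 ∨ m 2 ≠ 0 := by
        by_contra hcon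
        push Not at hcon
        apply h
        rw [Finsupp.degree_eq_sum, Fin.sum_univ_three, hcon.1, hcon.2, add_zero, add_zero] at h1
        ext i
        fin_cases i
        · simp [h1]
        · simp [hcon.1]
        · simp [hcon.2]
      rcases h2 with h2 | h2
      · simp [h2]
      · simp [h2]
  rw [eval_eq', Finset.sum_congr rfl key, Finset.sum_ite_eq]
  split_ifs with h
  · rfl
  · exact notMem_support_iff.1 h

theorem hm_one : Hm td 0 (1 : La) := by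
  rw [OB.one_eq_sg]
  exact OB.Hm.sg (map_zero _) _

theorem reg_one (i : Fin 3) : Reg i (1 : La) := by
  rw [OB.one_eq_sg]
  exact OB.Reg.sg le_rfl _

theorem reg_pow {i : Fin 3} {r : La} (h : Reg i r) (n : ℕ) : Reg i (r ^ n) := by
  induction n with
  | zero => rw [pow_zero]; exact reg_one i
  | succ n ih => rw [pow_succ]; exact ih.mul h

theorem hm_pow {r : La} (h : Hm td 0 r) (n : ℕ) : Hm td 0 (r ^ n) := by
  induction n with
  | zero => rw [pow_zero]; exact hm_one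
  | succ n ih =>
    rw [pow_succ]
    have := ih.mul h
    rwa [add_zero] at this

theorem ge_pow {r : La} (h : Ge (OB.wt 0) 1 r) (n : ℕ) : Ge (OB.wt 0) n (r ^ n) := by
  induction n with
  | zero =>
    rw [pow_zero, OB.one_eq_sg]
    exact OB.Ge.sg (by rw [map_zero]; simp) _
  | succ n ih =>
    rw [pow_succ]
    have := ih.mul h
    rwa [← Nat.cast_succ] at this

theorem regAt_inv {q : Fin 3 → ℂ} {b : MvPolynomial (Fin 3) ℂ} (hb : eval q b ≠ 0) :
    RegAt q (fr b)⁻¹ := by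
  apply RegAt.of_mul hb
  have h1 : fr b ≠ 0 := by
    apply fr_ne_zero
    rintro rfl
    exact hb (map_zero _)
  rw [inv_mul_cancel₀ h1]
  have := RegAt.fr q 1
  rwa [map_one] at this

theorem sum_sg (b : La) : b = ∑ m ∈ b.coeff.support, sg m (OB.cf m b) :=
  (AddMonoidAlgebra.sum_coeff_single b).symm

theorem regAt_jo {q : Fin 3 → ℂ} {b : La} (h : ∀ i, q i = 0 → Reg i b) : RegAt q (jo b) := by
  rw [sum_sg b, map_sum]
  apply RegAt.sum
  intro m hm
  have hm' : OB.cf m b ≠ 0 := Finsupp.mem_support_iff.1 hm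
  have hX : ∀ i, RegAt q (fr (X i) ^ (m i)) := by
    intro i
    rcases le_or_gt 0 (m i) with h0 | h0
    · obtain ⟨n, hn⟩ := Int.eq_ofNat_of_zero_le h0
      rw [hn, zpow_natCast, ← map_pow]
      exact RegAt.fr q _
    · have hq : q i ≠ 0 := fun hq => absurd (h i hq m hm') (not_le.2 h0)
      obtain ⟨n, hn⟩ : ∃ n : ℕ, m i = -n := ⟨(-m i).toNat, by omega⟩
      rw [hn, zpow_neg, zpow_natCast, ← map_pow]
      apply regAt_inv
      rw [map_pow, eval_X]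
      exact pow_ne_zero _ hq
  rw [jo_sg, Algebra.smul_def, Fin.prod_univ_three]
  exact (RegAt.const q _).mul (((hX 0).mul (hX 1)).mul (hX 2))

theorem fr_X_pow (i : Fin 3) (N : ℕ) : fr (X i ^ N) = jo (sg (N • ex i) 1) := by
  rw [← jo_io, map_pow, OB.io_X, OB.sg_pow, one_pow]

theorem jo_sg_mul (i : Fin 3) (N : ℕ) : jo (sg (-(N • ex i)) 1) * fr (X i ^ N) = 1 := by
  rw [fr_X_pow, ← map_mul, OB.sg_mul_sg, neg_add_cancel, one_mul, ← OB.one_eq_sg, map_one]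

end ApxAux

/-- Inverse of a homogeneous polynomial `e` with `e(1, 0, 0) ≠ 0` up to high weight. -/
theorem exists_inv {e : MvPolynomial (Fin 3) ℂ} {k : ℕ} (he : e.IsHomogeneous k)
    (he0 : eval (Pi.single 0 1) e ≠ 0) (L : ℕ) :
    ∃ E : La, Reg 1 E ∧ Reg 2 E ∧ Hm td (-k) E ∧ Ge (OB.wt 0) L (io e * E - 1) := by
  obtain ⟨c, hc⟩ : ∃ c, c = eval (Pi.single 0 1) e := ⟨_, rfl⟩
  obtain ⟨u, hu⟩ : ∃ u : La, u = sg (-(k • ex 0)) c⁻¹ := ⟨_, rfl⟩
  obtain ⟨r, hr⟩ : ∃ r : La, r = 1 - io e * u := ⟨_, rfl⟩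
  have hu1 : Hm td (-k) u := by
    rw [hu]
    exact OB.Hm.sg (by rw [map_neg, map_nsmul, OB.td_ex]; simp) _
  have hu2 : Reg 1 u := by
    rw [hu]
    exact OB.Reg.sg (by simp [OB.ex]) _
  have hu3 : Reg 2 u := by
    rw [hu]
    exact OB.Reg.sg (by simp [OB.ex]) _
  have hr1 : Reg 1 r := by
    rw [hr]
    exact (ApxAux.reg_one 1).sub ((OB.Reg.io 1 e).mul hu2)
  have hr2 : Reg 2 r := by
    rw [hr]
    exact (ApxAux.reg_one 2).sub ((OB.Reg.io 2 e).mul hu3)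
  have hr3 : Hm td 0 r := by
    rw [hr]
    have := (OB.hm_io he).mul hu1
    rw [add_neg_cancel] at this
    exact ApxAux.hm_one.sub this
  have hr4 : Ge (OB.wt 0) 1 r := by
    intro m hm
    by_contra hcon
    have h1 : 0 ≤ m 1 := hr1 m hm
    have h2 : 0 ≤ m 2 := hr2 m hm
    have h3 : ¬ (1 ≤ m 1 + m 2) := hcon
    have h4 : m 0 + m 1 + m 2 = 0 := hr3 m hm
    have h5 : m = 0 := by
      funext i
      fin_cases i
      · show m 0 = 0
        omega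
      · show m 1 = 0
        omega
      · show m 2 = 0
        omega
    apply hm
    have h6 : (0 : Fin 3 → ℤ) - -(k • ex 0) = OB.toZ (Finsupp.single 0 k) := by
      funext i
      fin_cases i <;> simp [OB.ex, OB.toZ]
    have h7 : OB.cf 0 (1 : La) = 1 := by
      rw [OB.one_eq_sg, OB.cf_sg, if_pos rfl]
    rw [hr, h5, map_sub, h7, mul_comm, hu, OB.cf_sg_mul, h6, OB.cf_io,
      ApxAux.coeff_single_eq he, ← hc, inv_mul_cancel₀ (by rw [hc]; exact he0), sub_self]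
  refine ⟨u * ∑ j ∈ Finset.range L, r ^ j, ?_, ?_, ?_, ?_⟩
  · exact hu2.mul (OB.Reg.sum fun j _ => ApxAux.reg_pow hr1 j)
  · exact hu3.mul (OB.Reg.sum fun j _ => ApxAux.reg_pow hr2 j)
  · have := hu1.mul (OB.Hm.sum (s := Finset.range L) (g := fun j => r ^ j)
      fun j _ => ApxAux.hm_pow hr3 j)
    rwa [add_zero] at this
  · have h1 : io e * (u * ∑ j ∈ Finset.range L, r ^ j) - 1 = - r ^ L := by
      have h2 := mul_neg_geom_sum r L
      have h3 : io e * u = 1 - r := by rw [hr]; ring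
      rw [← mul_assoc, h3, h2]
      ring
    rw [h1]
    exact (ApxAux.ge_pow hr4 L).neg

namespace ApxAux

theorem approx {e : MvPolynomial (Fin 3) ℂ} {k : ℕ} (he : e.IsHomogeneous k)
    (he0 : eval (Pi.single 0 1) e ≠ 0) {w : Kf} {κ : ℤ} (hw : Hk κ w) (i : Fin 3)
    (hi : OB.wt 0 (ex i) = 1)
    (hr : ∀ q, eval q (X i * e) ≠ 0 → RegAt q w) (L : ℕ) :
    ∃ a : La, (∀ j, j ≠ 0 → j ≠ i → Reg j a) ∧ Hm td κ a ∧ OgK L (w - jo a) := by
  obtain ⟨N, a, ha⟩ := exists_pow hr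
  have heN : (e ^ N).IsHomogeneous (k * N) := he.pow N
  have heN0 : eval (Pi.single 0 1) (e ^ N) ≠ 0 := by
    rw [map_pow]
    exact pow_ne_zero _ he0
  have heN1 : fr (e ^ N) ≠ 0 := by
    apply fr_ne_zero
    intro h
    rw [h, map_zero] at heN0
    exact heN0 rfl
  obtain ⟨E, hE1, hE2, hE3, hE4⟩ := exists_inv heN heN0 (L + N)
  have haH : Hm td (κ + ((1 + k) * N : ℕ)) (io a) := by
    apply hm_of_hk_jo
    rw [jo_io, ← ha]
    exact hw.mul (Hk.fr (((isHomogeneous_X ℂ i).mul he).pow N))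
  have haG : Ge (OB.wt 0) 0 (io a) := by
    intro m hm
    have h1 : 0 ≤ m 1 := OB.Reg.io 1 a m hm
    have h2 : 0 ≤ m 2 := OB.Reg.io 2 a m hm
    show 0 ≤ m 1 + m 2
    omega
  refine ⟨io a * E * sg (-(N • ex i)) 1, ?_, ?_, ?_⟩
  · intro j hj hji
    have h1 : Reg j E := by
      fin_cases j
      · exact absurd rfl hj
      · exact hE1
      · exact hE2
    refine ((OB.Reg.io j a).mul h1).mul (OB.Reg.sg ?_ _)
    rw [Pi.neg_apply, Pi.smul_apply, OB.ex_ne hji]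
    simp
  · have h1 : Hm td (-(N : ℤ)) (sg (-(N • ex i)) 1) :=
      OB.Hm.sg (by rw [map_neg, map_nsmul, OB.td_ex]; simp) _
    have h2 := (haH.mul hE3).mul h1
    have h3 : κ + ((1 + k) * N : ℕ) + -((k * N : ℕ) : ℤ) + -(N : ℤ) = κ := by
      push_cast
      ring
    rwa [h3] at h2
  · have e1 : w = fr a * jo (sg (-(N • ex i)) 1) * (fr (e ^ N))⁻¹ := by
      have h1 := jo_sg_mul i N
      rw [← ha, mul_pow, map_mul]
      calc w = w * (jo (sg (-(N • ex i)) 1) * fr (X i ^ N)) * (fr (e ^ N) * (fr (e ^ N))⁻¹) := by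
            rw [h1, mul_inv_cancel₀ heN1, mul_one, mul_one]
        _ = _ := by ring
    have e2 : w - jo (io a * E * sg (-(N • ex i)) 1) =
        jo (io a * sg (-(N • ex i)) 1) * (fr (e ^ N))⁻¹ * -jo (io (e ^ N) * E - 1) := by
      have h2 : jo (io (e ^ N) * E - 1) = fr (e ^ N) * jo E - 1 := by
        rw [map_sub, map_mul, jo_io, map_one]
      rw [h2, map_mul, map_mul, map_mul, jo_io]
      have h3 : (fr (e ^ N))⁻¹ * -(fr (e ^ N) * jo E - 1) = (fr (e ^ N))⁻¹ - jo E := by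
        field_simp
        ring
      rw [mul_assoc _ (fr (e ^ N))⁻¹, h3]
      conv_lhs => rw [e1]
      ring
    rw [e2]
    have h4 : Ge (OB.wt 0) (-(N : ℤ)) (io a * sg (-(N • ex i)) 1) := by
      have h5 : Ge (OB.wt 0) (-(N : ℤ)) (sg (-(N • ex i)) 1) :=
        OB.Ge.sg (by rw [map_neg, map_nsmul, hi]; simp) _
      have := haG.mul h5
      rwa [zero_add] at this
    have h6 := ((ogK_jo_iff.2 h4).mul (ogK_inv heN heN0)).mul (ogK_jo_iff.2 hE4).neg
    exact h6.mono (by push_cast; omega)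

end ApxAux

/-- Approximation of functions with poles along `x_1 = 0` and `e = 0`. -/
theorem approx₁ {e : MvPolynomial (Fin 3) ℂ} {k : ℕ} (he : e.IsHomogeneous k)
    (he0 : eval (Pi.single 0 1) e ≠ 0) {w : Kf} {κ : ℤ} (hw : Hk κ w)
    (hr : ∀ q, eval q (X 1 * e) ≠ 0 → RegAt q w) (L : ℕ) :
    ∃ a : La, Reg 2 a ∧ Hm td κ a ∧ OgK L (w - jo a) := by
  obtain ⟨a, h1, h2, h3⟩ := ApxAux.approx he he0 hw 1 (OB.wt_ex_one 0) hr L
  exact ⟨a, h1 2 (by decide) (by decide), h2, h3⟩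

/-- Approximation of functions with poles along `x_2 = 0` and `e = 0`. -/
theorem approx₂ {e : MvPolynomial (Fin 3) ℂ} {k : ℕ} (he : e.IsHomogeneous k)
    (he0 : eval (Pi.single 0 1) e ≠ 0) {w : Kf} {κ : ℤ} (hw : Hk κ w)
    (hr : ∀ q, eval q (X 2 * e) ≠ 0 → RegAt q w) (L : ℕ) :
    ∃ a : La, Reg 1 a ∧ Hm td κ a ∧ OgK L (w - jo a) := by
  obtain ⟨a, h1, h2, h3⟩ := ApxAux.approx he he0 hw 2 (OB.wt_ex_two 0) hr L
  exact ⟨a, h1 1 (by decide) (by decide), h2, h3⟩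

/-- Functions with poles along `x_1 x_2 e = 0` are sums of a function with poles along `x_1 e = 0`,
one with poles along `x_2 e = 0` and a Laurent polynomial with negative exponents of `x_1` and
`x_2`. -/
theorem split {e : MvPolynomial (Fin 3) ℂ} {k : ℕ} (he : e.IsHomogeneous k)
    (he0 : eval (Pi.single 0 1) e ≠ 0) (hx : X 0 ∣ e) {g : Kf} {κ : ℤ} (hg : Hk κ g)
    (hr : ∀ q, eval q (X 1 * X 2 * e) ≠ 0 → RegAt q g) :
    ∃ (γ₁ γ₂ : Kf) (a : La), g = γ₁ - γ₂ + jo a ∧ Hk κ γ₁ ∧ Hk κ γ₂ ∧ Hm td κ a ∧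
      (∀ q, eval q (X 1 * e) ≠ 0 → RegAt q γ₁) ∧ (∀ q, eval q (X 2 * e) ≠ 0 → RegAt q γ₂) ∧
      ∀ m, OB.cf m a ≠ 0 → m 1 < 0 ∧ m 2 < 0 := by
  classical
  obtain ⟨N, a, ha⟩ := exists_pow hr
  have heN : (e ^ N).IsHomogeneous (k * N) := he.pow N
  have heN0 : eval (Pi.single 0 1) (e ^ N) ≠ 0 := by
    rw [map_pow]
    exact pow_ne_zero _ he0
  have heN1 : fr (e ^ N) ≠ 0 := by
    apply fr_ne_zero
    intro h
    rw [h, map_zero] at heN0
    exact heN0 rfl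
  obtain ⟨E, hE1, hE2, hE3, hE4⟩ := exists_inv heN heN0 (2 * N)
  obtain ⟨R, hR⟩ : ∃ R : La, R = io (e ^ N) * E - 1 := ⟨_, rfl⟩
  obtain ⟨S, hS⟩ : ∃ S : La, S = sg (-(N • ex 1)) 1 * sg (-(N • ex 2)) 1 := ⟨_, rfl⟩
  have haH : Hk (κ + ((1 + 1 + k) * N : ℕ)) (fr a) := by
    rw [← ha]
    exact hg.mul (Hk.fr ((((isHomogeneous_X ℂ 1).mul (isHomogeneous_X ℂ 2)).mul he).pow N))
  have haH' : Hm td (κ + ((1 + 1 + k) * N : ℕ)) (io a) := by
    apply hm_of_hk_jo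
    rwa [jo_io]
  have hSH : Hm td (-(N : ℤ) + -(N : ℤ)) S := by
    rw [hS]
    refine OB.Hm.mul (OB.Hm.sg ?_ _) (OB.Hm.sg ?_ _)
    · rw [map_neg, map_nsmul, OB.td_ex]; simp
    · rw [map_neg, map_nsmul, OB.td_ex]; simp
  have hSS : S = sg (-(N • ex 1) + -(N • ex 2)) 1 := by
    rw [hS, OB.sg_mul_sg, one_mul]
  have hSm : ∀ (b : La) (m : Fin 3 → ℤ), OB.cf m (b * S) ≠ 0 →
      ∃ m', OB.cf m' b ≠ 0 ∧ m 0 = m' 0 ∧ m 1 = m' 1 - N ∧ m 2 = m' 2 - N := by
    intro b m hm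
    rw [mul_comm, hSS, OB.cf_sg_mul] at hm
    refine ⟨_, right_ne_zero_of_mul hm, ?_, ?_, ?_⟩
    · simp [OB.ex]
    · simp [OB.ex]
    · simp [OB.ex]
  have hRH : Hm td 0 R := by
    rw [hR]
    have := (OB.hm_io heN).mul hE3
    rw [add_neg_cancel] at this
    exact this.sub ApxAux.hm_one
  have hR1 : Reg 1 R := by
    rw [hR]
    exact ((OB.Reg.io 1 _).mul hE1).sub (ApxAux.reg_one 1)
  have hR2 : Reg 2 R := by
    rw [hR]
    exact ((OB.Reg.io 2 _).mul hE2).sub (ApxAux.reg_one 2)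
  have hR3 : Ge (OB.wt 0) (2 * N : ℕ) R := by
    rw [hR]
    exact hE4
  have hX0 : ∀ q : Fin 3 → ℂ, eval q e ≠ 0 → q 0 ≠ 0 := by
    intro q hq h0
    obtain ⟨e', he'⟩ := hx
    apply hq
    rw [he', map_mul, eval_X, h0, zero_mul]
  -- splitting by `cpt`
  have hsum : ∀ (P : (Fin 3 → ℤ) → Prop) (b : La), OB.cpt P b + OB.cpt (fun m => ¬ P m) b = b := by
    intro P b
    apply OB.La.ext'
    intro m
    rw [map_add]
    by_cases h : P m
    · rw [OB.cf_cpt_pos h, OB.cf_cpt_neg (P := fun m => ¬ P m) (not_not.2 h), add_zero]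
    · rw [OB.cf_cpt_neg h, OB.cf_cpt_pos (P := fun m => ¬ P m) h, zero_add]
  have hcpt : ∀ (P : (Fin 3 → ℤ) → Prop) (b : La) (m : Fin 3 → ℤ), OB.cf m (OB.cpt P b) ≠ 0 →
      P m ∧ OB.cf m b ≠ 0 := by
    intro P b m hm
    by_cases h : P m
    · rw [OB.cf_cpt_pos h] at hm
      exact ⟨h, hm⟩
    · rw [OB.cf_cpt_neg h] at hm
      exact absurd rfl hm
  obtain ⟨R₁, hR₁⟩ : ∃ R₁ : La, R₁ = OB.cpt (fun m => (N : ℤ) ≤ m 1) R := ⟨_, rfl⟩
  obtain ⟨R₂, hR₂⟩ : ∃ R₂ : La, R₂ = OB.cpt (fun m => ¬ (N : ℤ) ≤ m 1) R := ⟨_, rfl⟩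
  have hRR : R₁ + R₂ = R := by rw [hR₁, hR₂]; exact hsum _ _
  obtain ⟨A, hA⟩ : ∃ A : La, A = io a * E * S := ⟨_, rfl⟩
  have hAH : Hm td κ A := by
    have h1 := (haH'.mul hE3).mul hSH
    have h3 : κ + ((1 + 1 + k) * N : ℕ) + -((k * N : ℕ) : ℤ) + (-(N : ℤ) + -(N : ℤ)) = κ := by
      push_cast
      ring
    rw [h3, ← hA] at h1
    exact h1
  obtain ⟨A₁, hA₁⟩ : ∃ A₁ : La, A₁ = OB.cpt (fun m => 0 ≤ m 2) A := ⟨_, rfl⟩
  obtain ⟨A', hA'⟩ : ∃ A' : La, A' = OB.cpt (fun m => ¬ 0 ≤ m 2) A := ⟨_, rfl⟩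
  obtain ⟨A₂, hA₂⟩ : ∃ A₂ : La, A₂ = OB.cpt (fun m => 0 ≤ m 1) A' := ⟨_, rfl⟩
  obtain ⟨A₃, hA₃⟩ : ∃ A₃ : La, A₃ = OB.cpt (fun m => ¬ 0 ≤ m 1) A' := ⟨_, rfl⟩
  have hAA : A₁ + (A₂ + A₃) = A := by
    have h1 : A₂ + A₃ = A' := by rw [hA₂, hA₃]; exact hsum _ _
    rw [h1, hA₁, hA']
    exact hsum _ _
  have hA'H : Hm td κ A' := by rw [hA']; exact hAH.cpt _
  have hA₁H : Hm td κ A₁ := by rw [hA₁]; exact hAH.cpt _
  have hA₂H : Hm td κ A₂ := by rw [hA₂]; exact hA'H.cpt _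
  have hA₃H : Hm td κ A₃ := by rw [hA₃]; exact hA'H.cpt _
  -- the error terms
  have hP : ∀ b : La, Hm td 0 b → Hk κ (fr a * jo (b * S) * (fr (e ^ N))⁻¹) := by
    intro b hb
    have h1 := (haH.mul (hk_jo (hb.mul hSH))).mul (Hk.fr heN).inv
    have h3 : κ + ((1 + 1 + k) * N : ℕ) + (0 + (-(N : ℤ) + -(N : ℤ))) + -((k * N : ℕ) : ℤ) = κ := by
      push_cast
      ring
    rwa [h3] at h1
  have hR₁H : Hm td 0 R₁ := by rw [hR₁]; exact hRH.cpt _
  have hR₂H : Hm td 0 R₂ := by rw [hR₂]; exact hRH.cpt _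
  refine ⟨jo A₁ - fr a * jo (R₂ * S) * (fr (e ^ N))⁻¹, fr a * jo (R₁ * S) * (fr (e ^ N))⁻¹ - jo A₂,
    A₃, ?_, (hk_jo hA₁H).sub (hP _ hR₂H), (hP _ hR₁H).sub (hk_jo hA₂H), hA₃H, ?_, ?_, ?_⟩
  · -- the identity
    have e1 : g = fr a * jo S * (fr (e ^ N))⁻¹ := by
      have h1 := ApxAux.jo_sg_mul 1 N
      have h2 := ApxAux.jo_sg_mul 2 N
      rw [← ha, mul_pow, mul_pow, map_mul, map_mul, hS, map_mul]
      calc g = g * (jo (sg (-(N • ex 1)) 1) * fr (X 1 ^ N)) *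
            (jo (sg (-(N • ex 2)) 1) * fr (X 2 ^ N)) * (fr (e ^ N) * (fr (e ^ N))⁻¹) := by
            rw [h1, h2, mul_inv_cancel₀ heN1, mul_one, mul_one, mul_one]
        _ = _ := by ring
    have e2 : (fr (e ^ N))⁻¹ = jo E - jo R * (fr (e ^ N))⁻¹ := by
      have h2 : jo R = fr (e ^ N) * jo E - 1 := by
        rw [hR, map_sub, map_mul, jo_io, map_one]
      rw [h2]
      field_simp
      ring
    have e3 : jo A = fr a * jo E * jo S := by
      rw [hA, map_mul, map_mul, jo_io]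
    have e4 : jo A = jo A₁ + (jo A₂ + jo A₃) := by
      rw [← hAA, map_add, map_add]
    have e5 : jo R = jo R₁ + jo R₂ := by
      rw [← hRR, map_add]
    have e6 : g = fr a * jo S * (jo E - jo R * (fr (e ^ N))⁻¹) := by
      rw [← e2]
      exact e1
    rw [map_mul, map_mul]
    calc g = fr a * jo S * (jo E - jo R * (fr (e ^ N))⁻¹) := e6
      _ = jo A - fr a * jo S * jo R * (fr (e ^ N))⁻¹ := by rw [e3]; ring
      _ = _ := by rw [e4, e5]; ring
  · intro q hq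
    rw [map_mul, eval_X] at hq
    have hq1 := left_ne_zero_of_mul hq
    have hqe := right_ne_zero_of_mul hq
    have hq0 := hX0 q hqe
    refine RegAt.sub (ApxAux.regAt_jo ?_) (((RegAt.fr q a).mul (ApxAux.regAt_jo ?_)).mul
      (ApxAux.regAt_inv (by rw [map_pow]; exact pow_ne_zero _ hqe)))
    · intro i hi m hm
      rw [hA₁] at hm
      have h1 := (hcpt _ _ _ hm).1
      fin_cases i
      · exact absurd hi hq0
      · exact absurd hi hq1
      · exact h1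
    · intro i hi m hm
      obtain ⟨m', hm', h0, h1, h2⟩ := hSm _ _ hm
      rw [hR₂] at hm'
      obtain ⟨h3, h4⟩ := hcpt _ _ _ hm'
      have h5 : ((2 * N : ℕ) : ℤ) ≤ m' 1 + m' 2 := hR3 m' h4
      fin_cases i
      · exact absurd hi hq0
      · exact absurd hi hq1
      · show 0 ≤ m 2
        push_cast at h5
        omega
  · intro q hq
    rw [map_mul, eval_X] at hq
    have hq2 := left_ne_zero_of_mul hq
    have hqe := right_ne_zero_of_mul hq
    have hq0 := hX0 q hqe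
    refine RegAt.sub (((RegAt.fr q a).mul (ApxAux.regAt_jo ?_)).mul
      (ApxAux.regAt_inv (by rw [map_pow]; exact pow_ne_zero _ hqe))) (ApxAux.regAt_jo ?_)
    · intro i hi m hm
      obtain ⟨m', hm', h0, h1, h2⟩ := hSm _ _ hm
      rw [hR₁] at hm'
      obtain ⟨h3, h4⟩ := hcpt _ _ _ hm'
      fin_cases i
      · exact absurd hi hq0
      · show 0 ≤ m 1
        omega
      · exact absurd hi hq2
    · intro i hi m hm
      rw [hA₂] at hm
      have h1 := (hcpt _ _ _ hm).1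
      fin_cases i
      · exact absurd hi hq0
      · exact h1
      · exact absurd hi hq2
  · intro m hm
    rw [hA₃] at hm
    obtain ⟨h1, h2⟩ := hcpt _ _ _ hm
    rw [hA'] at h2
    have h3 := (hcpt _ _ _ h2).1
    exact ⟨not_le.1 h1, not_le.1 h3⟩

end MPb07157.OK
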