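import Pool.Agent.Lib.MP_b07157_agB2.Rg

/-!
# Brackets of rational functions
-/

noncomputable section

namespace MPb07157.OK

open MvPolynomial

/-- The bracket with respect to the last two variables. -/
def bk (u w : Kf) : Kf := DK 1 u * DK 2 w - DK 2 u * DK 1 w

/-- The alternating trilinear form. -/
def tri (x y z : Kf) : Kf := x * bk y z + y * bk z x + z * bk x y

theorem bk_self (u : Kf) : bk u u = 0 := by unfold bk; ring

theorem bk_swap (u w : Kf) : bk u w = - bk w u := by unfold bk; ring

theorem bk_add (u w w' : Kf) : bk u (w + w') = bk u w + bk u w' := by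
  unfold bk; rw [map_add, map_add]; ring

theorem bk_add' (u u' w : Kf) : bk (u + u') w = bk u w + bk u' w := by
  unfold bk; rw [map_add, map_add]; ring

theorem bk_mul (u w w' : Kf) : bk u (w * w') = w * bk u w' + w' * bk u w := by
  unfold bk; rw [DK_mul, DK_mul]; ring

theorem bk_mul' (u u' w : Kf) : bk (u * u') w = u * bk u' w + u' * bk u w := by
  unfold bk; rw [DK_mul, DK_mul]; ring

theorem bk_const (u : Kf) (c : ℂ) : bk u (algebraMap ℂ Kf c) = 0 := by
  unfold bk; rw [Derivation.map_algebraMap, Derivation.map_algebraMap]; ring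

theorem bk_const' (u : Kf) (c : ℂ) : bk (algebraMap ℂ Kf c) u = 0 := by
  rw [bk_swap, bk_const, neg_zero]

/-- The bracket of quotients. -/
theorem tri_div {x y z : Kf} (hx : x ≠ 0) : x ^ 3 * bk (y / x) (z / x) = tri x y z := by
  obtain ⟨u, hu⟩ : ∃ u, u * x = y := ⟨y / x, div_mul_cancel₀ _ hx⟩
  obtain ⟨w, hw⟩ : ∃ w, w * x = z := ⟨z / x, div_mul_cancel₀ _ hx⟩
  rw [← hu, ← hw, mul_div_cancel_right₀ _ hx, mul_div_cancel_right₀ _ hx]
  unfold tri bk
  simp only [DK_mul]
  ring

theorem tri_zero (y z : Kf) : tri 0 y z = 0 := by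
  unfold tri bk
  simp

end MPb07157.OK
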