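import Pool.Agent.Lib.MP_b07157_agB2.OpA
import Pool.Agent.Lib.MP_b07157_agB2.RgA
import Pool.Agent.Lib.MP_b07157_agB2.RgB
import Pool.Agent.Lib.MP_b07157_agQ.LT2

/-!
# Comparison of two decompositions
-/

noncomputable section

namespace MPb07157.OK

open MvPolynomial MPb07157Q
open MPb07157.OB (Dat Vert sum3 f3a f3b f3c f3d f3n1 f3n2 f3n3 f3cases)

variable {f P : MvPolynomial (Fin 3) ℂ} {v : Fin 3 → MvPolynomial (Fin 3) ℂ} {d n r : ℕ}
  {b : Fin r → Fin 3 → ℂ}

namespace CmpKAux

/-- The ring homomorphism from polynomials to rational functions. -/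
abbrev frr : MvPolynomial (Fin 3) ℂ →+* Kf := (fr : MvPolynomial (Fin 3) ℂ →ₐ[ℂ] Kf).toRingHom

theorem frr_apply (p : MvPolynomial (Fin 3) ℂ) : frr p = fr p := rfl

theorem frr_injective : Function.Injective frr := fr_injective

theorem common_den (q : Fin 3 → ℂ) (s : Finset Kf) (hs : ∀ g ∈ s, RegAt q g) :
    ∃ D : MvPolynomial (Fin 3) ℂ, eval q D ≠ 0 ∧ ∀ g ∈ s, ∃ a, g * fr D = fr a := by
  classical
  induction s using Finset.induction_on with
  | empty => exact ⟨1, by simp, by simp⟩
  | insert g s hg ih =>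
    obtain ⟨D, hD, h⟩ := ih fun g hg => hs g (Finset.mem_insert_of_mem hg)
    obtain ⟨a, c, hc, e⟩ := hs g (Finset.mem_insert_self _ _)
    refine ⟨D * c, by rw [map_mul]; exact mul_ne_zero hD hc, fun g' hg' => ?_⟩
    rcases Finset.mem_insert.1 hg' with h1 | h1
    · refine ⟨a * D, ?_⟩
      rw [h1, map_mul, map_mul, ← e]
      ring
    · obtain ⟨a', ha'⟩ := h g' h1
      refine ⟨a' * c, ?_⟩
      rw [map_mul, map_mul, ← ha']
      ring

/-- Clearing denominators. -/
theorem exists_clearK {q : Fin 3 → ℂ} {W : Fin 3 → MvPolynomial (Fin 3) Kf}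
    (hW : ∀ i, RegP q (W i)) : ∃ D : MvPolynomial (Fin 3) ℂ, eval q D ≠ 0 ∧
      ∀ i, ∃ G' : MvPolynomial (Fin 3) (MvPolynomial (Fin 3) ℂ), C (fr D) * W i = map frr G' := by
  classical
  obtain ⟨D, hD, h⟩ := common_den q
    (Finset.univ.biUnion fun i : Fin 3 => (W i).support.image fun b => coeff b (W i)) (by
      intro g hg
      rw [Finset.mem_biUnion] at hg
      obtain ⟨i, _, hi⟩ := hg
      rw [Finset.mem_image] at hi
      obtain ⟨b, _, rfl⟩ := hi
      exact hW i b)
  refine ⟨D, hD, fun i => ?_⟩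
  have h1 : ∀ b, ∃ a, coeff b (W i) * fr D = fr a := by
    intro b
    by_cases hb : b ∈ (W i).support
    · apply h
      rw [Finset.mem_biUnion]
      exact ⟨i, Finset.mem_univ _, Finset.mem_image_of_mem _ hb⟩
    · exact ⟨0, by rw [notMem_support_iff.1 hb, zero_mul, map_zero]⟩
  choose a ha using h1
  refine ⟨∑ b ∈ (W i).support, monomial b (a b), ?_⟩
  refine MvPolynomial.ext _ _ fun b => ?_
  rw [coeff_C_mul, mul_comm, ha, coeff_map, coeff_sum]
  simp only [coeff_monomial]
  rw [Finset.sum_ite_eq' (W i).support b]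
  split_ifs with hb
  · rfl
  · have h2 := ha b
    rw [notMem_support_iff.1 hb, zero_mul] at h2
    rw [← h2, map_zero]

theorem map_crs (v : Fin 3 → MvPolynomial (Fin 3) ℂ) (i : Fin 3) :
    map frr (crs v i) = crs (fun k => fr (v k)) i := by
  fin_cases i
  · show map frr (C (v 1) * X 2 - C (v 2) * X 1) = C (fr (v 1)) * X 2 - C (fr (v 2)) * X 1
    rw [map_sub, map_mul, map_mul, map_C, map_C, map_X, map_X]
    rfl
  · show map frr (C (v 2) * X 0 - C (v 0) * X 2) = C (fr (v 2)) * X 0 - C (fr (v 0)) * X 2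
    rw [map_sub, map_mul, map_mul, map_C, map_C, map_X, map_X]
    rfl
  · show map frr (C (v 0) * X 1 - C (v 1) * X 0) = C (fr (v 0)) * X 1 - C (fr (v 1)) * X 0
    rw [map_sub, map_mul, map_mul, map_C, map_C, map_X, map_X]
    rfl

/-! ### Homogeneous components -/

theorem hc_ext {N : ℕ} {p q : MvPolynomial (Fin 3) Kf}
    (h : ∀ b : Fin 3 →₀ ℕ, b.degree = N → coeff b p = coeff b q) :
    homogeneousComponent N p = homogeneousComponent N q := by
  ext b : 1
  rw [coeff_homogeneousComponent, coeff_homogeneousComponent]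
  split_ifs with h1
  · exact h b h1
  · rfl

theorem hc_X_mul (N : ℕ) (i : Fin 3) (p : MvPolynomial (Fin 3) Kf) :
    homogeneousComponent (N + 1) (X i * p) = X i * homogeneousComponent N p := by
  classical
  ext b : 1
  rw [coeff_homogeneousComponent, coeff_X_mul', coeff_X_mul']
  by_cases hi : i ∈ b.support
  · rw [if_pos hi, if_pos hi, coeff_homogeneousComponent]
    have h1 : b - Finsupp.single i 1 + Finsupp.single i 1 = b := by
      apply tsub_add_cancel_of_le
      rw [Finsupp.single_le_iff]
      exact Nat.one_le_iff_ne_zero.2 (Finsupp.mem_support_iff.1 hi)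
    have h2 : (b - Finsupp.single i 1).degree + 1 = b.degree := by
      conv_rhs => rw [← h1]
      rw [map_add, Finsupp.degree_single]
    by_cases h3 : b.degree = N + 1
    · rw [if_pos h3, if_pos (by omega)]
    · rw [if_neg h3, if_neg (by omega)]
  · rw [if_neg hi, if_neg hi, ite_self]

theorem hc_mul_C (N : ℕ) (a : Kf) (p : MvPolynomial (Fin 3) Kf) :
    homogeneousComponent N (p * C a) = homogeneousComponent N p * C a := by
  rw [mul_comm, homogeneousComponent_C_mul, mul_comm]

theorem hc_mul_crs (N : ℕ) (a : Fin 3 → Kf) (p : MvPolynomial (Fin 3) Kf) (i : Fin 3) :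
    homogeneousComponent (N + 1) (p * crs a i) = homogeneousComponent N p * crs a i := by
  have h1 : ∀ (x y : Kf) (j k : Fin 3),
      homogeneousComponent (N + 1) (p * (C x * X j - C y * X k)) =
        homogeneousComponent N p * (C x * X j - C y * X k) := by
    intro x y j k
    have e : p * (C x * X j - C y * X k) = C x * (X j * p) - C y * (X k * p) := by ring
    rw [e, map_sub, homogeneousComponent_C_mul, homogeneousComponent_C_mul, hc_X_mul, hc_X_mul]
    ring
  fin_cases i
  · exact h1 _ _ _ _
  · exact h1 _ _ _ _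
  · exact h1 _ _ _ _

theorem hc_dC {N : ℕ} {T : MvPolynomial (Fin 3) Kf}
    (h : ∀ b : Fin 3 →₀ ℕ, b.degree = N → coeff b T = 0) (i : Fin 3) :
    homogeneousComponent N (dC i T) = 0 := by
  rw [hc_ext (q := 0), map_zero]
  intro b hb
  rw [coeff_dC, h b hb, map_zero, coeff_zero]

theorem dC_add (i : Fin 3) (S T : MvPolynomial (Fin 3) Kf) : dC i (S + T) = dC i S + dC i T := by
  ext b : 1
  rw [coeff_dC, coeff_add, coeff_add, coeff_dC, coeff_dC, map_add]

theorem dC_sub (i : Fin 3) (S T : MvPolynomial (Fin 3) Kf) : dC i (S - T) = dC i S - dC i T := by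
  ext b : 1
  rw [coeff_dC, coeff_sub, coeff_sub, coeff_dC, coeff_dC, map_sub]

theorem nab_add (i : Fin 3) (S T : MvPolynomial (Fin 3) Kf) :
    nab i (S + T) = nab i S + nab i T := by
  unfold nab
  rw [dC_add]
  ring

theorem nab_sub (i : Fin 3) (S T : MvPolynomial (Fin 3) Kf) :
    nab i (S - T) = nab i S - nab i T := by
  unfold nab
  rw [dC_sub]
  ring

theorem cur_sub (S T : Fin 3 → MvPolynomial (Fin 3) Kf) (i : Fin 3) :
    cur (fun j => S j - T j) i = cur S i - cur T i := by
  unfold cur
  rw [nab_sub, nab_sub]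
  ring

theorem dvg_add (S T : Fin 3 → MvPolynomial (Fin 3) Kf) :
    dvg (fun j => S j + T j) = dvg S + dvg T := by
  unfold dvg
  rw [← Finset.sum_add_distrib]
  exact Finset.sum_congr rfl fun i _ => nab_add _ _ _

theorem hc_nab {N : ℕ} {U : MvPolynomial (Fin 3) Kf}
    (h : ∀ b : Fin 3 →₀ ℕ, b.degree = N + 1 → coeff b U = 0) (i : Fin 3) (a : Kf) :
    homogeneousComponent (N + 1) (nab i (U * C a)) = X i * homogeneousComponent N U * C a := by
  unfold nab
  rw [map_sub, hc_X_mul, hc_mul_C, hc_dC, sub_zero, mul_assoc]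
  intro b hb
  rw [mul_comm, coeff_C_mul, h b hb, mul_zero]

/-- The top part of a curl. -/
theorem hc_cur {N : ℕ} {U : MvPolynomial (Fin 3) Kf}
    (h : ∀ b : Fin 3 →₀ ℕ, b.degree = N + 1 → coeff b U = 0) (a : Fin 3 → Kf) (i : Fin 3) :
    homogeneousComponent (N + 1) (cur (fun j => U * C (a j)) i) =
      -(homogeneousComponent N U * crs a i) := by
  unfold cur
  rw [map_sub, hc_nab h, hc_nab h]
  fin_cases i
  · show X 1 * homogeneousComponent N U * C (a 2) - X 2 * homogeneousComponent N U * C (a 1) =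
      -(homogeneousComponent N U * (C (a 1) * X 2 - C (a 2) * X 1))
    ring
  · show X 2 * homogeneousComponent N U * C (a 0) - X 0 * homogeneousComponent N U * C (a 2) =
      -(homogeneousComponent N U * (C (a 2) * X 0 - C (a 0) * X 2))
    ring
  · show X 0 * homogeneousComponent N U * C (a 1) - X 1 * homogeneousComponent N U * C (a 0) =
      -(homogeneousComponent N U * (C (a 0) * X 1 - C (a 1) * X 0))
    ring

theorem coeff_eq_of_hc {N : ℕ} {p q : MvPolynomial (Fin 3) Kf}
    (h : homogeneousComponent N p = homogeneousComponent N q) {b : Fin 3 →₀ ℕ}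
    (hb : b.degree = N) : coeff b p = coeff b q := by
  have h1 := congrArg (coeff b) h
  rwa [coeff_homogeneousComponent, coeff_homogeneousComponent, if_pos hb, if_pos hb] at h1

theorem sum_v (h : Dat f P v d n) {w : Fin 3 → MvPolynomial (Fin 3) Kf}
    (hw : ∑ k, w k * C (DK k (fr f)) = 0) : ∑ k, w k * C (fr (v k)) = 0 := by
  have h1 : C (fr f) * ∑ k, w k * C (fr (v k)) = 0 := by
    have h2 : C (fr f) * ∑ k, w k * C (fr (v k)) = C (fr P) * ∑ k, w k * C (DK k (fr f)) := by
      rw [Finset.mul_sum, Finset.mul_sum]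
      refine Finset.sum_congr rfl fun k _ => ?_
      have h3 : (C (fr f) * C (fr (v k)) : MvPolynomial (Fin 3) Kf) =
          C (fr P) * C (DK k (fr f)) := by
        rw [← C_mul, ← C_mul, ← map_mul, ← h.rel k, map_mul, DK_fr]
      linear_combination w k * h3
    rw [h2, hw, mul_zero]
  rcases mul_eq_zero.1 h1 with h2 | h2
  · exfalso
    apply fr_ne_zero h.f0
    rwa [C_eq_zero] at h2
  · exact h2

/-! ### Regularity -/

theorem rp_zero (q : Fin 3 → ℂ) : RegP q 0 := fun b => by
  rw [coeff_zero]
  exact RegAt.zero q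

theorem rp_add {q : Fin 3 → ℂ} {S T : MvPolynomial (Fin 3) Kf} (hS : RegP q S) (hT : RegP q T) :
    RegP q (S + T) := fun b => by
  rw [coeff_add]
  exact (hS b).add (hT b)

theorem rp_sub {q : Fin 3 → ℂ} {S T : MvPolynomial (Fin 3) Kf} (hS : RegP q S) (hT : RegP q T) :
    RegP q (S - T) := fun b => by
  rw [coeff_sub]
  exact (hS b).sub (hT b)

theorem rp_hc {q : Fin 3 → ℂ} {S : MvPolynomial (Fin 3) Kf} (hS : RegP q S) (N : ℕ) :
    RegP q (homogeneousComponent N S) := fun b => by
  rw [coeff_homogeneousComponent]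
  split_ifs
  · exact hS b
  · exact RegAt.zero q

theorem rp_mul_fr {q : Fin 3 → ℂ} {S : MvPolynomial (Fin 3) Kf} (hS : RegP q S)
    (p : MvPolynomial (Fin 3) ℂ) : RegP q (S * C (fr p)) := fun b => by
  rw [mul_comm, coeff_C_mul]
  exact (RegAt.fr q p).mul (hS b)

theorem rp_nab {q : Fin 3 → ℂ} {S : MvPolynomial (Fin 3) Kf} (hS : RegP q S) (i : Fin 3) :
    RegP q (OK.nab i S) := fun b => by
  classical
  unfold OK.nab
  rw [coeff_sub, coeff_dC, coeff_X_mul']
  refine RegAt.sub ?_ ((hS b).DK i)
  split_ifs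
  · exact hS _
  · exact RegAt.zero q

theorem rp_cur {q : Fin 3 → ℂ} {S : Fin 3 → MvPolynomial (Fin 3) Kf} (hS : ∀ i, RegP q (S i))
    (i : Fin 3) : RegP q (OK.cur S i) :=
  rp_sub (rp_nab (hS _) _) (rp_nab (hS _) _)

end CmpKAux

open CmpKAux

/-- Over the rational functions: vectors orthogonal to `v` and `ξ` are multiples of `v × ξ`. -/
theorem exists_mul_crsK (h : Dat f P v d n) {q : Fin 3 → ℂ}
    {W : Fin 3 → MvPolynomial (Fin 3) Kf} (hW : ∀ i, RegP q (W i))
    (h1 : ∑ i, W i * C (fr (v i)) = 0) (h2 : ∑ i, W i * X i = 0) :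
    ∃ U, RegP q U ∧ ∀ i, W i = U * crs (fun k => fr (v k)) i := by
  obtain ⟨D, hD, hcl⟩ := exists_clearK hW
  choose W' hW' using hcl
  have hinj : Function.Injective (map (σ := Fin 3) frr) := map_injective _ frr_injective
  have h1' : ∑ i, W' i * C (v i) = 0 := by
    apply hinj
    rw [map_zero, map_sum]
    have e : ∀ i ∈ Finset.univ, map frr (W' i * C (v i)) =
        C (fr D) * (W i * C (fr (v i))) := by
      intro i _
      rw [map_mul, ← hW', map_C, mul_assoc]
      rfl
    rw [Finset.sum_congr rfl e, ← Finset.mul_sum, h1, mul_zero]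
  have h2' : ∑ i, W' i * X i = 0 := by
    apply hinj
    rw [map_zero, map_sum]
    have e : ∀ i ∈ Finset.univ, map frr (W' i * X i) = C (fr D) * (W i * X i) := by
      intro i _
      rw [map_mul, ← hW', map_X, mul_assoc]
    rw [Finset.sum_congr rfl e, ← Finset.mul_sum, h2, mul_zero]
  obtain ⟨U', hU'⟩ := exists_mul_crs h.prim h1' h2'
  have hD0 : fr D ≠ 0 := by
    apply fr_ne_zero
    intro h0
    rw [h0, map_zero] at hD
    exact hD rfl
  refine ⟨C (fr D)⁻¹ * map frr U', fun b => ?_, fun i => ?_⟩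
  · rw [coeff_C_mul, coeff_map]
    apply RegAt.of_mul hD
    have e : (fr D)⁻¹ * frr (coeff b U') * fr D = fr (coeff b U') := by
      rw [mul_right_comm, inv_mul_cancel₀ hD0, one_mul]
      rfl
    rw [e]
    exact RegAt.fr q _
  · have h3 : C (fr D) * W i = map frr U' * crs (fun k => fr (v k)) i := by
      rw [hW', hU', map_mul, map_crs]
    rw [mul_assoc, ← h3, ← mul_assoc, ← C_mul, inv_mul_cancel₀ hD0, C_1, one_mul]

theorem cmpK (h : Dat f P v d n) (q : Fin 3 → ℂ) (M : ℕ) :
    ∀ w : Fin 3 → MvPolynomial (Fin 3) Kf, (∀ k, RegP q (w k)) →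
      (∀ k b, M ≤ b.degree → coeff b (w k) = 0) →
      ∑ k, w k * C (DK k (fr f)) = 0 → dvg w = 0 →
      ∃ U, RegP q U ∧ ∀ k, w k = cur (fun j => U * C (fr (v j))) k := by
  induction M with
  | zero =>
    intro w _ hw _ _
    have h0 : ∀ k, w k = 0 := by
      intro k
      ext b : 1
      rw [hw k b (Nat.zero_le _), coeff_zero]
    refine ⟨0, rp_zero q, fun k => ?_⟩
    have h1 : cur (fun j => (0 : MvPolynomial (Fin 3) Kf) * C (fr (v j))) k = 0 := by
      have h2 := cur_sub (fun _ => 0) (fun _ => 0) k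
      simp only [sub_self, zero_mul] at h2 ⊢
      exact h2
    rw [h0, h1]
  | succ M ih =>
    intro w hr hw hf hd
    have hv := sum_v h hf
    -- the top parts
    have t1 : ∑ k, homogeneousComponent M (w k) * C (fr (v k)) = 0 := by
      have h1 := congrArg (homogeneousComponent M) hv
      rw [map_zero, map_sum] at h1
      rw [← h1]
      exact Finset.sum_congr rfl fun k _ => (hc_mul_C _ _ _).symm
    have t2 : ∑ k, homogeneousComponent M (w k) * X k = 0 := by
      have h1 := congrArg (homogeneousComponent (M + 1)) hd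
      unfold dvg at h1
      rw [map_zero, map_sum] at h1
      rw [← h1]
      refine Finset.sum_congr rfl fun k _ => ?_
      unfold nab
      rw [map_sub, hc_X_mul, hc_dC (fun b hb => hw k b hb.ge), sub_zero, mul_comm]
    obtain ⟨U', hrU', hU'⟩ := exists_mul_crsK h (fun i => rp_hc (hr i) M) t1 t2
    -- the top part is `U'' * crs v`
    have key : ∃ U'' : MvPolynomial (Fin 3) Kf, RegP q U'' ∧
        (∀ k b, M ≤ b.degree →
          coeff b (w k + cur (fun j => U'' * C (fr (v j))) k) = 0) := by
      rcases Nat.eq_zero_or_pos M with h0 | h0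
      · refine ⟨0, rp_zero q, fun k b _ => ?_⟩
        have h1 : cur (fun j => (0 : MvPolynomial (Fin 3) Kf) * C (fr (v j))) k = 0 := by
          have h2 := cur_sub (fun _ => 0) (fun _ => 0) k
          simp only [sub_self, zero_mul] at h2 ⊢
          exact h2
        rw [h1, add_zero]
        rcases Nat.eq_zero_or_pos b.degree with h3 | h3
        · have h4 : b = 0 := (Finsupp.degree_eq_zero_iff b).1 h3
          have h5 := congrArg (coeff b) (hU' k)
          rw [coeff_homogeneousComponent, if_pos (by rw [h3, h0])] at h5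
          rw [h5, h4, ← constantCoeff_eq, map_mul]
          have h6 : constantCoeff (crs (fun k => fr (v k)) k) = 0 := by
            rw [constantCoeff_eq]
            apply coeff_crs_of_ne
            intro l hl
            have h7 := congrArg Finsupp.degree hl
            rw [map_zero, Finsupp.degree_single] at h7
            omega
          rw [h6, mul_zero]
        · exact hw k b (by omega)
      · obtain ⟨M', rfl⟩ := Nat.exists_eq_succ_of_ne_zero h0.ne'
        have hU2 : ∀ k, homogeneousComponent (M' + 1) (w k) =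
            homogeneousComponent M' U' * crs (fun k => fr (v k)) k := by
          intro k
          rw [← hc_mul_crs, ← hU' k, homogeneousComponent_of_mem
            (homogeneousComponent_mem _ _), if_pos rfl]
        set U'' := homogeneousComponent M' U' with hU''
        have hcU : ∀ b : Fin 3 →₀ ℕ, b.degree ≠ M' → coeff b U'' = 0 := by
          intro b hb
          rw [hU'', coeff_homogeneousComponent, if_neg hb]
        have hU3 : homogeneousComponent M' U'' = U'' := by
          rw [hU'', homogeneousComponent_of_mem (homogeneousComponent_mem _ _), if_pos rfl]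
        refine ⟨U'', rp_hc hrU' M', fun k b hb => ?_⟩
        rcases Nat.lt_or_ge (M' + 1) b.degree with h3 | h3
        · -- degree too large
          obtain ⟨N, hN⟩ : ∃ N, b.degree = N + 1 := ⟨b.degree - 1, by omega⟩
          have h4 := hc_cur (N := N) (U := U'') (fun b' hb' => hcU b' (by omega))
            (fun j => fr (v j)) k
          have h5 : homogeneousComponent N U'' = 0 := by
            rw [hc_ext (q := 0), map_zero]
            intro b' hb'
            rw [hcU b' (by omega), coeff_zero]
          rw [h5, zero_mul, neg_zero, ← map_zero (homogeneousComponent (N + 1))] at h4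
          rw [coeff_add, hw k b (by omega), coeff_eq_of_hc h4 hN, coeff_zero, add_zero]
        · have h4 : b.degree = M' + 1 := by omega
          have h5 : homogeneousComponent (M' + 1)
              (w k + cur (fun j => U'' * C (fr (v j))) k) =
              homogeneousComponent (M' + 1) 0 := by
            rw [map_add, hU2, hc_cur (fun b' hb' => hcU b' (by omega)) (fun j => fr (v j)) k,
              hU3, map_zero, add_neg_cancel]
          rw [coeff_eq_of_hc h5 h4, coeff_zero]
    obtain ⟨U'', hr2, hU''⟩ := key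
    obtain ⟨U₁, hr1, hU₁⟩ := ih (fun k => w k + cur (fun j => U'' * C (fr (v j))) k)
      (fun k => rp_add (hr k) (rp_cur (fun j => rp_mul_fr hr2 (v j)) k)) hU''
      (by
        have e : ∑ k, (w k + cur (fun j => U'' * C (fr (v j))) k) * C (DK k (fr f)) =
            ∑ k, w k * C (DK k (fr f)) +
              ∑ k, cur (fun j => U'' * C (fr (v j))) k * C (DK k (fr f)) := by
          rw [← Finset.sum_add_distrib]
          exact Finset.sum_congr rfl fun k _ => add_mul _ _ _
        rw [e, hf, cur_kills h, add_zero])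
      (by
        rw [dvg_add w (cur (fun j => U'' * C (fr (v j)))), hd, zero_add]
        exact dvg_cur _)
    refine ⟨U₁ - U'', rp_sub hr1 hr2, fun k => ?_⟩
    have e : (fun j => (U₁ - U'') * C (fr (v j))) =
        fun j => U₁ * C (fr (v j)) - U'' * C (fr (v j)) := by
      funext j
      ring
    rw [e, cur_sub, ← hU₁ k]
    ring

theorem cur_injK (h : Dat f P v d n) {U : MvPolynomial (Fin 3) Kf}
    (hU : ∀ k, cur (fun j => U * C (fr (v j))) k = 0) : U = 0 := by
  -- one of the components of `v × ξ` is not zero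
  have hc : ∃ k, crs (fun j => fr (v j)) k ≠ 0 := by
    by_contra hcon
    push Not at hcon
    have h1 : ∀ i, v i = 0 := by
      intro i
      apply fr_injective
      rw [map_zero]
      fin_cases i
      · have h2 := coeff_crs (fun j => fr (v j)) 1 2
        rw [hcon 1, coeff_zero] at h2
        exact neg_eq_zero.1 h2.symm
      · have h2 := coeff_crs (fun j => fr (v j)) 0 2
        rw [hcon 0, coeff_zero] at h2
        exact h2.symm
      · have h2 := coeff_crs (fun j => fr (v j)) 0 1
        rw [hcon 0, coeff_zero] at h2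
        exact neg_eq_zero.1 h2.symm
    exact not_isUnit_zero (h.prim 0 fun i => by rw [h1 i])
  obtain ⟨k, hk⟩ := hc
  have h1 : ∀ M : ℕ, (∀ b : Fin 3 →₀ ℕ, M ≤ b.degree → coeff b U = 0) → U = 0 := by
    intro M
    induction M with
    | zero =>
      intro hM
      ext b : 1
      rw [hM b (Nat.zero_le _), coeff_zero]
    | succ M ih =>
      intro hM
      apply ih
      intro b hb
      rcases Nat.lt_or_ge M b.degree with h3 | h3
      · exact hM b h3
      · have h4 := hc_cur (fun b' hb' => hM b' hb'.ge) (fun j => fr (v j)) k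
        rw [hU k, map_zero] at h4
        have h5 : homogeneousComponent M U = homogeneousComponent M 0 := by
          rw [map_zero]
          exact (mul_eq_zero.1 (neg_eq_zero.1 h4.symm)).resolve_right hk
        rw [coeff_eq_of_hc h5 (by omega), coeff_zero]
  apply h1 (U.totalDegree + 1)
  intro b hb
  by_contra hcon
  have h2 := le_totalDegree (mem_support_iff.2 hcon)
  have h3 : (b.sum fun _ e => e) = b.degree := rfl
  omega

/-! ### Homogeneity -/

namespace CmpKAux

/-- The Euler operator on the coefficients. -/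
def eL (t : Kf) : Kf := ∑ i, fr (X i) * DK i t

theorem eL_sub (s t : Kf) : eL (s - t) = eL s - eL t := by
  unfold eL
  rw [← Finset.sum_sub_distrib]
  refine Finset.sum_congr rfl fun i _ => ?_
  rw [map_sub, mul_sub]

theorem eL_zero : eL 0 = 0 := by
  unfold eL
  simp

theorem eL_mul (s t : Kf) : eL (s * t) = s * eL t + t * eL s := by
  unfold eL
  rw [Finset.mul_sum, Finset.mul_sum, ← Finset.sum_add_distrib]
  refine Finset.sum_congr rfl fun i _ => ?_
  rw [DK_mul]
  ring

theorem DK_fr_X (i j : Fin 3) : DK i (fr (X j)) = if i = j then 1 else 0 := by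
  rw [DK_fr]
  split_ifs with h
  · rw [h, pderiv_X_self, map_one]
  · rw [pderiv_X_of_ne (Ne.symm h), map_zero]

theorem eL_DK (i : Fin 3) (t : Kf) : eL (DK i t) = DK i (eL t) - DK i t := by
  have h1 : DK i (eL t) = ∑ j, (fr (X j) * DK j (DK i t) + DK j t * DK i (fr (X j))) := by
    unfold eL
    rw [map_sum]
    refine Finset.sum_congr rfl fun j _ => ?_
    rw [DK_mul, DK_comm i j]
  have h2 : ∑ j, DK j t * DK i (fr (X j)) = DK i t := by
    have h3 : ∀ j ∈ Finset.univ, DK j t * DK i (fr (X j)) = if i = j then DK j t else 0 := by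
      intro j _
      rw [DK_fr_X]
      split_ifs
      · rw [mul_one]
      · rw [mul_zero]
    rw [Finset.sum_congr rfl h3, Finset.sum_ite_eq Finset.univ i, if_pos (Finset.mem_univ i)]
  rw [h1, Finset.sum_add_distrib, h2]
  unfold eL
  ring

/-- The operator which is zero on `HkP k`. -/
def EE (k : ℤ) (G : MvPolynomial (Fin 3) Kf) : MvPolynomial (Fin 3) Kf :=
  ∑ b ∈ G.support, monomial b (eL (coeff b G) - ((b.degree : Kf) + (k : Kf)) * coeff b G)

theorem coeff_EE (k : ℤ) (G : MvPolynomial (Fin 3) Kf) (b : Fin 3 →₀ ℕ) :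
    coeff b (EE k G) = eL (coeff b G) - ((b.degree : Kf) + (k : Kf)) * coeff b G := by
  classical
  unfold EE
  rw [coeff_sum]
  simp only [coeff_monomial]
  rw [Finset.sum_ite_eq' G.support b]
  split_ifs with h
  · rfl
  · rw [notMem_support_iff.1 h, eL_zero, mul_zero, sub_zero]

theorem EE_sub (k : ℤ) (S T : MvPolynomial (Fin 3) Kf) : EE k (S - T) = EE k S - EE k T := by
  refine MvPolynomial.ext _ _ fun b => ?_
  rw [coeff_sub, coeff_EE, coeff_EE, coeff_EE, coeff_sub, eL_sub]
  ring

theorem DK_natCast_mul (i : Fin 3) (m : ℕ) (k : ℤ) (t : Kf) :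
    DK i (((m : Kf) + (k : Kf)) * t) = ((m : Kf) + (k : Kf)) * DK i t := by
  have h1 : ((m : Kf) + (k : Kf)) = algebraMap ℂ Kf ((m : ℂ) + (k : ℂ)) := by
    rw [map_add, map_natCast, map_intCast]
  rw [h1, ← Algebra.smul_def, ← Algebra.smul_def, Derivation.map_smul]

theorem EE_nab (i : Fin 3) (T : MvPolynomial (Fin 3) Kf) : EE 1 (nab i T) = nab i (EE 2 T) := by
  classical
  refine MvPolynomial.ext _ _ fun b => ?_
  unfold nab
  rw [coeff_EE, coeff_sub, coeff_sub, coeff_dC, coeff_dC, coeff_EE, coeff_X_mul', coeff_X_mul',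
    eL_sub, eL_DK, map_sub, DK_natCast_mul]
  split_ifs with hi
  · rw [coeff_EE]
    have h1 : b - Finsupp.single i 1 + Finsupp.single i 1 = b := by
      apply tsub_add_cancel_of_le
      rw [Finsupp.single_le_iff]
      exact Nat.one_le_iff_ne_zero.2 (Finsupp.mem_support_iff.1 hi)
    have h2 : (b - Finsupp.single i 1).degree + 1 = b.degree := by
      conv_rhs => rw [← h1]
      rw [map_add, Finsupp.degree_single]
    have h3 : (b.degree : Kf) = ((b - Finsupp.single i 1).degree : Kf) + 1 := by
      rw [← h2]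
      push_cast
      rfl
    rw [h3]
    push_cast
    ring
  · rw [eL_zero]
    push_cast
    ring

theorem EE_mul_C (h : Dat f P v d n) (U : MvPolynomial (Fin 3) Kf) (j : Fin 3) :
    EE 2 (U * C (fr (v j))) = EE (3 - n) U * C (fr (v j)) := by
  refine MvPolynomial.ext _ _ fun b => ?_
  have h1 : eL (fr (v j)) = ((n : Kf) - 1) * fr (v j) := by
    have h2 := (Hk.fr (h.hv j)).euler
    have h3 : eL (fr (v j)) = ∑ i, fr (X i) * DK i (fr (v j)) := rfl
    rw [h3, h2, Algebra.smul_def, Int.cast_natCast, map_natCast, Nat.cast_sub h.hn, Nat.cast_one]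
  rw [coeff_EE, mul_comm U, mul_comm (EE (3 - n) U), coeff_C_mul, coeff_C_mul, coeff_EE, eL_mul, h1]
  push_cast
  ring

theorem EE_cur (h : Dat f P v d n) (U : MvPolynomial (Fin 3) Kf) (k : Fin 3) :
    EE 1 (cur (fun j => U * C (fr (v j))) k) = cur (fun j => EE (3 - n) U * C (fr (v j))) k := by
  unfold cur
  rw [EE_sub, EE_nab, EE_nab, EE_mul_C h, EE_mul_C h]

theorem EE_eq_zero {k : ℤ} {G : MvPolynomial (Fin 3) Kf} (h : HkP k G) : EE k G = 0 := by
  refine MvPolynomial.ext _ _ fun b => ?_
  rw [coeff_EE, coeff_zero]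
  have h1 := (h b).euler
  have h2 : eL (coeff b G) = ∑ i, fr (X i) * DK i (coeff b G) := rfl
  rw [h2, h1, Algebra.smul_def, map_intCast]
  push_cast
  ring

theorem hkP_of_EE {k : ℤ} {G : MvPolynomial (Fin 3) Kf} (h : EE k G = 0) : HkP k G := by
  intro b
  apply hk_of_euler
  have h1 := congrArg (coeff b) h
  rw [coeff_EE, coeff_zero] at h1
  have h2 : eL (coeff b G) = ∑ i, fr (X i) * DK i (coeff b G) := rfl
  rw [← h2, Algebra.smul_def, map_intCast]
  push_cast
  linear_combination h1

end CmpKAux

theorem hkP_of_cur (h : Dat f P v d n) {U : MvPolynomial (Fin 3) Kf}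
    (hU : ∀ k, HkP 1 (cur (fun j => U * C (fr (v j))) k)) : HkP (3 - n) U := by
  apply hkP_of_EE
  apply cur_injK h
  intro k
  rw [← EE_cur h]
  exact EE_eq_zero (hU k)

end MPb07157.OK
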