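import Pool.Agent.Lib.MP_b07157_agB2.Har
import Pool.Agent.Lib.MP_b07157_agQ.LT2

/-!
# The first Cousin problem on the complement of the origin
-/

noncomputable section

namespace MPb07157.OK

open MvPolynomial MPb07157Q

namespace CousAux

theorem hc_mul {n : ℕ} {q : MvPolynomial (Fin 3) ℂ} (hq : q.IsHomogeneous n)
    (p : MvPolynomial (Fin 3) ℂ) (m : ℕ) :
    homogeneousComponent (m + n) (p * q) = homogeneousComponent m p * q := by
  classical
  have h1 : homogeneousComponent (m + n) (p * q) =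
      ∑ i ∈ Finset.range (p.totalDegree + 1),
        homogeneousComponent (m + n) (homogeneousComponent i p * q) := by
    conv_lhs => rw [← sum_homogeneousComponent p]
    rw [Finset.sum_mul, map_sum]
  have h2 : ∀ i, homogeneousComponent (m + n) (homogeneousComponent i p * q) =
      if i = m then homogeneousComponent m p * q else 0 := by
    intro i
    have h3 : (homogeneousComponent i p * q).IsHomogeneous (i + n) :=
      (homogeneousComponent_isHomogeneous i p).mul hq
    rw [homogeneousComponent_of_mem h3]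
    by_cases h : i = m
    · subst h
      simp
    · rw [if_neg h, if_neg (by omega)]
  rw [h1, Finset.sum_congr rfl fun i _ => h2 i, Finset.sum_ite_eq']
  split_ifs with h
  · rfl
  · rw [Finset.mem_range, not_lt] at h
    rw [homogeneousComponent_eq_zero _ _ (by omega), zero_mul]

theorem hc_mul_lt {n : ℕ} {q : MvPolynomial (Fin 3) ℂ} (hq : q.IsHomogeneous n)
    (p : MvPolynomial (Fin 3) ℂ) {M : ℕ} (h : M < n) :
    homogeneousComponent M (p * q) = 0 := by
  classical
  conv_lhs => rw [← sum_homogeneousComponent p]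
  rw [Finset.sum_mul, map_sum]
  refine Finset.sum_eq_zero fun i _ => ?_
  have h3 : (homogeneousComponent i p * q).IsHomogeneous (i + n) :=
    (homogeneousComponent_isHomogeneous i p).mul hq
  rw [homogeneousComponent_of_mem h3, if_neg (by omega)]

theorem exists_hc (M : ℕ) {n : ℕ} {q : MvPolynomial (Fin 3) ℂ} (hq : q.IsHomogeneous n)
    (p : MvPolynomial (Fin 3) ℂ) : ∃ p' : MvPolynomial (Fin 3) ℂ,
      Hk ((M : ℤ) - n) (fr p') ∧ homogeneousComponent M (p * q) = p' * q := by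
  rcases le_or_gt n M with h | h
  · refine ⟨homogeneousComponent (M - n) p, ?_, ?_⟩
    · have := Hk.fr (homogeneousComponent_isHomogeneous (M - n) p)
      rwa [Nat.cast_sub h] at this
    · obtain ⟨m, rfl⟩ : ∃ m, M = m + n := ⟨M - n, by omega⟩
      rw [Nat.add_sub_cancel, hc_mul hq]
  · refine ⟨0, ?_, ?_⟩
    · rw [map_zero]
      exact Hk.zero _
    · rw [hc_mul_lt hq p h, zero_mul]

theorem hk_sum {ι : Type*} {s : Finset ι} {u : ι → Kf} {k : ℤ} (h : ∀ i ∈ s, Hk k (u i)) :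
    Hk k (∑ i ∈ s, u i) := by
  classical
  induction s using Finset.induction_on with
  | empty => exact Hk.zero k
  | insert a s ha ih =>
    rw [Finset.sum_insert ha]
    exact (h a (Finset.mem_insert_self _ _)).add
      (ih fun i hi => h i (Finset.mem_insert_of_mem hi))

/-- Functions which are regular off the origin are polynomials. -/
theorem hartogs0 {g : Kf} (H : ∀ q : Fin 3 → ℂ, q ≠ 0 → RegAt q g) : ∃ a, g = fr a :=
  hartogs_offB (r := 0) (b := fun j => j.elim0) (fun j => j.elim0) fun q hq => H q hq.1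

theorem X_pow_hom (k : Fin 3) (M : ℕ) : (X k ^ M : MvPolynomial (Fin 3) ℂ).IsHomogeneous M := by
  have := (isHomogeneous_X ℂ k).pow M
  rwa [one_mul] at this

theorem relPrime_X : IsRelPrime (X 1 : MvPolynomial (Fin 3) ℂ) (X 0) := by
  have hp : Prime (X 1 : MvPolynomial (Fin 3) ℂ) := X_prime
  rw [hp.irreducible.isRelPrime_iff_not_dvd]
  intro h
  rw [X_dvd_X] at h
  rcases h with h | h

end CousAux

open CousAux

/-- Functions `g i` with regular differences on the common domains `e i ≠ 0`, which cover the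
complement of `0`, differ from one function `G` by regular functions. -/
theorem cousin {ι : Type} [Fintype ι] {κ : ℤ} (e : ι → MvPolynomial (Fin 3) ℂ)
    (he : ∀ i, ∃ k, (e i).IsHomogeneous k) (g : ι → Kf) (hg : ∀ i, Hk κ (g i))
    (hcov : ∀ q : Fin 3 → ℂ, q ≠ 0 → ∃ i, eval q (e i) ≠ 0)
    (hreg : ∀ i j q, eval q (e i) ≠ 0 → eval q (e j) ≠ 0 → RegAt q (g i - g j)) :
    ∃ G, Hk κ G ∧ ∀ i q, eval q (e i) ≠ 0 → RegAt q (G - g i) := by
  classical
  choose d hd using he
  -- a common power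
  have h1 : ∀ z : ι × ι, ∃ (N : ℕ) (a : MvPolynomial (Fin 3) ℂ),
      (g z.1 - g z.2) * fr ((e z.1 * e z.2) ^ N) = fr a := by
    intro z
    refine exists_pow fun q hq => ?_
    rw [map_mul] at hq
    exact hreg z.1 z.2 q (left_ne_zero_of_mul hq) (right_ne_zero_of_mul hq)
  choose N₀ a₀ ha₀ using h1
  obtain ⟨N, hN1, hN⟩ : ∃ N : ℕ, 1 ≤ N ∧ ∀ z, N₀ z ≤ N :=
    ⟨∑ z, N₀ z + 1, by omega, fun z =>
      (Finset.single_le_sum (fun _ _ => Nat.zero_le _) (Finset.mem_univ z)).trans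
        (Nat.le_succ _)⟩
  have ha : ∀ i j, ∃ a : MvPolynomial (Fin 3) ℂ,
      fr (e i ^ N) * (g i - g j) * fr (e j ^ N) = fr a := by
    intro i j
    refine ⟨a₀ (i, j) * (e i * e j) ^ (N - N₀ (i, j)), ?_⟩
    rw [map_mul, ← ha₀]
    have h2 : (e i * e j) ^ N = (e i * e j) ^ N₀ (i, j) * (e i * e j) ^ (N - N₀ (i, j)) := by
      rw [← pow_add, Nat.add_sub_cancel' (hN (i, j))]
    have h3 : fr (e i ^ N) * fr (e j ^ N) =
        fr ((e i * e j) ^ N₀ (i, j)) * fr ((e i * e j) ^ (N - N₀ (i, j))) := by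
      rw [← map_mul, ← map_mul, ← h2, mul_pow]
    linear_combination (g i - g j) * h3
  have hreg' : ∀ i j q, eval q (e j) ≠ 0 → RegAt q (fr (e i ^ N) * (g i - g j)) := by
    intro i j q hq
    obtain ⟨a, ha⟩ := ha i j
    refine RegAt.of_mul (b := e j ^ N) ?_ ?_
    · rw [map_pow]
      exact pow_ne_zero _ hq
    · rw [ha]
      exact RegAt.fr q a
  -- the Nullstellensatz
  set J : Ideal (MvPolynomial (Fin 3) ℂ) := Ideal.span (Set.range fun i => e i ^ N) with hJ
  have hrad : ∀ k : Fin 3, (X k : MvPolynomial (Fin 3) ℂ) ∈ J.radical := by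
    intro k
    rw [← vanishingIdeal_zeroLocus_eq_radical (K := ℂ), mem_vanishingIdeal_iff]
    intro q hq
    rw [mem_zeroLocus_iff] at hq
    by_contra hcon
    have hq0 : q ≠ 0 := by
      rintro rfl
      apply hcon
      simp
    obtain ⟨i, hi⟩ := hcov q hq0
    have h2 := hq (e i ^ N) (Ideal.subset_span ⟨i, rfl⟩)
    rw [map_pow] at h2
    exact hi (pow_eq_zero_iff (by omega) |>.1 h2)
  have hM0 : ∀ k : Fin 3, ∃ M : ℕ, (X k : MvPolynomial (Fin 3) ℂ) ^ M ∈ J := fun k => hrad k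
  choose M₀ hM₀ using hM0
  obtain ⟨M, hM, hMκ⟩ : ∃ M : ℕ, (∀ k, M₀ k ≤ M) ∧ 0 ≤ κ + M := by
    refine ⟨∑ k, M₀ k + κ.natAbs, fun k =>
      (Finset.single_le_sum (fun _ _ => Nat.zero_le _) (Finset.mem_univ k)).trans
        (Nat.le_add_right _ _), ?_⟩
    push_cast
    have h3 : (0 : ℤ) ≤ ∑ k, (M₀ k : ℤ) := Finset.sum_nonneg fun _ _ => Int.natCast_nonneg _
    have h4 : -κ ≤ |κ| := neg_le_abs κ
    linarith
  have hXJ : ∀ k : Fin 3, ∃ c : ι → MvPolynomial (Fin 3) ℂ,
      ∑ i, c i * e i ^ N = X k ^ M := by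
    intro k
    have h2 : (X k : MvPolynomial (Fin 3) ℂ) ^ M ∈ J := by
      have : (X k : MvPolynomial (Fin 3) ℂ) ^ M = X k ^ (M - M₀ k) * X k ^ M₀ k := by
        rw [← pow_add, Nat.sub_add_cancel (hM k)]
      rw [this]
      exact J.mul_mem_left _ (hM₀ k)
    rw [hJ, Ideal.mem_span_range_iff_exists_fun] at h2
    exact h2
  have hX' : ∀ k : Fin 3, ∃ c : ι → MvPolynomial (Fin 3) ℂ,
      (∀ i, Hk ((M : ℤ) - (d i * N : ℕ)) (fr (c i))) ∧ ∑ i, c i * e i ^ N = X k ^ M := by
    intro k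
    obtain ⟨c, hc⟩ := hXJ k
    have h2 : ∀ i, ∃ p' : MvPolynomial (Fin 3) ℂ, Hk ((M : ℤ) - (d i * N : ℕ)) (fr p') ∧
        homogeneousComponent M (c i * e i ^ N) = p' * e i ^ N := fun i =>
      exists_hc M ((hd i).pow N) (c i)
    choose c' hc' hc'2 using h2
    refine ⟨c', hc', ?_⟩
    have h3 := congrArg (homogeneousComponent M) hc
    rw [map_sum, homogeneousComponent_of_mem (X_pow_hom k M), if_pos rfl] at h3
    rw [← h3]
    exact Finset.sum_congr rfl fun i _ => (hc'2 i).symm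
  choose c hcH hc using hX'
  -- the functions `A k`
  set A : Fin 3 → Kf := fun k => ∑ i, fr (c k i) * (fr (e i ^ N) * g i) with hA
  have hAH : ∀ k, Hk (κ + M) (A k) := by
    intro k
    refine hk_sum fun i _ => ?_
    have h2 := (hcH k i).mul ((Hk.fr ((hd i).pow N)).mul (hg i))
    have h3 : (M : ℤ) - (d i * N : ℕ) + (((d i * N : ℕ) : ℤ) + κ) = κ + M := by ring
    rwa [h3] at h2
  have hXk : ∀ k, fr (X k ^ M) = ∑ i, fr (c k i) * fr (e i ^ N) := by
    intro k
    rw [← hc k, map_sum]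
    exact Finset.sum_congr rfl fun i _ => map_mul _ _ _
  have hAreg : ∀ k j q, eval q (e j) ≠ 0 → RegAt q (A k - fr (X k ^ M) * g j) := by
    intro k j q hq
    have h2 : A k - fr (X k ^ M) * g j = ∑ i, fr (c k i) * (fr (e i ^ N) * (g i - g j)) := by
      rw [hXk, Finset.sum_mul, hA, ← Finset.sum_sub_distrib]
      refine Finset.sum_congr rfl fun i _ => ?_
      ring
    rw [h2]
    exact RegAt.sum fun i _ => (RegAt.fr q _).mul (hreg' i j q hq)
  -- the differences
  have hB : ∀ k l, ∃ b : MvPolynomial (Fin 3) ℂ,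
      fr (X l ^ M) * A k - fr (X k ^ M) * A l = fr b := by
    intro k l
    refine hartogs0 fun q hq => ?_
    obtain ⟨j, hj⟩ := hcov q hq
    have h2 : fr (X l ^ M) * A k - fr (X k ^ M) * A l =
        fr (X l ^ M) * (A k - fr (X k ^ M) * g j) - fr (X k ^ M) * (A l - fr (X l ^ M) * g j) := by
      ring
    rw [h2]
    exact ((RegAt.fr q _).mul (hAreg k j q hj)).sub ((RegAt.fr q _).mul (hAreg l j q hj))
  obtain ⟨b01, hb01⟩ := hB 0 1
  obtain ⟨b12, hb12⟩ := hB 1 2
  obtain ⟨b20, hb20⟩ := hB 2 0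
  have hcyc : X 0 ^ M * b12 + X 1 ^ M * b20 + X 2 ^ M * b01 = 0 := by
    apply fr_injective
    rw [map_add, map_add, map_mul, map_mul, map_mul, map_zero, ← hb01, ← hb12, ← hb20]
    ring
  obtain ⟨n, hn⟩ : ∃ n : ℕ, (n : ℤ) = κ + M := ⟨(κ + M).toNat, Int.toNat_of_nonneg hMκ⟩
  have hb01H : b01.IsHomogeneous (n + M) := by
    by_cases h0 : b01 = 0
    · rw [h0]
      exact isHomogeneous_zero _ _ _
    · have h2 : Hk (M + (κ + M)) (fr b01) := by
        rw [← hb01]
        exact ((Hk.fr (X_pow_hom 1 M)).mul (hAH 0)).sub ((Hk.fr (X_pow_hom 0 M)).mul (hAH 1))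
      obtain ⟨m, hm, hbm⟩ := isHomogeneous_of_hk h0 h2
      have h3 : m = n + M := by omega
      rwa [h3] at hbm
  -- the Koszul complex
  have hk1 := koszul_aux M hcyc
  rw [Ideal.mem_span_pair] at hk1
  obtain ⟨r1, r0, hr⟩ := hk1
  have hr' : homogeneousComponent n r1 * X 0 ^ M + homogeneousComponent n r0 * X 1 ^ M = b01 := by
    have h2 := congrArg (homogeneousComponent (n + M)) hr
    rw [map_add, hc_mul (X_pow_hom 0 M), hc_mul (X_pow_hom 1 M),
      homogeneousComponent_of_mem hb01H, if_pos rfl] at h2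
    exact h2
  set R0 := homogeneousComponent n r0 with hR0
  set R1 := -homogeneousComponent n r1 with hR1
  have e01 : b01 = X 1 ^ M * R0 - X 0 ^ M * R1 := by
    rw [← hr', hR1]
    ring
  have hR0H : Hk (κ + M) (fr R0) := by
    rw [← hn]
    exact Hk.fr (homogeneousComponent_isHomogeneous n r0)
  have e2 : X 0 ^ M * (b12 - X 2 ^ M * R1) = -(X 1 ^ M * (b20 + X 2 ^ M * R0)) := by
    rw [e01] at hcyc
    linear_combination hcyc
  obtain ⟨R2', hR2'⟩ : X 1 ^ M ∣ b12 - X 2 ^ M * R1 := by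
    have h2 : X 1 ^ M ∣ X 0 ^ M * (b12 - X 2 ^ M * R1) := by
      rw [e2]
      exact (Dvd.intro _ rfl).neg_right
    exact (relPrime_X.pow (m := M) (n := M)).dvd_of_dvd_mul_left h2
  set R2 := -R2' with hR2
  have e20 : b20 = X 0 ^ M * R2 - X 2 ^ M * R0 := by
    have h2 : X 1 ^ M * (X 0 ^ M * R2') = X 1 ^ M * (-(b20 + X 2 ^ M * R0)) := by
      rw [hR2'] at e2
      linear_combination e2
    have h3 := mul_left_cancel₀ (pow_ne_zero M (X_ne_zero (1 : Fin 3))) h2
    rw [hR2]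
    linear_combination h3
  -- the function `G`
  have hX0 : ∀ k : Fin 3, fr (X k ^ M) ≠ 0 := fun k => fr_ne_zero (pow_ne_zero M (X_ne_zero k))
  set G : Kf := (A 0 - fr R0) * (fr (X 0 ^ M))⁻¹ with hG
  have hG0 : G * fr (X 0 ^ M) = A 0 - fr R0 := by
    rw [hG, mul_assoc, inv_mul_cancel₀ (hX0 0), mul_one]
  have hG1 : G * fr (X 1 ^ M) = A 1 - fr R1 := by
    apply mul_right_cancel₀ (hX0 0)
    rw [e01, map_sub, map_mul, map_mul] at hb01
    linear_combination (fr (X 1 ^ M)) * hG0 + hb01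
  have hG2 : G * fr (X 2 ^ M) = A 2 - fr R2 := by
    apply mul_right_cancel₀ (hX0 0)
    rw [e20, map_sub, map_mul, map_mul] at hb20
    linear_combination (fr (X 2 ^ M)) * hG0 - hb20
  have hGk : ∀ k : Fin 3, ∃ R : MvPolynomial (Fin 3) ℂ, G * fr (X k ^ M) = A k - fr R := by
    intro k
    fin_cases k
    · exact ⟨R0, hG0⟩
    · exact ⟨R1, hG1⟩
    · exact ⟨R2, hG2⟩
  have hfin : ∀ j q, q ≠ 0 → eval q (e j) ≠ 0 → RegAt q (G - g j) := by
    intro j q hq hj
    obtain ⟨k, hk⟩ : ∃ k, q k ≠ 0 := by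
      by_contra hcon
      push Not at hcon
      exact hq (funext hcon)
    obtain ⟨R, hR⟩ := hGk k
    refine RegAt.of_mul (b := X k ^ M) ?_ ?_
    · rw [map_pow, eval_X]
      exact pow_ne_zero _ hk
    · have h2 : (G - g j) * fr (X k ^ M) = A k - fr (X k ^ M) * g j - fr R := by
        rw [sub_mul, hR]
        ring
      rw [h2]
      exact (hAreg k j q hj).sub (RegAt.fr q R)
  refine ⟨G, ?_, ?_⟩
  · have h2 := ((hAH 0).sub hR0H).mul (Hk.fr (X_pow_hom 0 M)).inv
    have h3 : κ + M + -(M : ℤ) = κ := by ring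
    rwa [h3] at h2
  · intro j q hj
    by_cases hq : q = 0
    · subst hq
      have h2 : ∀ q', eval q' (e j) ≠ 0 := by
        intro q' hq'
        apply hj
        have h3 := HarAux.eval_smul_hom (hd j) 0 q'
        rw [zero_smul, hq', mul_zero] at h3
        exact h3
      obtain ⟨a, ha⟩ := hartogs0 (g := G - g j) fun q' hq' => hfin j q' hq' (h2 q')
      rw [ha]
      exact RegAt.fr _ a
    · exact hfin j q hq hj

end MPb07157.OK
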