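import Pool.Agent.Lib.MP_b07157_agB2.OpD
import Pool.Agent.Lib.MP_b07157_agB2.RgA
import Pool.Agent.Lib.MP_b07157_agB2.RgB
import Pool.Agent.Lib.MP_b07157_agB.LT

/-!
# Relations of linear type off the bad points
-/

noncomputable section

namespace MPb07157.OK

open MvPolynomial MPb07157Q
open MPb07157.OB (Dat Vert sum3 f3a f3b f3c f3d f3n1 f3n2 f3n3 f3cases)

variable {f P : MvPolynomial (Fin 3) ℂ} {v : Fin 3 → MvPolynomial (Fin 3) ℂ} {d n r : ℕ}
  {b : Fin r → Fin 3 → ℂ}

namespace LThaux

/-- Homogeneous components of a product with a homogeneous polynomial. -/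
theorem hc_mul' {g : MvPolynomial (Fin 3) ℂ} {e : ℕ} (hg : g.IsHomogeneous e)
    (c : MvPolynomial (Fin 3) ℂ) (j : ℕ) :
    homogeneousComponent (j + e) (c * g) = homogeneousComponent j c * g := by
  classical
  ext m
  rw [coeff_homogeneousComponent, coeff_mul, coeff_mul]
  split_ifs with hm
  · refine Finset.sum_congr rfl fun p hp => ?_
    by_cases h0 : coeff p.2 g = 0
    · rw [h0, mul_zero, mul_zero]
    · have h1 : p.2.degree = e := by
        by_contra hne
        exact h0 (hg.coeff_eq_zero hne)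
      have h2 : p.1 + p.2 = m := Finset.HasAntidiagonal.mem_antidiagonal.1 hp
      have h3 : p.1.degree = j := by
        rw [← h2, map_add, h1] at hm
        omega
      rw [coeff_homogeneousComponent, if_pos h3]
  · symm
    refine Finset.sum_eq_zero fun p hp => ?_
    by_cases h0 : coeff p.2 g = 0
    · rw [h0, mul_zero]
    · have h1 : p.2.degree = e := by
        by_contra hne
        exact h0 (hg.coeff_eq_zero hne)
      have h2 : p.1 + p.2 = m := Finset.HasAntidiagonal.mem_antidiagonal.1 hp
      have h3 : p.1.degree ≠ j := by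
        intro h4
        apply hm
        rw [← h2, map_add, h1, h4]
      rw [coeff_homogeneousComponent, if_neg h3, zero_mul]

/-- A homogeneous polynomial vanishes at the origin and on the lines through its zeros. -/
theorem eval_smul_hom {hh : MvPolynomial (Fin 3) ℂ} {e : ℕ} (h : hh.IsHomogeneous e) (c : ℂ)
    (p : Fin 3 → ℂ) : eval (c • p) hh = c ^ e * eval p hh := by
  classical
  rw [eval_eq, eval_eq, Finset.mul_sum]
  refine Finset.sum_congr rfl fun m hm => ?_
  have h1 : m.degree = e := by
    by_contra hcon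
    exact (mem_support_iff.1 hm) (h.coeff_eq_zero hcon)
  have h2 : ∏ i ∈ m.support, (c • p) i ^ m i = c ^ e * ∏ i ∈ m.support, p i ^ m i := by
    simp only [Pi.smul_apply, smul_eq_mul, mul_pow]
    rw [Finset.prod_mul_distrib, Finset.prod_pow_eq_pow_sum, ← h1]
    rfl
  rw [h2]
  ring

/-- The points where a homogeneous form through the `b j` does not vanish. -/
theorem offB_of {hh : MvPolynomial (Fin 3) ℂ} {e : ℕ} (he : 0 < e) (hhom : hh.IsHomogeneous e)
    (hb : ∀ j, eval (b j) hh = 0) {q : Fin 3 → ℂ} (hq : eval q hh ≠ 0) : OffB b q := by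
  constructor
  · rintro rfl
    apply hq
    have h1 := eval_smul_hom hhom 0 0
    rw [zero_smul, zero_pow he.ne', zero_mul] at h1
    exact h1
  · rintro j c rfl
    apply hq
    rw [eval_smul_hom hhom, hb j, mul_zero]

/-- As `OB.lt_loc`. -/
theorem lt_locB {v : Fin 3 → MvPolynomial (Fin 3) ℂ} (hv : ∀ q, (∀ i, q ∣ v i) → IsUnit q)
    {hh : MvPolynomial (Fin 3) ℂ} (hQ : ∀ p : Fin 3 → ℂ, eval p hh ≠ 0 →
      ∃ a : Fin 3 → MvPolynomial (Fin 3) ℂ, ∑ k, a k * v k = 0 ∧ ∃ k, eval p (a k) ≠ 0)
    {M : ℕ} (hM : 0 < M) {F : MvPolynomial (Fin 3) (MvPolynomial (Fin 3) ℂ)}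
    (hF : F.IsHomogeneous M) (h0 : eval v F = 0) :
    ∃ N : ℕ, C (hh ^ N) * F ∈ LI v := by
  classical
  set J : Ideal (MvPolynomial (Fin 3) ℂ) := ((LI v).colon (Ideal.span {F})).comap C with hJ
  have hJm : ∀ h, h ∈ J ↔ C h * F ∈ LI v := by
    intro h
    rw [hJ, Ideal.mem_comap, Submodule.mem_colon_span_singleton, smul_eq_mul]
  have hloc : ∀ a : Fin 3 → MvPolynomial (Fin 3) ℂ, ∑ i, a i * v i = 0 → ∀ i, a i ^ M ∈ J := by
    intro a ha i
    rw [hJm, C_pow]
    fin_cases i
    · exact local_step hv ha hM hF h0 0 1 2 (by decide) (by decide) (by decide)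
    · exact local_step hv ha hM hF h0 1 0 2 (by decide) (by decide) (by decide)
    · exact local_step hv ha hM hF h0 2 0 1 (by decide) (by decide) (by decide)
  have hrad : hh ∈ J.radical := by
    rw [← vanishingIdeal_zeroLocus_eq_radical (K := ℂ), mem_vanishingIdeal_iff]
    intro p hp
    by_contra h1
    obtain ⟨a, ha, k, hk⟩ := hQ p (by simpa using h1)
    have h3 := hloc a ha k
    rw [mem_zeroLocus_iff] at hp
    have h4 := hp _ h3
    rw [map_pow] at h4
    apply hk
    have h5 := pow_eq_zero_iff hM.ne' |>.1 h4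
    simpa using h5
  obtain ⟨N, hN⟩ := hrad
  exact ⟨N, (hJm _).1 hN⟩

/-- Clearing the denominators of an operator. -/
theorem exists_clearP {hh : MvPolynomial (Fin 3) ℂ} {F : MvPolynomial (Fin 3) Kf}
    (hr : ∀ q, eval q hh ≠ 0 → RegP q F) {M : ℕ}
    (hF : F.IsHomogeneous M) : ∃ (N : ℕ) (F' : MvPolynomial (Fin 3) (MvPolynomial (Fin 3) ℂ)),
      F'.IsHomogeneous M ∧
      map (fr : MvPolynomial (Fin 3) ℂ →+* Kf) F' = C (fr (hh ^ N)) * F := by
  classical
  have hex : ∀ c : Fin 3 →₀ ℕ, ∃ (N : ℕ) (a : MvPolynomial (Fin 3) ℂ),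
      coeff c F * fr (hh ^ N) = fr a := fun c => exists_pow fun q hq => hr q hq c
  choose N₀ a₀ hN₀ using hex
  set N : ℕ := ∑ c ∈ F.support, N₀ c with hN
  have h1 : ∀ c ∈ F.support, ∃ p : MvPolynomial (Fin 3) ℂ,
      fr (hh ^ N) * coeff c F = fr p := by
    intro c hc
    have h2 : N₀ c ≤ N := Finset.single_le_sum (f := N₀) (fun _ _ => Nat.zero_le _) hc
    obtain ⟨t, ht⟩ := Nat.exists_eq_add_of_le h2
    refine ⟨a₀ c * hh ^ t, ?_⟩
    rw [map_mul, ← hN₀ c, ht, pow_add, map_mul]
    ring
  choose! p hp using h1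
  refine ⟨N, ∑ c ∈ F.support, monomial c (p c), ?_, ?_⟩
  · apply IsHomogeneous.sum
    intro c hc
    apply isHomogeneous_monomial
    by_contra hcon
    exact (mem_support_iff.1 hc) (hF.coeff_eq_zero hcon)
  · rw [map_sum]
    have h2 : C (fr (hh ^ N)) * F =
        ∑ c ∈ F.support, monomial c (fr (hh ^ N) * coeff c F) := by
      conv_lhs => rw [F.as_sum, Finset.mul_sum]
      refine Finset.sum_congr rfl fun c _ => ?_
      rw [C_mul_monomial]
    rw [h2]
    refine Finset.sum_congr rfl fun c hc => ?_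
    rw [map_monomial, hp c hc]
    rfl

/-- The degree of the numerator of a homogeneous function. -/
theorem hc_num {p hh : MvPolynomial (Fin 3) ℂ} {e N M : ℕ} {g : Kf} (hhom : hh.IsHomogeneous e)
    (hg : Hk M g) (h : fr p = fr (hh ^ N) * g) :
    homogeneousComponent (M + e * N) p = p := by
  obtain ⟨m, n, a, c, ha, hc, hc0, hmn, hac⟩ := hg
  have hm : m = n + M := by omega
  have h1 : p * c = a * hh ^ N := by
    apply fr_injective
    rw [map_mul, map_mul, h, ← hac]
    ring
  have h2 : (a * hh ^ N).IsHomogeneous (M + e * N + n) := by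
    have h3 := ha.mul (hhom.pow N)
    have h4 : m + e * N = M + e * N + n := by omega
    rwa [h4] at h3
  have h3 := hc_mul' hc p (M + e * N)
  rw [h1, homogeneousComponent_of_mem ((mem_homogeneousSubmodule _ _).2 h2), if_pos rfl, ← h1]
    at h3
  exact (mul_right_cancel₀ hc0 h3).symm

/-- Extraction of the homogeneous parts of the coefficients. -/
def hcC (D : ℕ) (G : MvPolynomial (Fin 3) (MvPolynomial (Fin 3) ℂ)) (M : ℕ) :
    MvPolynomial (Fin 3) (MvPolynomial (Fin 3) ℂ) :=
  ∑ c ∈ G.support, if c.degree = M then monomial c (homogeneousComponent D (coeff c G)) else 0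

theorem coeff_hcC (D : ℕ) (G : MvPolynomial (Fin 3) (MvPolynomial (Fin 3) ℂ)) (M : ℕ)
    (c : Fin 3 →₀ ℕ) :
    coeff c (hcC D G M) = if c.degree = M then homogeneousComponent D (coeff c G) else 0 := by
  classical
  unfold hcC
  rw [coeff_sum]
  have h1 : ∀ c' ∈ G.support, coeff c (if c'.degree = M then
      monomial c' (homogeneousComponent D (coeff c' G)) else 0) =
      if c' = c then (if c.degree = M then homogeneousComponent D (coeff c G) else 0) else 0 := by
    intro c' _
    by_cases hc : c' = c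
    · subst hc
      rw [if_pos rfl]
      split_ifs with h
      · rw [coeff_monomial, if_pos rfl]
      · rw [coeff_zero]
    · rw [if_neg hc]
      split_ifs with h
      · rw [coeff_monomial, if_neg hc]
      · rw [coeff_zero]
  rw [Finset.sum_congr rfl h1, Finset.sum_ite_eq' G.support c]
  split_ifs with h2 h3 h3
  · rfl
  · rfl
  · rw [notMem_support_iff.1 h2, map_zero]
  · rfl

end LThaux

/-- `lt_reg` for functions with poles along `hh = 0`, where `hh` vanishes at the points `b j`. -/
theorem lt_h (h : Dat f P v d n) (hQ : ∀ q, OffB b q → eval q f = 0 → QHat f q) {e : ℕ}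
    {hh : MvPolynomial (Fin 3) ℂ} (he : 0 < e) (hhom : hh.IsHomogeneous e) (hh0 : hh ≠ 0)
    (hb : ∀ j, eval (b j) hh = 0) {M : ℕ} {F : MvPolynomial (Fin 3) Kf}
    (hF : F.IsHomogeneous (M + 1)) (hk : HkP 0 F) (hr : ∀ q, eval q hh ≠ 0 → RegP q F)
    (h0 : eval (fun j => DK j (fr f)) F = 0) :
    ∃ T : Fin 3 → MvPolynomial (Fin 3) Kf, (∀ k q, eval q hh ≠ 0 → RegP q (T k)) ∧
      (∀ k, (T k).IsHomogeneous M) ∧ (∀ k, HkP 1 (T k)) ∧ ∑ k, T k * C (DK k (fr f)) = 0 ∧
      F = ∑ k, T k * X k := by
  classical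
  obtain ⟨N, F', hF', hm⟩ := LThaux.exists_clearP hr hF
  -- the value at the gradient
  have h1 : eval (fun j => pderiv j f) F' = 0 := by
    apply fr_injective
    rw [map_zero]
    have e1 : (fr : MvPolynomial (Fin 3) ℂ →+* Kf) (eval (fun j => pderiv j f) F') =
        eval (fun j => DK j (fr f)) (map (fr : MvPolynomial (Fin 3) ℂ →+* Kf) F') := by
      have e2 : ((fr : MvPolynomial (Fin 3) ℂ →+* Kf) ∘ fun j => pderiv j f) =
          fun j => DK j (fr f) := by
        funext j
        exact (DK_fr j f).symm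
      rw [eval_map, ← e2]
      exact eval₂_comp_left (fr : MvPolynomial (Fin 3) ℂ →+* Kf) (RingHom.id _) _ F'
    have e3 : fr (eval (fun j => pderiv j f) F') =
        (fr : MvPolynomial (Fin 3) ℂ →+* Kf) (eval (fun j => pderiv j f) F') := rfl
    rw [e3, e1, hm, map_mul, h0, mul_zero]
  have h2 : eval v F' = 0 := by
    have e1 : ∀ z : Fin 3 → MvPolynomial (Fin 3) ℂ, aeval z F' = eval z F' := fun z => rfl
    have e2 : P ^ (M + 1) * eval (fun j => pderiv j f) F' = f ^ (M + 1) * eval v F' := by
      rw [← e1, ← e1, ← aeval_smul_hom hF', ← aeval_smul_hom hF']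
      congr 2
      funext k
      exact h.rel k
    rw [h1, mul_zero] at e2
    exact (mul_eq_zero.1 e2.symm).resolve_left (pow_ne_zero _ h.f0)
  have hQ' : ∀ p : Fin 3 → ℂ, eval p hh ≠ 0 →
      ∃ a : Fin 3 → MvPolynomial (Fin 3) ℂ, ∑ k, a k * v k = 0 ∧ ∃ k, eval p (a k) ≠ 0 := by
    intro p hp
    by_cases hpf : eval p f = 0
    · obtain ⟨a, ha, hk⟩ := hQ p (LThaux.offB_of he hhom hb hp) hpf
      refine ⟨a, ?_, hk⟩
      have e : P * ∑ i, a i * pderiv i f = f * ∑ i, a i * v i := by
        rw [Finset.mul_sum, Finset.mul_sum]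
        refine Finset.sum_congr rfl fun i _ => ?_
        have := h.rel i
        linear_combination a i * this
      rw [ha, mul_zero] at e
      exact (mul_eq_zero.1 e.symm).resolve_left h.f0
    · exact OB.LTaux.exists_syz h p hpf
  obtain ⟨N', T, hT1, hT2⟩ := LThaux.lt_locB h.prim hQ' (Nat.succ_pos M) hF' h2
  -- relations with the gradient
  have hT3 : ∑ k, T k * C (pderiv k f) = 0 := by
    have h2 : (C P : MvPolynomial (Fin 3) (MvPolynomial (Fin 3) ℂ)) ≠ 0 := by
      rw [Ne, C_eq_zero]
      exact h.P0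
    apply mul_left_cancel₀ h2
    have h3 : C P * ∑ i, T i * C (pderiv i f) = C f * ∑ i, T i * C (v i) := by
      rw [Finset.mul_sum, Finset.mul_sum]
      refine Finset.sum_congr rfl fun i _ => ?_
      have h4 := congrArg (C : MvPolynomial (Fin 3) ℂ →
        MvPolynomial (Fin 3) (MvPolynomial (Fin 3) ℂ)) (h.rel i)
      rw [C_mul, C_mul] at h4
      linear_combination T i * h4
    rw [h3, hT1, mul_zero, mul_zero]
  -- homogeneous parts
  set D : ℕ := (M + 1) + e * (N + N') with hD
  set S : Fin 3 → MvPolynomial (Fin 3) (MvPolynomial (Fin 3) ℂ) :=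
    fun k => LThaux.hcC D (T k) M with hS
  have hSc : ∀ k c, coeff c (S k) =
      if c.degree = M then homogeneousComponent D (coeff c (T k)) else 0 :=
    fun k c => LThaux.coeff_hcC D (T k) M c
  have hfd : ∀ k : Fin 3, (pderiv k f).IsHomogeneous (d - 1) := fun k => h.hf.pderiv
  have hS1 : ∑ k, S k * C (pderiv k f) = 0 := by
    ext1 β
    rw [coeff_sum, coeff_zero]
    have h5 := congrArg (coeff β) hT3
    rw [coeff_sum, coeff_zero] at h5
    by_cases hβ : β.degree = M
    · have h6 : ∀ k, coeff β (T k * C (pderiv k f)) = coeff β (T k) * pderiv k f := by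
        intro k
        rw [mul_comm, coeff_C_mul, mul_comm]
      have h7 : ∀ k, coeff β (S k * C (pderiv k f)) =
          homogeneousComponent (D + (d - 1)) (coeff β (T k * C (pderiv k f))) := by
        intro k
        rw [h6, LThaux.hc_mul' (hfd k), mul_comm, coeff_C_mul, mul_comm, hSc, if_pos hβ]
      rw [Finset.sum_congr rfl fun k _ => h7 k, ← map_sum, h5, map_zero]
    · apply Finset.sum_eq_zero
      intro k _
      rw [mul_comm, coeff_C_mul, hSc, if_neg hβ, mul_zero]
  -- the coefficients of the left-hand side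
  have hF'c : ∀ β, homogeneousComponent D (coeff β (C (hh ^ N') * F')) =
      coeff β (C (hh ^ N') * F') := by
    intro β
    by_cases hβ : β.degree = M + 1
    · have h5 : fr (coeff β F') = fr (hh ^ N) * coeff β F := by
        have h6 := congrArg (coeff β) hm
        rw [coeff_map, coeff_C_mul] at h6
        exact h6
      have h7 : Hk ((M + 1 : ℕ) : ℤ) (coeff β F) := by
        have h8 := hk β
        rw [hβ, add_zero] at h8
        exact h8
      apply LThaux.hc_num (N := N + N') (g := coeff β F) hhom h7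
      rw [coeff_C_mul, map_mul, h5, pow_add, map_mul]
      ring
    · rw [coeff_C_mul, hF'.coeff_eq_zero hβ, mul_zero, map_zero]
  have hS2 : C (hh ^ N') * F' = ∑ k, S k * X k := by
    ext1 β
    have h3 := congrArg (coeff β) hT2
    rw [coeff_sum] at h3
    rw [coeff_sum]
    by_cases hβ : β.degree = M + 1
    · rw [← hF'c β, h3, map_sum]
      refine Finset.sum_congr rfl fun k _ => ?_
      rw [coeff_mul_X', coeff_mul_X']
      split_ifs with hi
      · rw [hSc, if_pos]
        have h2 : Finsupp.single k 1 ≤ β := by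
          rw [Finsupp.single_le_iff]
          rw [Finsupp.mem_support_iff] at hi
          omega
        have h3 := congrArg Finsupp.degree (tsub_add_cancel_of_le h2)
        rw [map_add, Finsupp.degree_single, hβ] at h3
        omega
      · rw [map_zero]
    · rw [coeff_C_mul, hF'.coeff_eq_zero hβ, mul_zero]
      symm
      apply Finset.sum_eq_zero
      intro k _
      rw [coeff_mul_X']
      split_ifs with hi
      · rw [hSc, if_neg]
        intro h4
        apply hβ
        have h2 : Finsupp.single k 1 ≤ β := by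
          rw [Finsupp.single_le_iff]
          rw [Finsupp.mem_support_iff] at hi
          omega
        have h3 := congrArg Finsupp.degree (tsub_add_cancel_of_le h2)
        rw [map_add, Finsupp.degree_single, h4] at h3
        omega
      · rfl
  -- over the rational functions
  set φ : MvPolynomial (Fin 3) ℂ →+* Kf := (fr : MvPolynomial (Fin 3) ℂ →+* Kf) with hφ
  have hφ' : ∀ x, φ x = fr x := fun x => rfl
  have hu0 : fr (hh ^ (N + N')) ≠ 0 := fr_ne_zero (pow_ne_zero _ hh0)
  set w : Kf := (fr (hh ^ (N + N')))⁻¹ with hw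
  have hw1 : w * fr (hh ^ (N + N')) = 1 := inv_mul_cancel₀ hu0
  refine ⟨fun k => C w * map φ (S k), ?_, ?_, ?_, ?_, ?_⟩
  · intro k q hq c
    rw [coeff_C_mul, coeff_map, hφ']
    refine ⟨coeff c (S k), hh ^ (N + N'), ?_, ?_⟩
    · rw [map_pow]
      exact pow_ne_zero _ hq
    · linear_combination fr (coeff c (S k)) * hw1
  · intro k
    intro c hc
    rw [coeff_C_mul, coeff_map, hφ', hSc] at hc
    by_contra hne
    apply hc
    have h4 : c.degree ≠ M := by
      intro h5
      apply hne
      rw [← h5, Finsupp.degree_eq_weight_one]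
      rfl
    rw [if_neg h4, map_zero, mul_zero]
  · intro k c
    rw [coeff_C_mul, coeff_map, hφ', hSc]
    split_ifs with hc
    · refine ⟨D, e * (N + N'), homogeneousComponent D (coeff c (T k)), hh ^ (N + N'),
        homogeneousComponent_isHomogeneous _ _, hhom.pow _, pow_ne_zero _ hh0, ?_, ?_⟩
      · rw [hD, hc]
        push_cast
        ring
      · linear_combination fr (homogeneousComponent D (coeff c (T k))) * hw1
    · rw [map_zero, mul_zero]
      exact Hk.zero _
  · have := congrArg (map φ) hS1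
    rw [map_sum, map_zero] at this
    have h5 : ∑ k, (C w * map φ (S k)) * C (DK k (fr f)) =
        C w * ∑ k, map φ (S k * C (pderiv k f)) := by
      rw [Finset.mul_sum]
      refine Finset.sum_congr rfl fun k _ => ?_
      rw [map_mul, map_C, hφ', ← DK_fr]
      ring
    rw [h5, this, mul_zero]
  · have h5 := congrArg (map φ) hS2
    rw [map_mul, map_C, hφ', hm, map_sum] at h5
    have h6 : ∑ k, (C w * map φ (S k)) * X k = C w * ∑ k, map φ (S k * X k) := by
      rw [Finset.mul_sum]
      refine Finset.sum_congr rfl fun k _ => ?_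
      rw [map_mul, map_X]
      ring
    have h7 : w * (fr (hh ^ N') * fr (hh ^ N)) = 1 := by
      rw [← map_mul, ← pow_add, add_comm N', hw1]
    rw [h6, ← h5, ← mul_assoc (C (fr (hh ^ N'))), ← C_mul, ← mul_assoc, ← C_mul, h7, C_1,
      one_mul]

end MPb07157.OK
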