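import Pool.Agent.Lib.MP_b07157_agB2.OpB
import Pool.Agent.Lib.MP_b07157_agB2.LTh
import Pool.Agent.Lib.MP_b07157_agB2.RgB

/-!
# Operators which kill the powers of f
-/

noncomputable section

namespace MPb07157.OK

open MvPolynomial MPb07157Q
open MPb07157.OB (Dat Vert sum3 f3a f3b f3c f3d f3n1 f3n2 f3n3 f3cases)

variable {f P : MvPolynomial (Fin 3) ℂ} {v : Fin 3 → MvPolynomial (Fin 3) ℂ} {d n r : ℕ}
  {b : Fin r → Fin 3 → ℂ}

namespace DecKAux

theorem coeff_nab (i : Fin 3) (T : MvPolynomial (Fin 3) Kf) (b : Fin 3 →₀ ℕ) :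
    coeff b (nab i T) = coeff b (X i * T) - DK i (coeff b T) := by
  rw [nab, coeff_sub, OK.coeff_dC]

theorem nab_add (i : Fin 3) (T T' : MvPolynomial (Fin 3) Kf) :
    nab i (T + T') = nab i T + nab i T' := by
  ext1 b
  rw [coeff_add, coeff_nab, coeff_nab, coeff_nab, mul_add, coeff_add, coeff_add, map_add]
  abel

theorem dvg_add (T T' : Fin 3 → MvPolynomial (Fin 3) Kf) :
    dvg (T + T') = dvg T + dvg T' := by
  rw [dvg, dvg, dvg, ← Finset.sum_add_distrib]
  exact Finset.sum_congr rfl fun i _ => nab_add i _ _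

theorem nab_zero (i : Fin 3) : nab i 0 = 0 := by
  ext1 b
  rw [coeff_nab, mul_zero, coeff_zero, map_zero, sub_zero]

theorem dvg_zero : dvg (0 : Fin 3 → MvPolynomial (Fin 3) Kf) = 0 := by
  rw [dvg]
  exact Finset.sum_eq_zero fun i _ => nab_zero i

theorem coeff_dvg {T : Fin 3 → MvPolynomial (Fin 3) Kf} {F : MvPolynomial (Fin 3) Kf}
    (hF : F = ∑ k, T k * X k) (b : Fin 3 →₀ ℕ) :
    coeff b (dvg T) = coeff b F - ∑ k, DK k (coeff b (T k)) := by
  rw [dvg, coeff_sum, hF, coeff_sum, ← Finset.sum_sub_distrib]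
  refine Finset.sum_congr rfl fun k _ => ?_
  rw [coeff_nab, mul_comm]

theorem hk_sum {k : ℤ} {u : Fin 3 → Kf} (h : ∀ i, Hk k (u i)) : Hk k (∑ i, u i) := by
  rw [Fin.sum_univ_three]
  exact ((h 0).add (h 1)).add (h 2)

end DecKAux

open DecKAux

theorem decK (h : Dat f P v d n) (hQ : ∀ q, OffB b q → eval q f = 0 → QHat f q) {e : ℕ}
    {hh : MvPolynomial (Fin 3) ℂ} (he : 0 < e) (hhom : hh.IsHomogeneous e) (hh0 : hh ≠ 0)
    (hb : ∀ j, eval (b j) hh = 0) (M : ℕ) :
    ∀ G : MvPolynomial (Fin 3) Kf, (∀ q, eval q hh ≠ 0 → RegP q G) → HkP 0 G →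
      (∀ b ∈ G.support, b.degree ≤ M) → (∀ q : ℕ, PsiK (fr f ^ q) G = 0) →
      ∃ T : Fin 3 → MvPolynomial (Fin 3) Kf, (∀ k q, eval q hh ≠ 0 → RegP q (T k)) ∧
        (∀ k, HkP 1 (T k)) ∧ ∑ k, T k * C (DK k (fr f)) = 0 ∧ G = dvg T := by
  induction M with
  | zero =>
    intro G _ _ hG h0
    have h1 : G = C (coeff 0 G) := by
      ext1 b
      rw [coeff_C]
      split_ifs with hb
      · rw [← hb]
      · rw [← notMem_support_iff]
        intro hcon
        apply hb
        have := hG b hcon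
        rw [Nat.le_zero, Finsupp.degree_eq_zero_iff] at this
        exact this.symm
    have h2 := h0 0
    rw [h1, PsiK_C, pow_zero, mul_one] at h2
    refine ⟨0, fun k q _ b => ?_, fun k b => ?_, ?_, ?_⟩
    · rw [Pi.zero_apply, coeff_zero]
      exact RegAt.zero q
    · rw [Pi.zero_apply, coeff_zero]
      exact Hk.zero _
    · exact Finset.sum_eq_zero fun k _ => by rw [Pi.zero_apply, zero_mul]
    · rw [dvg_zero, h1, h2, map_zero]
  | succ M ih =>
    intro G hr hH hG h0
    set F := homogeneousComponent (M + 1) G with hFdef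
    have hf : fr f ≠ 0 := fr_ne_zero h.f0
    have hF : F.IsHomogeneous (M + 1) := homogeneousComponent_isHomogeneous _ _
    have hrF : ∀ q, eval q hh ≠ 0 → RegP q F := by
      intro q hq b
      rw [hFdef, coeff_homogeneousComponent]
      split_ifs
      · exact hr q hq b
      · exact RegAt.zero q
    have hkF : HkP 0 F := by
      intro b
      rw [hFdef, coeff_homogeneousComponent]
      split_ifs
      · exact hH b
      · exact Hk.zero _
    obtain ⟨T, hT1, hT2, hTH, hT3, hT4⟩ := lt_h h hQ he hhom hh0 hb hF hkF hrF (topK hf hG h0)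
    have hc : ∀ b, coeff b (G - dvg T) =
        coeff b G - coeff b F + ∑ k, DK k (coeff b (T k)) := by
      intro b
      rw [coeff_sub, coeff_dvg hT4]
      abel
    obtain ⟨T', hT1', hTH', hT3', hT4'⟩ := ih (G - dvg T) (by
      intro q hq b
      rw [hc]
      exact ((hr q hq b).sub (hrF q hq b)).add
        (RegAt.sum fun k _ => (hT1 k q hq b).DK k)) (by
      intro b
      rw [hc]
      refine ((hH b).sub (hkF b)).add (hk_sum fun k => ?_)
      have h1 := (hTH k b).DK k
      have e1 : (b.degree : ℤ) + 1 - 1 = b.degree + 0 := by ring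
      rwa [e1] at h1) (by
      intro b hb
      by_contra hcon
      push Not at hcon
      apply mem_support_iff.1 hb
      rw [hc, Finset.sum_eq_zero, add_zero, hFdef, coeff_homogeneousComponent]
      · split_ifs with h7
        · rw [sub_self]
        · rw [sub_zero, ← notMem_support_iff]
          intro h8
          have := hG b h8
          omega
      · intro k _
        rw [(hT2 k).coeff_eq_zero (by omega), map_zero]) (by
      intro q
      rw [PsiK_sub, h0 q, PsiK_dvg hT3, sub_zero])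
    refine ⟨T + T', fun k q hq b => ?_, fun k b => ?_, ?_, ?_⟩
    · rw [Pi.add_apply, coeff_add]
      exact (hT1 k q hq b).add (hT1' k q hq b)
    · rw [Pi.add_apply, coeff_add]
      exact (hTH k b).add (hTH' k b)
    · have h1 : ∀ k : Fin 3, (T + T') k * C (DK k (fr f)) =
          T k * C (DK k (fr f)) + T' k * C (DK k (fr f)) := by
        intro k
        rw [Pi.add_apply, add_mul]
      rw [Finset.sum_congr rfl fun k _ => h1 k, Finset.sum_add_distrib, hT3, hT3', add_zero]
    · rw [dvg_add, ← hT4']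
      abel

end MPb07157.OK
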