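import Pool.Agent.Lib.MP_b07157_agB2.EigA

/-!
# The eigenvalue argument
-/

noncomputable section

namespace MPb07157.OK

open MvPolynomial

variable {N : ℕ}

namespace EigBaux

/-- A derivation applied to the coefficients. -/
def dc (δ : Derivation ℂ Kf Kf) (p : MvPolynomial (Fin N) Kf) : MvPolynomial (Fin N) Kf :=
  ∑ v ∈ p.support, monomial v (δ (coeff v p))

theorem coeff_dc (δ : Derivation ℂ Kf Kf) (p : MvPolynomial (Fin N) Kf) (v : Fin N →₀ ℕ) :
    coeff v (dc δ p) = δ (coeff v p) := by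
  classical
  rw [dc, coeff_sum]
  by_cases hv : v ∈ p.support
  · rw [Finset.sum_eq_single v]
    · rw [coeff_monomial, if_pos rfl]
    · intro u _ hu
      rw [coeff_monomial, if_neg hu]
    · intro h
      exact absurd hv h
  · rw [Finset.sum_eq_zero]
    · rw [notMem_support_iff.1 hv, map_zero]
    · intro u hu
      rw [coeff_monomial, if_neg]
      rintro rfl
      exact hv hu

theorem dc_add (δ : Derivation ℂ Kf Kf) (p p' : MvPolynomial (Fin N) Kf) :
    dc δ (p + p') = dc δ p + dc δ p' := by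
  ext v
  rw [coeff_add, coeff_dc, coeff_dc, coeff_dc, coeff_add, map_add]

theorem dc_mul (δ : Derivation ℂ Kf Kf) (p p' : MvPolynomial (Fin N) Kf) :
    dc δ (p * p') = p * dc δ p' + p' * dc δ p := by
  classical
  ext v
  rw [coeff_add, coeff_dc, mul_comm p' (dc δ p), coeff_mul, coeff_mul, coeff_mul, map_sum,
    ← Finset.sum_add_distrib]
  refine Finset.sum_congr rfl fun x _ => ?_
  rw [coeff_dc, coeff_dc, Derivation.leibniz, smul_eq_mul, smul_eq_mul]
  ring

theorem dc_map (δ : Derivation ℂ Kf Kf) (p : MvPolynomial (Fin N) ℂ) :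
    dc δ (MvPolynomial.map (algebraMap ℂ Kf) p) = 0 := by
  ext v
  rw [coeff_dc, coeff_map, Derivation.map_algebraMap, coeff_zero]

theorem dc_lf (δ : Derivation ℂ Kf Kf) (σ : Fin N → Kf) : dc δ (lf σ) = lf fun k => δ (σ k) := by
  classical
  ext v
  rw [coeff_dc, lf, lf, coeff_sum, coeff_sum, map_sum]
  refine Finset.sum_congr rfl fun k _ => ?_
  rw [coeff_C_mul, coeff_C_mul, coeff_X]
  split_ifs
  · rw [mul_one, mul_one]
  · rw [mul_zero, mul_zero, map_zero]

/-- The derivation which kills `σ_t`. -/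
def dl (σ : Fin N → Kf) (w : MvPolynomial (Fin N) Kf) : MvPolynomial (Fin N) Kf :=
  dc (DK 1) (lf σ) * dc (DK 2) w - dc (DK 2) (lf σ) * dc (DK 1) w

theorem dl_add (σ : Fin N → Kf) (p p' : MvPolynomial (Fin N) Kf) :
    dl σ (p + p') = dl σ p + dl σ p' := by
  unfold dl
  rw [dc_add, dc_add]
  ring

theorem dl_mul (σ : Fin N → Kf) (p p' : MvPolynomial (Fin N) Kf) :
    dl σ (p * p') = p * dl σ p' + p' * dl σ p := by
  unfold dl
  rw [dc_mul, dc_mul]
  ring

theorem dl_map (σ : Fin N → Kf) (p : MvPolynomial (Fin N) ℂ) :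
    dl σ (MvPolynomial.map (algebraMap ℂ Kf) p) = 0 := by
  unfold dl
  rw [dc_map, dc_map]
  ring

theorem dl_self (σ : Fin N → Kf) : dl σ (lf σ) = 0 := by
  unfold dl
  ring

theorem dl_dvd {σ : Fin N → Kf} {w : MvPolynomial (Fin N) Kf} (h : lf σ ∣ w) :
    lf σ ∣ dl σ w := by
  obtain ⟨c, rfl⟩ := h
  rw [dl_mul, dl_self, mul_zero, add_zero]
  exact dvd_mul_right _ _

theorem dl_one (σ : Fin N → Kf) : dl σ 1 = 0 := by
  have h := dl_map σ 1
  rwa [map_one] at h

theorem dl_pow (σ : Fin N → Kf) (w : MvPolynomial (Fin N) Kf) (n : ℕ) :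
    dl σ (w ^ n) = (n : MvPolynomial (Fin N) Kf) * w ^ (n - 1) * dl σ w := by
  induction n with
  | zero => rw [pow_zero, dl_one]; simp
  | succ n ih =>
    rw [pow_succ, dl_mul, ih]
    rcases n with _ | n
    · simp
    · rw [Nat.add_sub_cancel, Nat.add_sub_cancel]
      push_cast
      ring

theorem dl_eval₂ (σ : Fin N → Kf) (w : MvPolynomial (Fin N) Kf)
    (Q : Polynomial (MvPolynomial (Fin N) ℂ)) :
    dl σ (Q.eval₂ (MvPolynomial.map (algebraMap ℂ Kf)) w) =
      Q.derivative.eval₂ (MvPolynomial.map (algebraMap ℂ Kf)) w * dl σ w := by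
  induction Q using Polynomial.induction_on' with
  | add p q hp hq =>
    rw [Polynomial.eval₂_add, dl_add, hp, hq, Polynomial.derivative_add, Polynomial.eval₂_add]
    ring
  | monomial n c =>
    rw [Polynomial.eval₂_monomial, dl_mul, dl_map, mul_zero, add_zero, dl_pow,
      Polynomial.derivative_monomial, Polynomial.eval₂_monomial, map_mul, map_natCast]
    ring

theorem dvd_dl {σ : Fin N → Kf} (hpr : Prime (lf σ))
    (hinj : ∀ p : MvPolynomial (Fin N) ℂ, lf σ ∣ MvPolynomial.map (algebraMap ℂ Kf) p → p = 0)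
    (w : MvPolynomial (Fin N) Kf) : ∀ (n : ℕ) (Q : Polynomial (MvPolynomial (Fin N) ℂ)), Q ≠ 0 →
      Q.natDegree ≤ n → lf σ ∣ Q.eval₂ (MvPolynomial.map (algebraMap ℂ Kf)) w →
      lf σ ∣ dl σ w := by
  intro n
  induction n with
  | zero =>
    intro Q hQ0 hQ hd
    exfalso
    rw [Polynomial.eq_C_of_natDegree_le_zero hQ, Polynomial.eval₂_C] at hd
    have h1 := hinj _ hd
    apply hQ0
    rw [Polynomial.eq_C_of_natDegree_le_zero hQ, h1, Polynomial.C_0]
  | succ n ih =>
    intro Q hQ0 hQ hd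
    by_cases h0 : Q.natDegree = 0
    · exact ih Q hQ0 (by omega) hd
    · have h1 := dl_dvd hd
      rw [dl_eval₂] at h1
      rcases hpr.dvd_or_dvd h1 with h2 | h2
      · refine ih Q.derivative ?_ ?_ h2
        · intro h3
          exact h0 (Polynomial.derivative_eq_zero.1 h3)
        · have := Polynomial.natDegree_derivative_lt h0
          omega
      · exact h2

theorem coeff_two (P : Fin N → MvPolynomial (Fin N) Kf) (k l : Fin N) :
    coeff (Finsupp.single k 1 + Finsupp.single l 1) (∑ j, X j * P j) =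
      coeff (Finsupp.single l 1) (P k) +
        if k = l then 0 else coeff (Finsupp.single k 1) (P l) := by
  classical
  rw [coeff_sum]
  have h1 : ∀ j, coeff (Finsupp.single k 1 + Finsupp.single l 1) (X j * P j) =
      (if j = k then coeff (Finsupp.single l 1) (P k) else 0) +
        if j = l then (if k = l then 0 else coeff (Finsupp.single k 1) (P l)) else 0 := by
    intro j
    rw [coeff_X_mul']
    by_cases hk : j = k
    · subst hk
      have h2 : j ∈ (Finsupp.single j 1 + Finsupp.single l 1 : Fin N →₀ ℕ).support := by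
        rw [Finsupp.mem_support_iff, Finsupp.add_apply, Finsupp.single_eq_same]
        omega
      rw [if_pos h2, if_pos rfl, add_tsub_cancel_left]
      by_cases hl : j = l
      · rw [if_pos hl, if_pos hl, add_zero]
      · rw [if_neg hl, add_zero]
    · by_cases hl : j = l
      · subst hl
        have h2 : j ∈ (Finsupp.single k 1 + Finsupp.single j 1 : Fin N →₀ ℕ).support := by
          rw [Finsupp.mem_support_iff, Finsupp.add_apply, Finsupp.single_eq_same]
          omega
        rw [if_pos h2, if_neg hk, if_pos rfl, if_neg (fun h => hk h.symm), zero_add,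
          add_tsub_cancel_right]
      · have h2 : j ∉ (Finsupp.single k 1 + Finsupp.single l 1 : Fin N →₀ ℕ).support := by
          rw [Finsupp.notMem_support_iff, Finsupp.add_apply,
            Finsupp.single_eq_of_ne (fun h => hk h), Finsupp.single_eq_of_ne (fun h => hl h),
            add_zero]
        rw [if_neg h2, if_neg hk, if_neg hl]
        exact (add_zero (0 : Kf)).symm
  rw [Finset.sum_congr rfl fun j _ => h1 j, Finset.sum_add_distrib, Finset.sum_ite_eq' _ k,
    Finset.sum_ite_eq' _ l, if_pos (Finset.mem_univ _), if_pos (Finset.mem_univ _)]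

theorem coeff_lf (a : Fin N → Kf) (l : Fin N) : coeff (Finsupp.single l 1) (lf a) = a l := by
  classical
  rw [lf, coeff_sum, Finset.sum_eq_single l]
  · rw [coeff_C_mul, coeff_X, if_pos rfl, mul_one]
  · intro j _ hj
    rw [coeff_C_mul, coeff_X, if_neg, mul_zero]
    intro h
    exact hj ((Finsupp.single_left_inj one_ne_zero).1 h)
  · intro h
    exact absurd (Finset.mem_univ _) h

end EigBaux

open EigBaux in
/-- `{σ_t, a_t}` is divisible by `σ_t`. -/
theorem eig_bk {σ a : Fin N → Kf} (h0 : ∃ k, σ k ≠ 0)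
    (hQ : ∃ Q : Polynomial (MvPolynomial (Fin N) ℂ), Q.Monic ∧
      lf σ ∣ (Q.map (MvPolynomial.map (algebraMap ℂ Kf))).eval (lf a))
    (hinj : ∀ p : MvPolynomial (Fin N) ℂ, lf σ ∣ MvPolynomial.map (algebraMap ℂ Kf) p → p = 0) :
    lf σ ∣ ∑ k, ∑ l, C (bk (σ k) (a l)) * X k * X l := by
  obtain ⟨Q, hQm, hQ⟩ := hQ
  rw [Polynomial.eval_map] at hQ
  have h1 := dvd_dl (prime_lf h0) hinj (lf a) Q.natDegree Q hQm.ne_zero le_rfl hQ
  have h2 : dl σ (lf a) = ∑ k, ∑ l, C (bk (σ k) (a l)) * X k * X l := by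
    rw [dl, dc_lf, dc_lf, dc_lf, dc_lf, lf, lf, lf, lf, Finset.sum_mul_sum, Finset.sum_mul_sum,
      ← Finset.sum_sub_distrib]
    refine Finset.sum_congr rfl fun k _ => ?_
    rw [← Finset.sum_sub_distrib]
    refine Finset.sum_congr rfl fun l _ => ?_
    rw [bk, C_sub, C_mul, C_mul]
    ring
  rwa [h2] at h1

theorem eig_coeff {σ a : Fin N → Kf} (h0 : ∃ k, σ k ≠ 0)
    (h : lf σ ∣ ∑ k, ∑ l, C (bk (σ k) (a l)) * X k * X l) :
    ∃ κ : Fin N → Kf, ∀ k l, bk (σ k) (a l) + bk (σ l) (a k) = σ k * κ l + σ l * κ k := by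
  obtain ⟨κ, hκ⟩ := h
  refine ⟨fun l => coeff (Finsupp.single l 1) κ, fun k l => ?_⟩
  have e1 : (∑ k, ∑ l, C (bk (σ k) (a l)) * X k * X l : MvPolynomial (Fin N) Kf) =
      ∑ k, X k * lf fun l => bk (σ k) (a l) := by
    refine Finset.sum_congr rfl fun k _ => ?_
    rw [lf, Finset.mul_sum]
    refine Finset.sum_congr rfl fun l _ => ?_
    ring
  have e2 : lf σ * κ = ∑ k, X k * (C (σ k) * κ) := by
    rw [lf, Finset.sum_mul]
    refine Finset.sum_congr rfl fun k _ => ?_
    ring
  rw [e1, e2] at hκ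
  have h1 := congrArg (coeff (Finsupp.single k 1 + Finsupp.single l 1)) hκ
  rw [EigBaux.coeff_two, EigBaux.coeff_two, EigBaux.coeff_lf, EigBaux.coeff_lf, coeff_C_mul,
    coeff_C_mul] at h1
  by_cases hkl : k = l
  · subst hkl
    rw [if_pos rfl, if_pos rfl, add_zero, add_zero] at h1
    rw [h1]
  · rw [if_neg hkl, if_neg hkl] at h1
    exact h1

theorem eig {σ a : Fin N → Kf} {c : Fin N → Fin N → Fin N → ℂ}
    (h : ∀ k l, σ l * a k - σ k * a l = ∑ j, algebraMap ℂ Kf (c k l j) * σ j)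
    {i j m : Fin N} (hne : tri (σ i) (σ j) (σ m) ≠ 0) :
    ∃ κ : Fin N → Kf, ∀ k l, bk (σ k) (a l) + bk (σ l) (a k) = σ k * κ l + σ l * κ k := by
  have hi : σ i ≠ 0 := by
    intro h0
    rw [h0, tri_zero] at hne
    exact hne rfl
  have h1 : bk (σ j / σ i) (σ m / σ i) ≠ 0 := by
    intro h0
    apply hne
    rw [← tri_div hi, h0, mul_zero]
  obtain ⟨p, hp⟩ : ∃ p : Fin 3, DK p (σ j / σ i) ≠ 0 := by
    by_contra hcon
    push Not at hcon
    apply h1
    unfold bk
    rw [hcon 1, hcon 2]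
    ring
  exact eig_coeff ⟨i, hi⟩ (eig_bk ⟨i, hi⟩ (eig_chi h ⟨i, hi⟩) fun p' hp' => eig_inj hi hp hp')

end MPb07157.OK
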