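import Pool.Agent.Lib.MP_b07157_agB2.Bk
import Mathlib.RingTheory.MvPolynomial.IrreducibleQuadratic
import Mathlib.LinearAlgebra.Matrix.Charpoly.Coeff

/-!
# The eigenvalue argument, first part
-/

noncomputable section

namespace MPb07157.OK

open MvPolynomial

variable {N : ℕ}

/-- The linear form `∑ σ_k t_k`. -/
def lf (σ : Fin N → Kf) : MvPolynomial (Fin N) Kf := ∑ k, C (σ k) * X k

namespace EigA

theorem lf_homog (σ : Fin N → Kf) : (lf σ).IsHomogeneous 1 := by
  unfold lf
  refine IsHomogeneous.sum _ _ _ fun k _ => ?_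
  simpa using (isHomogeneous_C (Fin N) (σ k)).mul (isHomogeneous_X Kf k)

theorem coeff_lf (σ : Fin N → Kf) (k : Fin N) :
    coeff (Finsupp.single k 1) (lf σ) = σ k := by
  unfold lf
  rw [coeff_sum, Finset.sum_eq_single k]
  · rw [coeff_C_mul, coeff_X, if_pos rfl, mul_one]
  · intro j _ hj
    rw [coeff_C_mul, coeff_X, if_neg, mul_zero]
    intro h
    exact hj (Finsupp.single_left_injective one_ne_zero h)
  · intro h
    exact absurd (Finset.mem_univ k) h

theorem lf_ne_zero {σ : Fin N → Kf} (h : ∃ k, σ k ≠ 0) : lf σ ≠ 0 := by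
  obtain ⟨k, hk⟩ := h
  intro h0
  apply hk
  rw [← coeff_lf σ k, h0, coeff_zero]

theorem totalDegree_lf {σ : Fin N → Kf} (h : ∃ k, σ k ≠ 0) : (lf σ).totalDegree = 1 :=
  (lf_homog σ).totalDegree (lf_ne_zero h)

/-- The coefficientwise derivative. -/
def Dc (i : Fin 3) (p : MvPolynomial (Fin N) Kf) : MvPolynomial (Fin N) Kf :=
  ∑ m ∈ p.support, monomial m (DK i (coeff m p))

theorem coeff_Dc (i : Fin 3) (p : MvPolynomial (Fin N) Kf) (m : Fin N →₀ ℕ) :
    coeff m (Dc i p) = DK i (coeff m p) := by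
  unfold Dc
  rw [coeff_sum]
  simp only [coeff_monomial]
  rw [Finset.sum_ite_eq']
  split_ifs with h
  · rfl
  · rw [notMem_support_iff.1 h, map_zero]

theorem Dc_add (i : Fin 3) (p q : MvPolynomial (Fin N) Kf) : Dc i (p + q) = Dc i p + Dc i q := by
  ext m
  rw [coeff_Dc, coeff_add, coeff_add, coeff_Dc, coeff_Dc, map_add]

theorem Dc_mul (i : Fin 3) (p q : MvPolynomial (Fin N) Kf) :
    Dc i (p * q) = p * Dc i q + q * Dc i p := by
  ext m
  rw [coeff_Dc, coeff_mul, coeff_add, coeff_mul, mul_comm q, coeff_mul, map_sum,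
    ← Finset.sum_add_distrib]
  refine Finset.sum_congr rfl fun x _ => ?_
  rw [DK_mul, coeff_Dc, coeff_Dc, mul_comm (DK i (coeff x.1 p))]

theorem Dc_map (i : Fin 3) (p : MvPolynomial (Fin N) ℂ) :
    Dc i (MvPolynomial.map (algebraMap ℂ Kf) p) = 0 := by
  ext m
  rw [coeff_Dc, coeff_map, Derivation.map_algebraMap, coeff_zero]

theorem Dc_lf (i : Fin 3) (σ : Fin N → Kf) : Dc i (lf σ) = lf fun k => DK i (σ k) := by
  ext m
  rw [coeff_Dc]
  unfold lf
  rw [coeff_sum, coeff_sum, map_sum]
  refine Finset.sum_congr rfl fun k _ => ?_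
  rw [coeff_C_mul, coeff_C_mul, coeff_X]
  split_ifs
  · rw [mul_one, mul_one]
  · rw [mul_zero, mul_zero, map_zero]

theorem totalDegree_pderiv_le (i : Fin N) (f : MvPolynomial (Fin N) ℂ) {b : ℕ}
    (hf : f.totalDegree ≤ b + 1) : (pderiv i f).totalDegree ≤ b := by
  rw [MvPolynomial.totalDegree, Finset.sup_le_iff]
  intro m hm
  rw [MvPolynomial.mem_support_iff, coeff_pderiv] at hm
  have h1 : coeff (m + Finsupp.single i 1) f ≠ 0 := left_ne_zero_of_mul hm
  have h2 := le_totalDegree (mem_support_iff.2 h1)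
  have h3 : ((m + Finsupp.single i 1).sum fun _ e => e) = (m.sum fun _ e => e) + 1 := by
    rw [Finsupp.sum_add_index' (fun _ => rfl) (fun _ _ _ => rfl), Finsupp.sum_single_index rfl]
  omega

end EigA

open EigA

theorem prime_lf {σ : Fin N → Kf} (h : ∃ k, σ k ≠ 0) : Prime (lf σ) := by
  apply Irreducible.prime
  apply irreducible_of_totalDegree_eq_one (totalDegree_lf h)
  intro x hx
  obtain ⟨k, hk⟩ := h
  have h1 := hx (Finsupp.single k 1)
  rw [coeff_lf] at h1
  rw [isUnit_iff_ne_zero]
  rintro rfl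
  exact hk (zero_dvd_iff.1 h1)

/-- `a_t` satisfies a monic equation over `ℂ[t]` modulo `σ_t`. -/
theorem eig_chi {σ a : Fin N → Kf} {c : Fin N → Fin N → Fin N → ℂ}
    (h : ∀ k l, σ l * a k - σ k * a l = ∑ j, algebraMap ℂ Kf (c k l j) * σ j)
    (h0 : ∃ k, σ k ≠ 0) : ∃ Q : Polynomial (MvPolynomial (Fin N) ℂ), Q.Monic ∧
      lf σ ∣ (Q.map (MvPolynomial.map (algebraMap ℂ Kf))).eval (lf a) := by
  set M : Matrix (Fin N) (Fin N) (MvPolynomial (Fin N) ℂ) :=
    Matrix.of fun l j => ∑ k, C (c k l j) * X k with hM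
  refine ⟨M.charpoly, M.charpoly_monic, ?_⟩
  rw [← Matrix.charpoly_map, Matrix.eval_charpoly]
  set B : Matrix (Fin N) (Fin N) (MvPolynomial (Fin N) Kf) :=
    Matrix.scalar (Fin N) (lf a) - M.map (MvPolynomial.map (algebraMap ℂ Kf)) with hB
  have hBs : B.mulVec (fun j => C (σ j)) = fun l => lf σ * C (a l) := by
    funext l
    rw [hB, Matrix.sub_mulVec]
    have e1 : (Matrix.scalar (Fin N) (lf a)).mulVec (fun j => C (σ j)) l = lf a * C (σ l) := by
      rw [Matrix.scalar_apply, Matrix.mulVec_diagonal]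
    have e2 : (M.map (MvPolynomial.map (algebraMap ℂ Kf))).mulVec (fun j => C (σ j)) l =
        ∑ k, X k * C (σ l * a k - σ k * a l) := by
      rw [Matrix.mulVec, dotProduct]
      simp only [Matrix.map_apply, hM, Matrix.of_apply, map_sum, map_mul, map_C, map_X, h,
        Finset.sum_mul, Finset.mul_sum]
      rw [Finset.sum_comm]
      refine Finset.sum_congr rfl fun k _ => Finset.sum_congr rfl fun j _ => ?_
      ring
    rw [Pi.sub_apply, e1, e2]
    unfold lf
    rw [Finset.sum_mul, Finset.sum_mul, ← Finset.sum_sub_distrib]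
    refine Finset.sum_congr rfl fun k _ => ?_
    simp only [map_sub, map_mul]
    ring
  obtain ⟨j, hj⟩ := h0
  have h1 : B.adjugate.mulVec (B.mulVec fun j => C (σ j)) j = B.det * C (σ j) := by
    rw [Matrix.mulVec_mulVec, Matrix.adjugate_mul, Matrix.smul_mulVec, Matrix.one_mulVec]
    rfl
  rw [hBs] at h1
  have h2 : lf σ ∣ B.det * C (σ j) := by
    rw [← h1, Matrix.mulVec, dotProduct]
    refine Finset.dvd_sum fun l _ => ?_
    exact ⟨B.adjugate j l * C (a l), by ring⟩
  have h3 : IsUnit (C (σ j) : MvPolynomial (Fin N) Kf) :=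
    (isUnit_iff_ne_zero.2 hj).map C
  exact (h3.dvd_mul_right).1 h2

/-- `ℂ[t]` is embedded in the ring modulo `σ_t`. -/
theorem eig_inj {σ : Fin N → Kf} {i : Fin 3} {k l : Fin N} (hl : σ l ≠ 0)
    (hD : DK i (σ k / σ l) ≠ 0) {p : MvPolynomial (Fin N) ℂ}
    (hp : lf σ ∣ MvPolynomial.map (algebraMap ℂ Kf) p) : p = 0 := by
  have hpr : Prime (lf σ) := prime_lf ⟨l, hl⟩
  have hnd : ¬ lf σ ∣ lf fun j => DK i (σ j) := by
    rintro ⟨r, hr⟩
    have hr0 : ∃ lam : Kf, (lf fun j => DK i (σ j)) = lf σ * C lam := by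
      by_cases hz : r = 0
      · exact ⟨0, by rw [hr, hz, map_zero]⟩
      · have h1 : (lf fun j => DK i (σ j)).totalDegree = 1 + r.totalDegree := by
          rw [hr, totalDegree_mul_of_isDomain hpr.ne_zero hz, totalDegree_lf ⟨l, hl⟩]
        have h2 : (lf fun j => DK i (σ j)).totalDegree ≤ 1 :=
          (lf_homog _).totalDegree_le
        have h3 : r.totalDegree = 0 := by omega
        exact ⟨coeff 0 r, by rw [hr, ← totalDegree_eq_zero_iff_eq_C.1 h3]⟩
    obtain ⟨lam, hlam⟩ := hr0
    have h4 : ∀ j, DK i (σ j) = lam * σ j := by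
      intro j
      have h5 := congrArg (coeff (Finsupp.single j 1)) hlam
      rw [coeff_lf, mul_comm, coeff_C_mul, coeff_lf] at h5
      exact h5
    apply hD
    have h6 : DK i (σ k / σ l * σ l) = lam * σ k := by
      rw [div_mul_cancel₀ _ hl, h4]
    rw [DK_mul, h4 l] at h6
    have h7 : σ l * DK i (σ k / σ l) = 0 := by
      have h8 : σ k / σ l * (lam * σ l) = lam * σ k := by
        field_simp
      linear_combination h6 - h8
    exact (mul_eq_zero.1 h7).resolve_left hl
  have key : ∀ n : ℕ, ∀ p : MvPolynomial (Fin N) ℂ, p.totalDegree ≤ n →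
      lf σ ∣ MvPolynomial.map (algebraMap ℂ Kf) p → p = 0 := by
    intro n
    induction n with
    | zero =>
      intro p hn hp
      have h1 : p = C (coeff 0 p) := totalDegree_eq_zero_iff_eq_C.1 (by omega)
      rw [h1, map_C] at hp
      by_contra hp0
      have h2 : coeff 0 p ≠ 0 := by
        intro h3
        apply hp0
        rw [h1, h3, map_zero]
      have h3 : IsUnit (C (algebraMap ℂ Kf (coeff 0 p)) : MvPolynomial (Fin N) Kf) := by
        refine IsUnit.map C (isUnit_iff_ne_zero.2 ?_)
        exact (map_ne_zero_iff _ (algebraMap ℂ Kf).injective).2 h2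
      exact hpr.not_isUnit (isUnit_of_dvd_unit hp h3)
    | succ n ih =>
      intro p hn hp
      obtain ⟨r, hr⟩ := hp
      have h1 : Dc i (MvPolynomial.map (algebraMap ℂ Kf) p) = 0 := Dc_map i p
      rw [hr, Dc_mul, Dc_lf] at h1
      have h2 : lf σ ∣ r * lf fun j => DK i (σ j) := by
        refine ⟨-Dc i r, ?_⟩
        linear_combination h1
      have h3 : lf σ ∣ r := (hpr.dvd_or_dvd h2).resolve_right hnd
      obtain ⟨r', hr'⟩ := h3
      have h4 : ∀ j, pderiv j p = 0 := by
        intro j
        apply ih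
        · exact totalDegree_pderiv_le j p hn
        · rw [← pderiv_map, hr, hr', Derivation.leibniz, Derivation.leibniz]
          simp only [smul_eq_mul]
          exact ⟨pderiv j (lf σ) * r' + lf σ * pderiv j r' + r' * pderiv j (lf σ), by ring⟩
      have h6 : p = C (coeff 0 p) := by
        ext m
        rw [coeff_C]
        split_ifs with hm
        · rw [hm]
        · by_contra hc
          obtain ⟨j, hj⟩ : ∃ j, m j ≠ 0 := by
            by_contra hcon
            push Not at hcon
            apply hm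
            ext j
            rw [hcon j]
            rfl
          have h7 := congrArg (coeff (m - Finsupp.single j 1)) (h4 j)
          have h8 : m - Finsupp.single j 1 + Finsupp.single j 1 = m := by
            ext q
            rw [Finsupp.add_apply, Finsupp.tsub_apply]
            by_cases hq : q = j
            · subst hq
              rw [Finsupp.single_eq_same]
              omega
            · rw [Finsupp.single_eq_of_ne hq]
              omega
          rw [coeff_pderiv, h8, coeff_zero] at h7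
          rcases mul_eq_zero.1 h7 with h9 | h9
          · exact hc h9
          · exact absurd h9 (Nat.cast_add_one_ne_zero _)
      refine ih p ?_ ⟨r, hr⟩
      rw [h6, totalDegree_C]
      exact Nat.zero_le _
  exact key _ p le_rfl hp

end MPb07157.OK
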