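import Pool.Agent.Lib.MP_b07157_agB2.OpD
import Pool.Agent.Lib.MP_b07157_agB2.RgA
import Pool.Agent.Lib.MP_b07157_agB2.RgB
import Pool.Agent.Lib.MP_b07157_agQ.HomDvd

/-!
# Forms vanishing at the bad points, and Hartogs off the bad points
-/

noncomputable section

namespace MPb07157.OK

open MvPolynomial

variable {r : ℕ} {b : Fin r → Fin 3 → ℂ}

namespace HarAux

/-- A linear form vanishing at `w`. -/
def lf (w : Fin 3 → ℂ) (k : Fin 3) : MvPolynomial (Fin 3) ℂ :=
  C (w (k + 1)) * X (k + 2) - C (w (k + 2)) * X (k + 1)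

theorem eval_lf (w q : Fin 3 → ℂ) (k : Fin 3) :
    eval q (lf w k) = w (k + 1) * q (k + 2) - w (k + 2) * q (k + 1) := by
  simp [lf]

theorem lf_hom (w : Fin 3 → ℂ) (k : Fin 3) : (lf w k).IsHomogeneous 1 := by
  have h : ∀ (c : ℂ) (i : Fin 3), (C c * X i : MvPolynomial (Fin 3) ℂ).IsHomogeneous 1 := by
    intro c i
    have h1 := (isHomogeneous_C (Fin 3) c).mul (isHomogeneous_X ℂ i)
    rwa [zero_add] at h1
  exact (h _ _).sub (h _ _)

theorem eval_smul_lf (w : Fin 3 → ℂ) (c : ℂ) (k : Fin 3) : eval (c • w) (lf w k) = 0 := by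
  rw [eval_lf, Pi.smul_apply, Pi.smul_apply, smul_eq_mul, smul_eq_mul]
  ring

theorem eval_smul_hom {f : MvPolynomial (Fin 3) ℂ} {e : ℕ} (h : f.IsHomogeneous e) (c : ℂ)
    (p : Fin 3 → ℂ) : eval (c • p) f = c ^ e * eval p f := by
  classical
  rw [eval_eq, eval_eq, Finset.mul_sum]
  refine Finset.sum_congr rfl fun m hm => ?_
  have h1 : m.degree = e := by
    by_contra hcon
    exact (mem_support_iff.1 hm) (h.coeff_eq_zero hcon)
  have h2 : ∏ i ∈ m.support, (c • p) i ^ m i = c ^ e * ∏ i ∈ m.support, p i ^ m i := by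
    simp only [Pi.smul_apply, smul_eq_mul, mul_pow]
    rw [Finset.prod_mul_distrib, Finset.prod_pow_eq_pow_sum, ← h1]
    rfl
  rw [h2]
  ring

theorem eval_self_lf (w : Fin 3 → ℂ) (k : Fin 3) : eval w (lf w k) = 0 := by
  rw [eval_lf]
  ring

theorem exists_smul {w q : Fin 3 → ℂ} (hw : w ≠ 0) (h : ∀ k, eval q (lf w k) = 0) :
    ∃ c : ℂ, q = c • w := by
  obtain ⟨i, hi⟩ : ∃ i, w i ≠ 0 := by
    by_contra hcon
    push Not at hcon
    exact hw (funext hcon)
  simp only [eval_lf] at h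
  have h0 := h 0
  have h1 := h 1
  have h2 := h 2
  simp only [Fin.isValue, zero_add, Fin.reduceAdd] at h0 h1 h2
  refine ⟨q i / w i, ?_⟩
  have key : ∀ j, w i * q j = q i * w j := by
    intro j
    fin_cases i <;> fin_cases j <;> simp only [Fin.isValue, Fin.zero_eta, Fin.mk_one,
      Fin.reduceFinMk] <;> first
      | ring1
      | linear_combination (h0)
      | linear_combination (h1)
      | linear_combination (h2)
      | linear_combination (-h0)
      | linear_combination (-h1)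
      | linear_combination (-h2)
  funext j
  rw [Pi.smul_apply, smul_eq_mul, div_mul_eq_mul_div, eq_div_iff hi, mul_comm, key j]

/-- A polynomial which is not a unit does not divide two linear forms with different zeros. -/
theorem not_dvd_two {p L L' : MvPolynomial (Fin 3) ℂ} {q : Fin 3 → ℂ} (hp : ¬ IsUnit p)
    (hL : L.IsHomogeneous 1) (hL0 : L ≠ 0) (h : p ∣ L) (h' : p ∣ L') (hq : eval q L = 0)
    (hq' : eval q L' ≠ 0) : False := by
  obtain ⟨c, hc⟩ := h
  obtain ⟨c', hc'⟩ := h'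
  have hp0 : p ≠ 0 := by
    rintro rfl
    exact hL0 (by rw [hc, zero_mul])
  have hc0 : c ≠ 0 := by
    rintro rfl
    exact hL0 (by rw [hc, mul_zero])
  have h1 : L.totalDegree = p.totalDegree + c.totalDegree := by
    rw [hc]
    exact totalDegree_mul_of_isDomain hp0 hc0
  have h2 : p.totalDegree ≠ 0 := by
    intro h3
    apply hp
    rw [totalDegree_eq_zero_iff_eq_C] at h3
    rw [h3]
    refine (IsUnit.mk0 _ ?_).map C
    intro h4
    apply hp0
    rw [h3, h4, C_0]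
  have h3 : L.totalDegree = 1 := hL.totalDegree hL0
  have h4 : c.totalDegree = 0 := by omega
  rw [totalDegree_eq_zero_iff_eq_C] at h4
  have h5 : coeff 0 c ≠ 0 := by
    intro h6
    apply hc0
    rw [h4, h6, C_0]
  rw [hc, h4, map_mul, eval_C] at hq
  apply hq'
  rw [hc', map_mul, (mul_eq_zero.1 hq).resolve_right h5, zero_mul]

theorem exists_lf_not_dvd {p : MvPolynomial (Fin 3) ℂ} (hp : ¬ IsUnit p) {w : Fin 3 → ℂ}
    (hw : w ≠ 0) : ∃ k, ¬ p ∣ lf w k := by
  obtain ⟨i, hi⟩ : ∃ i, w i ≠ 0 := by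
    by_contra hcon
    push Not at hcon
    exact hw (funext hcon)
  by_contra hcon
  push Not at hcon
  have e1 : i + 1 + 1 = i + 2 := by rw [add_assoc]; rfl
  have e2 : i + 1 + 2 = i := by
    fin_cases i <;> rfl
  have e3 : i + 2 + 1 = i := by
    fin_cases i <;> rfl
  have e4 : i + 2 + 2 = i + 1 := by
    fin_cases i <;> rfl
  have n1 : i + 1 ≠ i := by
    fin_cases i <;> decide
  have n2 : i + 2 ≠ i := by
    fin_cases i <;> decide
  have n3 : i + 2 ≠ i + 1 := by
    fin_cases i <;> decide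
  refine not_dvd_two (q := Pi.single (i + 1) 1) hp (lf_hom w (i + 1)) ?_ (hcon (i + 1))
    (hcon (i + 2)) ?_ ?_
  · intro h0
    have h1 : eval (Pi.single (i + 2) 1) (lf w (i + 1)) = 0 := by rw [h0, map_zero]
    rw [eval_lf, e1, e2, Pi.single_eq_same, Pi.single_eq_of_ne n2.symm, mul_zero, mul_one,
      zero_sub, neg_eq_zero] at h1
    exact hi h1
  · rw [eval_lf, e1, e2, Pi.single_eq_of_ne n1.symm, Pi.single_eq_of_ne n3, mul_zero, mul_zero,
      sub_zero]
  · rw [eval_lf, e3, e4, Pi.single_eq_same, Pi.single_eq_of_ne n1.symm, mul_zero, mul_one,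
      sub_zero]
    exact hi

theorem exists_X_not_dvd {p : MvPolynomial (Fin 3) ℂ} (hp : ¬ IsUnit p) :
    ∃ i : Fin 3, ¬ p ∣ X i := by
  by_contra hcon
  push Not at hcon
  refine not_dvd_two (q := Pi.single 1 1) hp (isHomogeneous_X ℂ (0 : Fin 3)) (X_ne_zero 0)
    (hcon 0) (hcon 1) ?_ ?_
  · rw [eval_X]
    exact Pi.single_eq_of_ne (by decide) _
  · rw [eval_X, Pi.single_eq_same]
    exact one_ne_zero

/-- The forms vanishing at the bad points. -/
def hf (b : Fin r → Fin 3 → ℂ) (s : (Fin r → Fin 3) × Fin 3) : MvPolynomial (Fin 3) ℂ :=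
  X s.2 * ∏ j, lf (b j) (s.1 j)

theorem hf_hom (b : Fin r → Fin 3 → ℂ) (s : (Fin r → Fin 3) × Fin 3) :
    (hf b s).IsHomogeneous (1 + r) := by
  refine (isHomogeneous_X ℂ s.2).mul ?_
  have h := IsHomogeneous.prod Finset.univ (fun j => lf (b j) (s.1 j)) (fun _ => 1)
    (fun j _ => lf_hom _ _)
  simpa using h

theorem hf_eval (b : Fin r → Fin 3 → ℂ) (s : (Fin r → Fin 3) × Fin 3) (j : Fin r) (c : ℂ) :
    eval (c • b j) (hf b s) = 0 := by
  rw [hf, map_mul, map_prod, Finset.prod_eq_zero (Finset.mem_univ j) (eval_smul_lf _ _ _),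
    mul_zero]

theorem hf_offB {s : (Fin r → Fin 3) × Fin 3} {q : Fin 3 → ℂ} (h : eval q (hf b s) ≠ 0) :
    OffB b q := by
  refine ⟨?_, ?_⟩
  · rintro rfl
    apply h
    rw [hf, map_mul, eval_X, Pi.zero_apply, zero_mul]
  · rintro j c rfl
    exact h (hf_eval b s j c)

theorem exists_hf (hb : ∀ j, b j ≠ 0) {q : Fin 3 → ℂ} (hq : OffB b q) :
    ∃ s, eval q (hf b s) ≠ 0 := by
  obtain ⟨i, hi⟩ : ∃ i, q i ≠ 0 := by
    by_contra hcon
    push Not at hcon
    exact hq.1 (funext hcon)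
  have h1 : ∀ j, ∃ k, eval q (lf (b j) k) ≠ 0 := by
    intro j
    by_contra hcon
    push Not at hcon
    obtain ⟨c, hc⟩ := exists_smul (hb j) hcon
    exact hq.2 j c hc
  choose k hk using h1
  refine ⟨(k, i), ?_⟩
  rw [hf, map_mul, map_prod, eval_X]
  exact mul_ne_zero hi (Finset.prod_ne_zero_iff.2 fun j _ => hk j)

end HarAux

open HarAux

/-- Forms vanishing at all `b j`, without common zero off the lines of the `b j`. -/
theorem exists_cover (hb : ∀ j, b j ≠ 0) :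
    ∃ (ι : Type) (_ : Fintype ι) (e : ℕ) (h : ι → MvPolynomial (Fin 3) ℂ), 0 < e ∧
      (∀ i, (h i).IsHomogeneous e) ∧ (∀ i j, eval (b j) (h i) = 0) ∧
      ∀ q, OffB b q → ∃ i, eval q (h i) ≠ 0 := by
  refine ⟨(Fin r → Fin 3) × Fin 3, inferInstance, 1 + r, hf b, by omega, hf_hom b, ?_,
    fun q hq => exists_hf hb hq⟩
  intro s j
  have h := hf_eval b s j 1
  rwa [one_smul] at h

/-- Functions which are regular off finitely many lines are polynomials. -/
theorem hartogs_offB (hb : ∀ j, b j ≠ 0) {g : Kf} (H : ∀ q, OffB b q → RegAt q g) :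
    ∃ a, g = fr a := by
  obtain ⟨a, β, hβ0, hg, hr, -⟩ := exists_reduced g
  have hu : IsUnit β := by
    by_contra hu
    obtain ⟨p, hp, hpb⟩ := WfDvdMonoid.exists_irreducible_factor hu hβ0
    have h1 : ∀ j, ∃ k, ¬ p ∣ lf (b j) k := fun j => exists_lf_not_dvd hp.not_isUnit (hb j)
    choose k hk using h1
    obtain ⟨i, hi⟩ := exists_X_not_dvd hp.not_isUnit
    obtain ⟨N, hN⟩ := RgA.dvd_pow_of_zeros (b := β) (h := hf b (k, i)) fun q hq =>
      (hr q).1 (H q (hf_offB hq))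
    have h2 : p ∣ hf b (k, i) := hp.prime.dvd_of_dvd_pow (hpb.trans hN)
    rcases hp.prime.dvd_or_dvd h2 with h3 | h3
    · exact hi h3
    · obtain ⟨j, -, hj⟩ := hp.prime.exists_mem_finset_dvd h3
      exact hk j hj
  obtain ⟨u, hu⟩ := isUnit_iff_exists_inv.1 hu
  refine ⟨a * u, ?_⟩
  rw [map_mul, ← hg, mul_assoc, ← map_mul, hu, map_one, mul_one]

theorem RegAt.smul {g : Kf} {k : ℤ} (hg : Hk k g) {q : Fin 3 → ℂ} (h : RegAt q g) {c : ℂ}
    (hc : c ≠ 0) : RegAt (c • q) g := by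
  obtain ⟨m, n, a, b, ha, hb, hb0, -, e⟩ := hg
  obtain ⟨α, β, hβ0, hg, hr, hab⟩ := exists_reduced g
  have h1 : a * β = α * b := by
    apply fr_injective
    rw [map_mul, map_mul, ← hg, ← e]
    ring
  have h2 : β ∣ b := by
    have h3 : β ∣ α * b := by
      rw [← h1]
      exact dvd_mul_left _ _
    exact hab.symm.dvd_of_dvd_mul_left h3
  obtain ⟨γ, hγ⟩ := h2
  rw [hγ] at hb hb0
  obtain ⟨d, hd⟩ := isHomogeneous_of_mul hb hb0
  rw [hr]
  have h3 := (hr q).1 h
  rw [eval_smul_hom hd]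
  exact mul_ne_zero (pow_ne_zero _ hc) h3

/-- A form which does not vanish at `b j` and vanishes at the other points. -/
theorem exists_sep (hbb : ∀ i j, i ≠ j → ∀ c : ℂ, b i ≠ c • b j) (j : Fin r) :
    ∃ (e : ℕ) (h : MvPolynomial (Fin 3) ℂ), h.IsHomogeneous e ∧ eval (b j) h ≠ 0 ∧
      ∀ i, i ≠ j → eval (b i) h = 0 := by
  classical
  have h1 : ∀ i, ∃ k, i ≠ j → eval (b j) (lf (b i) k) ≠ 0 := by
    intro i
    by_cases hij : i = j
    · exact ⟨0, fun h => absurd hij h⟩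
    · by_contra hcon
      push Not at hcon
      have hb : b i ≠ 0 := by
        have h2 := hbb i j hij 0
        rwa [zero_smul] at h2
      obtain ⟨c, hc⟩ := exists_smul hb fun k => (hcon k).2
      exact hbb j i (Ne.symm hij) c hc
  choose k hk using h1
  refine ⟨∑ i ∈ Finset.univ.erase j, 1, ∏ i ∈ Finset.univ.erase j, lf (b i) (k i),
    IsHomogeneous.prod _ _ _ fun i _ => lf_hom _ _, ?_, ?_⟩
  · rw [map_prod]
    exact Finset.prod_ne_zero_iff.2 fun i hi => hk i (Finset.ne_of_mem_erase hi)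
  · intro i hi
    rw [map_prod]
    exact Finset.prod_eq_zero (Finset.mem_erase.2 ⟨hi, Finset.mem_univ i⟩) (eval_self_lf _ _)

namespace HarAux

theorem exists_irreducible_zero {q : Fin 3 → ℂ} {y : MvPolynomial (Fin 3) ℂ} (hy : y ≠ 0)
    (hq : eval q y = 0) : ∃ p, Irreducible p ∧ p ∣ y ∧ eval q p = 0 := by
  obtain ⟨s, hs, u, hu⟩ := UniqueFactorizationMonoid.exists_prime_factors y hy
  have h1 : (s.map (eval q)).prod * eval q (u : MvPolynomial (Fin 3) ℂ) = 0 := by
    rw [← map_multiset_prod, ← map_mul, hu, hq]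
  have h2 : eval q (u : MvPolynomial (Fin 3) ℂ) ≠ 0 := (u.isUnit.map (eval q)).ne_zero
  have h3 := (mul_eq_zero.1 h1).resolve_right h2
  rw [Multiset.prod_eq_zero_iff, Multiset.mem_map] at h3
  obtain ⟨p, hp, hpq⟩ := h3
  refine ⟨p, (hs p hp).irreducible, ?_, hpq⟩
  rw [← hu]
  exact (Multiset.dvd_prod hp).mul_right _

end HarAux

/-- Regularity from regularity of the products with enough polynomials. -/
theorem regAt_of_mul {q : Fin 3 → ℂ} {g : Kf} (V : MvPolynomial (Fin 3) ℂ → Prop)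
    (hV : ∀ p, Irreducible p → ∃ σ, V σ ∧ ¬ p ∣ σ) (H : ∀ σ, V σ → RegAt q (fr σ * g)) :
    RegAt q g := by
  obtain ⟨x, y, hy0, hg, hr, hab⟩ := exists_reduced g
  rw [hr]
  intro hq
  obtain ⟨p, hp, hpy, hpq⟩ := exists_irreducible_zero hy0 hq
  obtain ⟨σ, hσ, hpσ⟩ := hV p hp
  obtain ⟨a', b', hb', e'⟩ := H σ hσ
  have h1 : σ * x * b' = a' * y := by
    apply fr_injective
    rw [map_mul, map_mul, map_mul, ← hg, ← e']
    ring
  have h2 : p ∣ σ * x * b' := by
    rw [h1]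
    exact hpy.mul_left _
  rcases hp.prime.dvd_or_dvd h2 with h3 | h3
  · rcases hp.prime.dvd_or_dvd h3 with h4 | h4
    · exact hpσ h4
    · exact hp.not_isUnit (hab h4 hpy)
  · obtain ⟨c, hc⟩ := h3
    apply hb'
    rw [hc, map_mul, hpq, zero_mul]

end MPb07157.OK
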