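import Pool.Agent.Lib.MP_b07157_agB2.Rg

/-!
# Multiplicities
-/

noncomputable section

namespace MPb07157.OK

open MvPolynomial

variable {q : Fin 3 → ℂ} {g g' : Kf} {k k' : ℤ}

namespace RgC

/-- Multiplicities in terms of the coefficients. -/
theorem mu_iff {b : Fin 3 → ℂ} {m : ℕ} {p : MvPolynomial (Fin 3) ℂ} :
    Mu b m p ↔ ∀ d : Fin 3 →₀ ℕ, d.degree < m → coeff d (translate b p) = 0 := by
  constructor
  · intro h d hd
    have h1 := congrArg (coeff d) (h d.degree hd)
    rw [coeff_homogeneousComponent, if_pos rfl, coeff_zero] at h1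
    exact h1
  · intro h j hj
    ext d
    rw [coeff_homogeneousComponent, coeff_zero]
    split_ifs with hd
    · exact h d (hd ▸ hj)
    · rfl

theorem translate_mul' (b : Fin 3 → ℂ) (p p' : MvPolynomial (Fin 3) ℂ) :
    translate b (p * p') = translate b p * translate b p' := by
  unfold translate
  rw [map_mul]

theorem translate_add' (b : Fin 3 → ℂ) (p p' : MvPolynomial (Fin 3) ℂ) :
    translate b (p + p') = translate b p + translate b p' := by
  unfold translate
  rw [map_add]

theorem coeff_zero_translate' (b : Fin 3 → ℂ) (q : MvPolynomial (Fin 3) ℂ) :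
    coeff 0 (translate b q) = eval b q := by
  rw [← constantCoeff_eq]
  unfold translate
  rw [aeval_def, hom_eval₂]
  simp [eval_eq', eval₂_eq']

theorem pderiv_translate' (b : Fin 3 → ℂ) (i : Fin 3) (p : MvPolynomial (Fin 3) ℂ) :
    MvPolynomial.pderiv i (translate b p) = translate b (MvPolynomial.pderiv i p) :=
  pderiv_translate b i p

theorem mu_mono {b : Fin 3 → ℂ} {m m' : ℕ} {p : MvPolynomial (Fin 3) ℂ} (hm : m' ≤ m)
    (h : Mu b m p) : Mu b m' p := fun j hj => h j (lt_of_lt_of_le hj hm)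

theorem mu_zero_left (b : Fin 3 → ℂ) (p : MvPolynomial (Fin 3) ℂ) : Mu b 0 p :=
  fun j hj => absurd hj (Nat.not_lt_zero j)

end RgC

theorem Mu.zero (b : Fin 3 → ℂ) (m : ℕ) : Mu b m 0 := by
  intro j _
  unfold translate
  rw [map_zero, map_zero]

theorem Mu.add {b : Fin 3 → ℂ} {m : ℕ} {p p' : MvPolynomial (Fin 3) ℂ} (h : Mu b m p)
    (h' : Mu b m p') : Mu b m (p + p') := by
  intro j hj
  rw [RgC.translate_add', map_add, h j hj, h' j hj, add_zero]

theorem Mu.mul {b : Fin 3 → ℂ} {m m' : ℕ} {p p' : MvPolynomial (Fin 3) ℂ} (h : Mu b m p)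
    (h' : Mu b m' p') : Mu b (m + m') (p * p') := by
  classical
  rw [RgC.mu_iff] at h h' ⊢
  intro d hd
  rw [RgC.translate_mul', coeff_mul]
  refine Finset.sum_eq_zero fun x hx => ?_
  rw [Finset.HasAntidiagonal.mem_antidiagonal] at hx
  have h1 : x.1.degree + x.2.degree = d.degree := by
    rw [← hx, map_add]
  rcases lt_or_ge x.1.degree m with h2 | h2
  · rw [h _ h2, zero_mul]
  · rw [h' x.2 (by omega), mul_zero]

theorem Mu.pderiv {b : Fin 3 → ℂ} {m : ℕ} {p : MvPolynomial (Fin 3) ℂ} (h : Mu b m p)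
    (i : Fin 3) : Mu b (m - 1) (MvPolynomial.pderiv i p) := by
  rw [RgC.mu_iff] at h ⊢
  intro d hd
  rw [← RgC.pderiv_translate', coeff_pderiv, h, zero_mul]
  have h1 : (d + Finsupp.single i 1).degree = d.degree + 1 := by
    rw [map_add, Finsupp.degree_single]
  omega

theorem Mu.of_mul {b : Fin 3 → ℂ} {m : ℕ} {p q : MvPolynomial (Fin 3) ℂ} (hq : eval b q ≠ 0)
    (h : Mu b m (p * q)) : Mu b m p := by
  classical
  rw [RgC.mu_iff] at h ⊢
  have key : ∀ N : ℕ, ∀ d : Fin 3 →₀ ℕ, d.degree < N → d.degree < m →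
      coeff d (translate b p) = 0 := by
    intro N
    induction N with
    | zero => intro d hd; exact absurd hd (Nat.not_lt_zero _)
    | succ N ih =>
      intro d hd hdm
      have h1 := h d hdm
      rw [RgC.translate_mul', coeff_mul, Finset.sum_eq_single (d, 0)] at h1
      · rw [RgC.coeff_zero_translate'] at h1
        exact (mul_eq_zero.1 h1).resolve_right hq
      · intro x hx hne
        rw [Finset.HasAntidiagonal.mem_antidiagonal] at hx
        have h2 : x.1.degree + x.2.degree = d.degree := by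
          rw [← hx, map_add]
        have h3 : x.2.degree ≠ 0 := by
          intro h0
          have h4 : x.2 = 0 := by
            rwa [Finsupp.degree_eq_zero_iff] at h0
          rw [h4, add_zero] at hx
          exact hne (Prod.ext hx h4)
        rw [ih x.1 (by omega) (by omega), zero_mul]
      · intro hx
        exact absurd (Finset.HasAntidiagonal.mem_antidiagonal.2 (add_zero d)) hx
  exact fun d hd => key (d.degree + 1) d (Nat.lt_succ_self _) hd

theorem OgR.add {b : Fin 3 → ℂ} {m : ℕ} (h : OgR b m g) (h' : OgR b m g') :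
    OgR b m (g + g') := by
  obtain ⟨p, q, hq, hp, e⟩ := h
  obtain ⟨p', q', hq', hp', e'⟩ := h'
  refine ⟨p * q' + p' * q, q * q', by rw [map_mul]; exact mul_ne_zero hq hq',
    (hp.mul (RgC.mu_zero_left b q')).add (hp'.mul (RgC.mu_zero_left b q)), ?_⟩
  rw [map_mul, map_add, map_mul, map_mul, ← e, ← e']
  ring

theorem OgR.neg {b : Fin 3 → ℂ} {m : ℕ} (h : OgR b m g) : OgR b m (-g) := by
  obtain ⟨p, q, hq, hp, e⟩ := h
  refine ⟨-p, q, hq, ?_, ?_⟩
  · intro j hj
    have h1 : translate b (-p) = -translate b p := by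
      unfold translate
      rw [map_neg]
    rw [h1, map_neg, hp j hj, neg_zero]
  · rw [map_neg, ← e]
    ring

theorem OgR.of_mul_regAt {b : Fin 3 → ℂ} {m : ℕ} {p : MvPolynomial (Fin 3) ℂ} (h : Mu b m p)
    (h' : RegAt b g) : OgR b m (fr p * g) := by
  obtain ⟨a, c, hc, e⟩ := h'
  refine ⟨p * a, c, hc, h.mul (RgC.mu_zero_left b a), ?_⟩
  rw [map_mul, ← e]
  ring

theorem mu_of_ogR {b : Fin 3 → ℂ} {m : ℕ} {p : MvPolynomial (Fin 3) ℂ} (h : OgR b m (fr p)) :
    Mu b m p := by
  obtain ⟨a, c, hc, ha, e⟩ := h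
  rw [← map_mul] at e
  have h1 : p * c = a := fr_injective e
  rw [← h1] at ha
  exact ha.of_mul hc

end MPb07157.OK
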