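import Pool.Agent.Lib.MP_b07157_agB2.ADefs
import Pool.Agent.Lib.MP_b07157_agB2.Har
import Pool.Agent.Lib.MP_b07157_agB2.RgC
import Pool.Agent.Lib.MP_b07157_agB.Vt
import Pool.Agent.Lib.MP_b07157_agQ.FinQ
import Pool.Agent.Lib.MP_b07157_agQ.NSQ

/-!
# The bad points
-/

noncomputable section

namespace MPb07157.OK

open MvPolynomial MPb07157Q

variable {l : ℕ} {f : MvPolynomial (Fin 3) ℂ} {g : Fin l → MvPolynomial (Fin 3) ℂ}
  {m : Fin l → ℕ} {d : ℕ}

namespace FinAAux

theorem qhat_smul (hh : f.IsHomogeneous d) {b : Fin 3 → ℂ} {c : ℂ} (hc : c ≠ 0)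
    (h : QHat f b) : QHat f (c • b) := by
  obtain ⟨a, ha, i, hi⟩ := h
  obtain ⟨φ, hφ⟩ : ∃ φ : MvPolynomial (Fin 3) ℂ →ₐ[ℂ] MvPolynomial (Fin 3) ℂ,
    φ = aeval fun i => C c⁻¹ * X i := ⟨_, rfl⟩
  have e1 : ∀ g, eval (c • b) (φ g) = eval b g := by
    intro g
    have h : (eval (c • b)).comp (φ : MvPolynomial (Fin 3) ℂ →+* MvPolynomial (Fin 3) ℂ) =
        eval b := by
      apply MvPolynomial.ringHom_ext
      · intro a
        simp [hφ]
      · intro i
        simp only [RingHom.comp_apply, RingHom.coe_coe, hφ, aeval_X, map_mul, eval_C, eval_X,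
          Pi.smul_apply, smul_eq_mul]
        field_simp
    exact congrArg (fun φ => φ g) h
  have e2 : ∀ i, φ (pderiv i f) = C c⁻¹ ^ (d - 1) * pderiv i f := by
    intro i
    have h1 := aeval_smul_hom (R := ℂ) (S := MvPolynomial (Fin 3) ℂ) (hh.pderiv (i := i))
      (C c⁻¹ : MvPolynomial (Fin 3) ℂ) (fun i => X i)
    rw [aeval_X_left_apply] at h1
    rw [hφ]
    exact h1
  refine ⟨fun i => φ (a i), ?_, i, ?_⟩
  · have h1 := congrArg φ ha
    rw [map_sum, map_zero] at h1
    have h2 : C c⁻¹ ^ (d - 1) * ∑ i, φ (a i) * pderiv i f = 0 := by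
      rw [Finset.mul_sum, ← h1]
      refine Finset.sum_congr rfl fun i _ => ?_
      rw [map_mul, e2]
      ring
    refine (mul_eq_zero.1 h2).resolve_left (pow_ne_zero _ ?_)
    rw [Ne, C_eq_zero]
    exact inv_ne_zero hc
  · rw [e1]
    exact hi

theorem prod_ne_zero (hf : IsFact f g m) : ∏ j, g j ≠ 0 :=
  Finset.prod_ne_zero_iff.2 fun i _ => (hf.irr i).ne_zero

theorem kills_iff (hf : IsFact f g m) (t : Fin 3 → MvPolynomial (Fin 3) ℂ) :
    ∑ i, t i * pderiv i f = 0 ↔ ∑ i, t i * vv g m i = 0 := by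
  have h1 : (∏ j, g j) * ∑ i, t i * pderiv i f = f * ∑ i, t i * vv g m i := by
    rw [Finset.mul_sum, Finset.mul_sum]
    refine Finset.sum_congr rfl fun i _ => ?_
    have h2 := prod_mul_pderiv g m i
    rw [← hf.eq] at h2
    linear_combination t i * h2
  constructor
  · intro h
    rw [h, mul_zero] at h1
    exact (mul_eq_zero.1 h1.symm).resolve_left hf.ne_zero
  · intro h
    rw [h, mul_zero] at h1
    exact (mul_eq_zero.1 h1).resolve_left (prod_ne_zero hf)

theorem qhat_of_vv (hf : IsFact f g m) {q : Fin 3 → ℂ} (h : ∃ i, eval q (vv g m i) ≠ 0) :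
    QHat f q := by
  classical
  obtain ⟨i, hi⟩ := h
  obtain ⟨j, hj⟩ : ∃ j : Fin 3, j ≠ i := exists_ne i
  refine ⟨Pi.single j (vv g m i) - Pi.single i (vv g m j), (kills_iff hf _).2 ?_, j, ?_⟩
  · simp only [Pi.sub_apply, sub_mul, Finset.sum_sub_distrib, Pi.single_apply, ite_mul,
      zero_mul, Finset.sum_ite_eq', Finset.mem_univ, if_true]
    ring
  · simpa [hj] using hi

theorem eval_prod_eq_zero (hf : IsFact f g m) {p : Fin 3 → ℂ} (h0 : eval p f = 0) :
    eval p (∏ j, g j) = 0 := by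
  rw [hf.eq] at h0
  unfold prodPow at h0
  rw [map_prod] at h0
  obtain ⟨j, -, hj⟩ := Finset.prod_eq_zero_iff.1 h0
  rw [map_pow] at hj
  rw [map_prod]
  exact Finset.prod_eq_zero (Finset.mem_univ j) ((pow_eq_zero_iff (hf.pos j).ne').1 hj)

theorem pderiv_prod_eq (hf : IsFact f g m) (i : Fin 3) :
    pderiv i (∏ j, g j) = vv g (fun _ => 1) i := by
  have h1 := prod_mul_pderiv g (fun _ => 1) i
  have h2 : prodPow g (fun _ => 1) = ∏ j, g j := by
    unfold prodPow
    simp only [pow_one]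
  rw [h2] at h1
  exact mul_left_cancel₀ (prod_ne_zero hf) h1

theorem exists_vv_ne (hf : IsFact f g m) {p : Fin 3 → ℂ} (h0 : eval p (∏ j, g j) = 0) {i : Fin 3}
    (hi : eval p (pderiv i (∏ j, g j)) ≠ 0) : eval p (vv g m i) ≠ 0 := by
  classical
  rw [pderiv_prod_eq hf, vv, map_sum] at hi
  obtain ⟨j, -, hj⟩ := Finset.exists_ne_zero_of_sum_ne_zero hi
  rw [map_mul, map_mul] at hj
  have h1 : eval p (∏ k ∈ Finset.univ.erase j, g k) ≠ 0 :=
    right_ne_zero_of_mul (left_ne_zero_of_mul hj)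
  have h2 : eval p (pderiv i (g j)) ≠ 0 := right_ne_zero_of_mul hj
  have h3 : eval p (g j) = 0 := by
    rw [← Finset.mul_prod_erase _ _ (Finset.mem_univ j), map_mul] at h0
    exact (mul_eq_zero.1 h0).resolve_right h1
  rw [vv, map_sum, Finset.sum_eq_single j]
  · rw [map_mul, map_mul, eval_C]
    exact mul_ne_zero (mul_ne_zero (Nat.cast_ne_zero.2 (hf.pos j).ne') h1) h2
  · intro k _ hk
    have h4 : eval p (∏ a ∈ Finset.univ.erase k, g a) = 0 := by
      rw [map_prod]
      exact Finset.prod_eq_zero (Finset.mem_erase.2 ⟨hk.symm, Finset.mem_univ j⟩) h3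
    rw [map_mul, map_mul, h4, mul_zero, zero_mul]
  · intro h
    exact absurd (Finset.mem_univ j) h

theorem mu_two {p : Fin 3 → ℂ} {P : MvPolynomial (Fin 3) ℂ} (h0 : eval p P = 0)
    (h1 : ∀ i, eval p (pderiv i P) = 0) : Mu p 2 P := by
  classical
  rw [RgC.mu_iff]
  intro e he
  by_cases h2 : e = 0
  · rw [h2, RgC.coeff_zero_translate', h0]
  · obtain ⟨i, hi⟩ : ∃ i, e i ≠ 0 := by
      by_contra hcon
      push Not at hcon
      exact h2 (Finsupp.ext hcon)
    have h3 : Finsupp.single i 1 ≤ e := by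
      rw [Finsupp.single_le_iff]
      omega
    have h4 : (e - Finsupp.single i 1) + Finsupp.single i 1 = e := tsub_add_cancel_of_le h3
    have h5 : (e - Finsupp.single i 1).degree + 1 = e.degree := by
      conv_rhs => rw [← h4]
      rw [map_add, Finsupp.degree_single]
    have h6 : e - Finsupp.single i 1 = 0 := by
      rw [← Finsupp.degree_eq_zero_iff]
      omega
    rw [h6, zero_add] at h4
    have h7 : coeff 0 (translate p (pderiv i P)) = 0 := by
      rw [RgC.coeff_zero_translate', h1]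
    rw [← pderiv_translate, coeff_pderiv, zero_add] at h7
    rw [← h4]
    refine (mul_eq_zero.1 h7).resolve_right ?_
    simp

theorem totalDegree_translate_le (p : Fin 3 → ℂ) {P : MvPolynomial (Fin 3) ℂ} {n : ℕ}
    (hP : P.IsHomogeneous n) : (translate p P).totalDegree ≤ n := by
  classical
  unfold translate
  rw [aeval_def, eval₂_eq']
  refine totalDegree_finsetSum_le fun e he => ?_
  refine (totalDegree_mul _ _).trans ?_
  have h1 : (algebraMap ℂ (MvPolynomial (Fin 3) ℂ) (coeff e P)).totalDegree = 0 := by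
    rw [algebraMap_eq, totalDegree_C]
  rw [h1, zero_add]
  refine (totalDegree_finsetProd _ _).trans ?_
  have h2 : ∑ i, e i = n := by
    have h3 := hP (mem_support_iff.1 he)
    rw [← h3, Finsupp.weight_apply, Finsupp.sum_fintype _ _ (fun i => by simp)]
    simp
  rw [← h2]
  refine Finset.sum_le_sum fun i _ => ?_
  refine (totalDegree_pow _ _).trans ?_
  have h3 : (X i + C (p i) : MvPolynomial (Fin 3) ℂ).totalDegree ≤ 1 := by
    refine (totalDegree_add _ _).trans ?_
    rw [totalDegree_C, totalDegree_X]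
    simp
  calc e i * (X i + C (p i) : MvPolynomial (Fin 3) ℂ).totalDegree ≤ e i * 1 :=
        Nat.mul_le_mul_left _ h3
    _ = e i := mul_one _

/-- A homogeneous polynomial with maximal multiplicity at `p` is invariant in the
direction `p`. -/
theorem dir_of_mu {p : Fin 3 → ℂ} {P : MvPolynomial (Fin 3) ℂ} {n : ℕ}
    (hP : P.IsHomogeneous n) (hM : Mu p n P) : ∑ i, C (p i) * pderiv i P = 0 := by
  classical
  have hQ : (translate p P).IsHomogeneous n := by
    intro e he
    have h1 : e.degree ≤ n :=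
      (le_totalDegree (mem_support_iff.2 he)).trans (totalDegree_translate_le p hP)
    have h2 : ¬ e.degree < n := fun h => he (RgC.mu_iff.1 hM e h)
    have h3 : e.degree = n := by omega
    rw [← h3]
    exact (DFunLike.congr_fun Finsupp.degree_eq_weight_one e).symm
  have h1 := hQ.sum_X_mul_pderiv
  have h2 := congrArg (translate p) hP.sum_X_mul_pderiv
  have h3 : translate p (∑ i, X i * pderiv i P) =
      ∑ i, (X i + C (p i)) * translate p (pderiv i P) := by
    unfold translate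
    rw [map_sum]
    refine Finset.sum_congr rfl fun i _ => ?_
    rw [map_mul, aeval_X]
  have h4 : translate p (n • P) = n • translate p P := by
    unfold translate
    rw [map_nsmul]
  have h5 : translate p (∑ i, C (p i) * pderiv i P) =
      ∑ i, C (p i) * translate p (pderiv i P) := by
    unfold translate
    rw [map_sum]
    refine Finset.sum_congr rfl fun i _ => ?_
    rw [map_mul, aeval_C]
    rfl
  rw [h3, h4, ← h1] at h2
  simp only [pderiv_translate, add_mul, Finset.sum_add_distrib] at h2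
  by_contra h6
  apply translate_ne_zero h6 p
  rw [h5]
  linear_combination h2

theorem not_dvd_erase (hf : IsFact f g m) (j : Fin l) :
    ¬ g j ∣ ∏ k ∈ Finset.univ.erase j, g k := by
  intro h
  obtain ⟨k, hk, h11⟩ := (Prime.dvd_finsetProd_iff (hf.irr j).prime _).1 h
  exact hf.ne j k (Finset.ne_of_mem_erase hk).symm
    ((hf.irr j).associated_of_dvd (hf.irr k) h11)

theorem sum_vv (p : Fin 3 → ℂ) (m : Fin l → ℕ) : ∑ i, C (p i) * vv g m i =
    ∑ j, C (m j : ℂ) * (∏ k ∈ Finset.univ.erase j, g k) * ∑ i, C (p i) * pderiv i (g j) := by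
  simp only [vv, Finset.mul_sum]
  rw [Finset.sum_comm]
  refine Finset.sum_congr rfl fun j _ => Finset.sum_congr rfl fun i _ => ?_
  ring

theorem dir_factor (hf : IsFact f g m) (hh : f.IsHomogeneous d) {p : Fin 3 → ℂ}
    (h : ∑ i, C (p i) * pderiv i (∏ j, g j) = 0) (j : Fin l) :
    ∑ i, C (p i) * pderiv i (g j) = 0 := by
  classical
  obtain ⟨e, he, hg⟩ := hf.exists_degree hh j
  have h1 : ∑ i, C (p i) * pderiv i (∏ j, g j) = ∑ i, C (p i) * vv g (fun _ => 1) i :=
    Finset.sum_congr rfl fun i _ => by rw [pderiv_prod_eq hf]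
  rw [h1, sum_vv, ← Finset.sum_erase_add _ _ (Finset.mem_univ j)] at h
  have h2 : g j ∣ ∑ a ∈ Finset.univ.erase j, C ((fun _ => 1 : Fin l → ℕ) a : ℂ) *
      (∏ k ∈ Finset.univ.erase a, g k) * ∑ i, C (p i) * pderiv i (g a) := by
    refine Finset.dvd_sum fun a ha => ?_
    refine Dvd.dvd.mul_right (Dvd.dvd.mul_left ?_ _) _
    exact Finset.dvd_prod_of_mem _ (Finset.mem_erase.2 ⟨(Finset.ne_of_mem_erase ha).symm,
      Finset.mem_univ _⟩)
  have h3 : g j ∣ C ((fun _ => 1 : Fin l → ℕ) j : ℂ) *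
      (∏ k ∈ Finset.univ.erase j, g k) * ∑ i, C (p i) * pderiv i (g j) := by
    refine (dvd_add_right h2).1 ?_
    rw [h]
    exact dvd_zero _
  rw [Nat.cast_one, C_1, one_mul] at h3
  have h4 : g j ∣ ∑ i, C (p i) * pderiv i (g j) :=
    ((hf.irr j).prime.dvd_or_dvd h3).resolve_left (not_dvd_erase hf j)
  by_contra h5
  have h6 := totalDegree_le_of_dvd_of_isDomain h4 h5
  have h7 : (∑ i, C (p i) * pderiv i (g j)).IsHomogeneous (e - 1) := by
    refine IsHomogeneous.sum _ _ _ fun i _ => ?_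
    have h8 := (isHomogeneous_C (Fin 3) (p i)).mul (hg.pderiv (i := i))
    rwa [zero_add] at h8
  rw [hg.totalDegree (hf.irr j).ne_zero, h7.totalDegree h5] at h6
  omega

theorem not_NS (hf : IsFact f g m) (hh : f.IsHomogeneous d) {p : Fin 3 → ℂ} (hp : p ≠ 0)
    (h : ∑ i, C (p i) * pderiv i (∏ j, g j) = 0) : ¬ NS f := by
  classical
  intro hNS
  have h1 : ∑ i, C (p i) * pderiv i f = 0 := by
    rw [kills_iff hf, sum_vv]
    refine Finset.sum_eq_zero fun j _ => ?_
    rw [dir_factor hf hh h j, mul_zero]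
  obtain ⟨s, hs⟩ : ∃ s, p s ≠ 0 := by
    by_contra hcon
    push Not at hcon
    exact hp (funext hcon)
  have h2 := hNS (fun i => X s * C (p i)) (fun i => by
      have h3 := (isHomogeneous_X ℂ s).mul (isHomogeneous_C (Fin 3) (p i))
      rwa [add_zero] at h3) (by
      have h3 : ∑ i, X s * C (p i) * pderiv i f = X s * ∑ i, C (p i) * pderiv i f := by
        rw [Finset.mul_sum]
        exact Finset.sum_congr rfl fun i _ => by ring
      rw [h3, h1, mul_zero])
  rw [Finset.sum_eq_single s] at h2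
  · rw [Derivation.leibniz, pderiv_C, smul_zero, zero_add, pderiv_X_self, smul_eq_mul,
      mul_one, C_eq_zero] at h2
    exact hs h2
  · intro i _ hi
    rw [Derivation.leibniz, pderiv_C, smul_zero, zero_add, pderiv_X_of_ne hi.symm, smul_zero]
  · intro h3
    exact absurd (Finset.mem_univ s) h3

end FinAAux

/-- The points which are not quasi-homogeneous. -/
theorem exists_bad (hf : IsFact f g m) (hd : 0 < d) (hh : f.IsHomogeneous d) :
    ∃ (r : ℕ) (b : Fin r → Fin 3 → ℂ), (∀ j, b j ≠ 0) ∧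
      (∀ i j, i ≠ j → ∀ c : ℂ, b i ≠ c • b j) ∧
      (∀ j, eval (b j) f = 0 ∧ ¬ QHat f (b j)) ∧
      ∀ q, OffB b q → eval q f = 0 → QHat f q := by
  classical
  choose e he hg using hf.exists_degree hh
  obtain ⟨P, hP1, hP2, hP3⟩ := exists_finset_lines (v := vv g m)
    (fun i => ⟨_, vv_isHomogeneous he hg i⟩) (by
      by_contra hcon
      push Not at hcon
      exact not_isUnit_zero (vv_coprime hf hd hh (q := 0) (fun i => by rw [hcon i]))) (by
      intro q hq
      by_contra hcon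
      push Not at hcon
      exact hq.not_isUnit (vv_coprime hf hd hh hcon))
  obtain ⟨B, hB⟩ : ∃ B : Finset (Fin 3 → ℂ),
    B = P.filter (fun b => eval b f = 0 ∧ ¬ QHat f b) := ⟨_, rfl⟩
  have hmem : ∀ b, b ∈ B ↔ b ∈ P ∧ eval b f = 0 ∧ ¬ QHat f b := by
    intro b
    rw [hB, Finset.mem_filter]
  refine ⟨B.card, fun j => (B.equivFin.symm j : Fin 3 → ℂ), fun j => ?_, fun i j hij c hc => ?_,
    fun j => ?_, fun q hq h0 => ?_⟩
  · exact (hP1 _ ((hmem _).1 (B.equivFin.symm j).2).1).1
  · have h1 := hP2 _ ((hmem _).1 (B.equivFin.symm j).2).1 _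
      ((hmem _).1 (B.equivFin.symm i).2).1 c hc
    exact hij (B.equivFin.symm.injective (Subtype.ext h1))
  · exact ((hmem _).1 (B.equivFin.symm j).2).2
  · by_contra hQ
    obtain ⟨hq0, hqB⟩ := hq
    by_cases hv : ∃ i, eval q (vv g m i) ≠ 0
    · exact hQ (FinAAux.qhat_of_vv hf hv)
    · push Not at hv
      obtain ⟨b, hb, c, hc, hbc⟩ := hP3 q hq0 hv
      have hbB : b ∈ B := by
        rw [hmem]
        refine ⟨hb, ?_, fun h => hQ ?_⟩
        · rw [hbc, eval_smul_of_isHomogeneous hh] at h0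
          exact (mul_eq_zero.1 h0).resolve_left (pow_ne_zero _ hc)
        · rw [hbc]
          exact FinAAux.qhat_smul hh hc h
      refine hqB (B.equivFin ⟨b, hbB⟩) c ?_
      show q = c • (B.equivFin.symm (B.equivFin ⟨b, hbB⟩) : Fin 3 → ℂ)
      rw [hbc, Equiv.symm_apply_apply]

/-- The multiplicity of the reduced curve at a point which is not quasi-homogeneous. -/
theorem exists_mu (hf : IsFact f g m) (hd : 0 < d) (hh : f.IsHomogeneous d) (hNS : NS f)
    {p : Fin 3 → ℂ} (hp : p ≠ 0) (h0 : eval p f = 0) (hQ : ¬ QHat f p) {n : ℕ}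
    (hn : (∏ j, g j).IsHomogeneous n) : ∃ μ, 2 ≤ μ ∧ μ < n ∧ Mu p μ (∏ j, g j) ∧
      ¬ Mu p (μ + 1) (∏ j, g j) := by
  classical
  have hex : ∃ j, homogeneousComponent j (translate p (∏ j, g j)) ≠ 0 := by
    by_contra hcon
    push Not at hcon
    apply translate_ne_zero (FinAAux.prod_ne_zero hf) p
    rw [← sum_homogeneousComponent (translate p (∏ j, g j))]
    exact Finset.sum_eq_zero fun j _ => hcon j
  have hspec := Nat.find_spec hex
  have hMu : Mu p (Nat.find hex) (∏ j, g j) := fun j hj => not_not.1 (Nat.find_min hex hj)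
  refine ⟨Nat.find hex, ?_, ?_, hMu, fun h => hspec (h _ (Nat.lt_succ_self _))⟩
  · by_contra hcon
    push Not at hcon
    refine hspec (FinAAux.mu_two (FinAAux.eval_prod_eq_zero hf h0) (fun i => ?_) _ hcon)
    by_contra h1
    exact hQ (FinAAux.qhat_of_vv hf
      ⟨i, FinAAux.exists_vv_ne hf (FinAAux.eval_prod_eq_zero hf h0) h1⟩)
  · by_contra hcon
    push Not at hcon
    exact FinAAux.not_NS hf hh hp
      (FinAAux.dir_of_mu hn fun j hj => hMu j (lt_of_lt_of_le hj hcon)) hNS

theorem squarefree_prod (hf : IsFact f g m) : Squarefree (∏ j, g j) := by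
  classical
  refine Finset.squarefree_prod_of_pairwise_isCoprime ?_ fun i _ => (hf.irr i).squarefree
  intro i _ j _ hij
  show IsRelPrime (g i) (g j)
  rw [(hf.irr i).isRelPrime_iff_not_dvd]
  exact fun h => hf.ne i j hij ((hf.irr i).associated_of_dvd (hf.irr j) h)

/-- The initial form at an ordinary multiple point is squarefree. -/
theorem sq_init (hf : IsFact f g m) (hd : 0 < d) (hh : f.IsHomogeneous d) {p : Fin 3 → ℂ}
    (ho : OrdAt f d p) {μ : ℕ} (hμ : Mu p μ (∏ j, g j)) (hμ' : ¬ Mu p (μ + 1) (∏ j, g j)) :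
    Squarefree (homogeneousComponent μ (translate p (∏ j, g j))) := by
  classical
  obtain ⟨⟨F, k, μ₀, hs, h1, h2, h3, h4⟩, -⟩ := ho
  obtain ⟨c, hc, hF⟩ := OB.eq_of_squarefree hf hs h1 h2
  have h3' : Mu p μ₀ (∏ j, g j) := by
    intro j hj
    have h5 := h3 j hj
    rw [hF, OB.translate_C_mul, homogeneousComponent_C_mul] at h5
    exact (mul_eq_zero.1 h5).resolve_left (fun h0 => hc (C_eq_zero.1 h0))
  have h4' : Squarefree (homogeneousComponent μ₀ (translate p (∏ j, g j))) := by
    rw [hF, OB.translate_C_mul, homogeneousComponent_C_mul] at h4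
    exact OB.squarefree_C_mul h4
  have h5 : μ₀ = μ := by
    rcases lt_trichotomy μ₀ μ with h | h | h
    · exact absurd (hμ _ h) h4'.ne_zero
    · exact h
    · exact absurd (fun j hj => h3' j (by omega)) hμ'
  rw [← h5]
  exact h4'

end MPb07157.OK
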