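import Pool.Agent.Lib.MP_b07157_agB2.Loc2
import Pool.Agent.Lib.MP_b07157_agB2.Cous

/-!
# Global functions
-/

noncomputable section

namespace MPb07157.OK

open MvPolynomial

/-- The forms of degree `n - 3` with multiplicity at least `μ j - 3` at the points `b j`. -/
def Vf {r : ℕ} (n : ℕ) (μ : Fin r → ℕ) (b : Fin r → Fin 3 → ℂ) (σ : MvPolynomial (Fin 3) ℂ) :
    Prop := σ.IsHomogeneous (n - 3) ∧ ∀ j, Mu (b j) (μ j - 3) σ

variable {r n : ℕ} {f : MvPolynomial (Fin 3) ℂ} {v : Fin 3 → MvPolynomial (Fin 3) ℂ}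
  {b : Fin r → Fin 3 → ℂ} {c : ℂ} {t : Fin 3 → Kf} {Sec : (Fin 3 → ℂ) → Kf → Prop}

/-- The function `a` for `σ`. -/
structure Ga (n : ℕ) (b : Fin r → Fin 3 → ℂ) (Sec : (Fin 3 → ℂ) → Kf → Prop)
    (s : Fin r → MvPolynomial (Fin 3) ℂ → Kf) (σ : MvPolynomial (Fin 3) ℂ) (a : Kf) : Prop where
  hk : Hk 0 a
  reg : ∀ q G, OffB b q → Sec q G → RegAt q (fr σ * G - a)
  loc : ∀ j, RegAt (b j) (a - s j σ)

namespace GlobAux

/-- The value of a form at a multiple of a point. -/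
theorem eval_smul {p : MvPolynomial (Fin 3) ℂ} {e : ℕ} (h : p.IsHomogeneous e) (c : ℂ)
    (q : Fin 3 → ℂ) : eval (c • q) p = c ^ e * eval q p := by
  rw [eval_eq', eval_eq', Finset.mul_sum]
  refine Finset.sum_congr rfl fun m hm => ?_
  have h1 : ∑ i, m i = e := by
    have h2 := h (mem_support_iff.1 hm)
    rw [← h2]
    simp [Finsupp.weight_apply, Finsupp.sum_fintype]
  have h3 : ∏ i, (c • q) i ^ m i = c ^ e * ∏ i, q i ^ m i := by
    rw [← h1, ← Finset.prod_pow_eq_pow_sum, ← Finset.prod_mul_distrib]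
    refine Finset.prod_congr rfl fun i _ => ?_
    rw [Pi.smul_apply, smul_eq_mul, mul_pow]
  rw [h3]
  ring

theorem eval_zero_eq {p : MvPolynomial (Fin 3) ℂ} {e : ℕ} (h : p.IsHomogeneous e)
    (q : Fin 3 → ℂ) : eval (0 : Fin 3 → ℂ) p = 0 ^ e * eval q p := by
  rw [← eval_smul h 0 q, zero_smul]

/-- A form of positive degree which vanishes at all `b j` does not vanish only at points off the
lines. -/
theorem offB_of_ne {p : MvPolynomial (Fin 3) ℂ} {e : ℕ} (he : 0 < e) (h : p.IsHomogeneous e)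
    {r : ℕ} {b : Fin r → Fin 3 → ℂ} (hb : ∀ j, eval (b j) p = 0) {q : Fin 3 → ℂ}
    (hq : eval q p ≠ 0) : OffB b q := by
  refine ⟨?_, ?_⟩
  · rintro rfl
    exact hq (by rw [eval_zero_eq h 0, zero_pow he.ne', zero_mul])
  · rintro j c rfl
    exact hq (by rw [eval_smul h, hb, mul_zero])

/-- The same for two forms which vanish at all the other `b i`. -/
theorem offB_of_two {r : ℕ} {b : Fin r → Fin 3 → ℂ} {p p' : MvPolynomial (Fin 3) ℂ} {e e' : ℕ}
    (h : p.IsHomogeneous e) (h' : p'.IsHomogeneous e') {j j' : Fin r} (hj : j ≠ j')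
    (hp : ∀ i, i ≠ j → eval (b i) p = 0) (hp' : ∀ i, i ≠ j' → eval (b i) p' = 0)
    {q : Fin 3 → ℂ} (hq : eval q p ≠ 0) (hq' : eval q p' ≠ 0) : OffB b q := by
  refine ⟨?_, ?_⟩
  · rintro rfl
    apply hq
    rw [eval_zero_eq h (b j'), hp j' (Ne.symm hj), mul_zero]
  · rintro i c rfl
    by_cases hi : i = j
    · apply hq'
      rw [eval_smul h', hp' i (by rw [hi]; exact hj), mul_zero]
    · apply hq
      rw [eval_smul h, hp i hi, mul_zero]

end GlobAux

theorem glob_a (hn : 3 ≤ n) (hS : Sol f v n b c t Sec) (hb : ∀ j, b j ≠ 0)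
    (hbb : ∀ i j, i ≠ j → ∀ c : ℂ, b i ≠ c • b j) {μ : Fin r → ℕ}
    {e : Fin r → MvPolynomial (Fin 3) ℂ} {s : Fin r → MvPolynomial (Fin 3) ℂ → Kf}
    (hL : ∀ j, LS b n (μ j) j Sec (e j) (s j)) {σ : MvPolynomial (Fin 3) ℂ} (hσ : Vf n μ b σ) :
    ∃ a, Ga n b Sec s σ a := by
  classical
  have hW : ∀ j, Wf n (μ j) (b j) σ := fun j => ⟨hσ.1, hσ.2 j⟩
  obtain ⟨ι, hι, e₀, h, he₀, hh, hhb, hcov⟩ := exists_cover hb
  have hg : ∀ i, ∃ g, Hk (3 - n) g ∧ ∀ q, eval q (h i) ≠ 0 → Sec q g := by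
    intro i
    by_cases hi : h i = 0
    · exact ⟨0, Hk.zero _, fun q hq => absurd (by rw [hi, map_zero]) hq⟩
    · exact hS.ex e₀ (h i) he₀ (hh i) hi (hhb i)
  choose g hg1 hg2 using hg
  have hoff : ∀ i q, eval q (h i) ≠ 0 → OffB b q := fun i q hq =>
    GlobAux.offB_of_ne he₀ (hh i) (hhb i) hq
  have hsec : ∀ q, OffB b q → ∃ i, eval q (h i) ≠ 0 ∧ Sec q (g i) := by
    intro q hq
    obtain ⟨i, hi⟩ := hcov q hq
    exact ⟨i, hi, hg2 i q hi⟩
  have hdeg : ((n - 3 : ℕ) : ℤ) + (3 - n) = 0 := by omega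
  have hji : ∀ j i q, eval q (e j) ≠ 0 → eval q (h i) ≠ 0 → RegAt q (fr σ * g i - s j σ) :=
    fun j i q h1 h2 => (hL j).reg σ (hW j) q (g i) h1 (hoff i q h2) (hg2 i q h2)
  obtain ⟨G, hG, hG'⟩ := cousin (κ := 0) (ι := Fin r ⊕ ι) (Sum.elim e h)
    (by
      rintro (j | i)
      · exact (hL j).he
      · exact ⟨e₀, hh i⟩)
    (Sum.elim (fun j => s j σ) (fun i => fr σ * g i))
    (by
      rintro (j | i)
      · exact (hL j).hk σ (hW j)
      · have h1 := (Hk.fr hσ.1).mul (hg1 i)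
        rw [hdeg] at h1
        exact h1)
    (by
      intro q hq
      by_cases hoffq : OffB b q
      · obtain ⟨i, hi⟩ := hcov q hoffq
        exact ⟨Sum.inr i, hi⟩
      · have h1 : ∃ j, ∃ c' : ℂ, q = c' • b j := by
          by_contra hcon
          push Not at hcon
          exact hoffq ⟨hq, hcon⟩
        obtain ⟨j, c', rfl⟩ := h1
        refine ⟨Sum.inl j, ?_⟩
        obtain ⟨k, hk⟩ := (hL j).he
        change eval (c' • b j) (e j) ≠ 0
        rw [GlobAux.eval_smul hk]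
        refine mul_ne_zero (pow_ne_zero _ ?_) (hL j).e0
        rintro rfl
        exact hq (zero_smul _ _))
    (by
      rintro (j | i) (j' | i') q h1 h2
      · change RegAt q (s j σ - s j' σ)
        by_cases hjj : j = j'
        · rw [hjj, sub_self]
          exact RegAt.zero q
        · obtain ⟨k, hk⟩ := (hL j).he
          obtain ⟨k', hk'⟩ := (hL j').he
          have hoffq : OffB b q := GlobAux.offB_of_two hk hk' hjj (hL j).ei (hL j').ei h1 h2
          obtain ⟨i, -, hi⟩ := hsec q hoffq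
          have h3 := ((hL j').reg σ (hW j') q (g i) h2 hoffq hi).sub
            ((hL j).reg σ (hW j) q (g i) h1 hoffq hi)
          have e1 : s j σ - s j' σ = fr σ * g i - s j' σ - (fr σ * g i - s j σ) := by ring
          rw [e1]
          exact h3
      · change RegAt q (s j σ - fr σ * g i')
        have h3 := (hji j i' q h1 h2).neg
        rwa [neg_sub] at h3
      · exact hji j' i q h2 h1
      · change RegAt q (fr σ * g i - fr σ * g i')
        rw [← mul_sub]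
        exact (RegAt.fr q σ).mul (hS.uniq q _ _ (hg2 i q h1) (hg2 i' q h2)))
  refine ⟨G, hG, fun q G' hq hG'' => ?_, fun j => hG' (Sum.inl j) (b j) (hL j).e0⟩
  obtain ⟨i, hi, hi'⟩ := hsec q hq
  have h1 : RegAt q (G - fr σ * g i) := hG' (Sum.inr i) q hi
  have h2 : RegAt q (fr σ * (G' - g i)) := (RegAt.fr q σ).mul (hS.uniq q _ _ hG'' hi')
  have e1 : fr σ * G' - G = fr σ * (G' - g i) - (G - fr σ * g i) := by ring
  rw [e1]
  exact h2.sub h1

theorem glob_P (hn : 3 ≤ n) (hS : Sol f v n b c t Sec) (hb : ∀ j, b j ≠ 0)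
    (hbb : ∀ i j, i ≠ j → ∀ c : ℂ, b i ≠ c • b j) {μ : Fin r → ℕ}
    {e : Fin r → MvPolynomial (Fin 3) ℂ} {s : Fin r → MvPolynomial (Fin 3) ℂ → Kf}
    (hL : ∀ j, LS b n (μ j) j Sec (e j) (s j)) {σ τ : MvPolynomial (Fin 3) ℂ}
    (hσ : Vf n μ b σ) (hτ : Vf n μ b τ) {a a' : Kf} (ha : Ga n b Sec s σ a)
    (ha' : Ga n b Sec s τ a') : ∃ p, Vf n μ b p ∧ fr p = fr τ * a - fr σ * a' := by
  classical
  obtain ⟨ι, hι, e₀, h, he₀, hh, hhb, hcov⟩ := exists_cover hb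
  obtain ⟨p, hp⟩ : ∃ p, fr τ * a - fr σ * a' = fr p := by
    refine hartogs_offB hb fun q hq => ?_
    obtain ⟨i, hi⟩ := hcov q hq
    have hi0 : h i ≠ 0 := by
      intro h0
      rw [h0, map_zero] at hi
      exact hi rfl
    obtain ⟨G, -, hG⟩ := hS.ex e₀ (h i) he₀ (hh i) hi0 (hhb i)
    have h1 := ((RegAt.fr q σ).mul (ha'.reg q G hq (hG q hi))).sub
      ((RegAt.fr q τ).mul (ha.reg q G hq (hG q hi)))
    have e1 : fr τ * a - fr σ * a' =
        fr σ * (fr τ * G - a') - fr τ * (fr σ * G - a) := by ring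
    rw [e1]
    exact h1
  refine ⟨p, ⟨?_, fun j => ?_⟩, hp.symm⟩
  · by_cases hp0 : p = 0
    · rw [hp0]
      exact isHomogeneous_zero _ _ _
    · have h1 : Hk (((n - 3 : ℕ) : ℤ) + 0) (fr p) := by
        rw [← hp]
        exact ((Hk.fr hτ.1).mul ha.hk).sub ((Hk.fr hσ.1).mul ha'.hk)
      obtain ⟨m, hm, hm'⟩ := isHomogeneous_of_hk hp0 h1
      have e1 : m = n - 3 := by omega
      rwa [e1] at hm'
  · refine mu_of_ogR ?_
    have h1 := OgR.of_mul_regAt (hτ.2 j) (ha.loc j)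
    have h2 := (OgR.of_mul_regAt (hσ.2 j) (ha'.loc j)).neg
    have h3 := (hL j).og σ τ ⟨hσ.1, hσ.2 j⟩ ⟨hτ.1, hτ.2 j⟩
    have e1 : fr p = fr τ * (a - s j σ) + -(fr σ * (a' - s j τ)) +
        (fr τ * s j σ - fr σ * s j τ) := by
      rw [← hp]
      ring
    rw [e1]
    exact (h1.add h2).add h3

end MPb07157.OK
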