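import Pool.Agent.Lib.MP_b07157_agB2.HesB
import Pool.Agent.Lib.MP_b07157_agB2.Bk
import Pool.Agent.Lib.MP_b07157_agB2.Glob

/-!
# The third partial derivatives
-/

noncomputable section

namespace MPb07157.OK

open MvPolynomial

variable {r n : ℕ} {P : MvPolynomial (Fin 3) ℂ} {b : Fin r → Fin 3 → ℂ} {μ : Fin r → ℕ}

theorem vf_third (hP : P.IsHomogeneous n) (hμ : ∀ j, Mu (b j) (μ j) P) (i j k : Fin 3) :
    Vf n μ b (pderiv i (pderiv j (pderiv k P))) := by
  constructor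
  · have h := ((hP.pderiv (i := k)).pderiv (i := j)).pderiv (i := i)
    have e : n - 1 - 1 - 1 = n - 3 := by omega
    rwa [e] at h
  · intro l
    have h := (((hμ l).pderiv k).pderiv j).pderiv i
    have e : μ l - 1 - 1 - 1 = μ l - 3 := by omega
    rwa [e] at h

theorem Vf.add {x y : MvPolynomial (Fin 3) ℂ} (hx : Vf n μ b x) (hy : Vf n μ b y) :
    Vf n μ b (x + y) :=
  ⟨hx.1.add hy.1, fun j => (hx.2 j).add (hy.2 j)⟩

theorem Vf.smul {x : MvPolynomial (Fin 3) ℂ} (hx : Vf n μ b x) (c : ℂ) : Vf n μ b (c • x) := by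
  rw [smul_eq_C_mul]
  constructor
  · have h := (isHomogeneous_C (Fin 3) c).mul hx.1
    rwa [zero_add] at h
  · intro j
    have h := (RgC.mu_zero_left (b j) (C c)).mul (hx.2 j)
    rwa [zero_add] at h

theorem Vf.zero : Vf n μ b 0 := ⟨isHomogeneous_zero _ _ _, fun j => Mu.zero _ _⟩

namespace HesCA

theorem vf_sum {ι : Type} (s : Finset ι) (f : ι → MvPolynomial (Fin 3) ℂ)
    (h : ∀ i ∈ s, Vf n μ b (f i)) : Vf n μ b (∑ i ∈ s, f i) := by
  classical
  induction s using Finset.induction_on with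
  | empty => rw [Finset.sum_empty]; exact Vf.zero
  | insert a s ha ih =>
    rw [Finset.sum_insert ha]
    exact (h a (Finset.mem_insert_self _ _)).add
      (ih fun i hi => h i (Finset.mem_insert_of_mem hi))

/-- The second polar of the second derivatives. -/
def sg (P : MvPolynomial (Fin 3) ℂ) (a : Fin 3 → ℂ) (i : Fin 3) : MvPolynomial (Fin 3) ℂ :=
  ∑ j, ∑ k, (a j * a k) • pderiv i (pderiv j (pderiv k P))

theorem vf_sg (hP : P.IsHomogeneous n) (hμ : ∀ j, Mu (b j) (μ j) P) (a : Fin 3 → ℂ)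
    (i : Fin 3) : Vf n μ b (sg P a i) :=
  vf_sum _ _ fun j _ => vf_sum _ _ fun k _ => (vf_third hP hμ i j k).smul _

/-- Euler's identity at a point. -/
theorem euler_eval {H : MvPolynomial (Fin 3) ℂ} {m : ℕ} (hH : H.IsHomogeneous m)
    (a : Fin 3 → ℂ) : ∑ k, a k * eval a (pderiv k H) = m * eval a H := by
  have h1 := congrArg (eval a) hH.sum_X_mul_pderiv
  simpa [map_sum] using h1

theorem eval_pderiv_sg (hP : P.IsHomogeneous n) (hn : 4 ≤ n) (a : Fin 3 → ℂ) (l i : Fin 3) :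
    eval a (pderiv l (sg P a i)) =
      ((n - 3 : ℕ) : ℂ) * (((n - 2 : ℕ) : ℂ) * eval a (pderiv i (pderiv l P))) := by
  have hH : (pderiv i (pderiv l P)).IsHomogeneous (n - 2) := by
    have h := (hP.pderiv (i := l)).pderiv (i := i)
    have e : n - 1 - 1 = n - 2 := by omega
    rwa [e] at h
  have hc : ∀ j k, pderiv l (pderiv i (pderiv j (pderiv k P))) =
      pderiv k (pderiv j (pderiv i (pderiv l P))) := by
    intro j k
    rw [pderiv_comm' j k, pderiv_comm' i k, pderiv_comm' l k, pderiv_comm' i j,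
      pderiv_comm' l j, pderiv_comm' l i]
  have h1 : eval a (pderiv l (sg P a i)) =
      ∑ j, a j * ∑ k, a k * eval a (pderiv k (pderiv j (pderiv i (pderiv l P)))) := by
    unfold sg
    rw [map_sum, map_sum]
    refine Finset.sum_congr rfl fun j _ => ?_
    rw [map_sum, map_sum, Finset.mul_sum]
    refine Finset.sum_congr rfl fun k _ => ?_
    rw [smul_eq_C_mul, pderiv_C_mul, hc, map_mul, eval_C]
    ring
  rw [h1]
  have h2 : ∀ j, ∑ k, a k * eval a (pderiv k (pderiv j (pderiv i (pderiv l P)))) =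
      ((n - 3 : ℕ) : ℂ) * eval a (pderiv j (pderiv i (pderiv l P))) := by
    intro j
    have e : n - 2 - 1 = n - 3 := by omega
    have h := euler_eval (hH.pderiv (i := j)) a
    rwa [e] at h
  simp only [h2]
  have h3 := euler_eval hH a
  rw [← h3, Finset.mul_sum]
  refine Finset.sum_congr rfl fun j _ => ?_
  ring

theorem tri_fr (x y z : MvPolynomial (Fin 3) ℂ) : tri (fr x) (fr y) (fr z) =
    fr (x * (pderiv 1 y * pderiv 2 z - pderiv 2 y * pderiv 1 z) +
      y * (pderiv 1 z * pderiv 2 x - pderiv 2 z * pderiv 1 x) +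
      z * (pderiv 1 x * pderiv 2 y - pderiv 2 x * pderiv 1 y)) := by
  unfold tri bk
  simp only [DK_fr, map_add, map_mul, map_sub]

end HesCA

open HesCA in
/-- There are three elements of `V` with nonzero `tri`. -/
theorem exists_tri (hP : P.IsHomogeneous n) (hn : 4 ≤ n) (hμ : ∀ j, Mu (b j) (μ j) P)
    (hh : hess P ≠ 0) :
    ∃ x y z, Vf n μ b x ∧ Vf n μ b y ∧ Vf n μ b z ∧ tri (fr x) (fr y) (fr z) ≠ 0 := by
  obtain ⟨a, ha⟩ : ∃ a, eval a (hess P) ≠ 0 := by
    by_contra hcon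
    push Not at hcon
    exact hh (MvPolynomial.funext fun a => by rw [hcon a, map_zero])
  refine ⟨sg P a 0, sg P a 1, sg P a 2, vf_sg hP hμ a 0, vf_sg hP hμ a 1, vf_sg hP hμ a 2, ?_⟩
  rw [tri_fr]
  intro h0
  have h1 := fr_injective (h0.trans (map_zero fr).symm)
  have he : ∀ i, X 0 * pderiv 0 (sg P a i) + X 1 * pderiv 1 (sg P a i) +
      X 2 * pderiv 2 (sg P a i) = ((n - 3 : ℕ) : MvPolynomial (Fin 3) ℂ) * sg P a i := by
    intro i
    have h2 := (vf_sg hP hμ a i).1.sum_X_mul_pderiv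
    rw [Fin.sum_univ_three, nsmul_eq_mul] at h2
    exact h2
  have e0 := he 0
  have e1 := he 1
  have e2 := he 2
  have h2 : (X 0 : MvPolynomial (Fin 3) ℂ) *
      Matrix.det (Matrix.of fun i l : Fin 3 => pderiv l (sg P a i)) = 0 := by
    rw [Matrix.det_fin_three]
    simp only [Matrix.of_apply]
    linear_combination (((n - 3 : ℕ) : MvPolynomial (Fin 3) ℂ)) * h1 +
      (pderiv 1 (sg P a 1) * pderiv 2 (sg P a 2) - pderiv 2 (sg P a 1) * pderiv 1 (sg P a 2)) * e0 +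
      (pderiv 1 (sg P a 2) * pderiv 2 (sg P a 0) - pderiv 2 (sg P a 2) * pderiv 1 (sg P a 0)) * e1 +
      (pderiv 1 (sg P a 0) * pderiv 2 (sg P a 1) - pderiv 2 (sg P a 0) * pderiv 1 (sg P a 1)) * e2
  have h3 := (mul_eq_zero.1 h2).resolve_left (X_ne_zero 0)
  have h4 := congrArg (eval a) h3
  rw [map_zero, RingHom.map_det] at h4
  have h5 : (eval a).mapMatrix (Matrix.of fun i l : Fin 3 => pderiv l (sg P a i)) =
      (((n - 3 : ℕ) : ℂ) * ((n - 2 : ℕ) : ℂ)) •
        (eval a).mapMatrix (Matrix.of fun i j : Fin 3 => pderiv i (pderiv j P)) := by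
    ext i l
    simp only [RingHom.mapMatrix_apply, Matrix.map_apply, Matrix.of_apply, Matrix.smul_apply,
      smul_eq_mul]
    rw [eval_pderiv_sg hP hn a l i]
    ring
  rw [h5, Matrix.det_smul, ← RingHom.map_det] at h4
  have h6 : (((n - 3 : ℕ) : ℂ) * ((n - 2 : ℕ) : ℂ)) ≠ 0 := by
    refine mul_ne_zero ?_ ?_
    · exact Nat.cast_ne_zero.2 (by omega)
    · exact Nat.cast_ne_zero.2 (by omega)
  rcases mul_eq_zero.1 h4 with h7 | h7
  · exact pow_ne_zero _ h6 h7
  · exact ha h7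

namespace HesCA

/-- Euler's identity and divisibility. -/
theorem dvd_of_pderiv {H q : MvPolynomial (Fin 3) ℂ} {m : ℕ} (hH : H.IsHomogeneous m)
    (hm : m ≠ 0) (h : ∀ i, q ∣ pderiv i H) : q ∣ H := by
  have h1 := hH.sum_X_mul_pderiv
  have h2 : q ∣ m • H := by
    rw [← h1]
    exact Finset.dvd_sum fun i _ => (h i).mul_left _
  have h3 : IsUnit (C (m : ℂ) : MvPolynomial (Fin 3) ℂ) :=
    (isUnit_iff_ne_zero.2 (Nat.cast_ne_zero.2 hm)).map C
  rw [nsmul_eq_mul, ← map_natCast (C : ℂ →+* MvPolynomial (Fin 3) ℂ)] at h2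
  exact h3.dvd_mul_left.1 h2

end HesCA

open HesCA in
/-- `V` has no common factor. -/
theorem exists_not_dvd (hP0 : P ≠ 0) (hP : P.IsHomogeneous n) (hsq : Squarefree P) (hn : 3 ≤ n)
    (hμ : ∀ j, Mu (b j) (μ j) P) {q : MvPolynomial (Fin 3) ℂ} (hq : Irreducible q) :
    ∃ σ, Vf n μ b σ ∧ ¬ q ∣ σ := by
  by_contra hcon
  push Not at hcon
  have h3 : ∀ i j k, q ∣ pderiv i (pderiv j (pderiv k P)) := fun i j k =>
    hcon _ (vf_third hP hμ i j k)
  have h2 : ∀ j k, q ∣ pderiv j (pderiv k P) := fun j k =>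
    dvd_of_pderiv ((hP.pderiv (i := k)).pderiv (i := j)) (by omega) fun i => h3 i j k
  have h1 : ∀ k, q ∣ pderiv k P := fun k =>
    dvd_of_pderiv (hP.pderiv (i := k)) (by omega) fun i => h2 i k
  obtain ⟨H, hH⟩ := dvd_of_pderiv hP (by omega) h1
  have hH1 : ∀ k, q ∣ pderiv k q * H := by
    intro k
    have h4 := h1 k
    rw [hH, pderiv_mul] at h4
    exact (dvd_add_left (dvd_mul_right q _)).1 h4
  have hqH : ¬ q ∣ H := by
    rintro ⟨H', hH'⟩
    refine hq.not_isUnit (hsq q ⟨H', ?_⟩)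
    rw [hH, hH', mul_assoc]
  have hp : Prime q := hq.prime
  have h5 : ∀ k, pderiv k q = 0 := fun k =>
    RgA.pderiv_eq_zero_of_dvd ((hp.dvd_or_dvd (hH1 k)).resolve_right hqH)
  have h6 := RgA.eq_C_of_pderiv h5
  refine hq.not_isUnit ?_
  rw [h6]
  refine (isUnit_iff_ne_zero.2 ?_).map C
  intro h7
  rw [h7, C_0] at h6
  exact hq.ne_zero h6

end MPb07157.OK
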