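import Pool.Agent.Lib.MP_b07157_agB2.Bk
import Pool.Agent.Lib.MP_b07157_agB2.RgA
import Pool.Agent.Lib.MP_b07157_agB2.RgB

/-!
# The differential equations
-/

noncomputable section

namespace MPb07157.OK

open MvPolynomial

variable {N : ℕ}

namespace PdeAux

theorem two_ne : (2 : Kf) ≠ 0 := two_ne_zero

theorem const_of_D12 {w : Kf} (hw : Hk 0 w) (h1 : DK 1 w = 0) (h2 : DK 2 w = 0) :
    ∃ c : ℂ, w = algebraMap ℂ Kf c := by
  refine const_of_DK fun i => ?_
  have he := hw.euler
  rw [Fin.sum_univ_three, h1, h2, mul_zero, mul_zero, add_zero, add_zero] at he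
  have h0 : fr (X 0) * DK 0 w = 0 := by
    rw [he]
    push_cast
    exact zero_smul ℂ w
  have h00 : DK 0 w = 0 := (mul_eq_zero.1 h0).resolve_left (fr_ne_zero (X_ne_zero 0))
  have h3 : i = 0 ∨ i = 1 ∨ i = 2 := by fin_cases i <;> decide
  rcases h3 with rfl | rfl | rfl
  · exact h00
  · exact h1
  · exact h2

theorem zero_of_bk {u v w : Kf} (hd : bk u v ≠ 0) (h1 : bk u w = 0) (h2 : bk v w = 0) :
    DK 1 w = 0 ∧ DK 2 w = 0 := by
  unfold bk at hd h1 h2
  constructor
  · refine (mul_eq_zero.1 (?_ : (DK 1 u * DK 2 v - DK 2 u * DK 1 v) * DK 1 w = 0)).resolve_left hd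
    linear_combination DK 1 v * h1 - DK 1 u * h2
  · refine (mul_eq_zero.1 (?_ : (DK 1 u * DK 2 v - DK 2 u * DK 1 v) * DK 2 w = 0)).resolve_left hd
    linear_combination DK 2 v * h1 - DK 2 u * h2

theorem bk_sub (u w w' : Kf) : bk u (w - w') = bk u w - bk u w' := by
  unfold bk; rw [map_sub, map_sub]; ring

theorem hk_bk {u w : Kf} (hu : Hk 0 u) (hw : Hk 0 w) : Hk (-2) (bk u w) := by
  have h1 := ((hu.DK 1).mul (hw.DK 2)).sub ((hu.DK 2).mul (hw.DK 1))
  exact h1

/-- The equations for the quotients. -/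
theorem quot {S a κ0 : Kf} (hS : S ≠ 0) {u v p q κ1 κ2 : Kf} (h00 : bk S a = S * κ0)
    (h1 : bk (u * S) a + bk S (p + u * a) = u * S * κ0 + S * κ1)
    (h2 : bk (v * S) a + bk S (q + v * a) = v * S * κ0 + S * κ2)
    (h3 : bk (u * S) (q + v * a) + bk (v * S) (p + u * a) = u * S * κ2 + v * S * κ1) :
    bk u q + bk v p = 0 := by
  refine (mul_eq_zero.1 (?_ : S * (bk u q + bk v p) = 0)).resolve_left hS
  simp only [bk_mul, bk_mul', bk_add] at h1 h2 h3
  have h4 := bk_swap u v
  linear_combination h3 - u * h2 - v * h1 + 2 * u * v * h00 - a * S * h4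

end PdeAux

open PdeAux

theorem pde {σ a κ : Fin N → Kf} {s : ℤ} (hσ : ∀ k, Hk s (σ k)) (ha : ∀ k, Hk 0 (a k))
    (h : ∀ k l, bk (σ k) (a l) + bk (σ l) (a k) = σ k * κ l + σ l * κ k) {i j m : Fin N}
    (hne : tri (σ i) (σ j) (σ m) ≠ 0) :
    ∃ (β : Kf) (c : Fin N → ℂ), ∀ k, a k = algebraMap ℂ Kf (c k) + σ k * β := by
  have hS : σ i ≠ 0 := by
    intro h0
    rw [h0, tri_zero] at hne
    exact hne rfl
  set u : Fin N → Kf := fun k => σ k / σ i with hu
  set p : Fin N → Kf := fun k => a k - u k * a i with hp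
  have huS : ∀ k, u k * σ i = σ k := fun k => div_mul_cancel₀ _ hS
  have hpa : ∀ k, p k + u k * a i = a k := fun k => by rw [hp]; ring
  have hu0 : ∀ k, Hk 0 (u k) := by
    intro k
    have h1 := (hσ k).mul (hσ i).inv
    rw [add_neg_cancel] at h1
    exact h1
  have hp0 : ∀ k, Hk 0 (p k) := by
    intro k
    have h1 := (ha k).sub ((hu0 k).mul (ha i))
    exact h1
  have h00 : bk (σ i) (a i) = σ i * κ i := by
    have h1 := h i i
    refine mul_left_cancel₀ two_ne ?_
    linear_combination h1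
  have hd : bk (u j) (u m) ≠ 0 := by
    intro h0
    apply hne
    rw [← tri_div hS]
    have : bk (σ j / σ i) (σ m / σ i) = 0 := h0
    rw [this, mul_zero]
  have key : ∀ k l, bk (u k) (p l) + bk (u l) (p k) = 0 := by
    intro k l
    refine quot hS h00 (κ1 := κ k) (κ2 := κ l) ?_ ?_ ?_
    · rw [huS, hpa]
      exact h k i
    · rw [huS, hpa]
      exact h l i
    · rw [huS, huS, hpa, hpa]
      exact h k l
  -- the factor
  have hj : bk (u j) (p j) = 0 := by
    refine mul_left_cancel₀ two_ne ?_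
    linear_combination key j j
  have hm : bk (u m) (p m) = 0 := by
    refine mul_left_cancel₀ two_ne ?_
    linear_combination key m m
  have hjm := key j m
  set kap : Kf := bk (u j) (p m) / bk (u j) (u m) with hkap
  have hkd : kap * bk (u j) (u m) = bk (u j) (p m) := div_mul_cancel₀ _ hd
  have hkap0 : Hk 0 kap := by
    have h1 := (hk_bk (hu0 j) (hp0 m)).mul (hk_bk (hu0 j) (hu0 m)).inv
    exact h1
  have e1 : DK 1 (p j) = kap * DK 1 (u j) := by
    refine mul_left_cancel₀ hd ?_
    unfold bk at *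
    linear_combination DK 1 (u m) * hj - DK 1 (u j) * hjm - DK 1 (u j) * hkd
  have e2 : DK 2 (p j) = kap * DK 2 (u j) := by
    refine mul_left_cancel₀ hd ?_
    unfold bk at *
    linear_combination DK 2 (u m) * hj - DK 2 (u j) * hjm - DK 2 (u j) * hkd
  have e3 : DK 1 (p m) = kap * DK 1 (u m) := by
    refine mul_left_cancel₀ hd ?_
    unfold bk at *
    linear_combination (-DK 1 (u j)) * hm - DK 1 (u m) * hkd
  have e4 : DK 2 (p m) = kap * DK 2 (u m) := by
    refine mul_left_cancel₀ hd ?_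
    unfold bk at *
    linear_combination (-DK 2 (u j)) * hm - DK 2 (u m) * hkd
  have f1 : bk (u j) kap = 0 := by
    have g1 := congrArg (DK 2) e1
    have g2 := congrArg (DK 1) e2
    rw [DK_mul] at g1 g2
    rw [DK_comm 2 1, DK_comm 2 1 (u j)] at g1
    unfold bk
    linear_combination g2 - g1
  have f2 : bk (u m) kap = 0 := by
    have g1 := congrArg (DK 2) e3
    have g2 := congrArg (DK 1) e4
    rw [DK_mul] at g1 g2
    rw [DK_comm 2 1, DK_comm 2 1 (u m)] at g1
    unfold bk
    linear_combination g2 - g1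
  obtain ⟨z1, z2⟩ := zero_of_bk hd f1 f2
  have hc : ∀ k, ∃ c : ℂ, p k - kap * u k = algebraMap ℂ Kf c := by
    intro k
    have hH : Hk 0 (p k - kap * u k) := by
      have h1 := (hp0 k).sub (hkap0.mul (hu0 k))
      exact h1
    have g1 : bk (u j) (p k - kap * u k) = 0 := by
      have h1 := key j k
      rw [bk_sub, bk_mul, f1]
      unfold bk at *
      linear_combination h1 - DK 1 (u k) * e2 + DK 2 (u k) * e1
    have g2 : bk (u m) (p k - kap * u k) = 0 := by
      have h1 := key m k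
      rw [bk_sub, bk_mul, f2]
      unfold bk at *
      linear_combination h1 - DK 1 (u k) * e4 + DK 2 (u k) * e3
    obtain ⟨y1, y2⟩ := zero_of_bk hd g1 g2
    exact const_of_D12 hH y1 y2
  choose c hc using hc
  refine ⟨(kap + a i) / σ i, c, fun k => ?_⟩
  have h1 := hc k
  have h2 : σ k * ((kap + a i) / σ i) = u k * (kap + a i) := by
    rw [hu]
    field_simp
  rw [h2, ← h1, hp]
  ring

end MPb07157.OK
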