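import Pool.Agent.Lib.MP_b07157_agB2.Glob
import Pool.Agent.Lib.MP_b07157_agB2.Eig
import Pool.Agent.Lib.MP_b07157_agB2.Pde
import Pool.Agent.Lib.MP_b07157_agB2.HesC
import Pool.Agent.Lib.MP_b07157_agQ.NSQ

/-!
# The divergence vanishes
-/

noncomputable section

namespace MPb07157.OK

open MvPolynomial MPb07157Q
open MPb07157.OB (Dat Vert)

variable {r n d : ℕ} {f P : MvPolynomial (Fin 3) ℂ} {v : Fin 3 → MvPolynomial (Fin 3) ℂ}
  {b : Fin r → Fin 3 → ℂ} {c : ℂ} {t : Fin 3 → Kf} {Sec : (Fin 3 → ℂ) → Kf → Prop}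
  {μ : Fin r → ℕ}

/-- The space of the forms `σ`. -/
def VV (n : ℕ) (μ : Fin r → ℕ) (b : Fin r → Fin 3 → ℂ) : Submodule ℂ (MvPolynomial (Fin 3) ℂ) where
  carrier := {σ | Vf n μ b σ}
  add_mem' := fun hx hy => Vf.add hx hy
  zero_mem' := Vf.zero
  smul_mem' := fun c _ hx => Vf.smul hx c

theorem finite_VV (n : ℕ) (μ : Fin r → ℕ) (b : Fin r → Fin 3 → ℂ) :
    Module.Finite ℂ (VV n μ b) := by
  have h1 : VV n μ b ≤ restrictTotalDegree (Fin 3) ℂ (n - 3) := by
    intro σ hσ
    rw [mem_restrictTotalDegree]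
    exact hσ.1.totalDegree_le
  exact Module.Finite.of_injective (Submodule.inclusion h1) (Submodule.inclusion_injective h1)

/-- Additivity of `tri`. -/
theorem tri_sum {ι : Type*} (s : Finset ι) (u : ι → Kf) (c : ι → ℂ) (y z : Kf) :
    tri (∑ i ∈ s, algebraMap ℂ Kf (c i) * u i) y z =
      ∑ i ∈ s, algebraMap ℂ Kf (c i) * tri (u i) y z := by
  classical
  induction s using Finset.induction_on with
  | empty => rw [Finset.sum_empty, Finset.sum_empty, tri_zero]
  | insert a s ha ih =>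
    rw [Finset.sum_insert ha, Finset.sum_insert ha, ← ih]
    unfold tri
    rw [bk_add, bk_add', bk_mul, bk_mul', bk_const, bk_const']
    ring

theorem tri_rot (x y z : Kf) : tri x y z = tri y z x := by
  unfold tri
  ring

/-- If `tri` vanishes on a basis it vanishes. -/
theorem exists_tri_basis {V : Submodule ℂ (MvPolynomial (Fin 3) ℂ)} {N : ℕ}
    (B : Module.Basis (Fin N) ℂ V) (H : ∃ x y z, x ∈ V ∧ y ∈ V ∧ z ∈ V ∧
      tri (fr x) (fr y) (fr z) ≠ 0) : ∃ i j m, tri (fr (B i)) (fr (B j)) (fr (B m)) ≠ 0 := by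
  obtain ⟨x, y, z, hx, hy, hz, hne⟩ := H
  have e1 : ∀ w : V, fr (w : MvPolynomial (Fin 3) ℂ) =
      ∑ i, algebraMap ℂ Kf (B.repr w i) * fr (B i) := by
    intro w
    have e2 := congrArg (fun u : V => fr (u : MvPolynomial (Fin 3) ℂ)) (B.sum_repr w)
    rw [← e2, Submodule.coe_sum, map_sum]
    refine Finset.sum_congr rfl fun i _ => ?_
    rw [Submodule.coe_smul, map_smul, Algebra.smul_def]
  by_contra hcon
  push Not at hcon
  apply hne
  have e2 : ∀ i j, tri (fr (B i)) (fr (B j)) (fr z) = 0 := by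
    intro i j
    rw [← tri_rot, e1 ⟨z, hz⟩, tri_sum]
    refine Finset.sum_eq_zero fun k _ => ?_
    rw [tri_rot, hcon, mul_zero]
  have e3 : ∀ i, tri (fr (B i)) (fr y) (fr z) = 0 := by
    intro i
    rw [tri_rot, e1 ⟨y, hy⟩, tri_sum]
    refine Finset.sum_eq_zero fun k _ => ?_
    rw [← tri_rot, e2, mul_zero]
  rw [e1 ⟨x, hx⟩, tri_sum]
  exact Finset.sum_eq_zero fun k _ => by rw [e3, mul_zero]

theorem exists_sec (hb : ∀ j, b j ≠ 0) (hS : Sol f v n b c t Sec) {q : Fin 3 → ℂ}
    (hq : OffB b q) : ∃ G, Sec q G := by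
  obtain ⟨ι, _, e', h', he', hh', hb', hc'⟩ := exists_cover hb
  obtain ⟨i, hi⟩ := hc' q hq
  obtain ⟨G, -, hG⟩ := hS.ex e' (h' i) he' (hh' i) (by
    rintro h0
    rw [h0, map_zero] at hi
    exact hi rfl) (hb' i)
  exact ⟨G, hG q hi⟩

/-- If one function `β` is a solution then the divergence is zero. -/
theorem c_eq_zero (h : Dat f P v d n) (hb : ∀ j, b j ≠ 0) (hS : Sol f v n b c t Sec)
    (hNS : NS f) {β : Kf} (hβ : ∀ q G, OffB b q → Sec q G → RegAt q (G - β)) : c = 0 := by
  have h1 : ∀ k, ∃ p, t k + cuK (fun j => β * fr (v j)) k = fr p := by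
    intro k
    apply hartogs_offB hb
    intro q hq
    obtain ⟨G, hG⟩ := exists_sec hb hS hq
    have e1 : t k + cuK (fun j => β * fr (v j)) k =
        (t k + cuK (fun j => G * fr (v j)) k) - cuK (fun j => (G - β) * fr (v j)) k := by
      unfold cuK
      dsimp only
      rw [sub_mul, sub_mul, map_sub, map_sub]
      ring
    rw [e1]
    refine (hS.reg q G hG k).sub ?_
    unfold cuK
    exact (((hβ q G hq hG).mul (RegAt.fr _ _)).DK _).sub (((hβ q G hq hG).mul (RegAt.fr _ _)).DK _)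
  choose p hp using h1
  have e4 : ∑ k, p k * pderiv k f = 0 := by
    apply fr_injective
    rw [map_sum, map_zero]
    have e5 : ∀ k, fr (p k * pderiv k f) =
        t k * DK k (fr f) + cuK (fun j => β * fr (v j)) k * DK k (fr f) := by
      intro k
      rw [map_mul, ← hp, ← DK_fr]
      ring
    rw [Finset.sum_congr rfl fun k _ => e5 k, Finset.sum_add_distrib, hS.kill, cu_kills h,
      add_zero]
  have e5 := hNS.constantCoeff_div h.hf e4
  have e6 : fr (∑ k, pderiv k (p k)) = algebraMap ℂ Kf c := by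
    rw [← hS.div, map_sum]
    have e7 : ∀ k, fr (pderiv k (p k)) =
        DK k (t k) + DK k (cuK (fun j => β * fr (v j)) k) := by
      intro k
      rw [← DK_fr, ← hp, map_add]
    rw [Finset.sum_congr rfl fun k _ => e7 k, Finset.sum_add_distrib]
    have e8 := dvK_cuK fun j => β * fr (v j)
    unfold dvK at e8
    rw [e8, add_zero]
    rfl
  rw [← fr_C] at e6
  have e7 := fr_injective e6
  rw [e7] at e5
  simpa using e5

theorem keyB (h : Dat f P v d n) (hsq : Squarefree P) (hn : 3 ≤ n) (hb : ∀ j, b j ≠ 0)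
    (hbb : ∀ i j, i ≠ j → ∀ c : ℂ, b i ≠ c • b j) (hS : Sol f v n b c t Sec)
    (hμ : ∀ j, Mu (b j) (μ j) P) (h2 : ∀ j, 2 ≤ μ j) (hlt : ∀ j, μ j < n) (j₀ : Fin r)
    (hini : Squarefree (homogeneousComponent (μ j₀) (translate (b j₀) P)))
    (hL : ∀ j, ∃ e s, LS b n (μ j) j Sec e s) (hNS : NS f) : c = 0 := by
  classical
  choose e s hL using hL
  rcases hn.eq_or_lt with h3 | h4
  · have h1 : Vf n μ b 1 := by
      refine ⟨?_, fun j k hk => ?_⟩
      · rw [← h3]
        exact isHomogeneous_one _ _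
      · have := hlt j
        omega
    obtain ⟨a, ha⟩ := glob_a hn hS hb hbb hL h1
    refine c_eq_zero h hb hS hNS (β := a) fun q G hq hG => ?_
    have := ha.reg q G hq hG
    rwa [map_one, one_mul] at this
  · have := finite_VV n μ b
    let B := Module.finBasis ℂ (VV n μ b)
    have hB : ∀ i, Vf n μ b (B i : MvPolynomial (Fin 3) ℂ) := fun i => (B i).2
    choose a ha using fun i => glob_a hn hS hb hbb hL (hB i)
    choose p hp hp' using fun k l => glob_P hn hS hb hbb hL (hB k) (hB l) (ha k) (ha l)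
    have hP : ∀ k l, fr (B l) * a k - fr (B k) * a l =
        ∑ j, algebraMap ℂ Kf (B.repr ⟨p k l, hp k l⟩ j) * fr (B j) := by
      intro k l
      rw [← hp' k l]
      have e2 := congrArg (fun u : VV n μ b => fr (u : MvPolynomial (Fin 3) ℂ))
        (B.sum_repr ⟨p k l, hp k l⟩)
      dsimp only at e2
      rw [← e2, Submodule.coe_sum, map_sum]
      refine Finset.sum_congr rfl fun i _ => ?_
      rw [Submodule.coe_smul, map_smul, Algebra.smul_def]
    obtain ⟨x, y, z, hx, hy, hz, hne⟩ := exists_tri h.hP (by omega) hμ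
      (hess_ne h.hP (hb j₀) (hμ j₀) (h2 j₀) (hlt j₀) hini)
    obtain ⟨i, j, m, hne'⟩ := exists_tri_basis B ⟨x, y, z, hx, hy, hz, hne⟩
    obtain ⟨κ, hκ⟩ := eig hP hne'
    obtain ⟨β, c', hβ⟩ := pde (s := (n : ℤ) - 3) (fun k => by
      have := Hk.fr (hB k).1
      push_cast [hn] at this
      exact this) (fun k => (ha k).hk) hκ hne'
    refine c_eq_zero h hb hS hNS (β := β) fun q G hq hG => ?_
    refine regAt_of_mul (Vf n μ b) (fun p hp => exists_not_dvd h.P0 h.hP hsq hn hμ hp) ?_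
    intro σ hσ
    have e1 : ∀ k, RegAt q (fr (B k) * (G - β)) := by
      intro k
      have e2 := ((ha k).reg q G hq hG).add (RegAt.const q (c' k))
      rw [hβ k] at e2
      have e3 : fr (B k) * G - (algebraMap ℂ Kf (c' k) + fr (B k) * β) +
          algebraMap ℂ Kf (c' k) = fr (B k) * (G - β) := by ring
      rwa [e3] at e2
    have e2 := congrArg (fun u : VV n μ b => fr (u : MvPolynomial (Fin 3) ℂ))
      (B.sum_repr ⟨σ, hσ⟩)
    dsimp only at e2
    rw [← e2, Submodule.coe_sum, map_sum, Finset.sum_mul]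
    refine RegAt.sum fun k _ => ?_
    rw [Submodule.coe_smul, map_smul, Algebra.smul_def, mul_assoc]
    exact (RegAt.const q _).mul (e1 k)

end MPb07157.OK
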