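import Pool.Agent.Lib.MP_b07157_agB2.RgC
import Pool.Agent.Lib.MP_b07157_agB2.RgA

/-!
# Binary Hessians
-/

noncomputable section

namespace MPb07157.OK

open MvPolynomial

namespace HesA

theorem sum3 {R : Type} [CommRing R] (i : Fin 3) (f : Fin 3 → R) :
    ∑ p, f p = f i + f (i + 1) + f (i + 2) := by
  rw [Fin.sum_univ_three]
  fin_cases i
  · rfl
  · show f 0 + f 1 + f 2 = f 1 + f 2 + f 0
    ring
  · show f 0 + f 1 + f 2 = f 2 + f 0 + f 1
    ring

/-- The coordinates which are invariant in the direction of `b`. -/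
def yy (b : Fin 3 → ℂ) (i j : Fin 3) : MvPolynomial (Fin 3) ℂ := X j - C (b j / b i) * X i

theorem eval_yy (b : Fin 3 → ℂ) (i j : Fin 3) : eval 0 (yy b i j) = 0 := by
  simp [yy]

theorem yy_ne (b : Fin 3 → ℂ) {i j : Fin 3} (hij : j ≠ i) : yy b i j ≠ 0 := by
  intro h
  have h1 := congrArg (eval (fun q => if q = j then (1 : ℂ) else 0)) h
  simp [yy, hij.symm] at h1

theorem not_isUnit {p : MvPolynomial (Fin 3) ℂ} (h : eval 0 p = 0) : ¬ IsUnit p := by
  intro h1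
  have h2 := h1.map (eval (0 : Fin 3 → ℂ))
  rw [h] at h2
  exact not_isUnit_zero h2

theorem hdir {Q : MvPolynomial (Fin 3) ℂ} {b : Fin 3 → ℂ} {i : Fin 3} (hbi : b i ≠ 0)
    (hb : ∑ j, C (b j) * pderiv j Q = 0) :
    pderiv i Q = - (C (b (i + 1) / b i) * pderiv (i + 1) Q +
      C (b (i + 2) / b i) * pderiv (i + 2) Q) := by
  rw [sum3 i] at hb
  have h1 : (C (b i)⁻¹ : MvPolynomial (Fin 3) ℂ) * C (b i) = 1 := by
    rw [← C_mul, inv_mul_cancel₀ hbi, C_1]
  have h2 : ∀ c : ℂ, (C (c / b i) : MvPolynomial (Fin 3) ℂ) = C (b i)⁻¹ * C c := by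
    intro c
    rw [← C_mul, div_eq_mul_inv, mul_comm]
  rw [h2, h2]
  linear_combination (C (b i)⁻¹) * hb - (pderiv i Q) * h1

theorem euler1 {Q : MvPolynomial (Fin 3) ℂ} {m : ℕ} (hQ : Q.IsHomogeneous m)
    {b : Fin 3 → ℂ} {i : Fin 3} (hbi : b i ≠ 0) (hb : ∑ j, C (b j) * pderiv j Q = 0) :
    yy b i (i + 1) * pderiv (i + 1) Q + yy b i (i + 2) * pderiv (i + 2) Q = C (m : ℂ) * Q := by
  have h1 := hQ.sum_X_mul_pderiv
  rw [sum3 i, hdir hbi hb, nsmul_eq_mul] at h1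
  have h2 : (C (m : ℂ) : MvPolynomial (Fin 3) ℂ) = (m : MvPolynomial (Fin 3) ℂ) :=
    map_natCast C m
  rw [h2, ← h1]
  unfold yy
  ring

theorem ne1 (i : Fin 3) : i + 1 ≠ i := by
  revert i; decide

theorem ne2 (i : Fin 3) : i + 2 ≠ i := by
  revert i; decide

theorem ne12 (i : Fin 3) : i + 1 ≠ i + 2 := by
  revert i; decide

theorem cover3 (p i : Fin 3) : p = i ∨ p = i + 1 ∨ p = i + 2 := by
  revert p i; decide

theorem d_yy (b : Fin 3 → ℂ) {i j p : Fin 3} (hp : p ≠ i) :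
    pderiv p (yy b i j) = if p = j then 1 else 0 := by
  unfold yy
  rw [map_sub, pderiv_mul, pderiv_C, zero_mul, zero_add, pderiv_X_of_ne hp.symm, mul_zero,
    sub_zero]
  split_ifs with h
  · rw [h, pderiv_X_self]
  · exact pderiv_X_of_ne (Ne.symm h)

theorem euler2 {Q : MvPolynomial (Fin 3) ℂ} {m : ℕ} (hQ : Q.IsHomogeneous m)
    {b : Fin 3 → ℂ} {i : Fin 3} (hbi : b i ≠ 0) (hb : ∑ j, C (b j) * pderiv j Q = 0) :
    yy b i (i + 1) * pderiv (i + 1) (pderiv (i + 1) Q) +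
      yy b i (i + 2) * pderiv (i + 1) (pderiv (i + 2) Q) = C ((m : ℂ) - 1) * pderiv (i + 1) Q := by
  have h1 := congrArg (pderiv (i + 1)) (euler1 hQ hbi hb)
  rw [map_add, pderiv_mul, pderiv_mul, d_yy b (ne1 i), d_yy b (ne1 i), if_pos rfl,
    if_neg (ne12 i), pderiv_C_mul] at h1
  rw [C_sub, C_1]
  linear_combination h1

theorem euler3 {Q : MvPolynomial (Fin 3) ℂ} {m : ℕ} (hQ : Q.IsHomogeneous m)
    {b : Fin 3 → ℂ} {i : Fin 3} (hbi : b i ≠ 0) (hb : ∑ j, C (b j) * pderiv j Q = 0) :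
    yy b i (i + 1) * pderiv (i + 1) (pderiv (i + 2) Q) +
      yy b i (i + 2) * pderiv (i + 2) (pderiv (i + 2) Q) = C ((m : ℂ) - 1) * pderiv (i + 2) Q := by
  have h1 := congrArg (pderiv (i + 2)) (euler1 hQ hbi hb)
  rw [map_add, pderiv_mul, pderiv_mul, d_yy b (ne2 i), d_yy b (ne2 i), if_pos rfl,
    if_neg (ne12 i).symm, pderiv_C_mul, pderiv_comm' (i + 2) (i + 1)] at h1
  rw [C_sub, C_1]
  linear_combination h1

end HesA

open HesA in
/-- Let `Q` be a squarefree form of degree `m ≥ 2`, which is invariant in the direction of `b`,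
`b i ≠ 0`. The Hessian in the other two variables is not zero. -/
theorem hess2_ne {Q : MvPolynomial (Fin 3) ℂ} {m : ℕ} (hQ : Q.IsHomogeneous m) (hm : 2 ≤ m)
    (hsq : Squarefree Q) {b : Fin 3 → ℂ} {i : Fin 3} (hbi : b i ≠ 0)
    (hb : ∑ j, C (b j) * pderiv j Q = 0) :
    pderiv (i + 1) (pderiv (i + 1) Q) * pderiv (i + 2) (pderiv (i + 2) Q) -
      pderiv (i + 1) (pderiv (i + 2) Q) ^ 2 ≠ 0 := by
  intro h0
  have e1 := euler1 hQ hbi hb
  have e2 := euler2 hQ hbi hb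
  have e3 := euler3 hQ hbi hb
  have hm1 : (m : ℂ) - 1 ≠ 0 := by
    intro h2
    have h3 : (m : ℂ) = (1 : ℕ) := by rw [Nat.cast_one]; linear_combination h2
    have h4 : m = 1 := by exact_mod_cast h3
    omega
  have hm0 : (m : ℂ) ≠ 0 := by
    intro h2
    have h4 : m = 0 := by exact_mod_cast h2
    omega
  have hC1 : (C ((m : ℂ) - 1) : MvPolynomial (Fin 3) ℂ) ≠ 0 := by
    rw [Ne, C_eq_zero]; exact hm1
  have hu : IsUnit (C ((m : ℂ) * ((m : ℂ) - 1)) : MvPolynomial (Fin 3) ℂ) :=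
    (isUnit_iff_ne_zero.2 (mul_ne_zero hm0 hm1)).map C
  set A := pderiv (i + 1) (pderiv (i + 1) Q) with hA
  set B := pderiv (i + 1) (pderiv (i + 2) Q) with hB
  set E := pderiv (i + 2) (pderiv (i + 2) Q) with hE
  set Q1 := pderiv (i + 1) Q with hQ1
  set Q2 := pderiv (i + 2) Q with hQ2
  set y1 := yy b i (i + 1) with hy1
  set y2 := yy b i (i + 2) with hy2
  have k1 : A * Q2 = B * Q1 := by
    refine mul_left_cancel₀ hC1 ?_
    linear_combination (-A) * e3 + B * e2 + y2 * h0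
  have k2 : B * Q2 = E * Q1 := by
    refine mul_left_cancel₀ hC1 ?_
    linear_combination (-B) * e3 + E * e2 - y1 * h0
  have hcom : pderiv (i + 2) Q1 = B := pderiv_comm' _ _ _
  by_cases hz : Q2 = 0
  · have hB0 : B = 0 := by rw [hB, hz, map_zero]
    refine not_isUnit (eval_yy b i (i + 1)) (hsq _ ?_)
    rw [← hy1]
    rw [← hu.dvd_mul_left, C_mul]
    refine ⟨A, ?_⟩
    rw [hz] at e1
    rw [hB0] at e2
    linear_combination (-C ((m : ℂ) - 1)) * e1 - y1 * e2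
  · obtain ⟨c, hc⟩ : ∃ c : ℂ, fr Q1 / fr Q2 = algebraMap ℂ Kf c := by
      apply const_of_DK
      have hf := fr_ne_zero hz
      intro p
      have h1 : fr Q1 / fr Q2 * fr Q2 = fr Q1 := div_mul_cancel₀ _ hf
      have h2 := congrArg (DK p) h1
      rw [DK_mul, DK_fr, DK_fr] at h2
      have h3 : pderiv p Q1 * Q2 = Q1 * pderiv p Q2 := by
        rcases cover3 p i with rfl | rfl | rfl
        · have g := hdir hbi hb
          have g1 : pderiv p Q1 = - (C (b (p + 1) / b p) * A + C (b (p + 2) / b p) * B) := by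
            rw [hQ1, pderiv_comm', g, map_neg, map_add, pderiv_C_mul, pderiv_C_mul]
          have g2 : pderiv p Q2 = - (C (b (p + 1) / b p) * B + C (b (p + 2) / b p) * E) := by
            rw [hQ2, pderiv_comm', g, map_neg, map_add, pderiv_C_mul, pderiv_C_mul, hcom]
          rw [g1, g2]
          linear_combination (-C (b (p + 1) / b p)) * k1 - (C (b (p + 2) / b p)) * k2
        · show A * Q2 = Q1 * B
          linear_combination k1
        · rw [hcom]
          show B * Q2 = Q1 * E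
          linear_combination k2
      have h4 := congrArg fr h3
      rw [map_mul, map_mul] at h4
      have h5 : fr Q2 * (fr Q2 * DK p (fr Q1 / fr Q2)) = 0 := by
        linear_combination (fr Q2) * h2 + h4 - (fr (pderiv p Q2)) * h1
      exact (mul_eq_zero.1 ((mul_eq_zero.1 h5).resolve_left hf)).resolve_left hf
    have hQc : Q1 = C c * Q2 := by
      apply fr_injective
      rw [map_mul, fr_C, ← hc, div_mul_cancel₀ _ (fr_ne_zero hz)]
    have hBc : B = C c * E := by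
      rw [← hcom, hQc, pderiv_C_mul]
    refine not_isUnit (p := C c * y1 + y2) ?_ (hsq _ ?_)
    · rw [map_add, map_mul, hy1, hy2, eval_yy, eval_yy, mul_zero, add_zero]
    · rw [← hu.dvd_mul_left, C_mul]
      refine ⟨E, ?_⟩
      rw [hQc] at e1
      rw [hBc] at e3
      linear_combination (-C ((m : ℂ) - 1)) * e1 - (C c * y1 + y2) * e3

open HesA in
/-- The bordered Hessian. -/
theorem bord_eq {Q : MvPolynomial (Fin 3) ℂ} {m : ℕ} (hQ : Q.IsHomogeneous m)
    {b : Fin 3 → ℂ} {i : Fin 3} (hbi : b i ≠ 0) (hb : ∑ j, C (b j) * pderiv j Q = 0) :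
    C ((m : ℂ) - 1) * (pderiv (i + 1) Q ^ 2 * pderiv (i + 2) (pderiv (i + 2) Q) -
      2 * pderiv (i + 1) Q * pderiv (i + 2) Q * pderiv (i + 1) (pderiv (i + 2) Q) +
      pderiv (i + 2) Q ^ 2 * pderiv (i + 1) (pderiv (i + 1) Q)) =
      C (m : ℂ) * Q * (pderiv (i + 1) (pderiv (i + 1) Q) * pderiv (i + 2) (pderiv (i + 2) Q) -
      pderiv (i + 1) (pderiv (i + 2) Q) ^ 2) := by
  have e1 := euler1 hQ hbi hb
  have e2 := euler2 hQ hbi hb
  have e3 := euler3 hQ hbi hb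
  have n1 := yy_ne b (ne1 i)
  have n2 := yy_ne b (ne2 i)
  set A := pderiv (i + 1) (pderiv (i + 1) Q) with hA
  set B := pderiv (i + 1) (pderiv (i + 2) Q) with hB
  set E := pderiv (i + 2) (pderiv (i + 2) Q) with hE
  set Q1 := pderiv (i + 1) Q with hQ1
  set Q2 := pderiv (i + 2) Q with hQ2
  set y1 := yy b i (i + 1) with hy1
  set y2 := yy b i (i + 2) with hy2
  by_cases hm : (m : ℂ) - 1 = 0
  · rw [hm, C_0, zero_mul] at e2 e3 ⊢
    have h1 : y1 * y2 * (A * E - B ^ 2) = 0 := by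
      linear_combination (y2 * E) * e2 - (y2 * B) * e3
    rw [(mul_eq_zero.1 h1).resolve_left (mul_ne_zero n1 n2), mul_zero]
  · have hC1 : (C ((m : ℂ) - 1) : MvPolynomial (Fin 3) ℂ) ≠ 0 := by
      rw [Ne, C_eq_zero]; exact hm
    refine mul_left_cancel₀ hC1 ?_
    linear_combination ((A * E - B ^ 2) * C ((m : ℂ) - 1)) * e1 +
      (-E * (C ((m : ℂ) - 1) * Q1 + (y1 * A + y2 * B)) + 2 * B * (y1 * B + y2 * E) +
        (A * E - B ^ 2) * y1) * e2 +
      (2 * B * C ((m : ℂ) - 1) * Q1 - A * (C ((m : ℂ) - 1) * Q2 + (y1 * B + y2 * E)) +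
        (A * E - B ^ 2) * y2) * e3

end MPb07157.OK
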