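import Pool.Agent.Lib.MP_b07157_agB2.HesA

/-!
# The Hessian of a ternary form with an ordinary multiple point
-/

noncomputable section

namespace MPb07157.OK

open MvPolynomial

/-- The Hessian. -/
def hess (P : MvPolynomial (Fin 3) ℂ) : MvPolynomial (Fin 3) ℂ :=
  Matrix.det (Matrix.of fun i j : Fin 3 => pderiv i (pderiv j P))

namespace HesB

theorem tr0 (p : MvPolynomial (Fin 3) ℂ) : translate 0 p = p := by
  unfold translate
  simp

theorem hc_ne {m n : ℕ} {Q : MvPolynomial (Fin 3) ℂ} (hQ : Q.IsHomogeneous m) (h : m ≠ n) :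
    homogeneousComponent n Q = 0 := by
  rw [homogeneousComponent_of_mem hQ, if_neg]
  omega

theorem hc_eq {m : ℕ} {Q : MvPolynomial (Fin 3) ℂ} (hQ : Q.IsHomogeneous m) :
    homogeneousComponent m Q = Q := by
  rw [homogeneousComponent_of_mem hQ, if_pos rfl]

theorem mu_of_hom {m : ℕ} {Q : MvPolynomial (Fin 3) ℂ} (hQ : Q.IsHomogeneous m) :
    Mu 0 m Q := by
  intro j hj
  rw [tr0]
  exact hc_ne hQ (by omega)

theorem mu_neg {m : ℕ} {p : MvPolynomial (Fin 3) ℂ} (h : Mu 0 m p) : Mu 0 m (-p) := by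
  intro j hj
  have h1 := h j hj
  rw [tr0] at h1 ⊢
  rw [map_neg, h1, neg_zero]

theorem mu_C_mul {m : ℕ} {p : MvPolynomial (Fin 3) ℂ} (h : Mu 0 m p) (c : ℂ) :
    Mu 0 m (C c * p) := by
  have h1 := (RgC.mu_zero_left 0 (C c)).mul h
  rwa [zero_add] at h1

/-- The leading form of `p` at the origin is `Q`, of degree `m`. -/
def Lo (m : ℕ) (p Q : MvPolynomial (Fin 3) ℂ) : Prop :=
  Q.IsHomogeneous m ∧ Mu 0 (m + 1) (p - Q)

theorem Lo.mu {m : ℕ} {p Q : MvPolynomial (Fin 3) ℂ} (h : Lo m p Q) : Mu 0 m p := by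
  have h1 := (RgC.mu_mono (Nat.le_succ m) h.2).add (mu_of_hom h.1)
  rwa [sub_add_cancel] at h1

theorem Lo.mul {m m' : ℕ} {p Q p' Q' : MvPolynomial (Fin 3) ℂ} (h : Lo m p Q)
    (h' : Lo m' p' Q') : Lo (m + m') (p * p') (Q * Q') := by
  refine ⟨h.1.mul h'.1, ?_⟩
  have h1 := h.2.mul h'.mu
  have h2 := (mu_of_hom h.1).mul h'.2
  have e1 : m + 1 + m' = m + m' + 1 := by omega
  have e2 : m + (m' + 1) = m + m' + 1 := by omega
  rw [e1] at h1
  rw [e2] at h2
  have h3 := h1.add h2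
  have e3 : (p - Q) * p' + Q * (p' - Q') = p * p' - Q * Q' := by ring
  rwa [e3] at h3

theorem Lo.add {m : ℕ} {p Q p' Q' : MvPolynomial (Fin 3) ℂ} (h : Lo m p Q)
    (h' : Lo m p' Q') : Lo m (p + p') (Q + Q') := by
  refine ⟨h.1.add h'.1, ?_⟩
  have h3 := h.2.add h'.2
  have e3 : p - Q + (p' - Q') = p + p' - (Q + Q') := by ring
  rwa [e3] at h3

theorem Lo.cmul {m : ℕ} {p Q : MvPolynomial (Fin 3) ℂ} (h : Lo m p Q) (c : ℂ) :
    Lo m (C c * p) (C c * Q) := by
  constructor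
  · have h1 := (isHomogeneous_C (Fin 3) c).mul h.1
    rwa [zero_add] at h1
  · have h1 := mu_C_mul h.2 c
    rwa [mul_sub] at h1

theorem Lo.sub {m : ℕ} {p Q p' Q' : MvPolynomial (Fin 3) ℂ} (h : Lo m p Q)
    (h' : Lo m p' Q') : Lo m (p - p') (Q - Q') := by
  have h1 := h.add (h'.cmul (-1))
  rw [C_neg, C_1, neg_mul, one_mul, neg_mul, one_mul, ← sub_eq_add_neg, ← sub_eq_add_neg] at h1
  exact h1

theorem Lo.pderiv {m : ℕ} {p Q : MvPolynomial (Fin 3) ℂ} (h : Lo (m + 1) p Q) (i : Fin 3) :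
    Lo m (MvPolynomial.pderiv i p) (MvPolynomial.pderiv i Q) := by
  refine ⟨h.1.pderiv, ?_⟩
  have h1 := h.2.pderiv i
  rwa [map_sub] at h1

theorem Lo.zero {m : ℕ} {p Q : MvPolynomial (Fin 3) ℂ} (h : Lo m p Q) (h' : Mu 0 (m + 1) p) :
    Q = 0 := by
  have h1 := h'.add (mu_neg h.2)
  have e : p + -(p - Q) = Q := by ring
  rw [e] at h1
  have h2 := h1 m (Nat.lt_succ_self m)
  rw [tr0] at h2
  rw [← h2]
  exact (hc_eq h.1).symm

theorem tr_X (b : Fin 3 → ℂ) (i : Fin 3) : translate b (X i) = X i + C (b i) := by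
  unfold translate
  rw [aeval_X]

theorem tr_C (b : Fin 3 → ℂ) (c : ℂ) : translate b (C c) = C c := by
  unfold translate
  rw [← algebraMap_eq, AlgHom.commutes]

theorem tr_eul (b : Fin 3 → ℂ) {P : MvPolynomial (Fin 3) ℂ} {n : ℕ} (hP : P.IsHomogeneous n)
    (i : Fin 3) :
    (X i + C (b i)) * pderiv i (translate b P) +
      (X (i + 1) + C (b (i + 1))) * pderiv (i + 1) (translate b P) +
      (X (i + 2) + C (b (i + 2))) * pderiv (i + 2) (translate b P) =
      C (n : ℂ) * translate b P := by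
  have h1 := hP.sum_X_mul_pderiv
  rw [HesA.sum3 i, nsmul_eq_mul] at h1
  have h2 : (C (n : ℂ) : MvPolynomial (Fin 3) ℂ) = (n : MvPolynomial (Fin 3) ℂ) :=
    map_natCast C n
  rw [← h2] at h1
  have h3 := congrArg (translate b) h1
  rw [RgC.translate_add', RgC.translate_add', RgC.translate_mul', RgC.translate_mul',
    RgC.translate_mul', RgC.translate_mul', tr_X, tr_X, tr_X, tr_C, ← RgC.pderiv_translate',
    ← RgC.pderiv_translate', ← RgC.pderiv_translate'] at h3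
  exact h3

theorem hess_det (P : MvPolynomial (Fin 3) ℂ) (i : Fin 3) : hess P =
    pderiv i (pderiv i P) * (pderiv (i + 1) (pderiv (i + 1) P) * pderiv (i + 2) (pderiv (i + 2) P) -
      pderiv (i + 1) (pderiv (i + 2) P) ^ 2) -
    pderiv (i + 1) (pderiv i P) * (pderiv (i + 1) (pderiv i P) * pderiv (i + 2) (pderiv (i + 2) P) -
      pderiv (i + 1) (pderiv (i + 2) P) * pderiv (i + 2) (pderiv i P)) +
    pderiv (i + 2) (pderiv i P) * (pderiv (i + 1) (pderiv i P) * pderiv (i + 1) (pderiv (i + 2) P) -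
      pderiv (i + 2) (pderiv i P) * pderiv (i + 1) (pderiv (i + 1) P)) := by
  unfold hess
  rw [Matrix.det_fin_three]
  simp only [Matrix.of_apply]
  have c10 : pderiv 1 (pderiv 0 P) = pderiv 0 (pderiv 1 P) := pderiv_comm' _ _ _
  have c20 : pderiv 2 (pderiv 0 P) = pderiv 0 (pderiv 2 P) := pderiv_comm' _ _ _
  have c21 : pderiv 2 (pderiv 1 P) = pderiv 1 (pderiv 2 P) := pderiv_comm' _ _ _
  fin_cases i
  · show _ = pderiv 0 (pderiv 0 P) * (pderiv 1 (pderiv 1 P) * pderiv 2 (pderiv 2 P) -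
      pderiv 1 (pderiv 2 P) ^ 2) -
      pderiv 1 (pderiv 0 P) * (pderiv 1 (pderiv 0 P) * pderiv 2 (pderiv 2 P) -
        pderiv 1 (pderiv 2 P) * pderiv 2 (pderiv 0 P)) +
      pderiv 2 (pderiv 0 P) * (pderiv 1 (pderiv 0 P) * pderiv 1 (pderiv 2 P) -
        pderiv 2 (pderiv 0 P) * pderiv 1 (pderiv 1 P))
    rw [c10, c20, c21]
    ring
  · show _ = pderiv 1 (pderiv 1 P) * (pderiv 2 (pderiv 2 P) * pderiv 0 (pderiv 0 P) -
      pderiv 2 (pderiv 0 P) ^ 2) -
      pderiv 2 (pderiv 1 P) * (pderiv 2 (pderiv 1 P) * pderiv 0 (pderiv 0 P) -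
        pderiv 2 (pderiv 0 P) * pderiv 0 (pderiv 1 P)) +
      pderiv 0 (pderiv 1 P) * (pderiv 2 (pderiv 1 P) * pderiv 2 (pderiv 0 P) -
        pderiv 0 (pderiv 1 P) * pderiv 2 (pderiv 2 P))
    rw [c10, c20, c21]
    ring
  · show _ = pderiv 2 (pderiv 2 P) * (pderiv 0 (pderiv 0 P) * pderiv 1 (pderiv 1 P) -
      pderiv 0 (pderiv 1 P) ^ 2) -
      pderiv 0 (pderiv 2 P) * (pderiv 0 (pderiv 2 P) * pderiv 1 (pderiv 1 P) -
        pderiv 0 (pderiv 1 P) * pderiv 1 (pderiv 2 P)) +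
      pderiv 1 (pderiv 2 P) * (pderiv 0 (pderiv 2 P) * pderiv 0 (pderiv 1 P) -
        pderiv 1 (pderiv 2 P) * pderiv 0 (pderiv 0 P))
    rw [c10, c20, c21]
    ring

theorem tr_hess (b : Fin 3 → ℂ) (P : MvPolynomial (Fin 3) ℂ) :
    hess (translate b P) = translate b (hess P) := by
  unfold hess
  rw [Matrix.det_fin_three, Matrix.det_fin_three]
  simp only [Matrix.of_apply, RgC.pderiv_translate']
  unfold translate
  simp only [map_add, map_sub, map_mul]

end HesB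

open HesB in
theorem hess_ne {P : MvPolynomial (Fin 3) ℂ} {n : ℕ} (hP : P.IsHomogeneous n)
    {b : Fin 3 → ℂ} (hb : b ≠ 0) {μ : ℕ} (hμ : Mu b μ P) (h2 : 2 ≤ μ) (hn : μ < n)
    (hsq : Squarefree (homogeneousComponent μ (translate b P))) : hess P ≠ 0 := by
  intro h0
  obtain ⟨i, hi⟩ : ∃ i, b i ≠ 0 := by
    by_contra hcon
    push Not at hcon
    exact hb (funext hcon)
  obtain ⟨m, rfl⟩ : ∃ m, μ = m + 2 := ⟨μ - 2, by omega⟩
  set T := translate b P with hT
  set Q := homogeneousComponent (m + 2) T with hQdef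
  have hQ : Q.IsHomogeneous (m + 2) := homogeneousComponent_isHomogeneous _ _
  have hLT : Lo (m + 2) T Q := by
    refine ⟨hQ, fun j hj => ?_⟩
    rw [tr0, map_sub]
    rcases Nat.lt_succ_iff_lt_or_eq.1 hj with h | h
    · rw [hμ j h, hc_ne hQ (by omega), sub_zero]
    · rw [h, hc_eq hQ, hQdef, sub_self]
  have hT0 : hess T = 0 := by
    rw [hT, tr_hess, h0]
    unfold translate
    rw [map_zero]
  -- Euler
  have E := tr_eul b hP i
  rw [← hT] at E
  have E' : ∀ j, (X i + C (b i)) * pderiv i (pderiv j T) +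
      (X (i + 1) + C (b (i + 1))) * pderiv (i + 1) (pderiv j T) +
      (X (i + 2) + C (b (i + 2))) * pderiv (i + 2) (pderiv j T) =
      C ((n : ℂ) - 1) * pderiv j T := by
    intro j
    have h := tr_eul b (hP.pderiv (i := j)) i
    rw [← RgC.pderiv_translate', Nat.cast_sub (by omega), Nat.cast_one] at h
    exact h
  have E0 := E' i
  have E1 := E' (i + 1)
  have E2 := E' (i + 2)
  rw [hess_det T i] at hT0
  have c1 : pderiv i (pderiv (i + 1) T) = pderiv (i + 1) (pderiv i T) := pderiv_comm' _ _ _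
  have c2 : pderiv i (pderiv (i + 2) T) = pderiv (i + 2) (pderiv i T) := pderiv_comm' _ _ _
  have c3 : pderiv (i + 2) (pderiv (i + 1) T) = pderiv (i + 1) (pderiv (i + 2) T) :=
    pderiv_comm' _ _ _
  rw [c1, c3] at E1
  rw [c2] at E2
  -- the direction
  have hdir : ∑ j, C (b j) * pderiv j Q = 0 := by
    rw [HesA.sum3 i]
    have h1 := ((hLT.pderiv i).cmul (b i)).add ((hLT.pderiv (i + 1)).cmul (b (i + 1)))
    have h3 := h1.add ((hLT.pderiv (i + 2)).cmul (b (i + 2)))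
    refine h3.zero ?_
    have hX : ∀ j : Fin 3, Mu 0 1 (X j : MvPolynomial (Fin 3) ℂ) := fun j =>
      mu_of_hom (isHomogeneous_X ℂ j)
    have g1 : ∀ j : Fin 3, Mu 0 (m + 1 + 1) (X j * pderiv j T) := by
      intro j
      have h5 := (hX j).mul (hLT.pderiv j).mu
      have e : 1 + (m + 1) = m + 1 + 1 := by omega
      rwa [e] at h5
    have g2 := ((mu_C_mul hLT.mu (n : ℂ)).add (mu_neg (g1 i))).add
      ((mu_neg (g1 (i + 1))).add (mu_neg (g1 (i + 2))))
    have e : C (n : ℂ) * T + -(X i * pderiv i T) +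
        (-(X (i + 1) * pderiv (i + 1) T) + -(X (i + 2) * pderiv (i + 2) T)) =
        C (b i) * pderiv i T + C (b (i + 1)) * pderiv (i + 1) T +
          C (b (i + 2)) * pderiv (i + 2) T := by
      linear_combination -E
    rw [e] at g2
    exact g2
  have hQ0 : Q ≠ 0 := hsq.ne_zero
  have hH := hess2_ne hQ (by omega) hsq hi hdir
  have hB := bord_eq hQ hi hdir
  -- leading forms
  have l1 := hLT.pderiv (i + 1)
  have l2 := hLT.pderiv (i + 2)
  have l11 := l1.pderiv (i + 1)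
  have l12 := l2.pderiv (i + 1)
  have l22 := l2.pderiv (i + 2)
  have lH := hLT.mul ((l11.mul l22).sub (l12.mul l12))
  have lB := ((l1.mul l1).mul l22).sub ((((l1.mul l2).mul l12).cmul 2).sub ((l2.mul l2).mul l11))
  have e1 : m + 1 + (m + 1) + m = m + 2 + (m + m) := by omega
  rw [e1] at lB
  have lF := (lH.cmul (n : ℂ)).sub (lB.cmul ((n : ℂ) - 1))
  have hx : (X i + C (b i) : MvPolynomial (Fin 3) ℂ) ≠ 0 := by
    intro h
    have h1 := congrArg (eval (fun _ => (1 - b i : ℂ))) h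
    simp at h1
  have hn1 : (C ((n : ℂ) - 1) : MvPolynomial (Fin 3) ℂ) ≠ 0 := by
    rw [Ne, C_eq_zero]
    intro h3
    have h4 : (n : ℂ) = (1 : ℕ) := by rw [Nat.cast_one]; linear_combination h3
    have h5 : n = 1 := by exact_mod_cast h4
    omega
  set x := (X i + C (b i) : MvPolynomial (Fin 3) ℂ) with hxd
  set y := (X (i + 1) + C (b (i + 1)) : MvPolynomial (Fin 3) ℂ) with hyd
  set z := (X (i + 2) + C (b (i + 2)) : MvPolynomial (Fin 3) ℂ) with hzd
  set T00 := pderiv i (pderiv i T) with hT00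
  set T01 := pderiv (i + 1) (pderiv i T) with hT01
  set T02 := pderiv (i + 2) (pderiv i T) with hT02
  set T11 := pderiv (i + 1) (pderiv (i + 1) T) with hT11
  set T12 := pderiv (i + 1) (pderiv (i + 2) T) with hT12
  set T22 := pderiv (i + 2) (pderiv (i + 2) T) with hT22
  set T0 := pderiv i T with hT0'
  set T1 := pderiv (i + 1) T with hT1'
  set T2 := pderiv (i + 2) T with hT2'
  have hK : C ((n : ℂ) - 1) * (T0 * (T11 * T22 - T12 ^ 2) - T1 * (T01 * T22 - T12 * T02) +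
      T2 * (T01 * T12 - T11 * T02)) = 0 := by
    linear_combination x * hT0 - (T11 * T22 - T12 ^ 2) * E0 + (T01 * T22 - T12 * T02) * E1 -
      (T01 * T12 - T11 * T02) * E2
  have K0 := (mul_eq_zero.1 hK).resolve_left hn1
  have C2 : (C 2 : MvPolynomial (Fin 3) ℂ) = 2 := map_ofNat C 2
  have F : C (n : ℂ) * (T * (T11 * T22 - T12 * T12)) - C ((n : ℂ) - 1) *
      (T1 * T1 * T22 - (C 2 * (T1 * T2 * T12) - T2 * T2 * T11)) = 0 := by
    rw [C2]
    linear_combination x * K0 - (T11 * T22 - T12 ^ 2) * E - (-(T1 * T22) + T2 * T12) * E1 -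
      (T1 * T12 - T2 * T11) * E2
  rw [F] at lF
  have G := lF.zero (Mu.zero _ _)
  rw [C2] at G
  have hc : (C (((m + 2 : ℕ) : ℂ) - n) : MvPolynomial (Fin 3) ℂ) =
      C (n : ℂ) * C (((m + 2 : ℕ) : ℂ) - 1) - C ((n : ℂ) - 1) * C ((m + 2 : ℕ) : ℂ) := by
    rw [← C_mul, ← C_mul, ← C_sub]
    congr 1
    ring
  have hc0 : (C (((m + 2 : ℕ) : ℂ) - n) : MvPolynomial (Fin 3) ℂ) ≠ 0 := by
    rw [Ne, C_eq_zero]
    intro h3
    have h4 : ((m + 2 : ℕ) : ℂ) = (n : ℂ) := by linear_combination h3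
    have h5 : m + 2 = n := by exact_mod_cast h4
    omega
  have hfin : C (((m + 2 : ℕ) : ℂ) - n) * (Q * (pderiv (i + 1) (pderiv (i + 1) Q) *
      pderiv (i + 2) (pderiv (i + 2) Q) - pderiv (i + 1) (pderiv (i + 2) Q) ^ 2)) = 0 := by
    rw [hc]
    linear_combination (C (((m + 2 : ℕ) : ℂ) - 1)) * G + C ((n : ℂ) - 1) * hB
  exact (mul_ne_zero hc0 (mul_ne_zero hQ0 hH)) hfin

end MPb07157.OK
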