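import Pool.Agent.Lib.MP_b07157_agB.OrdB

/-!
# Jacobian determinants of three forms of the same degree
-/

noncomputable section

namespace MPb07157.O2

open MvPolynomial

abbrev S3 := MvPolynomial (Fin 3) ℂ

/-- The Jacobian determinant. -/
def jac (p q r : S3) : S3 :=
  pderiv 0 p * (pderiv 1 q * pderiv 2 r - pderiv 2 q * pderiv 1 r) -
    pderiv 1 p * (pderiv 0 q * pderiv 2 r - pderiv 2 q * pderiv 0 r) +
    pderiv 2 p * (pderiv 0 q * pderiv 1 r - pderiv 1 q * pderiv 0 r)

theorem jac_swap12 (p q r : S3) : jac q p r = -jac p q r := by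
  unfold jac
  ring

theorem jac_swap23 (p q r : S3) : jac p r q = -jac p q r := by
  unfold jac
  ring

theorem jac_swap13 (p q r : S3) : jac r q p = -jac p q r := by
  unfold jac
  ring

theorem jac_self12 (p r : S3) : jac p p r = 0 := by
  unfold jac
  ring

theorem jac_self13 (p q : S3) : jac p q p = 0 := by
  unfold jac
  ring

theorem jac_self23 (p q : S3) : jac p q q = 0 := by
  unfold jac
  ring

theorem jac_add1 (p p' q r : S3) : jac (p + p') q r = jac p q r + jac p' q r := by
  unfold jac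
  simp only [map_add]
  ring

theorem jac_add2 (p q q' r : S3) : jac p (q + q') r = jac p q r + jac p q' r := by
  unfold jac
  simp only [map_add]
  ring

theorem jac_add3 (p q r r' : S3) : jac p q (r + r') = jac p q r + jac p q r' := by
  unfold jac
  simp only [map_add]
  ring

theorem pderiv_C_mul' (i : Fin 3) (c : ℂ) (p : S3) : pderiv i (C c * p) = C c * pderiv i p := by
  rw [Derivation.leibniz, pderiv_C, smul_eq_mul, smul_zero, add_zero]

theorem jac_C1 (c : ℂ) (p q r : S3) : jac (C c * p) q r = C c * jac p q r := by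
  unfold jac
  simp only [pderiv_C_mul']
  ring

theorem jac_C2 (c : ℂ) (p q r : S3) : jac p (C c * q) r = C c * jac p q r := by
  unfold jac
  simp only [pderiv_C_mul']
  ring

theorem jac_C3 (c : ℂ) (p q r : S3) : jac p q (C c * r) = C c * jac p q r := by
  unfold jac
  simp only [pderiv_C_mul']
  ring

/-- A common factor of two of the entries divides the determinant. -/
theorem dvd_jac {P u v w : S3} (h1 : P ∣ u) (h2 : P ∣ w) : P ∣ jac u v w := by
  obtain ⟨E, rfl⟩ := h1
  obtain ⟨E', rfl⟩ := h2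
  refine ⟨E * jac P v E' + E' * jac E v P + P * jac E v E', ?_⟩
  unfold jac
  simp only [Derivation.leibniz, smul_eq_mul]
  ring

/-- Cramer's rule. -/
theorem cramer (a b c v : S3) (i : Fin 3) : jac a b c * pderiv i v =
    jac v b c * pderiv i a + jac a v c * pderiv i b + jac a b v * pderiv i c := by
  unfold jac
  fin_cases i <;> · simp only [Fin.zero_eta, Fin.mk_one, Fin.reduceFinMk]; ring

theorem euler {δ : ℕ} {p : S3} (h : p.IsHomogeneous δ) :
    X 0 * pderiv 0 p + X 1 * pderiv 1 p + X 2 * pderiv 2 p = (δ : S3) * p := by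
  have := h.sum_X_mul_pderiv
  rw [Fin.sum_univ_three, nsmul_eq_mul] at this
  exact this

theorem natCast_ne {δ : ℕ} (h : 0 < δ) : (δ : S3) ≠ 0 := by
  have : (C (δ : ℂ) : S3) ≠ 0 := by
    rw [Ne, C_eq_zero]
    exact_mod_cast h.ne'
  rwa [map_natCast] at this

/-- Cramer's rule for forms of the same degree. -/
theorem cramer' {δ : ℕ} (hδ : 0 < δ) {a b c v : S3} (ha : a.IsHomogeneous δ)
    (hb : b.IsHomogeneous δ) (hc : c.IsHomogeneous δ) (hv : v.IsHomogeneous δ) :
    jac a b c * v = jac v b c * a + jac a v c * b + jac a b v * c := by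
  apply mul_left_cancel₀ (natCast_ne hδ)
  have e1 := euler ha
  have e2 := euler hb
  have e3 := euler hc
  have e4 := euler hv
  linear_combination (-jac a b c) * e4 + jac v b c * e1 + jac a v c * e2 + jac a b v * e3 +
    X 0 * cramer a b c v 0 + X 1 * cramer a b c v 1 + X 2 * cramer a b c v 2

theorem exists_C_of_pderiv {p : S3} (h : ∀ i, pderiv i p = 0) : ∃ c, p = C c := by
  refine ⟨coeff 0 p, ?_⟩
  ext m
  rw [coeff_C]
  by_cases hm : (0 : Fin 3 →₀ ℕ) = m
  · rw [if_pos hm, hm]
  · rw [if_neg hm]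
    obtain ⟨i, hi⟩ : ∃ i, m i ≠ 0 := by
      by_contra hcon
      push Not at hcon
      exact hm (Finsupp.ext hcon).symm
    have h1 := congrArg (coeff (m - Finsupp.single i 1)) (h i)
    have h2 : m - Finsupp.single i 1 + Finsupp.single i 1 = m := by
      apply tsub_add_cancel_of_le
      rw [Finsupp.single_le_iff]
      omega
    rw [coeff_pderiv, h2, coeff_zero] at h1
    exact (mul_eq_zero.1 h1).resolve_right (Nat.cast_add_one_ne_zero _)

/-- A quotient with vanishing gradient is constant. -/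
theorem exists_const {E J : S3} (hJ : J ≠ 0)
    (h : ∀ i, E * pderiv i J = J * pderiv i E) : ∃ c, E = C c * J := by
  classical
  by_cases hE : E = 0
  · exact ⟨0, by rw [hE, C_0, zero_mul]⟩
  obtain ⟨E₁, J₁, G, hrel, hE1, hJ1⟩ := UniqueFactorizationMonoid.exists_reduced_factors E hE J
  subst hE1
  subst hJ1
  have hG : G ≠ 0 := by
    rintro rfl
    exact hJ (zero_mul _)
  have h1 : ∀ i, E₁ * pderiv i J₁ = J₁ * pderiv i E₁ := by
    intro i
    have h2 := h i
    rw [Derivation.leibniz, Derivation.leibniz, smul_eq_mul, smul_eq_mul, smul_eq_mul,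
      smul_eq_mul] at h2
    apply mul_left_cancel₀ (mul_ne_zero hG hG)
    linear_combination h2
  have hJc : ∃ c, J₁ = C c := by
    apply exists_C_of_pderiv
    intro i
    apply OB.OrdB.pderiv_eq_zero_of_dvd
    exact hrel.symm.dvd_of_dvd_mul_left (Dvd.intro _ (h1 i).symm)
  have hEc : ∃ c, E₁ = C c := by
    apply exists_C_of_pderiv
    intro i
    apply OB.OrdB.pderiv_eq_zero_of_dvd
    exact hrel.dvd_of_dvd_mul_left (Dvd.intro _ (h1 i))
  obtain ⟨j, hj⟩ := hJc
  obtain ⟨e, he⟩ := hEc
  have hj0 : j ≠ 0 := by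
    rintro rfl
    rw [C_0] at hj
    rw [hj, mul_zero] at hJ
    exact hJ rfl
  refine ⟨e / j, ?_⟩
  rw [he, hj, mul_left_comm, ← C_mul, div_mul_cancel₀ _ hj0]

end MPb07157.O2
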