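import Pool.Agent.Lib.MP_b07157_agB2.OpD
import Pool.Agent.Lib.MP_b07157_agB.OrdA

/-!
# Laurent polynomials as rational functions; orders at the point `(1 : 0 : 0)`
-/

noncomputable section

namespace MPb07157.OK

open MvPolynomial
open MPb07157.OB (La sg io td Ge Hm Reg ex gc)

/-- The monomials as rational functions. -/
def moM : Multiplicative (Fin 3 → ℤ) →* Kf where
  toFun m := ∏ i, fr (X i) ^ (m.toAdd i)
  map_one' := by simp
  map_mul' m m' := by
    rw [← Finset.prod_mul_distrib]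
    refine Finset.prod_congr rfl fun i _ => ?_
    rw [toAdd_mul, Pi.add_apply, zpow_add₀ (fr_ne_zero (X_ne_zero i))]

/-- Laurent polynomials as rational functions. -/
def jo : La →ₐ[ℂ] Kf := AddMonoidAlgebra.lift ℂ Kf (Fin 3 → ℤ) moM

theorem jo_sg (m : Fin 3 → ℤ) (c : ℂ) : jo (sg m c) = c • ∏ i, fr (X i) ^ (m i) := by
  unfold jo
  rw [AddMonoidAlgebra.lift_single]
  rfl

theorem jo_io (p : MvPolynomial (Fin 3) ℂ) : jo (io p) = fr p := by
  have h : (jo.comp io) = fr := by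
    apply MvPolynomial.algHom_ext
    intro i
    rw [AlgHom.comp_apply, OB.io_X, jo_sg, one_smul, Finset.prod_eq_single i]
    · rw [OB.ex_same, zpow_one]
    · intro j _ hj
      rw [OB.ex_ne hj, zpow_zero]
    · intro h
      exact absurd (Finset.mem_univ i) h
  rw [← h, AlgHom.comp_apply]

/-- The order at the point `(1 : 0 : 0)` is at least `L`. -/
def OgK (L : ℤ) (w : Kf) : Prop :=
  ∃ (m : ℤ) (a b : MvPolynomial (Fin 3) ℂ), Ge (OB.wt 0) (m + L) (io a) ∧ Ge (OB.wt 0) m (io b) ∧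
    gc (OB.wt 0) m (io b) ≠ 0 ∧ w * fr b = fr a

/-! ### Auxiliary facts -/

namespace JoAux

theorem mon_ne (N : ℕ) : ((X 0 * X 1 * X 2) ^ N : MvPolynomial (Fin 3) ℂ) ≠ 0 :=
  pow_ne_zero _ (mul_ne_zero (mul_ne_zero (X_ne_zero 0) (X_ne_zero 1)) (X_ne_zero 2))

theorem mon_hom (N : ℕ) :
    ((X 0 * X 1 * X 2) ^ N : MvPolynomial (Fin 3) ℂ).IsHomogeneous (3 * N) := by
  have h := (((isHomogeneous_X ℂ (0 : Fin 3)).mul (isHomogeneous_X ℂ 1)).mul
    (isHomogeneous_X ℂ 2)).pow N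
  simpa using h

theorem io_mon (N : ℕ) : io ((X 0 * X 1 * X 2) ^ N) = sg (N • (ex 0 + ex 1 + ex 2)) 1 := by
  rw [map_pow, map_mul, map_mul, OB.io_X, OB.io_X, OB.io_X, OB.sg_mul_sg, OB.sg_mul_sg, OB.sg_pow]
  simp

theorem wt_mon (N : ℕ) : OB.wt 0 (N • (ex 0 + ex 1 + ex 2)) = 2 * N := by
  rw [OB.wt_apply]
  simp [ex]
  ring

theorem exists_clear (a : La) : ∃ (N : ℕ) (p : MvPolynomial (Fin 3) ℂ),
    io ((X 0 * X 1 * X 2) ^ N) * a = io p := by
  obtain ⟨N, hN⟩ := OB.exists_clear3 a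
  obtain ⟨p, hp⟩ := hN N le_rfl
  exact ⟨N, p, hp⟩

theorem isHomogeneous_of_hm {p : MvPolynomial (Fin 3) ℂ} {K : ℤ} (hK : 0 ≤ K)
    (h : Hm td K (io p)) : p.IsHomogeneous K.toNat := by
  intro v hv
  have h1 := h (OB.toZ v) (by rwa [OB.cf_io])
  rw [OB.td_apply] at h1
  have h2 : Finsupp.degree v = K.toNat := by
    rw [Finsupp.degree_eq_sum, Fin.sum_univ_three]
    simp only [OB.toZ] at h1
    omega
  rw [← h2, Finsupp.degree_eq_weight_one]
  rfl

theorem eq_zero_of_hm {p : MvPolynomial (Fin 3) ℂ} {K : ℤ} (hK : K < 0)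
    (h : Hm td K (io p)) : p = 0 := by
  ext v
  rw [coeff_zero]
  by_contra hv
  have h1 := h (OB.toZ v) (by rwa [OB.cf_io])
  rw [OB.td_apply] at h1
  simp only [OB.toZ] at h1
  omega

theorem ge_io (p : MvPolynomial (Fin 3) ℂ) : Ge (OB.wt 0) 0 (io p) := by
  intro m hm
  rw [OB.wt_apply]
  have h1 : ∀ i, 0 ≤ m i := by
    intro i
    by_contra hi
    push Not at hi
    exact hm (OB.cf_io_neg hi p)
  have h2 := h1 (0 + 1)
  have h3 := h1 (0 + 2)
  omega

theorem eval_single {e : MvPolynomial (Fin 3) ℂ} {k : ℕ} (he : e.IsHomogeneous k) :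
    eval (Pi.single 0 1) e = coeff (Finsupp.single 0 k) e := by
  classical
  rw [eval_eq', Finset.sum_eq_single (Finsupp.single 0 k)]
  · rw [Fin.prod_univ_three]
    simp
  · intro v hv hne
    have h1 : v.degree = k := by
      rw [Finsupp.degree_eq_weight_one]
      exact he (mem_support_iff.1 hv)
    by_cases h2 : v 1 = 0 ∧ v 2 = 0
    · exfalso
      apply hne
      rw [Finsupp.degree_eq_sum, Fin.sum_univ_three] at h1
      ext i
      fin_cases i
      · simp; omega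
      · simp [h2.1]
      · simp [h2.2]
    · rw [Fin.prod_univ_three]
      by_cases h3 : v 1 = 0
      · have h4 : v 2 ≠ 0 := fun h => h2 ⟨h3, h⟩
        simp [h4]
      · simp [h3]
  · intro h
    rw [notMem_support_iff.1 h, zero_mul]

end JoAux

open JoAux

/-! ### The inclusion of the Laurent polynomials -/

theorem jo_clear {a : La} {q p : MvPolynomial (Fin 3) ℂ} (h : io q * a = io p) :
    jo a * fr q = fr p := by
  rw [← jo_io, ← jo_io, ← h, map_mul, mul_comm]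

theorem jo_injective : Function.Injective jo := by
  rw [injective_iff_map_eq_zero]
  intro a ha
  obtain ⟨N, p, h⟩ := exists_clear a
  have h1 := jo_clear h
  rw [ha, zero_mul] at h1
  have h2 : p = 0 := fr_injective (by rw [← h1, map_zero])
  rw [h2, map_zero] at h
  exact (mul_eq_zero.1 h).resolve_left (OB.io_ne_zero (mon_ne N))

theorem DK_jo (i : Fin 3) (a : La) : DK i (jo a) = jo (OB.D i a) := by
  obtain ⟨N, p, h⟩ := exists_clear a
  set q : MvPolynomial (Fin 3) ℂ := (X 0 * X 1 * X 2) ^ N with hq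
  have hq0 : fr q ≠ 0 := fr_ne_zero (mon_ne N)
  have h1 := congrArg (DK i) (jo_clear h)
  rw [DK_mul, DK_fr, DK_fr] at h1
  have h2 := congrArg (OB.D i) h
  rw [OB.D_mul, OB.D_io, OB.D_io] at h2
  have h3 := congrArg jo h2
  rw [map_add, map_mul, map_mul, jo_io, jo_io, jo_io] at h3
  apply mul_left_cancel₀ hq0
  linear_combination h1 - h3

theorem hk_jo {a : La} {k : ℤ} (h : Hm td k a) : Hk k (jo a) := by
  obtain ⟨N, p, hp⟩ := exists_clear a
  have h1 : Hm td (((3 * N : ℕ) : ℤ) + k) (io p) := by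
    rw [← hp]
    exact (OB.hm_io (mon_hom N)).mul h
  rcases lt_or_ge (((3 * N : ℕ) : ℤ) + k) 0 with h2 | h2
  · have h3 := eq_zero_of_hm h2 h1
    have h4 : jo a = 0 := by
      have h5 := jo_clear hp
      rw [h3, map_zero] at h5
      exact (mul_eq_zero.1 h5).resolve_right (fr_ne_zero (mon_ne N))
    refine ⟨k.toNat, (-k).toNat, 0, X 0 ^ (-k).toNat, isHomogeneous_zero _ _ _, ?_, ?_, ?_, ?_⟩
    · simpa using (isHomogeneous_X ℂ (0 : Fin 3)).pow (-k).toNat
    · exact pow_ne_zero _ (X_ne_zero 0)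
    · omega
    · rw [h4, zero_mul, map_zero]
  · exact ⟨(((3 * N : ℕ) : ℤ) + k).toNat, 3 * N, p, _, isHomogeneous_of_hm h2 h1, mon_hom N,
      mon_ne N, by omega, jo_clear hp⟩

theorem hm_of_hk_jo {a : La} {k : ℤ} (h : Hk k (jo a)) : Hm td k a := by
  obtain ⟨m, n, c, b, hc, hb, hb0, hk, e⟩ := h
  have h1 : a * io b = io c := by
    apply jo_injective
    rw [map_mul, jo_io, jo_io, e]
  intro v hv
  by_contra hne
  have h2 := OB.gc_mul_hm (OB.hm_io hb) (td v) a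
  rw [h1, (OB.hm_io hc).gc_ne (k' := td v + n) (by omega)] at h2
  have h3 := (mul_eq_zero.1 h2.symm).resolve_right (OB.io_ne_zero hb0)
  apply hv
  rw [← OB.cf_gc_of_eq (l := td) rfl a, h3, map_zero]

theorem ogK_jo_iff {L : ℤ} {a : La} : OgK L (jo a) ↔ Ge (OB.wt 0) L a := by
  constructor
  · rintro ⟨m, x, b, hx, hb, hb0, e⟩
    have h1 : io b * a = io x := by
      apply jo_injective
      rw [map_mul, jo_io, jo_io, ← e, mul_comm]
    obtain ⟨s, hs⟩ := OB.exists_ge (OB.wt 0) a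
    exact OB.ge_of_mul hb hb0 hs (h1 ▸ hx)
  · intro h
    obtain ⟨N, p, hp⟩ := exists_clear a
    have h1 : Hm (OB.wt 0) (2 * N) (io ((X 0 * X 1 * X 2) ^ N)) := by
      rw [io_mon]
      exact OB.Hm.sg (wt_mon N) 1
    refine ⟨2 * N, p, _, ?_, h1.ge, ?_, jo_clear hp⟩
    · rw [← hp]
      exact h1.ge.mul h
    · rw [h1.gc_eq]
      exact OB.io_ne_zero (mon_ne N)

theorem OgK.mono {L L' : ℤ} {w : Kf} (h : OgK L w) (hL : L' ≤ L) : OgK L' w := by
  obtain ⟨m, a, b, ha, hb, hb0, e⟩ := h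
  exact ⟨m, a, b, ha.mono (by omega), hb, hb0, e⟩

theorem OgK.add {L : ℤ} {w w' : Kf} (h : OgK L w) (h' : OgK L w') : OgK L (w + w') := by
  obtain ⟨m, a, b, ha, hb, hb0, e⟩ := h
  obtain ⟨m', a', b', ha', hb', hb0', e'⟩ := h'
  refine ⟨m + m', a * b' + a' * b, b * b', ?_, ?_, ?_, ?_⟩
  · rw [map_add, map_mul, map_mul]
    apply OB.Ge.add
    · exact (ha.mul hb').mono (by omega)
    · exact (ha'.mul hb).mono (by omega)
  · rw [map_mul]
    exact hb.mul hb'
  · rw [map_mul, OB.gc_mul_low hb hb']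
    exact mul_ne_zero hb0 hb0'
  · rw [map_mul, map_add, map_mul, map_mul, ← e, ← e']
    ring

theorem OgK.neg {L : ℤ} {w : Kf} (h : OgK L w) : OgK L (-w) := by
  obtain ⟨m, a, b, ha, hb, hb0, e⟩ := h
  refine ⟨m, -a, b, ?_, hb, hb0, ?_⟩
  · rw [map_neg]
    exact ha.neg
  · rw [map_neg, ← e]
    ring

theorem OgK.mul {L L' : ℤ} {w w' : Kf} (h : OgK L w) (h' : OgK L' w') :
    OgK (L + L') (w * w') := by
  obtain ⟨m, a, b, ha, hb, hb0, e⟩ := h
  obtain ⟨m', a', b', ha', hb', hb0', e'⟩ := h'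
  refine ⟨m + m', a * a', b * b', ?_, ?_, ?_, ?_⟩
  · rw [map_mul]
    exact (ha.mul ha').mono (by omega)
  · rw [map_mul]
    exact hb.mul hb'
  · rw [map_mul, OB.gc_mul_low hb hb']
    exact mul_ne_zero hb0 hb0'
  · rw [map_mul, map_mul, ← e, ← e']
    ring

/-- A homogeneous polynomial which does not vanish at `(1 : 0 : 0)` is a unit for orders. -/
theorem ogK_inv {e : MvPolynomial (Fin 3) ℂ} {k : ℕ} (he : e.IsHomogeneous k)
    (he0 : eval (Pi.single 0 1) e ≠ 0) : OgK 0 (fr e)⁻¹ := by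
  have hne : e ≠ 0 := by
    rintro rfl
    exact he0 (map_zero _)
  refine ⟨0, 1, e, ?_, ge_io e, ?_, ?_⟩
  · exact (ge_io 1).mono (by omega)
  · intro h
    have h1 := congrArg (OB.cf (OB.toZ (Finsupp.single 0 k))) h
    have h2 : OB.wt 0 (OB.toZ (Finsupp.single 0 k)) = 0 := by
      rw [OB.wt_apply]
      simp [OB.toZ]
    rw [OB.cf_gc_of_eq h2, OB.cf_io, map_zero, ← eval_single he] at h1
    exact he0 h1
  · rw [map_one, inv_mul_cancel₀ (fr_ne_zero hne)]

theorem OgK.DK_aux {L : ℤ} {w : Kf} (h : OgK L w) (i : Fin 3) :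
    OgK (L - OB.wt 0 (ex i)) (OK.DK i w) := by
  obtain ⟨m, a, b, ha, hb, hb0, e⟩ := h
  have h1 := congrArg (OK.DK i) e
  rw [DK_mul, DK_fr, DK_fr] at h1
  refine ⟨m + m, pderiv i a * b - a * pderiv i b, b * b, ?_, ?_, ?_, ?_⟩
  · rw [map_sub, map_mul, map_mul, ← OB.D_io, ← OB.D_io]
    apply OB.Ge.sub
    · exact ((ha.D i).mul hb).mono (by omega)
    · exact (ha.mul (hb.D i)).mono (by omega)
  · rw [map_mul]
    exact hb.mul hb
  · rw [map_mul, OB.gc_mul_low hb hb]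
    exact mul_ne_zero hb0 hb0
  · rw [map_mul, map_sub, map_mul, map_mul, ← h1, ← e]
    ring

theorem OgK.DK {L : ℤ} {w : Kf} (h : OgK L w) (i : Fin 3) : OgK (L - 1) (OK.DK i w) := by
  refine (h.DK_aux i).mono ?_
  have : OB.wt 0 (ex i) ≤ 1 := by
    rw [OB.wt_apply]
    fin_cases i <;> simp [ex]
  omega

/-- For the derivative with respect to the first variable the order does not drop. -/
theorem OgK.DK0 {L : ℤ} {w : Kf} (h : OgK L w) : OgK L (OK.DK 0 w) := by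
  have h1 := h.DK_aux 0
  rwa [OB.wt_ex_self, sub_zero] at h1

theorem ogK_of_mu {L : ℕ} {k : ℕ} {p : MvPolynomial (Fin 3) ℂ} (hp : p.IsHomogeneous k)
    (h : Mu (Pi.single 0 1) L p) : OgK L (fr p) := by
  rw [← jo_io, ogK_jo_iff, OB.ge_iff hp 0]
  exact h

theorem mu_of_ogK {L : ℕ} {k : ℕ} {p : MvPolynomial (Fin 3) ℂ} (hp : p.IsHomogeneous k)
    (h : OgK L (fr p)) : Mu (Pi.single 0 1) L p := by
  rw [← jo_io, ogK_jo_iff, OB.ge_iff hp 0] at h
  exact h

end MPb07157.OK
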