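import Pool.Agent.Lib.MP_b07157_agB.La

/-!
# The field of rational functions in three variables and its derivations
-/

noncomputable section

namespace MPb07157.OK

open MvPolynomial

/-- The field of rational functions in three variables. -/
def Kf : Type := FractionRing (MvPolynomial (Fin 3) ℂ)

instance : Field Kf := inferInstanceAs (Field (FractionRing (MvPolynomial (Fin 3) ℂ)))

instance : Algebra (MvPolynomial (Fin 3) ℂ) Kf :=
  inferInstanceAs (Algebra (MvPolynomial (Fin 3) ℂ) (FractionRing (MvPolynomial (Fin 3) ℂ)))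

instance : IsFractionRing (MvPolynomial (Fin 3) ℂ) Kf :=
  inferInstanceAs (IsFractionRing (MvPolynomial (Fin 3) ℂ)
    (FractionRing (MvPolynomial (Fin 3) ℂ)))

instance : Algebra ℂ Kf :=
  inferInstanceAs (Algebra ℂ (FractionRing (MvPolynomial (Fin 3) ℂ)))

instance : IsScalarTower ℂ (MvPolynomial (Fin 3) ℂ) Kf :=
  inferInstanceAs (IsScalarTower ℂ (MvPolynomial (Fin 3) ℂ)
    (FractionRing (MvPolynomial (Fin 3) ℂ)))

instance : CharZero Kf := charZero_of_injective_algebraMap (algebraMap ℂ Kf).injective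

/-- Polynomials as rational functions. -/
def fr : MvPolynomial (Fin 3) ℂ →ₐ[ℂ] Kf := IsScalarTower.toAlgHom ℂ (MvPolynomial (Fin 3) ℂ) Kf

theorem fr_injective : Function.Injective fr := IsFractionRing.injective (MvPolynomial (Fin 3) ℂ) Kf

theorem fr_ne_zero {p : MvPolynomial (Fin 3) ℂ} (h : p ≠ 0) : fr p ≠ 0 := by
  intro h1
  exact h (fr_injective (by rw [h1, map_zero]))

theorem exists_frac (g : Kf) : ∃ a b : MvPolynomial (Fin 3) ℂ, b ≠ 0 ∧ g * fr b = fr a := by
  obtain ⟨a, b, hb, h⟩ := IsFractionRing.div_surjective (A := MvPolynomial (Fin 3) ℂ) g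
  have hb0 : b ≠ 0 := nonZeroDivisors.ne_zero hb
  refine ⟨a, b, hb0, ?_⟩
  have : fr b ≠ 0 := fr_ne_zero hb0
  rw [← h]
  exact div_mul_cancel₀ _ this

theorem fr_C (c : ℂ) : fr (C c) = algebraMap ℂ Kf c := by
  rw [← MvPolynomial.algebraMap_eq, AlgHom.commutes]

/-- The derivation as a homomorphism to the dual numbers, for polynomials. -/
def dual0 (i : Fin 3) : MvPolynomial (Fin 3) ℂ →+* TrivSqZeroExt Kf Kf where
  toFun p := TrivSqZeroExt.inl (fr p) + TrivSqZeroExt.inr (fr (pderiv i p))
  map_one' := by simp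
  map_zero' := by simp
  map_add' p q := by
    ext <;> simp
  map_mul' p q := by
    ext
    · simp
    · simp [Derivation.leibniz, smul_eq_mul, mul_comm]

theorem isUnit_dual0 (i : Fin 3) (y : nonZeroDivisors (MvPolynomial (Fin 3) ℂ)) :
    IsUnit (dual0 i y) := by
  rw [TrivSqZeroExt.isUnit_iff_isUnit_fst]
  have h : TrivSqZeroExt.fst (dual0 i y) = fr y := by
    show TrivSqZeroExt.fst (TrivSqZeroExt.inl (fr y) + TrivSqZeroExt.inr (fr (pderiv i y))) = _
    simp
  rw [h, isUnit_iff_ne_zero]
  exact fr_ne_zero (nonZeroDivisors.coe_ne_zero y)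

/-- The derivation as a homomorphism to the dual numbers. -/
def dual (i : Fin 3) : Kf →+* TrivSqZeroExt Kf Kf := IsLocalization.lift (isUnit_dual0 i)

theorem dual_fr (i : Fin 3) (p : MvPolynomial (Fin 3) ℂ) : dual i (fr p) = dual0 i p :=
  IsLocalization.lift_eq _ _

theorem fst_dual (i : Fin 3) (g : Kf) : (dual i g).fst = g := by
  obtain ⟨a, b, hb, h⟩ := exists_frac g
  have h1 := congrArg (fun w => (dual i w).fst) h
  simp only [map_mul, TrivSqZeroExt.fst_mul, dual_fr] at h1
  have h2 : ∀ p, (dual0 i p).fst = fr p := by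
    intro p
    show TrivSqZeroExt.fst (TrivSqZeroExt.inl (fr p) + TrivSqZeroExt.inr (fr (pderiv i p))) = _
    simp
  rw [h2, h2, ← h] at h1
  exact mul_right_cancel₀ (fr_ne_zero hb) h1

/-- The derivative with respect to `x_i`. -/
def DK (i : Fin 3) : Derivation ℂ Kf Kf :=
  Derivation.mk'
    { toFun := fun g => (dual i g).snd
      map_add' := fun a b => by simp
      map_smul' := fun c a => by
        have h1 : dual i (c • a) = dual i (fr (C c)) * dual i a := by
          rw [← map_mul, fr_C, Algebra.smul_def]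
        rw [h1, dual_fr]
        have h2 : dual0 i (C c) = TrivSqZeroExt.inl (fr (C c)) := by
          show TrivSqZeroExt.inl (fr (C c)) + TrivSqZeroExt.inr (fr (pderiv i (C c))) = _
          simp
        rw [h2, TrivSqZeroExt.snd_mul, TrivSqZeroExt.fst_inl, TrivSqZeroExt.snd_inl, fr_C,
          RingHom.id_apply]
        simp [Algebra.smul_def] }
    (by
      intro a b
      show (dual i (a * b)).snd = _
      rw [map_mul, TrivSqZeroExt.snd_mul, fst_dual, fst_dual]
      simp [mul_comm])

theorem DK_fr (i : Fin 3) (p : MvPolynomial (Fin 3) ℂ) : DK i (fr p) = fr (pderiv i p) := by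
  show (dual i (fr p)).snd = _
  rw [dual_fr]
  show TrivSqZeroExt.snd (TrivSqZeroExt.inl (fr p) + TrivSqZeroExt.inr (fr (pderiv i p))) = _
  simp

theorem DK_mul (i : Fin 3) (a b : Kf) : DK i (a * b) = a * DK i b + b * DK i a := by
  rw [Derivation.leibniz, smul_eq_mul, smul_eq_mul]

theorem pderiv_comm' (i j : Fin 3) (p : MvPolynomial (Fin 3) ℂ) :
    pderiv i (pderiv j p) = pderiv j (pderiv i p) := by
  apply OB.io_injective
  rw [← OB.D_io, ← OB.D_io, ← OB.D_io, ← OB.D_io, OB.D_comm]

theorem DK_comm (i j : Fin 3) (a : Kf) : DK i (DK j a) = DK j (DK i a) := by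
  obtain ⟨p, q, hq, h⟩ := exists_frac a
  have hq' := fr_ne_zero hq
  have e1 := congrArg (DK i) h
  have e2 := congrArg (DK j) h
  have e3 := congrArg (DK i) e2
  have e4 := congrArg (DK j) e1
  simp only [DK_mul, map_add, DK_fr] at e1 e2 e3 e4
  have e5 : pderiv i (pderiv j p) = pderiv j (pderiv i p) := pderiv_comm' _ _ _
  have e6 : pderiv i (pderiv j q) = pderiv j (pderiv i q) := pderiv_comm' _ _ _
  apply mul_right_cancel₀ hq'
  rw [e5, e6] at e3
  linear_combination e3 - e4

end MPb07157.OK
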