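import Pool.Agent.Lib.MP_b07157_agB2.Jac
import Pool.Agent.Lib.MP_b07157_agQ.Lines

/-!
# From local to global in the ideal `(A^k, B^k)`
-/

noncomputable section

namespace MPb07157.O2

open MvPolynomial

/-- Reduction modulo `x_0`. -/
def red : S3 →ₐ[ℂ] S3 := aeval fun i => if i = 0 then 0 else X i

theorem red_X0 : red (X 0) = 0 := by
  unfold red
  rw [aeval_X, if_pos rfl]

theorem red_X {i : Fin 3} (h : i ≠ 0) : red (X i) = X i := by
  unfold red
  rw [aeval_X, if_neg h]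

theorem X0_dvd_sub_red (p : S3) : X 0 ∣ p - red p := by
  induction p using MvPolynomial.induction_on with
  | C a =>
    have : red (C a) = C a := by
      unfold red
      rw [aeval_C]
      rfl
    rw [this, sub_self]
    exact dvd_zero _
  | add p q hp hq =>
    rw [map_add, add_sub_add_comm]
    exact dvd_add hp hq
  | mul_X p i hp =>
    rw [map_mul]
    have e1 : p * X i - red p * red (X i) = (p - red p) * X i + red p * (X i - red (X i)) := by
      ring
    rw [e1]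
    refine dvd_add (hp.mul_right _) (dvd_mul_of_dvd_right ?_ _)
    by_cases h : i = 0
    · rw [h, red_X0, sub_zero]
    · rw [red_X h, sub_self]
      exact dvd_zero _

theorem red_of_dvd {p q : S3} (h : X 0 ∣ p - q) : red p = red q := by
  obtain ⟨c, hc⟩ := h
  have : red (p - q) = 0 := by rw [hc, map_mul, red_X0, zero_mul]
  rwa [map_sub, sub_eq_zero] at this

theorem isRelPrime_X : IsRelPrime (X 1 : S3) (X 2) := by
  have hp : Prime (X 1 : S3) := X_prime
  rw [hp.irreducible.isRelPrime_iff_not_dvd]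
  rintro ⟨c, hc⟩
  have := congrArg (eval ![0, 0, 1]) hc
  simp at this

/-- `x_0` is not a zero divisor modulo `(A^k, B^k)`. -/
theorem mem_of_X0_mul {A B H : S3} {a b k : ℕ} (hA : X 0 ∣ A - X 1 ^ a) (hB : X 0 ∣ B - X 2 ^ b)
    (h : X 0 * H ∈ Ideal.span {A ^ k, B ^ k}) : H ∈ Ideal.span {A ^ k, B ^ k} := by
  obtain ⟨u, v, huv⟩ := Ideal.mem_span_pair.1 h
  have rA : red A = X 1 ^ a := by
    rw [red_of_dvd hA, map_pow, red_X (by decide)]
  have rB : red B = X 2 ^ b := by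
    rw [red_of_dvd hB, map_pow, red_X (by decide)]
  have e1 := congrArg red huv
  simp only [map_add, map_mul, map_pow, rA, rB, red_X0, zero_mul] at e1
  have hrel : IsRelPrime ((X 1 ^ a) ^ k : S3) ((X 2 ^ b) ^ k) :=
    (isRelPrime_X.pow_left.pow_right).pow_left.pow_right
  have h1 : ((X 1 ^ a) ^ k : S3) ∣ red v * (X 2 ^ b) ^ k :=
    ⟨-red u, by linear_combination e1⟩
  obtain ⟨t, ht⟩ := hrel.dvd_of_dvd_mul_right h1
  have h2 : red u = -((X 2 ^ b) ^ k * t) := by
    have hX : ((X 1 ^ a) ^ k : S3) ≠ 0 := pow_ne_zero _ (pow_ne_zero _ (X_ne_zero _))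
    apply mul_left_cancel₀ hX
    rw [ht] at e1
    linear_combination e1
  have dA : X 0 ∣ A ^ k - (X 1 ^ a) ^ k := hA.trans (sub_dvd_pow_sub_pow _ _ _)
  have dB : X 0 ∣ B ^ k - (X 2 ^ b) ^ k := hB.trans (sub_dvd_pow_sub_pow _ _ _)
  obtain ⟨v', hv'⟩ : X 0 ∣ v - A ^ k * t := by
    have e2 : v - A ^ k * t = (v - red v) - (A ^ k - (X 1 ^ a) ^ k) * t := by
      rw [ht]
      ring
    rw [e2]
    exact dvd_sub (X0_dvd_sub_red v) (dA.mul_right _)
  obtain ⟨u', hu'⟩ : X 0 ∣ u + B ^ k * t := by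
    have e2 : u + B ^ k * t = (u - red u) + (B ^ k - (X 2 ^ b) ^ k) * t := by
      rw [h2]
      ring
    rw [e2]
    exact dvd_add (X0_dvd_sub_red u) (dB.mul_right _)
  rw [Ideal.mem_span_pair]
  refine ⟨u', v', ?_⟩
  apply mul_left_cancel₀ (X_ne_zero (R := ℂ) (0 : Fin 3))
  linear_combination huv - A ^ k * hu' - B ^ k * hv'

theorem mem_of_X0_pow_mul {A B H : S3} {a b k : ℕ} (hA : X 0 ∣ A - X 1 ^ a)
    (hB : X 0 ∣ B - X 2 ^ b) (N : ℕ) (h : X 0 ^ N * H ∈ Ideal.span {A ^ k, B ^ k}) :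
    H ∈ Ideal.span {A ^ k, B ^ k} := by
  induction N with
  | zero => rwa [pow_zero, one_mul] at h
  | succ N ih =>
    apply ih
    apply mem_of_X0_mul hA hB
    rwa [← mul_assoc, ← pow_succ']

/-- **From local to global.** -/
theorem local_global {A B H : S3} {a b k : ℕ} (hA : X 0 ∣ A - X 1 ^ a) (hB : X 0 ∣ B - X 2 ^ b)
    (hAh : A.IsHomogeneous a) (hBh : B.IsHomogeneous b)
    (hl : ∀ P : Fin 3 → ℂ, P 0 = 1 → eval P A = 0 → eval P B = 0 →
      ∃ (N : ℕ) (s : S3), s.IsHomogeneous N ∧ eval P s ≠ 0 ∧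
        s * H ∈ Ideal.span {A ^ k, B ^ k}) :
    H ∈ Ideal.span {A ^ k, B ^ k} := by
  set I : Ideal S3 := Ideal.span {A ^ k, B ^ k} with hI
  set 𝔞 : Ideal S3 := Submodule.comap (LinearMap.toSpanSingleton S3 S3 H) I with h𝔞
  have mem𝔞 : ∀ x, x ∈ 𝔞 ↔ x * H ∈ I := fun x => Iff.rfl
  have hX : X 0 ∈ 𝔞.radical := by
    rw [← vanishingIdeal_zeroLocus_eq_radical (K := ℂ), mem_vanishingIdeal_iff]
    intro Q hQ
    rw [mem_zeroLocus_iff] at hQ
    replace hQ : ∀ p ∈ 𝔞, eval Q p = 0 := fun p hp => hQ p hp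
    rw [aeval_X]
    by_contra hQ0
    have hA0 : eval Q A = 0 := by
      by_contra hne
      have := hQ (A ^ k) ((mem𝔞 _).2 (Ideal.mul_mem_right _ _ (Ideal.subset_span (by simp))))
      rw [map_pow] at this
      exact hne (eq_zero_of_pow_eq_zero this)
    have hB0 : eval Q B = 0 := by
      by_contra hne
      have := hQ (B ^ k) ((mem𝔞 _).2 (Ideal.mul_mem_right _ _ (Ideal.subset_span (by simp))))
      rw [map_pow] at this
      exact hne (eq_zero_of_pow_eq_zero this)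
    obtain ⟨N, s, hs, hs0, hsI⟩ := hl ((Q 0)⁻¹ • Q) (by simp [hQ0])
      (by rw [eval_smul_of_isHomogeneous hAh, hA0, mul_zero])
      (by rw [eval_smul_of_isHomogeneous hBh, hB0, mul_zero])
    rw [eval_smul_of_isHomogeneous hs] at hs0
    exact hs0 (by rw [hQ s ((mem𝔞 _).2 hsI), mul_zero])
  obtain ⟨N, hN⟩ := hX
  exact mem_of_X0_pow_mul hA hB N ((mem𝔞 _).1 hN)

end MPb07157.O2
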