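import Pool.Agent.Lib.MP_b07157_agB2.TrK
import Pool.Agent.Lib.MP_b07157_agB2.Har
import Pool.Agent.Lib.MP_b07157_agB2.RgC
import Pool.Agent.Lib.MP_b07157_agB2.OpA

/-!
# Local solutions at the bad points
-/

noncomputable section

namespace MPb07157.OK

open MvPolynomial
open MPb07157.OB (Dat Vert)

/-- The local data at the bad point `b j`: functions `s σ`, which approximate `σ G` near the
bad point. -/
structure LS {r : ℕ} (b : Fin r → Fin 3 → ℂ) (n μ : ℕ) (j : Fin r)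
    (Sec : (Fin 3 → ℂ) → Kf → Prop) (e : MvPolynomial (Fin 3) ℂ)
    (s : MvPolynomial (Fin 3) ℂ → Kf) : Prop where
  he : ∃ k, e.IsHomogeneous k
  e0 : eval (b j) e ≠ 0
  ei : ∀ i, i ≠ j → eval (b i) e = 0
  hk : ∀ σ, Wf n μ (b j) σ → Hk 0 (s σ)
  reg : ∀ σ, Wf n μ (b j) σ → ∀ q G, eval q e ≠ 0 → OffB b q → Sec q G →
    RegAt q (fr σ * G - s σ)
  og : ∀ σ τ, Wf n μ (b j) σ → Wf n μ (b j) τ → OgR (b j) (μ - 3) (fr τ * s σ - fr σ * s τ)

namespace Loc2Aux

/-- A linear form as a linear map. -/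
theorem lin_eval {z : MvPolynomial (Fin 3) ℂ} (hz : z.IsHomogeneous 1) :
    ∃ l : (Fin 3 → ℂ) →ₗ[ℂ] ℂ, ∀ q, l q = eval q z := by
  have h1 : ∀ i, ∃ c : ℂ, pderiv i z = C c := by
    intro i
    have h2 : (pderiv i z).IsHomogeneous 0 := hz.pderiv
    have h3 : (pderiv i z).totalDegree = 0 := Nat.le_zero.1 h2.totalDegree_le
    exact ⟨_, totalDegree_eq_zero_iff_eq_C.1 h3⟩
  choose c hc using h1
  refine ⟨∑ i, c i • LinearMap.proj i, fun q => ?_⟩
  have h4 := hz.sum_X_mul_pderiv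
  rw [one_smul] at h4
  rw [← h4, map_sum, LinearMap.sum_apply]
  refine Finset.sum_congr rfl fun i _ => ?_
  rw [map_mul, eval_X, hc, eval_C, LinearMap.smul_apply, LinearMap.proj_apply, smul_eq_mul,
    mul_comm]

theorem ne_zero_of_yz {b : Fin 3 → ℂ} {y z : MvPolynomial (Fin 3) ℂ} (hz : z.IsHomogeneous 1)
    (H : ∀ q, eval q y = 0 → eval q z = 0 → ∃ c : ℂ, q = c • b) : y ≠ 0 := by
  rintro rfl
  obtain ⟨l, hl⟩ := lin_eval hz
  have h1 : LinearMap.ker l ≤ Submodule.span ℂ {b} := by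
    intro q hq
    obtain ⟨c, rfl⟩ := H q (map_zero _) (by rw [← hl]; exact LinearMap.mem_ker.1 hq)
    exact Submodule.smul_mem _ _ (Submodule.mem_span_singleton_self b)
  have h2 := Submodule.finrank_mono h1
  have h3 : Module.finrank ℂ (Submodule.span ℂ {b}) ≤ 1 := by
    have := finrank_span_le_card (R := ℂ) ({b} : Set (Fin 3 → ℂ))
    simpa using this
  have h4 := LinearMap.finrank_range_add_finrank_ker l
  have h5 : Module.finrank ℂ (LinearMap.range l) ≤ 1 := by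
    have := Submodule.finrank_le (LinearMap.range l)
    rwa [Module.finrank_self] at this
  rw [Module.finrank_fin_fun] at h4
  omega

/-- The curl is additive. -/
theorem cuK_sub (g1 g2 : Kf) (v : Fin 3 → MvPolynomial (Fin 3) ℂ) (k : Fin 3) :
    cuK (fun j => g1 * fr (v j)) k - cuK (fun j => g2 * fr (v j)) k =
      cuK (fun j => (g1 - g2) * fr (v j)) k := by
  show DK (k + 1) (g1 * fr (v (k + 2))) - DK (k + 2) (g1 * fr (v (k + 1))) -
    (DK (k + 1) (g2 * fr (v (k + 2))) - DK (k + 2) (g2 * fr (v (k + 1)))) =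
    DK (k + 1) ((g1 - g2) * fr (v (k + 2))) - DK (k + 2) ((g1 - g2) * fr (v (k + 1)))
  rw [sub_mul, sub_mul, map_sub, map_sub]
  ring

theorem cuK_hk {g : Kf} {v : Fin 3 → MvPolynomial (Fin 3) ℂ} {n : ℕ} (hn : 3 ≤ n)
    (hg : Hk (3 - n) g) (hv : ∀ i, (v i).IsHomogeneous (n - 1)) (k : Fin 3) :
    Hk 1 (cuK (fun j => g * fr (v j)) k) := by
  have h1 : ∀ i j, Hk 1 (DK i (g * fr (v j))) := by
    intro i j
    have h2 := (hg.mul (Hk.fr (hv j))).DK i
    have h3 : (3 : ℤ) - n + ((n - 1 : ℕ) : ℤ) - 1 = 1 := by omega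
    rwa [h3] at h2
  exact (h1 _ _).sub (h1 _ _)

end Loc2Aux

open Loc2Aux in
theorem loc_sol {r l : ℕ} {f : MvPolynomial (Fin 3) ℂ} {g : Fin l → MvPolynomial (Fin 3) ℂ}
    {m : Fin l → ℕ} {d n : ℕ} (hf : IsFact f g m) (h : Dat f (∏ j, g j) (vv g m) d n)
    (hn : 3 ≤ n) {b : Fin r → Fin 3 → ℂ} (hb : ∀ j, b j ≠ 0)
    (hbb : ∀ i j, i ≠ j → ∀ c : ℂ, b i ≠ c • b j) {c : ℂ} (hc : c ≠ 0) {t : Fin 3 → Kf}
    {Sec : (Fin 3 → ℂ) → Kf → Prop} (hS : Sol f (vv g m) n b c t Sec) (j : Fin r)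
    (ho : OrdAt f d (b j)) {μ : ℕ} (hμ : Mu (b j) μ (∏ j, g j))
    (hμ' : ¬ Mu (b j) (μ + 1) (∏ j, g j)) : ∃ e s, LS b n μ j Sec e s := by
  obtain ⟨x, y, z, hC, hloc⟩ := loc_general hf h hn (hb j) ho hμ hμ'
  obtain ⟨e0, h0, hh0, h0b, h0i⟩ := exists_sep hbb j
  have y0 : y ≠ 0 := ne_zero_of_yz hC.hz hC.yz
  have z0 : z ≠ 0 := ne_zero_of_yz hC.hy fun q a1 a2 => hC.yz q a2 a1
  have hE : (x * h0).IsHomogeneous (1 + e0) := hC.hx.mul hh0
  have hEb : eval (b j) (x * h0) ≠ 0 := by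
    rw [map_mul]
    exact mul_ne_zero hC.xb h0b
  have hEi : ∀ i, i ≠ j → eval (b i) (x * h0) = 0 := by
    intro i hi
    rw [map_mul, h0i i hi, mul_zero]
  have hx : x ∣ x * h0 := dvd_mul_right _ _
  generalize x * h0 = e at hE hEb hEi hx
  have hE0 : e ≠ 0 := by
    rintro rfl
    exact hEb (map_zero _)
  have hex : ∀ w : MvPolynomial (Fin 3) ℂ, w.IsHomogeneous 1 → w ≠ 0 → eval (b j) w = 0 →
      ∃ g', Hk (3 - n) g' ∧ ∀ q, eval q (w * e) ≠ 0 → Sec q g' := by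
    intro w hw w0 wb
    refine hS.ex (1 + (1 + e0)) (w * e) (by omega) (hw.mul hE) (mul_ne_zero w0 hE0) ?_
    intro i
    rw [map_mul]
    by_cases hi : i = j
    · rw [hi, wb, zero_mul]
    · rw [hEi i hi, mul_zero]
  obtain ⟨g1, hg1, hs1⟩ := hex y hC.hy y0 hC.yb
  obtain ⟨g2, hg2, hs2⟩ := hex z hC.hz z0 hC.zb
  have hkill : ∀ g' : Kf,
      ∑ k, (t k + cuK (fun j => g' * fr (vv g m j)) k) * DK k (fr f) = 0 := by
    intro g'
    have h1 := hS.kill
    have h2 := cu_kills h g'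
    have h3 : ∑ k, (t k + cuK (fun j => g' * fr (vv g m j)) k) * DK k (fr f) =
        ∑ k, t k * DK k (fr f) + ∑ k, cuK (fun j => g' * fr (vv g m j)) k * DK k (fr f) := by
      rw [← Finset.sum_add_distrib]
      exact Finset.sum_congr rfl fun k _ => add_mul _ _ _
    rw [h3, h1, h2, add_zero]
  have hdiv : ∀ g' : Kf,
      dvK (fun k => t k + cuK (fun j => g' * fr (vv g m j)) k) = algebraMap ℂ Kf c := by
    intro g'
    have h1 := hS.div
    have h2 := dvK_cuK (fun j => g' * fr (vv g m j))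
    have h3 : dvK (fun k => t k + cuK (fun j => g' * fr (vv g m j)) k) =
        dvK t + dvK (cuK (fun j => g' * fr (vv g m j))) := by
      unfold dvK
      rw [← Finset.sum_add_distrib]
      exact Finset.sum_congr rfl fun k _ => map_add _ _ _
    rw [h3, h1, h2, add_zero]
  have LHh : LH f (vv g m) n y z e c (fun k => t k + cuK (fun j => g1 * fr (vv g m j)) k)
      (fun k => t k + cuK (fun j => g2 * fr (vv g m j)) k) (g1 - g2) := by
    refine ⟨fun q hq k => hS.reg q g1 (hs1 q hq) k, fun q hq k => hS.reg q g2 (hs2 q hq) k,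
      fun q hq => ?_, fun k => (hS.hom k).add (cuK_hk hn hg1 h.hv k),
      fun k => (hS.hom k).add (cuK_hk hn hg2 h.hv k), hg1.sub hg2, hkill g1, hkill g2, hdiv g1,
      hdiv g2, fun k => ?_⟩
    · rw [map_mul, map_mul] at hq
      have q1 := left_ne_zero_of_mul hq
      have qe := right_ne_zero_of_mul hq
      refine hS.uniq q g1 g2 (hs1 q ?_) (hs2 q ?_)
      · rw [map_mul]
        exact mul_ne_zero (left_ne_zero_of_mul q1) qe
      · rw [map_mul]
        exact mul_ne_zero (right_ne_zero_of_mul q1) qe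
    · rw [← cuK_sub g1 g2]
      ring
  obtain ⟨γ, hγ, hγr, α, hα⟩ := hloc e (1 + e0) c _ _ _ hE hEb hx hc LHh
  refine ⟨e, fun σ => fr σ * (g1 - γ) - α σ, ⟨_, hE⟩, hEb, hEi, fun σ hσ => ?_,
    fun σ hσ q G' hq hoff hSec => ?_, fun σ τ hσ hτ => ?_⟩
  · have h1 := (Hk.fr hσ.1).mul (hg1.sub hγ)
    have h2 : ((n - 3 : ℕ) : ℤ) + (3 - n) = 0 := by omega
    rw [h2] at h1
    exact h1.sub (hα σ hσ).1
  · obtain ⟨_, a2, a3, _⟩ := hα σ hσ
    by_cases hy : eval q y = 0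
    · by_cases hz : eval q z = 0
      · obtain ⟨c', hc'⟩ := hC.yz q hy hz
        exact absurd hc' (hoff.2 j c')
      · have hq' : eval q (z * e) ≠ 0 := by
          rw [map_mul]
          exact mul_ne_zero hz hq
        have h1 : fr σ * G' - (fr σ * (g1 - γ) - α σ) =
            fr σ * (G' - g2) - (fr σ * (g1 - g2 - γ) - α σ) := by ring
        rw [h1]
        exact ((RegAt.fr q σ).mul (hS.uniq q G' g2 hSec (hs2 q hq'))).sub (a3 q hq')
    · have hq' : eval q (y * e) ≠ 0 := by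
        rw [map_mul]
        exact mul_ne_zero hy hq
      have h1 : fr σ * G' - (fr σ * (g1 - γ) - α σ) =
          fr σ * (G' - g1) + fr σ * γ + α σ := by ring
      rw [h1]
      exact (((RegAt.fr q σ).mul (hS.uniq q G' g1 hSec (hs1 q hq'))).add
        ((RegAt.fr q σ).mul (hγr q hq'))).add (a2 q hq')
  · have h1 := ((hα σ hσ).2.2.2 τ hτ).neg
    have h2 : fr τ * (fr σ * (g1 - γ) - α σ) - fr σ * (fr τ * (g1 - γ) - α τ) =
        -(fr τ * α σ - fr σ * α τ) := by ring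
    rw [h2]
    exact h1

end MPb07157.OK
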