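import Pool.Agent.Lib.MP_b07157_agB2.Apx
import Pool.Agent.Lib.MP_b07157_agB2.LocA
import Pool.Agent.Lib.MP_b07157_agB2.OpA

/-!
# The local lemma at the point `(1 : 0 : 0)`
-/

noncomputable section

namespace MPb07157.OK

open MvPolynomial
open MPb07157.OB (Dat Vert La sg io td Ge Hm Reg ex gc)

namespace LocKA

/-! ### Regularity of Laurent polynomials -/

theorem regAt_smul {q : Fin 3 → ℂ} {g : Kf} (h : RegAt q g) (c : ℂ) : RegAt q (c • g) := by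
  rw [Algebra.smul_def]
  exact (RegAt.const q c).mul h

theorem regAt_zpow {q : Fin 3 → ℂ} (i : Fin 3) (m : ℤ) (h : q i = 0 → 0 ≤ m) :
    RegAt q (fr (X i) ^ m) := by
  rcases le_or_gt 0 m with h0 | h0
  · obtain ⟨k, rfl⟩ := Int.eq_ofNat_of_zero_le h0
    rw [zpow_natCast, ← map_pow]
    exact RegAt.fr q _
  · have hq : q i ≠ 0 := fun h1 => absurd (h h1) (not_le.2 h0)
    obtain ⟨k, hk⟩ := Int.eq_ofNat_of_zero_le (show 0 ≤ -m by omega)
    have hm : m = -(k : ℤ) := by omega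
    refine ⟨1, X i ^ k, ?_, ?_⟩
    · rw [map_pow, eval_X]
      exact pow_ne_zero k hq
    · rw [hm, zpow_neg, zpow_natCast, map_pow, map_one]
      exact inv_mul_cancel₀ (pow_ne_zero k (fr_ne_zero (X_ne_zero i)))

theorem regAt_prod {q : Fin 3 → ℂ} (m : Fin 3 → ℤ) (h : ∀ i, q i = 0 → 0 ≤ m i) :
    RegAt q (∏ i, fr (X i) ^ (m i)) := by
  rw [Fin.prod_univ_three]
  exact ((regAt_zpow 0 _ (h 0)).mul (regAt_zpow 1 _ (h 1))).mul (regAt_zpow 2 _ (h 2))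

theorem eq_sum_sg (a : La) : a = ∑ m ∈ a.coeff.support, sg m (OB.cf m a) :=
  (AddMonoidAlgebra.sum_coeff_single a).symm

theorem regAt_jo {q : Fin 3 → ℂ} {a : La} (h : ∀ i, q i = 0 → Reg i a) : RegAt q (jo a) := by
  rw [eq_sum_sg a, map_sum]
  refine RegAt.sum fun m hm => ?_
  rw [jo_sg]
  refine regAt_smul (regAt_prod m fun i hi => ?_) _
  exact h i hi m (Finsupp.mem_support_iff.1 hm)

/-! ### Orders -/

theorem ogK_sub {L : ℤ} {w w' : Kf} (h : OgK L w) (h' : OgK L w') : OgK L (w - w') := by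
  rw [sub_eq_add_neg]
  exact h.add h'.neg

theorem ogK_zero (L : ℤ) : OgK L 0 := by
  have h : OgK L (jo 0) := ogK_jo_iff.2 (Ge.zero _ _)
  rwa [map_zero] at h

theorem ge_io (p : MvPolynomial (Fin 3) ℂ) : Ge (OB.wt 0) 0 (io p) := by
  intro m hm
  have h1 : 0 ≤ m 1 := OB.Reg.io 1 p m hm
  have h2 : 0 ≤ m 2 := OB.Reg.io 2 p m hm
  rw [OB.wt_apply]
  show 0 ≤ m 1 + m 2
  omega

theorem ogK_fr (p : MvPolynomial (Fin 3) ℂ) : OgK 0 (fr p) := by
  rw [← jo_io]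
  exact ogK_jo_iff.2 (ge_io p)

theorem ogK_sum3 {L : ℤ} {w : Fin 3 → Kf} (h : ∀ i, OgK L (w i)) : OgK L (∑ i, w i) := by
  rw [Fin.sum_univ_three]
  exact ((h 0).add (h 1)).add (h 2)

theorem jo_D (i : Fin 3) (a : La) : jo (OB.D i a) = DK i (jo a) := (DK_jo i a).symm

theorem jo_dv (t : Fin 3 → La) : jo (OB.dv t) = dvK fun k => jo (t k) := by
  unfold OB.dv dvK
  rw [map_sum]
  exact Finset.sum_congr rfl fun i _ => jo_D i _

theorem jo_cu (t : Fin 3 → La) (k : Fin 3) : jo (OB.cu t k) = cuK (fun j => jo (t j)) k := by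
  unfold OB.cu cuK
  rw [map_sub, jo_D, jo_D]

theorem cuK_add (s t : Fin 3 → Kf) (k : Fin 3) :
    cuK (fun j => s j + t j) k = cuK s k + cuK t k := by
  unfold cuK
  rw [map_add, map_add]
  ring

theorem cuK_sub (s t : Fin 3 → Kf) (k : Fin 3) :
    cuK (fun j => s j - t j) k = cuK s k - cuK t k := by
  unfold cuK
  rw [map_sub, map_sub]
  ring

theorem dvK_sub (s t : Fin 3 → Kf) : dvK (fun j => s j - t j) = dvK s - dvK t := by
  unfold dvK
  rw [← Finset.sum_sub_distrib]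
  exact Finset.sum_congr rfl fun i _ => by rw [map_sub]

theorem regAt_cuK {q : Fin 3 → ℂ} {t : Fin 3 → Kf} (h : ∀ k, RegAt q (t k)) (k : Fin 3) :
    RegAt q (cuK t k) := by
  unfold cuK
  exact ((h _).DK _).sub ((h _).DK _)

theorem hk_cuK {κ : ℤ} {t : Fin 3 → Kf} (h : ∀ k, Hk κ (t k)) (k : Fin 3) :
    Hk (κ - 1) (cuK t k) := by
  unfold cuK
  exact ((h _).DK _).sub ((h _).DK _)

/-- A corrected vector field. -/
theorem corr {f P : MvPolynomial (Fin 3) ℂ} {v : Fin 3 → MvPolynomial (Fin 3) ℂ} {d n : ℕ}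
    (h : Dat f P v d n) {t : Fin 3 → Kf} {γ : Kf} {c : ℂ} (e : ∀ k, Hk 1 (t k))
    (hk : ∑ k, t k * DK k (fr f) = 0) (hd : dvK t = algebraMap ℂ Kf c) (hγ : Hk (3 - n) γ) :
    (∀ k, Hk 1 (t k - cuK (fun j => γ * fr (v j)) k)) ∧
    ∑ k, (t k - cuK (fun j => γ * fr (v j)) k) * DK k (fr f) = 0 ∧
    dvK (fun k => t k - cuK (fun j => γ * fr (v j)) k) = algebraMap ℂ Kf c := by
  refine ⟨fun k => ?_, ?_, ?_⟩
  · refine (e k).sub ?_
    have h1 : ∀ j, Hk ((3 - n : ℤ) + ((n - 1 : ℕ) : ℤ)) (γ * fr (v j)) := fun j =>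
      hγ.mul (Hk.fr (h.hv j))
    have h2 := hk_cuK h1 k
    have h3 : (3 - n : ℤ) + ((n - 1 : ℕ) : ℤ) - 1 = 1 := by
      have := h.hn
      omega
    rwa [h3] at h2
  · have h1 := cu_kills h γ
    calc _ = ∑ k, (t k * DK k (fr f) - cuK (fun j => γ * fr (v j)) k * DK k (fr f)) :=
          Finset.sum_congr rfl fun k _ => by ring
      _ = 0 := by rw [Finset.sum_sub_distrib, hk, h1, sub_zero]
  · rw [dvK_sub, hd]
    have h1 : dvK (cuK fun j => γ * fr (v j)) = 0 := dvK_cuK _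
    rw [h1, sub_zero]

/-- The relations hold approximately for the approximations. -/
theorem apx_kill {f : MvPolynomial (Fin 3) ℂ} {M : ℕ} {t : Fin 3 → Kf} {a : Fin 3 → La}
    (hk : ∑ k, t k * DK k (fr f) = 0) (ha : ∀ k, OgK ((M + 5 : ℕ) : ℤ) (t k - jo (a k))) :
    Ge (OB.wt 0) (M + 1) (∑ k, a k * OB.D k (io f)) := by
  rw [← ogK_jo_iff, map_sum]
  have h1 : ∑ k, jo (a k * OB.D k (io f)) = -∑ k, (t k - jo (a k)) * DK k (fr f) := by
    have h2 : ∀ k, jo (a k * OB.D k (io f)) =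
        t k * DK k (fr f) - (t k - jo (a k)) * DK k (fr f) := by
      intro k
      rw [map_mul, jo_D, jo_io]
      ring
    rw [Finset.sum_congr rfl fun k _ => h2 k, Finset.sum_sub_distrib, hk, zero_sub]
  rw [h1]
  refine OgK.neg (ogK_sum3 fun k => ?_)
  rw [DK_fr]
  refine ((ha k).mul (ogK_fr _)).mono ?_
  push_cast
  omega

theorem apx_div {M : ℕ} {t : Fin 3 → Kf} {a : Fin 3 → La} {c : ℂ}
    (hd : dvK t = algebraMap ℂ Kf c) (ha : ∀ k, OgK ((M + 5 : ℕ) : ℤ) (t k - jo (a k))) :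
    Ge (OB.wt 0) 1 (OB.dv a - sg 0 c) := by
  have h0 : jo (sg 0 c) = algebraMap ℂ Kf c := by
    rw [← OB.io_C, jo_io, fr_C]
  rw [← ogK_jo_iff, map_sub, h0, jo_dv, ← hd]
  have h1 : dvK (fun k => jo (a k)) - dvK t = -∑ k, DK k (t k - jo (a k)) := by
    unfold dvK
    rw [← Finset.sum_sub_distrib, ← Finset.sum_neg_distrib]
    refine Finset.sum_congr rfl fun k _ => ?_
    rw [map_sub]
    ring
  rw [h1]
  refine OgK.neg (ogK_sum3 fun k => ?_)
  refine ((ha k).DK k).mono ?_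
  push_cast
  omega

/-! ### The conclusion -/

theorem exists_io0 {E : La} (h1 : Reg 1 E) (h2 : Reg 2 E) :
    ∃ (N : ℕ) (p : MvPolynomial (Fin 3) ℂ), io (X 0 ^ N) * E = io p := by
  obtain ⟨s, hs⟩ := OB.exists_ge (OB.co 0) E
  refine ⟨(-s).toNat, OB.exists_io fun j => ?_⟩
  have h3 := Int.self_le_toNat (-s)
  have h4 : io (X 0 ^ (-s).toNat) = sg ((-s).toNat • ex 0) 1 := by
    rw [map_pow, OB.io_X, OB.sg_pow, one_pow]
  have hj : j = 0 ∨ j = 1 ∨ j = 2 := by fin_cases j <;> decide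
  rcases hj with rfl | rfl | rfl
  · have h5 : Ge (OB.co 0) ((-s).toNat : ℤ) (io (X 0 ^ (-s).toNat)) := by
      rw [h4]
      refine OB.Ge.sg ?_ 1
      rw [OB.co_apply, Pi.smul_apply, OB.ex_same]
      simp
    exact (h5.mul hs).mono (by omega)
  · exact (OB.Reg.io 1 _).mul h1
  · exact (OB.Reg.io 2 _).mul h2

theorem ogR_jo {E : La} (h1 : Reg 1 E) (h2 : Reg 2 E) {κ : ℤ} (hE : Hm td κ E) {L : ℕ}
    (hL : Ge (OB.wt 0) L E) : OgR (Pi.single 0 1) L (jo E) := by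
  obtain ⟨N, p, hp⟩ := exists_io0 h1 h2
  have e0 : jo E * fr (X 0 ^ N) = fr p := by
    rw [← jo_io, ← jo_io, ← hp, map_mul, mul_comm]
  refine ⟨p, X 0 ^ N, ?_, ?_, e0⟩
  · rw [map_pow, eval_X, Pi.single_eq_same, one_pow]
    exact one_ne_zero
  · by_cases hp0 : p = 0
    · rw [hp0]
      intro j _
      simp [translate]
    · have h3 : Hk (κ + ((N : ℕ) : ℤ)) (fr p) := by
        rw [← e0]
        refine (hk_jo hE).mul (Hk.fr ?_)
        have := (isHomogeneous_X ℂ (0 : Fin 3)).pow N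
        rwa [one_mul] at this
      obtain ⟨m, -, hm⟩ := isHomogeneous_of_hk hp0 h3
      refine mu_of_ogK hm ?_
      rw [← e0]
      have h4 := (ogK_jo_iff.2 hL).mul (ogK_fr (X 0 ^ N))
      rwa [add_zero] at h4

theorem ne_of_off {q : Fin 3 → ℂ} {e y : MvPolynomial (Fin 3) ℂ} (hx : X 0 ∣ e)
    (h : eval q (y * e) ≠ 0) : q 0 ≠ 0 ∧ eval q y ≠ 0 ∧ eval q e ≠ 0 := by
  rw [map_mul] at h
  refine ⟨fun h0 => ?_, left_ne_zero_of_mul h, right_ne_zero_of_mul h⟩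
  obtain ⟨w, rfl⟩ := hx
  apply right_ne_zero_of_mul h
  rw [map_mul, eval_X, h0, zero_mul]

/-- Laurent polynomials with exponents of the third variable not negative. -/
theorem regAt_off₁ {e : MvPolynomial (Fin 3) ℂ} (hx : X 0 ∣ e) {a : La} (ha : Reg 2 a)
    {q : Fin 3 → ℂ} (h : eval q (X 1 * e) ≠ 0) : RegAt q (jo a) := by
  obtain ⟨h0, h1, -⟩ := ne_of_off hx h
  rw [eval_X] at h1
  refine regAt_jo fun i hi => ?_
  have hj : i = 0 ∨ i = 1 ∨ i = 2 := by fin_cases i <;> decide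
  rcases hj with rfl | rfl | rfl
  · exact absurd hi h0
  · exact absurd hi h1
  · exact ha

theorem regAt_off₂ {e : MvPolynomial (Fin 3) ℂ} (hx : X 0 ∣ e) {a : La} (ha : Reg 1 a)
    {q : Fin 3 → ℂ} (h : eval q (X 2 * e) ≠ 0) : RegAt q (jo a) := by
  obtain ⟨h0, h1, -⟩ := ne_of_off hx h
  rw [eval_X] at h1
  refine regAt_jo fun i hi => ?_
  have hj : i = 0 ∨ i = 1 ∨ i = 2 := by fin_cases i <;> decide
  rcases hj with rfl | rfl | rfl
  · exact absurd hi h0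
  · exact ha
  · exact absurd hi h1

/-- The part with exponents of the third variable not negative. -/
def pA (a : La) : La := OB.cpt (fun m => 0 ≤ m 2) a

theorem reg_pA (a : La) : Reg 2 (pA a) := by
  intro m hm
  by_contra hcon
  exact hm (OB.cf_cpt_neg (P := fun m : Fin 3 → ℤ => 0 ≤ m 2) hcon a)

theorem reg_sub_pA {a : La} (ha : Ge (OB.wt 0) 0 a) : Reg 1 (a - pA a) := by
  intro m hm
  by_cases h2 : 0 ≤ m 2
  · rw [map_sub, pA, OB.cf_cpt_pos (P := fun m : Fin 3 → ℤ => 0 ≤ m 2) h2, sub_self] at hm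
    exact absurd rfl hm
  · rw [map_sub, pA, OB.cf_cpt_neg (P := fun m : Fin 3 → ℤ => 0 ≤ m 2) h2, sub_zero] at hm
    have h3 := ha m hm
    rw [OB.wt_apply] at h3
    have h4 : 0 ≤ m 1 + m 2 := h3
    show 0 ≤ m 1
    omega

end LocKA

open LocKA

theorem loc_vertex {f P : MvPolynomial (Fin 3) ℂ} {v : Fin 3 → MvPolynomial (Fin 3) ℂ} {d n : ℕ}
    (h : Dat f P v d n) (hn : 3 ≤ n) {M μ : ℕ} (hV : Vert f P v 0 M μ) (h3 : 3 * M ≠ d)
    {e : MvPolynomial (Fin 3) ℂ} {k : ℕ} (he : e.IsHomogeneous k)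
    (he0 : eval (Pi.single 0 1) e ≠ 0) (hx : X 0 ∣ e) {c : ℂ} (hc : c ≠ 0)
    {t₁ t₂ : Fin 3 → Kf} {g : Kf} (H : LH f v n (X 1) (X 2) e c t₁ t₂ g) :
    LC n μ (Pi.single 0 1) (X 1) (X 2) e g := by
  obtain ⟨γ₁, γ₂, a, hg, hγ₁, hγ₂, ha, rγ₁, rγ₂, hneg⟩ := split he he0 hx H.eg H.rg
  obtain ⟨e₁, k₁, d₁⟩ := corr h H.e₁ H.k₁ H.d₁ hγ₁
  obtain ⟨e₂, k₂, d₂⟩ := corr h H.e₂ H.k₂ H.d₂ hγ₂
  set s₁ : Fin 3 → Kf := fun k => t₁ k - cuK (fun j => γ₁ * fr (v j)) k with hs₁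
  set s₂ : Fin 3 → Kf := fun k => t₂ k - cuK (fun j => γ₂ * fr (v j)) k with hs₂
  have r₁ : ∀ k q, eval q (X 1 * e) ≠ 0 → RegAt q (s₁ k) := fun k q hq =>
    (H.r₁ q hq k).sub (regAt_cuK (fun j => (rγ₁ q hq).mul (RegAt.fr q _)) k)
  have r₂ : ∀ k q, eval q (X 2 * e) ≠ 0 → RegAt q (s₂ k) := fun k q hq =>
    (H.r₂ q hq k).sub (regAt_cuK (fun j => (rγ₂ q hq).mul (RegAt.fr q _)) k)
  have hcu : ∀ k, s₁ k - s₂ k = cuK (fun j => jo a * fr (v j)) k := by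
    intro k
    have h1 : (fun j => g * fr (v j)) = fun j =>
        (γ₁ * fr (v j) - γ₂ * fr (v j)) + jo a * fr (v j) := by
      funext j
      rw [hg]
      ring
    have h2 := H.cu k
    rw [h1, cuK_add (fun j => γ₁ * fr (v j) - γ₂ * fr (v j)) fun j => jo a * fr (v j),
      cuK_sub (fun j => γ₁ * fr (v j)) fun j => γ₂ * fr (v j)] at h2
    show t₁ k - cuK (fun j => γ₁ * fr (v j)) k - (t₂ k - cuK (fun j => γ₂ * fr (v j)) k) = _
    linear_combination h2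
  choose a₁ ra₁ ea₁ oa₁ using fun k => approx₁ he he0 (e₁ k) (r₁ k) (M + 5)
  choose a₂ ra₂ ea₂ oa₂ using fun k => approx₂ he he0 (e₂ k) (r₂ k) (M + 5)
  have hwt : ∀ m, OB.cf m a ≠ 0 → -(m 1 + m 2) ≤ (μ : ℤ) - 3 := by
    have hcu' : ∀ k, Ge (OB.wt 0) 2 (a₂ k - a₁ k - OB.cu (fun j => (-a) * io (v j)) k) := by
      intro k
      rw [← ogK_jo_iff, map_sub, map_sub, jo_cu]
      have h1 : (fun j => jo ((-a) * io (v j))) = fun j => 0 - jo a * fr (v j) := by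
        funext j
        rw [map_mul, map_neg, jo_io]
        ring
      have h2 : cuK (fun _ => 0 : Fin 3 → Kf) k = 0 := by
        unfold cuK
        rw [map_zero, map_zero, sub_zero]
      have h4 : jo (a₂ k) - jo (a₁ k) - cuK (fun j => jo ((-a) * io (v j))) k =
          (s₁ k - jo (a₁ k)) - (s₂ k - jo (a₂ k)) := by
        rw [h1, cuK_sub (fun _ => 0) fun j => jo a * fr (v j), h2, ← hcu k]
        ring
      rw [h4]
      refine (ogK_sub (oa₁ k) (oa₂ k)).mono ?_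
      push_cast
      omega
    have key := OB.loc_apx h hV h3 (t₁ := a₂) (t₂ := a₁) (fun k => ra₂ k) (fun k => ra₁ k)
      ea₂ ea₁ (apx_kill k₂ oa₂) (apx_kill k₁ oa₁) hc (apx_div d₂ oa₂) (g := -a) ha.neg hcu'
      (fun m hm => hneg m (by rwa [map_neg, neg_ne_zero] at hm))
    intro m hm
    exact key m (by rwa [map_neg, neg_ne_zero])
  -- the products with the forms
  have hge : ∀ σ, Wf n μ (Pi.single 0 1) σ → Ge (OB.wt 0) 0 (a * io σ) := by
    intro σ hσ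
    by_cases hμ : 3 ≤ μ
    · have h1 : Ge (OB.wt 0) (3 - μ : ℤ) a := by
        intro m hm
        have := hwt m hm
        rw [OB.wt_apply]
        show (3 - μ : ℤ) ≤ m 1 + m 2
        omega
      have h2 : Ge (OB.wt 0) ((μ - 3 : ℕ) : ℤ) (io σ) := by
        rw [← ogK_jo_iff, jo_io]
        exact ogK_of_mu hσ.1 hσ.2
      have h4 := h1.mul h2
      exact h4.mono (by omega)
    · have h1 : a = 0 := by
        apply OB.La.ext'
        intro m
        rw [map_zero]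
        by_contra hm
        have h4 := hwt m hm
        have h5 := hneg m hm
        omega
      rw [h1, zero_mul]
      exact Ge.zero _ _
  have hhm : ∀ σ, Wf n μ (Pi.single 0 1) σ → Hm td 0 (a * io σ) := by
    intro σ hσ
    have h1 := ha.mul (OB.hm_io hσ.1)
    have h2 : (3 - n : ℤ) + ((n - 3 : ℕ) : ℤ) = 0 := by omega
    rwa [h2] at h1
  refine ⟨γ₁, hγ₁, rγ₁, fun σ => jo (pA (a * io σ)), fun σ hσ => ⟨?_, ?_, ?_, ?_⟩⟩
  · exact hk_jo ((hhm σ hσ).cpt _)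
  · exact fun q hq => regAt_off₁ hx (reg_pA _) hq
  · intro q hq
    have h1 : fr σ * (g - γ₁) - jo (pA (a * io σ)) =
        jo (a * io σ - pA (a * io σ)) - fr σ * γ₂ := by
      rw [hg, map_sub, map_mul, jo_io]
      ring
    rw [h1]
    exact (regAt_off₂ hx (reg_sub_pA (hge σ hσ)) hq).sub ((RegAt.fr q _).mul (rγ₂ q hq))
  · intro τ hτ
    have h1 : fr τ * jo (pA (a * io σ)) - fr σ * jo (pA (a * io τ)) =
        jo (io τ * pA (a * io σ) - io σ * pA (a * io τ)) := by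
      rw [map_sub, map_mul, map_mul, jo_io, jo_io]
    rw [h1]
    refine ogR_jo ?_ ?_ (κ := ((n - 3 : ℕ) : ℤ) + 0) ?_ ?_
    · have h2 : io τ * pA (a * io σ) - io σ * pA (a * io τ) =
          io σ * (a * io τ - pA (a * io τ)) - io τ * (a * io σ - pA (a * io σ)) := by ring
      rw [h2]
      exact ((OB.Reg.io 1 _).mul (reg_sub_pA (hge τ hτ))).sub
        ((OB.Reg.io 1 _).mul (reg_sub_pA (hge σ hσ)))
    · exact ((OB.Reg.io 2 _).mul (reg_pA _)).sub ((OB.Reg.io 2 _).mul (reg_pA _))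
    · exact ((OB.hm_io hτ.1).mul ((hhm σ hσ).cpt _)).sub
        ((OB.hm_io hσ.1).mul ((hhm τ hτ).cpt _))
    · have h2 : ∀ σ', Wf n μ (Pi.single 0 1) σ' → Ge (OB.wt 0) ((μ - 3 : ℕ) : ℤ) (io σ') := by
        intro σ' hσ'
        rw [← ogK_jo_iff, jo_io]
        exact ogK_of_mu hσ'.1 hσ'.2
      have h4 := (h2 τ hτ).mul ((hge σ hσ).cpt fun m => 0 ≤ m 2)
      have h5 := (h2 σ hσ).mul ((hge τ hτ).cpt fun m => 0 ≤ m 2)
      rw [add_zero] at h4 h5
      exact h4.sub h5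

end MPb07157.OK
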