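import Pool.Agent.Lib.MP_b07157_agB2.OpD

/-!
# The functional `∑_b ∂^b (G_b u)` for Laurent polynomials
-/

noncomputable section

namespace MPb07157.OK

open MvPolynomial MPb07157Q
open MPb07157.OB (Dat sum3 f3a f3b f3c f3d f3n1 f3n2 f3n3 f3cases)

/-! ### The operators `∂^b` -/

theorem DD_zero (a : Kf) : DD 0 a = a := rfl

theorem DD_add (b : Fin 3 →₀ ℕ) (a a' : Kf) : DD b (a + a') = DD b a + DD b a' := by
  unfold DD
  rw [iterate_map_add, iterate_map_add, iterate_map_add]

theorem DD_map_zero (b : Fin 3 →₀ ℕ) : DD b (0 : Kf) = 0 := by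
  unfold DD
  rw [iterate_map_zero, iterate_map_zero, iterate_map_zero]

theorem DD_neg (b : Fin 3 →₀ ℕ) (a : Kf) : DD b (-a) = -DD b a := by
  unfold DD
  rw [iterate_map_neg, iterate_map_neg, iterate_map_neg]

theorem D_iterate (i j : Fin 3) (k : ℕ) (a : Kf) : DK i ((DK j)^[k] a) = (DK j)^[k] (DK i a) :=
  (Function.Commute.iterate_right (f := fun x => DK i x) (g := fun x => DK j x)
    (fun x => DK_comm i j x) k) a

theorem D_DD (i : Fin 3) (b : Fin 3 →₀ ℕ) (a : Kf) : DK i (DD b a) = DD b (DK i a) := by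
  unfold DD
  rw [D_iterate, D_iterate, D_iterate]

theorem DD_succ (i : Fin 3) (b : Fin 3 →₀ ℕ) (a : Kf) :
    DD (b + Finsupp.single i 1) a = DK i (DD b a) := by
  have h : ∀ j, (b + Finsupp.single i 1 : Fin 3 →₀ ℕ) j = b j + if i = j then 1 else 0 := by
    intro j
    rw [Finsupp.add_apply, Finsupp.single_apply]
  have h3 : i = 0 ∨ i = 1 ∨ i = 2 := by fin_cases i <;> decide
  unfold DD
  rw [h 0, h 1, h 2]
  rcases h3 with rfl | rfl | rfl
  · rw [if_pos rfl, if_neg (by decide), if_neg (by decide), add_zero, add_zero,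
      Function.iterate_succ_apply']
  · rw [if_pos rfl, if_neg (by decide), if_neg (by decide), add_zero, add_zero,
      Function.iterate_succ_apply', ← D_iterate 1 0]
  · rw [if_pos rfl, if_neg (by decide), if_neg (by decide), add_zero, add_zero,
      Function.iterate_succ_apply', ← D_iterate 2 1, ← D_iterate 2 0]

/-! ### The functional -/

theorem PsiK_eq_sum (u : Kf) {G : MvPolynomial (Fin 3) Kf} {s : Finset (Fin 3 →₀ ℕ)}
    (hs : G.support ⊆ s) : PsiK u G = ∑ b ∈ s, DD b (coeff b G * u) := by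
  unfold PsiK
  apply Finset.sum_subset hs
  intro b _ hb
  rw [notMem_support_iff.1 hb, zero_mul, DD_map_zero]

theorem PsiK_add (u : Kf) (G H : MvPolynomial (Fin 3) Kf) :
    PsiK u (G + H) = PsiK u G + PsiK u H := by
  classical
  rw [PsiK_eq_sum u (support_add : (G + H).support ⊆ _),
    PsiK_eq_sum u (Finset.subset_union_left : G.support ⊆ G.support ∪ H.support),
    PsiK_eq_sum u (Finset.subset_union_right : H.support ⊆ G.support ∪ H.support),
    ← Finset.sum_add_distrib]
  refine Finset.sum_congr rfl fun b _ => ?_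
  rw [coeff_add, add_mul, DD_add]

theorem PsiK_zero (u : Kf) : PsiK u 0 = 0 := by simp [PsiK]

theorem PsiK_neg (u : Kf) (G : MvPolynomial (Fin 3) Kf) : PsiK u (-G) = -PsiK u G := by
  have h := PsiK_add u G (-G)
  rw [add_neg_cancel, PsiK_zero] at h
  exact (neg_eq_of_add_eq_zero_right h.symm).symm

theorem PsiK_sub (u : Kf) (G H : MvPolynomial (Fin 3) Kf) :
    PsiK u (G - H) = PsiK u G - PsiK u H := by
  rw [sub_eq_add_neg, PsiK_add, PsiK_neg, sub_eq_add_neg]

theorem PsiK_sum (u : Kf) {ι : Type*} (s : Finset ι) (G : ι → MvPolynomial (Fin 3) Kf) :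
    PsiK u (∑ i ∈ s, G i) = ∑ i ∈ s, PsiK u (G i) := by
  classical
  induction s using Finset.induction_on with
  | empty => rw [Finset.sum_empty, Finset.sum_empty, PsiK_zero]
  | insert a s ha ih => rw [Finset.sum_insert ha, Finset.sum_insert ha, PsiK_add, ih]

theorem PsiK_monomial (u : Kf) (b : Fin 3 →₀ ℕ) (a : Kf) :
    PsiK u (monomial b a) = DD b (a * u) := by
  classical
  rw [PsiK_eq_sum u (support_monomial_subset : (monomial b a).support ⊆ {b}),
    Finset.sum_singleton, coeff_monomial, if_pos rfl]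

theorem PsiK_C (u a : Kf) : PsiK u (C a) = a * u := by
  rw [C_apply, PsiK_monomial, DD_zero]

theorem PsiK_X_mul (u : Kf) (i : Fin 3) (G : MvPolynomial (Fin 3) Kf) :
    PsiK u (X i * G) = DK i (PsiK u G) := by
  induction G using MvPolynomial.induction_on' with
  | monomial b a =>
    rw [X, monomial_mul, one_mul, PsiK_monomial, PsiK_monomial, ← DD_succ, add_comm]
  | add G H hG hH => rw [mul_add, PsiK_add, PsiK_add, hG, hH, map_add]

theorem PsiK_mul_left (u a : Kf) (G : MvPolynomial (Fin 3) Kf) :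
    PsiK u (C a * G) = PsiK (a * u) G := by
  induction G using MvPolynomial.induction_on' with
  | monomial b c =>
    rw [C_mul_monomial, PsiK_monomial, PsiK_monomial]
    congr 1
    ring
  | add G H hG hH => rw [mul_add, PsiK_add, PsiK_add, hG, hH]

theorem dC_add (i : Fin 3) (G H : MvPolynomial (Fin 3) Kf) :
    OK.dC i (G + H) = OK.dC i G + OK.dC i H := by
  ext1 b
  rw [OK.coeff_dC, coeff_add, coeff_add, map_add, OK.coeff_dC, OK.coeff_dC]

theorem dC_monomial (i : Fin 3) (b : Fin 3 →₀ ℕ) (a : Kf) :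
    OK.dC i (monomial b a) = monomial b (DK i a) := by
  classical
  ext1 c
  rw [OK.coeff_dC, coeff_monomial, coeff_monomial]
  by_cases h : b = c
  · rw [if_pos h, if_pos h]
  · rw [if_neg h, if_neg h, map_zero]

theorem PsiK_nab (u : Kf) (i : Fin 3) (T : MvPolynomial (Fin 3) Kf) :
    PsiK u (nab i T) = PsiK (DK i u) T := by
  unfold nab
  induction T using MvPolynomial.induction_on' with
  | monomial b a =>
    rw [PsiK_sub, PsiK_X_mul, dC_monomial, PsiK_monomial, PsiK_monomial, PsiK_monomial, D_DD,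
      DK_mul, DD_add, mul_comm u]
    abel
  | add G H hG hH =>
    rw [mul_add, dC_add, PsiK_add, ← hG, ← hH, PsiK_sub, PsiK_sub, PsiK_sub, PsiK_add, PsiK_add]
    abel

/-- Vector fields which kill `f` give operators which kill the powers of `f`. -/
theorem PsiK_dvg {f : Kf} {T : Fin 3 → MvPolynomial (Fin 3) Kf}
    (hT : ∑ i, T i * C (DK i f) = 0) (q : ℕ) : PsiK (f ^ q) (dvg T) = 0 := by
  have h1 : ∀ i, PsiK (f ^ q) (nab i (T i)) =
      PsiK ((q : Kf) * f ^ (q - 1)) (T i * C (DK i f)) := by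
    intro i
    rw [PsiK_nab, mul_comm (T i), PsiK_mul_left]
    congr 1
    rw [Derivation.leibniz_pow, smul_eq_mul, nsmul_eq_mul]
    ring
  unfold dvg
  rw [PsiK_sum, Finset.sum_congr rfl fun i _ => h1 i, ← PsiK_sum, hT, PsiK_zero]

/-- The values of `f^{|b|} ∂^b (a f^q)` at integers `q`. -/
theorem exists_topL (f : Kf) (k : ℕ) : ∀ (b : Fin 3 →₀ ℕ) (a : Kf), b.degree = k →
    ∃ Λ : Polynomial Kf, Λ.natDegree ≤ k ∧
      Λ.coeff k = a * b.prod (fun j e => DK j f ^ e) ∧
      ∀ q : ℕ, f ^ k * DD b (a * f ^ q) = f ^ q * Λ.eval (q : Kf) := by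
  classical
  induction k with
  | zero =>
    intro b a hb
    have : b = 0 := by rwa [Finsupp.degree_eq_zero_iff] at hb
    subst this
    refine ⟨Polynomial.C a, by simp, by simp, fun q => ?_⟩
    rw [DD_zero, Polynomial.eval_C]
    ring
  | succ k ih =>
    intro b a hb
    obtain ⟨i, b', rfl, hb'⟩ := exists_sub_single hb
    obtain ⟨Λ, h1, h2, h3⟩ := ih b' a hb'
    refine ⟨(Polynomial.X - Polynomial.C (k : Kf)) *
      Polynomial.C (DK i f) * Λ + Polynomial.C f * MPb07157S.dC (DK i) Λ, ?_, ?_, ?_⟩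
    · apply Polynomial.natDegree_add_le_of_degree_le
      · refine (Polynomial.natDegree_mul_le).trans ?_
        have : (((Polynomial.X - Polynomial.C (k : Kf)) *
          Polynomial.C (DK i f)).natDegree) ≤ 1 := by
          refine (Polynomial.natDegree_mul_C_le _ _).trans ?_
          rw [Polynomial.natDegree_X_sub_C]
        omega
      · refine (Polynomial.natDegree_C_mul_le _ _).trans ?_
        rw [Polynomial.natDegree_le_iff_coeff_eq_zero]
        intro N hN
        rw [MPb07157S.coeff_dC, Polynomial.coeff_eq_zero_of_natDegree_lt (by omega), map_zero]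
    · rw [Polynomial.coeff_add, Polynomial.coeff_C_mul, MPb07157S.coeff_dC,
        Polynomial.coeff_eq_zero_of_natDegree_lt (show Λ.natDegree < k + 1 by omega), map_zero,
        mul_zero, add_zero, mul_assoc, sub_mul, Polynomial.coeff_sub, Polynomial.coeff_X_mul,
        Polynomial.coeff_C_mul, Polynomial.coeff_C_mul, Polynomial.coeff_C_mul,
        Polynomial.coeff_eq_zero_of_natDegree_lt (show Λ.natDegree < k + 1 by omega), h2,
        Finsupp.prod_add_index', Finsupp.prod_single_index]
      · ring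
      · rw [pow_zero]
      · intro j
        rw [pow_zero]
      · intro j b c
        rw [pow_add]
    · intro q
      set u := DD b' (a * f ^ q) with hu
      have e0 := h3 q
      have e1 := congrArg (DK i) e0
      rw [DK_mul, DK_mul] at e1
      have e2 := MPb07157S.mul_D_pow (DK i) f k
      have e3 := MPb07157S.mul_D_pow (DK i) f q
      have e5 : DK i (Λ.eval (q : Kf)) = (MPb07157S.dC (DK i) Λ).eval (q : Kf) := by
        rw [MPb07157S.eval_dC]
        exact Derivation.map_natCast (DK i) q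
      rw [e5] at e1
      rw [DD_succ, ← hu]
      simp only [Polynomial.eval_add, Polynomial.eval_mul, Polynomial.eval_sub,
        Polynomial.eval_X, Polynomial.eval_C]
      linear_combination f * e1 - u * e2 + Λ.eval (q : Kf) * e3 - (k : Kf) * DK i f * e0

/-- The top part of a relation vanishes at the gradient. -/
theorem topK {f : Kf} (hf : f ≠ 0) {M : ℕ} {G : MvPolynomial (Fin 3) Kf}
    (hG : ∀ b ∈ G.support, b.degree ≤ M) (h : ∀ q : ℕ, PsiK (f ^ q) G = 0) :
    eval (fun j => DK j f) (homogeneousComponent M G) = 0 := by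
  classical
  have hdom : IsDomain Kf := NoZeroDivisors.to_isDomain Kf
  choose! Λ h1 h2 h3 using fun b : Fin 3 →₀ ℕ => exists_topL f b.degree b (coeff b G) rfl
  set T : Polynomial Kf :=
    ∑ b ∈ G.support, Polynomial.C (f ^ (M - b.degree)) * Λ b with hT
  have e1 : ∀ q : ℕ, T.eval (q : Kf) = 0 := by
    intro q
    apply mul_left_cancel₀ (pow_ne_zero q hf)
    rw [mul_zero]
    have e2 : f ^ M * PsiK (f ^ q) G = 0 := by rw [h q, mul_zero]
    rw [← e2]
    unfold PsiK
    rw [hT, Polynomial.eval_finsetSum, Finset.mul_sum, Finset.mul_sum]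
    refine Finset.sum_congr rfl fun b hb => ?_
    have e3 : M = (M - b.degree) + b.degree := (Nat.sub_add_cancel (hG b hb)).symm
    have e4 := h3 b q
    rw [Polynomial.eval_mul, Polynomial.eval_C]
    calc f ^ q * (f ^ (M - b.degree) * (Λ b).eval (q : Kf))
        = f ^ (M - b.degree) * (f ^ q * (Λ b).eval (q : Kf)) := by ring
      _ = f ^ (M - b.degree) * (f ^ b.degree * DD b (coeff b G * f ^ q)) := by rw [e4]
      _ = f ^ ((M - b.degree) + b.degree) * DD b (coeff b G * f ^ q) := by rw [pow_add]; ring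
      _ = _ := by rw [← e3]
  have e2 : T = 0 := by
    apply Polynomial.eq_of_infinite_eval_eq
    apply Set.infinite_of_injective_forall_mem (f := fun q : ℕ => (q : Kf))
    · intro a b hab
      have hab' : algebraMap ℂ Kf (a : ℂ) = algebraMap ℂ Kf (b : ℂ) := by
        rw [map_natCast, map_natCast]
        exact hab
      exact_mod_cast (algebraMap ℂ Kf).injective hab'
    · intro q
      show T.eval _ = Polynomial.eval _ 0
      rw [e1 q, Polynomial.eval_zero]
  have e3 : T.coeff M = eval (fun j => DK j f) (homogeneousComponent M G) := by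
    rw [hT, Polynomial.finsetSum_coeff, homogeneousComponent_apply, map_sum, Finset.sum_filter]
    refine Finset.sum_congr rfl fun b hb => ?_
    rw [Polynomial.coeff_C_mul]
    split_ifs with hb2
    · rw [← hb2, Nat.sub_self, pow_zero, one_mul, h2 b, eval_monomial]
    · have h4 : b.degree < M := lt_of_le_of_ne (hG b hb) hb2
      rw [Polynomial.coeff_eq_zero_of_natDegree_lt (lt_of_le_of_lt (h1 b) h4), mul_zero]
  rw [← e3, e2, Polynomial.coeff_zero]

theorem exists_PsiL_monomial (k : ℕ) : ∀ (b : Fin 3 →₀ ℕ) (a : MvPolynomial (Fin 3) ℂ),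
    b.degree = k → ∃ P : MvPolynomial (Fin 3) ℂ,
      (P : MvPowerSeries (Fin 3) ℂ) = dPow b (a : MvPowerSeries (Fin 3) ℂ) ∧
      fr P = DD b (fr a) := by
  induction k with
  | zero =>
    intro b a hb
    have : b = 0 := by rwa [Finsupp.degree_eq_zero_iff] at hb
    subst this
    exact ⟨a, by rw [dPow_zero], by rw [DD_zero]⟩
  | succ k ih =>
    intro b a hb
    obtain ⟨i, b', rfl, hb'⟩ := exists_sub_single hb
    obtain ⟨P, h1, h2⟩ := ih b' a hb'
    refine ⟨pderiv i P, ?_, ?_⟩
    · rw [← MvPowerSeries.pderiv_coe, h1, pderiv_dPow]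
    · rw [← DK_fr, h2, DD_succ]

theorem exists_PsiL (f : MvPolynomial (Fin 3) ℂ)
    (G : MvPolynomial (Fin 3) (MvPolynomial (Fin 3) ℂ)) (q : ℕ) :
    ∃ P : MvPolynomial (Fin 3) ℂ,
      (P : MvPowerSeries (Fin 3) ℂ) = Psi ((f : MvPowerSeries (Fin 3) ℂ) ^ q) G ∧
      fr P = PsiK (fr f ^ q) (map (fr : MvPolynomial (Fin 3) ℂ →+* Kf) G) := by
  induction G using MvPolynomial.induction_on' with
  | monomial b a =>
    obtain ⟨P, h1, h2⟩ := exists_PsiL_monomial b.degree b (a * f ^ q) rfl
    refine ⟨P, ?_, ?_⟩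
    · rw [h1, Psi_monomial, coe_mul, coe_pow]
    · rw [h2, map_monomial, PsiK_monomial, map_mul, map_pow]
      rfl
  | add G H hG hH =>
    obtain ⟨P, h1, h2⟩ := hG
    obtain ⟨P', h1', h2'⟩ := hH
    exact ⟨P + P', by rw [coe_add, h1, h1', Psi_add], by rw [map_add, h2, h2', map_add, PsiK_add]⟩

theorem Psi_to_K (f : MvPolynomial (Fin 3) ℂ)
    (G : MvPolynomial (Fin 3) (MvPolynomial (Fin 3) ℂ)) (q : ℕ)
    (h : Psi ((f : MvPowerSeries (Fin 3) ℂ) ^ q) G = 0) :
    PsiK (fr f ^ q) (map (fr : MvPolynomial (Fin 3) ℂ →+* Kf) G) = 0 := by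
  obtain ⟨P, h1, h2⟩ := exists_PsiL f G q
  rw [h] at h1
  have h3 : P = 0 := MvPolynomial.coe_injective _ _ (by rw [h1, coe_zero])
  rw [← h2, h3, map_zero]

end MPb07157.OK
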