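import Pool.Agent.Lib.MP_b07157_agB2.Rg

/-!
# Operators with rational coefficients: definitions
-/

noncomputable section

namespace MPb07157.OK

open MvPolynomial

/-- The divergence. -/
def dvK (t : Fin 3 → Kf) : Kf := ∑ i, DK i (t i)

/-- The curl. -/
def cuK (t : Fin 3 → Kf) (i : Fin 3) : Kf := DK (i + 1) (t (i + 2)) - DK (i + 2) (t (i + 1))

/-- The derivative of the coefficients. -/
def dC (i : Fin 3) (G : MvPolynomial (Fin 3) Kf) : MvPolynomial (Fin 3) Kf :=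
  ∑ b ∈ G.support, monomial b (DK i (coeff b G))

theorem coeff_dC (i : Fin 3) (G : MvPolynomial (Fin 3) Kf) (b : Fin 3 →₀ ℕ) :
    coeff b (dC i G) = DK i (coeff b G) := by
  classical
  unfold dC
  rw [coeff_sum]
  simp only [coeff_monomial]
  rw [Finset.sum_ite_eq' G.support b]
  split_ifs with h
  · rfl
  · rw [notMem_support_iff.1 h, map_zero]

/-- `ξ_i T - ∂_i T`, the symbol of `∂_i ∘ T - ∂_i(T)`. -/
def nab (i : Fin 3) (T : MvPolynomial (Fin 3) Kf) : MvPolynomial (Fin 3) Kf := X i * T - dC i T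

/-- The operator `∑ ∂^b (T_b · grad)`. -/
def dvg (T : Fin 3 → MvPolynomial (Fin 3) Kf) : MvPolynomial (Fin 3) Kf := ∑ i, nab i (T i)

/-- The curl of a vector of operators. -/
def cur (T : Fin 3 → MvPolynomial (Fin 3) Kf) (i : Fin 3) : MvPolynomial (Fin 3) Kf :=
  nab (i + 1) (T (i + 2)) - nab (i + 2) (T (i + 1))

/-- `∂^b`. -/
def DD (b : Fin 3 →₀ ℕ) (a : Kf) : Kf := (DK 0)^[b 0] ((DK 1)^[b 1] ((DK 2)^[b 2] a))

/-- `∑_b ∂^b (G_b u)`. -/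
def PsiK (u : Kf) (G : MvPolynomial (Fin 3) Kf) : Kf :=
  ∑ b ∈ G.support, DD b (coeff b G * u)

/-- All coefficients are regular at `q`. -/
def RegP (q : Fin 3 → ℂ) (G : MvPolynomial (Fin 3) Kf) : Prop := ∀ b, RegAt q (coeff b G)

/-- The coefficient of `ξ^b` has degree `|b| + k`. -/
def HkP (k : ℤ) (G : MvPolynomial (Fin 3) Kf) : Prop := ∀ b, Hk (b.degree + k) (coeff b G)

/-- The points different from `0` and not on the lines spanned by the `b j`. -/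
def OffB {r : ℕ} (b : Fin r → Fin 3 → ℂ) (q : Fin 3 → ℂ) : Prop :=
  q ≠ 0 ∧ ∀ j (c : ℂ), q ≠ c • b j

/-- A global solution: a rational vector field `t` which kills `f`, of divergence `c`, and local
solutions `g` such that `t + curl (g v)` is regular at `q`. -/
structure Sol {r : ℕ} (f : MvPolynomial (Fin 3) ℂ) (v : Fin 3 → MvPolynomial (Fin 3) ℂ) (n : ℕ)
    (b : Fin r → Fin 3 → ℂ) (c : ℂ) (t : Fin 3 → Kf) (Sec : (Fin 3 → ℂ) → Kf → Prop) : Prop where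
  uniq : ∀ q g g', Sec q g → Sec q g' → RegAt q (g - g')
  add : ∀ q g u, Sec q g → RegAt q u → Sec q (g + u)
  ex : ∀ (e : ℕ) (h : MvPolynomial (Fin 3) ℂ), 0 < e → h.IsHomogeneous e → h ≠ 0 →
    (∀ j, eval (b j) h = 0) → ∃ g, Hk (3 - n) g ∧ ∀ q, eval q h ≠ 0 → Sec q g
  reg : ∀ q g, Sec q g → ∀ k, RegAt q (t k + cuK (fun j => g * fr (v j)) k)
  hom : ∀ k, Hk 1 (t k)
  kill : ∑ k, t k * DK k (fr f) = 0
  div : dvK t = algebraMap ℂ Kf c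

/-- The forms of degree `n - 3` with multiplicity at least `μ - 3` at `b`. -/
def Wf (n μ : ℕ) (b : Fin 3 → ℂ) (σ : MvPolynomial (Fin 3) ℂ) : Prop :=
  σ.IsHomogeneous (n - 3) ∧ Mu b (μ - 3) σ

/-- The conclusion of the local lemma. -/
def LC (n μ : ℕ) (b : Fin 3 → ℂ) (y z e : MvPolynomial (Fin 3) ℂ) (g : Kf) : Prop :=
  ∃ γ : Kf, Hk (3 - n) γ ∧ (∀ q, eval q (y * e) ≠ 0 → RegAt q γ) ∧
    ∃ α : MvPolynomial (Fin 3) ℂ → Kf, ∀ σ, Wf n μ b σ →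
      Hk 0 (α σ) ∧ (∀ q, eval q (y * e) ≠ 0 → RegAt q (α σ)) ∧
      (∀ q, eval q (z * e) ≠ 0 → RegAt q (fr σ * (g - γ) - α σ)) ∧
      ∀ τ, Wf n μ b τ → OgR b (μ - 3) (fr τ * α σ - fr σ * α τ)

/-- The hypotheses of the local lemma. -/
structure LH (f : MvPolynomial (Fin 3) ℂ) (v : Fin 3 → MvPolynomial (Fin 3) ℂ) (n : ℕ)
    (y z e : MvPolynomial (Fin 3) ℂ) (c : ℂ) (t₁ t₂ : Fin 3 → Kf) (g : Kf) : Prop where
  r₁ : ∀ q, eval q (y * e) ≠ 0 → ∀ k, RegAt q (t₁ k)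
  r₂ : ∀ q, eval q (z * e) ≠ 0 → ∀ k, RegAt q (t₂ k)
  rg : ∀ q, eval q (y * z * e) ≠ 0 → RegAt q g
  e₁ : ∀ k, Hk 1 (t₁ k)
  e₂ : ∀ k, Hk 1 (t₂ k)
  eg : Hk (3 - n) g
  k₁ : ∑ k, t₁ k * DK k (fr f) = 0
  k₂ : ∑ k, t₂ k * DK k (fr f) = 0
  d₁ : dvK t₁ = algebraMap ℂ Kf c
  d₂ : dvK t₂ = algebraMap ℂ Kf c
  cu : ∀ k, t₁ k - t₂ k = cuK (fun j => g * fr (v j)) k

end MPb07157.OK
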