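import Pool.Agent.Lib.MP_b07157_agB2.Jac

/-!
# Polarisation of the Jacobian relations
-/

noncomputable section

namespace MPb07157.O2

open MvPolynomial

namespace PolaAux

theorem pderiv_comm3 (i j : Fin 3) (F : S3) :
    pderiv i (pderiv j F) = pderiv j (pderiv i F) := by
  induction F using MvPolynomial.induction_on with
  | C a => simp
  | add p r hp hr => simp only [map_add, hp, hr]
  | mul_X p l hp =>
    have hX : ∀ a b : Fin 3, pderiv a (pderiv b (X l : MvPolynomial (Fin 3) ℂ)) = 0 := by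
      intro a b
      by_cases h : l = b
      · subst h
        rw [pderiv_X_self, pderiv_one]
      · rw [pderiv_X_of_ne h, map_zero]
    simp only [Derivation.leibniz, map_add, smul_eq_mul, hp, hX]
    ring

/-- The gradient of the relation `J Q = E D + Γ B`. -/
theorem grad_rel {δ : ℕ} (hδ : 0 < δ) {D₁ D₂ B Q : S3} (h1 : D₁.IsHomogeneous δ)
    (h2 : D₂.IsHomogeneous δ) (hB : B.IsHomogeneous δ) (hQ : Q.IsHomogeneous δ)
    (h : jac D₁ B Q = 0) (i : Fin 3) :
    D₁ * (jac Q D₂ B * pderiv i (jac D₁ D₂ B) - jac D₁ D₂ B * pderiv i (jac Q D₂ B)) =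
      -(B * (jac D₁ D₂ Q * pderiv i (jac D₁ D₂ B) - jac D₁ D₂ B * pderiv i (jac D₁ D₂ Q))) := by
  have e0 : jac D₁ Q B = 0 := by rw [jac_swap23, h, neg_zero]
  have e1 := cramer' hδ h1 h2 hB hQ
  have e2 := cramer D₁ D₂ B Q i
  rw [e0] at e1 e2
  have e3 := congrArg (pderiv i) e1
  simp only [map_add, Derivation.leibniz, smul_eq_mul, map_zero, mul_zero, zero_mul,
    add_zero, zero_add] at e3
  linear_combination jac D₁ D₂ B * e3 - pderiv i (jac D₁ D₂ B) * e1 - jac D₁ D₂ B * e2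

/-- The curl of a relation `D u = - B w`. -/
theorem cross {D B J E G : S3}
    (h : ∀ i, D * (E * pderiv i J - J * pderiv i E) = -(B * (G * pderiv i J - J * pderiv i G)))
    (hJ : J ≠ 0) (j k : Fin 3) :
    (B * pderiv j D - D * pderiv j B) * (E * pderiv k J - J * pderiv k E) =
      (B * pderiv k D - D * pderiv k B) * (E * pderiv j J - J * pderiv j E) := by
  have hc : ∀ p : S3, pderiv j (pderiv k p) = pderiv k (pderiv j p) := fun p =>
    pderiv_comm3 j k p
  have e1 := congrArg (pderiv j) (h k)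
  have e2 := congrArg (pderiv k) (h j)
  simp only [map_sub, map_neg, Derivation.leibniz, smul_eq_mul, hc] at e1 e2
  have e3 := h j
  have e4 := h k
  apply mul_left_cancel₀ hJ
  linear_combination J * B * e1 - J * B * e2 + (-(2 : S3)) * B * pderiv j J * e4 +
    2 * B * pderiv k J * e3 - J * pderiv j B * e4 + J * pderiv k B * e3

end PolaAux

open PolaAux

/-- The polarised Jacobian relations. -/
theorem pola {δ : ℕ} (hδ : 0 < δ) {D₁ D₂ B Q₁ Q₂ : S3} (h1 : D₁.IsHomogeneous δ)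
    (h2 : D₂.IsHomogeneous δ) (hB : B.IsHomogeneous δ) (hQ1 : Q₁.IsHomogeneous δ)
    (hQ2 : Q₂.IsHomogeneous δ) (hJ : jac D₁ D₂ B ≠ 0) (j1 : jac D₁ B Q₁ = 0)
    (j2 : jac D₂ B Q₂ = 0) (j3 : jac D₁ B Q₂ + jac D₂ B Q₁ = 0) :
    ∃ e c₁ c₂ : ℂ, Q₁ = C e * D₁ + C c₁ * B ∧ Q₂ = C e * D₂ + C c₂ * B := by
  have hB0 : B ≠ 0 := by
    rintro rfl
    apply hJ
    unfold jac
    simp
  have g1 := grad_rel hδ h1 h2 hB hQ1 j1
  have g2 := grad_rel hδ h2 h1 hB hQ2 j2
  -- both coefficients agree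
  have hE : jac Q₂ D₁ B = - jac Q₁ D₂ B := by
    have e1 : jac D₁ B Q₂ = jac Q₂ D₁ B := by unfold jac; ring
    have e2 : jac D₂ B Q₁ = jac Q₁ D₂ B := by unfold jac; ring
    rw [← e1, ← e2]
    linear_combination j3
  have hJ' : jac D₂ D₁ B = - jac D₁ D₂ B := jac_swap12 _ _ _
  rw [hE, hJ'] at g2
  have g2' : ∀ i, D₂ * (jac Q₁ D₂ B * pderiv i (jac D₁ D₂ B) -
      jac D₁ D₂ B * pderiv i (jac Q₁ D₂ B)) =
      -(B * ((-jac D₂ D₁ Q₂) * pderiv i (jac D₁ D₂ B) -
        jac D₁ D₂ B * pderiv i (-jac D₂ D₁ Q₂))) := by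
    intro i
    have := g2 i
    simp only [map_neg] at this ⊢
    linear_combination this
  set J := jac D₁ D₂ B with hJdef
  set E := jac Q₁ D₂ B with hEdef
  have c1 := cross g1 hJ
  have c2 := cross g2' hJ
  -- the vector vanishes
  have hu : ∀ k, E * pderiv k J - J * pderiv k E = 0 := by
    by_contra hcon
    push Not at hcon
    obtain ⟨k, hk⟩ := hcon
    set u : Fin 3 → S3 := fun k => E * pderiv k J - J * pderiv k E with hu
    have hab : ∀ i j, (B * pderiv i D₁ - D₁ * pderiv i B) * (B * pderiv j D₂ - D₂ * pderiv j B) =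
        (B * pderiv j D₁ - D₁ * pderiv j B) * (B * pderiv i D₂ - D₂ * pderiv i B) := by
      intro i j
      apply mul_left_cancel₀ (mul_ne_zero hk hk)
      have a1 := c1 i k
      have a2 := c1 j k
      have a3 := c2 i k
      have a4 := c2 j k
      linear_combination (B * pderiv j D₂ - D₂ * pderiv j B) * (E * pderiv k J - J * pderiv k E) * a1 -
        (B * pderiv i D₂ - D₂ * pderiv i B) * (E * pderiv k J - J * pderiv k E) * a2 +
        (B * pderiv k D₁ - D₁ * pderiv k B) * (E * pderiv i J - J * pderiv i E) * a4 -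
        (B * pderiv k D₁ - D₁ * pderiv k B) * (E * pderiv j J - J * pderiv j E) * a3
    have h3 : B * (B * J) = 0 := by
      have b1 := hab 0 1
      have b2 := hab 1 2
      have b3 := hab 0 2
      rw [hJdef]
      unfold jac
      linear_combination pderiv 2 B * b1 + pderiv 0 B * b2 - pderiv 1 B * b3
    exact (mul_ne_zero hB0 (mul_ne_zero hB0 hJ)) h3
  obtain ⟨e, he⟩ := exists_const hJ (fun i => sub_eq_zero.1 (hu i))
  have w1 : ∃ c, jac D₁ D₂ Q₁ = C c * J := by
    apply exists_const hJ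
    intro i
    have := g1 i
    rw [hu i, mul_zero] at this
    have h3 := (mul_eq_zero.1 (neg_eq_zero.1 this.symm)).resolve_left hB0
    exact sub_eq_zero.1 h3
  have w2 : ∃ c, -jac D₂ D₁ Q₂ = C c * J := by
    apply exists_const hJ
    intro i
    have := g2' i
    rw [hu i, mul_zero] at this
    have h3 := (mul_eq_zero.1 (neg_eq_zero.1 this.symm)).resolve_left hB0
    exact sub_eq_zero.1 h3
  obtain ⟨c₁, hc1⟩ := w1
  obtain ⟨c₂, hc2⟩ := w2
  refine ⟨e, c₁, c₂, ?_, ?_⟩
  · have e1 := cramer' hδ h1 h2 hB hQ1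
    have e0 : jac D₁ Q₁ B = 0 := by rw [jac_swap23, j1, neg_zero]
    rw [← hJdef, ← hEdef, e0, hc1, he] at e1
    apply mul_left_cancel₀ hJ
    linear_combination e1
  · have e1 := cramer' hδ h2 h1 hB hQ2
    have e0 : jac D₂ Q₂ B = 0 := by rw [jac_swap23, j2, neg_zero]
    rw [hE, hJ', e0] at e1
    apply mul_left_cancel₀ hJ
    linear_combination (-1 : S3) * e1 + Q₂ * 0 + D₂ * he + B * hc2

/-- A form whose gradient is a multiple of the gradient of `B`. -/
theorem pola_one {δ : ℕ} (hδ : 0 < δ) {D₁ D₂ B R : S3} (h1 : D₁.IsHomogeneous δ)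
    (h2 : D₂.IsHomogeneous δ) (hB : B.IsHomogeneous δ) (hR : R.IsHomogeneous δ)
    (hJ : jac D₁ D₂ B ≠ 0) (j1 : jac D₁ B R = 0) (j2 : jac D₂ B R = 0) :
    ∃ c : ℂ, R = C c * B := by
  have hB0 : B ≠ 0 := by
    rintro rfl
    apply hJ
    unfold jac
    simp
  have e1 : jac R D₂ B = 0 := by
    have : jac R D₂ B = jac D₂ B R := by unfold jac; ring
    rw [this, j2]
  have e2 : jac D₁ R B = 0 := by rw [jac_swap23, j1, neg_zero]
  have r0 := cramer' hδ h1 h2 hB hR
  have r1 := cramer D₁ D₂ B R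
  rw [e1, e2] at r0
  obtain ⟨c, hc⟩ : ∃ c, jac D₁ D₂ R = C c * jac D₁ D₂ B := by
    apply exists_const hJ
    intro i
    have r2 := r1 i
    rw [e1, e2] at r2
    have r3 := congrArg (pderiv i) r0
    simp only [map_add, Derivation.leibniz, smul_eq_mul, map_zero, mul_zero, zero_mul,
      add_zero, zero_add] at r3
    apply mul_left_cancel₀ hB0
    linear_combination jac D₁ D₂ B * r3 - jac D₁ D₂ B * r2 - pderiv i (jac D₁ D₂ B) * r0
  refine ⟨c, ?_⟩
  apply mul_left_cancel₀ hJ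
  rw [hc] at r0
  linear_combination r0

end MPb07157.O2
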