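import Pool.Agent.Lib.MP_b07157_agB2.KD
import Pool.Agent.Lib.MP_b07157_agB.ODefs

/-!
# Regular and homogeneous rational functions
-/

noncomputable section

namespace MPb07157.OK

open MvPolynomial

/-- `g` is regular at `q`. -/
def RegAt (q : Fin 3 → ℂ) (g : Kf) : Prop :=
  ∃ a b : MvPolynomial (Fin 3) ℂ, eval q b ≠ 0 ∧ g * fr b = fr a

/-- `g` is homogeneous of degree `k`. -/
def Hk (k : ℤ) (g : Kf) : Prop :=
  ∃ (m n : ℕ) (a b : MvPolynomial (Fin 3) ℂ), a.IsHomogeneous m ∧ b.IsHomogeneous n ∧ b ≠ 0 ∧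
    (m : ℤ) - n = k ∧ g * fr b = fr a

variable {q : Fin 3 → ℂ} {g g' : Kf} {k k' : ℤ}

theorem RegAt.fr (q : Fin 3 → ℂ) (p : MvPolynomial (Fin 3) ℂ) : RegAt q (OK.fr p) :=
  ⟨p, 1, by simp, by simp⟩

theorem RegAt.zero (q : Fin 3 → ℂ) : RegAt q 0 := ⟨0, 1, by simp, by simp⟩

theorem RegAt.const (q : Fin 3 → ℂ) (c : ℂ) : RegAt q (algebraMap ℂ Kf c) := by
  rw [← fr_C]
  exact RegAt.fr q _

theorem RegAt.add (h : RegAt q g) (h' : RegAt q g') : RegAt q (g + g') := by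
  obtain ⟨a, b, hb, e⟩ := h
  obtain ⟨a', b', hb', e'⟩ := h'
  refine ⟨a * b' + a' * b, b * b', by rw [map_mul]; exact mul_ne_zero hb hb', ?_⟩
  rw [map_mul, map_add, map_mul, map_mul, ← e, ← e']
  ring

theorem RegAt.neg (h : RegAt q g) : RegAt q (-g) := by
  obtain ⟨a, b, hb, e⟩ := h
  refine ⟨-a, b, hb, ?_⟩
  rw [map_neg, ← e]
  ring

theorem RegAt.sub (h : RegAt q g) (h' : RegAt q g') : RegAt q (g - g') := by
  rw [sub_eq_add_neg]
  exact h.add h'.neg

theorem RegAt.mul (h : RegAt q g) (h' : RegAt q g') : RegAt q (g * g') := by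
  obtain ⟨a, b, hb, e⟩ := h
  obtain ⟨a', b', hb', e'⟩ := h'
  refine ⟨a * a', b * b', by rw [map_mul]; exact mul_ne_zero hb hb', ?_⟩
  rw [map_mul, map_mul, ← e, ← e']
  ring

theorem RegAt.sum {ι : Type*} {s : Finset ι} {u : ι → Kf} (h : ∀ i ∈ s, RegAt q (u i)) :
    RegAt q (∑ i ∈ s, u i) := by
  classical
  induction s using Finset.induction_on with
  | empty => exact RegAt.zero q
  | insert a s ha ih =>
    rw [Finset.sum_insert ha]
    exact (h a (Finset.mem_insert_self _ _)).add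
      (ih fun i hi => h i (Finset.mem_insert_of_mem hi))

theorem RegAt.DK (h : RegAt q g) (i : Fin 3) : RegAt q (OK.DK i g) := by
  obtain ⟨a, b, hb, e⟩ := h
  refine ⟨pderiv i a * b - a * pderiv i b, b * b, by rw [map_mul]; exact mul_ne_zero hb hb, ?_⟩
  have e1 := congrArg (OK.DK i) e
  rw [DK_mul, DK_fr, DK_fr] at e1
  rw [map_mul, map_sub, map_mul, map_mul, ← e1, ← e]
  ring

/-- Division by a function without zero at `q`. -/
theorem RegAt.of_mul {b : MvPolynomial (Fin 3) ℂ} (hb : eval q b ≠ 0) (h : RegAt q (g * OK.fr b)) :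
    RegAt q g := by
  obtain ⟨a, c, hc, e⟩ := h
  refine ⟨a, b * c, by rw [map_mul]; exact mul_ne_zero hb hc, ?_⟩
  rw [map_mul, ← e]
  ring

/-! ### Multiplicities -/

/-- The multiplicity of `p` at `b` is at least `m`. -/
def Mu (b : Fin 3 → ℂ) (m : ℕ) (p : MvPolynomial (Fin 3) ℂ) : Prop :=
  ∀ j < m, homogeneousComponent j (translate b p) = 0

/-- `g` is regular at `b` and vanishes to the order `m`. -/
def OgR (b : Fin 3 → ℂ) (m : ℕ) (g : Kf) : Prop :=
  ∃ p q : MvPolynomial (Fin 3) ℂ, eval b q ≠ 0 ∧ Mu b m p ∧ g * fr q = fr p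

end MPb07157.OK
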