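import Pool.Agent.Lib.MP_b07157_agB2.DecK
import Pool.Agent.Lib.MP_b07157_agB2.CmpK
import Pool.Agent.Lib.MP_b07157_agQ.QHom

/-!
# The global solution
-/

noncomputable section

namespace MPb07157.OK

open MvPolynomial MPb07157Q
open MPb07157.OB (Dat Vert sum3 f3a f3b f3c f3d f3n1 f3n2 f3n3 f3cases)

variable {f P : MvPolynomial (Fin 3) ℂ} {v : Fin 3 → MvPolynomial (Fin 3) ℂ} {d n r : ℕ}
  {b : Fin r → Fin 3 → ℂ}

namespace TotKAux

/-! ### Linearity -/

theorem nab_add (i : Fin 3) (S T : MvPolynomial (Fin 3) Kf) :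
    nab i (S + T) = nab i S + nab i T := by
  unfold nab
  rw [dC_add]
  ring

theorem dvg_sub (S T : Fin 3 → MvPolynomial (Fin 3) Kf) :
    dvg (fun k => S k - T k) = dvg S - dvg T := by
  unfold dvg
  simp only [CmpA.nab_sub, Finset.sum_sub_distrib]

theorem cur_sub (S T : Fin 3 → MvPolynomial (Fin 3) Kf) (k : Fin 3) :
    cur (fun j => S j - T j) k = cur S k - cur T k := by
  unfold cur
  simp only [CmpA.nab_sub]
  ring

theorem coeff_mulC (b : Fin 3 →₀ ℕ) (T : MvPolynomial (Fin 3) Kf) (a : Kf) :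
    coeff b (T * C a) = coeff b T * a := by
  rw [mul_comm, coeff_C_mul, mul_comm]

theorem coeff_nab (i : Fin 3) (T : MvPolynomial (Fin 3) Kf) :
    coeff 0 (nab i T) = - DK i (coeff 0 T) := by
  unfold nab
  have h1 : coeff 0 (X i * T) = 0 := by
    rw [coeff_X_mul']
    simp
  rw [coeff_sub, h1, coeff_dC, zero_sub]

theorem coeff_dvg (T : Fin 3 → MvPolynomial (Fin 3) Kf) :
    coeff 0 (dvg T) = - dvK (fun k => coeff 0 (T k)) := by
  unfold dvg dvK
  rw [coeff_sum, ← Finset.sum_neg_distrib]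
  exact Finset.sum_congr rfl fun i _ => coeff_nab i (T i)

theorem coeff_cur (T : Fin 3 → MvPolynomial (Fin 3) Kf) (k : Fin 3) :
    coeff 0 (cur T k) = - cuK (fun j => coeff 0 (T j)) k := by
  unfold cur cuK
  rw [coeff_sub, coeff_nab, coeff_nab]
  ring

theorem exists_deg (G : MvPolynomial (Fin 3) Kf) : ∃ M, ∀ b ∈ G.support, b.degree ≤ M :=
  ⟨G.support.sup fun b => b.degree, fun _ hb => Finset.le_sup (f := fun b => b.degree) hb⟩

theorem exists_deg' (w : Fin 3 → MvPolynomial (Fin 3) Kf) :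
    ∃ M, ∀ k b, M ≤ b.degree → coeff b (w k) = 0 := by
  choose M hM using fun k => exists_deg (w k)
  refine ⟨M 0 + M 1 + M 2 + 1, fun k b hb => ?_⟩
  by_contra hcon
  have h1 := hM k b (mem_support_iff.2 hcon)
  have h2 : M k ≤ M 0 + M 1 + M 2 := by
    fin_cases k
    · show M 0 ≤ _
      omega
    · show M 1 ≤ _
      omega
    · show M 2 ≤ _
      omega
  omega

/-! ### The part of degree zero -/

/-- `∂^b` for polynomials. -/
def DP (b : Fin 3 →₀ ℕ) (p : MvPolynomial (Fin 3) ℂ) : MvPolynomial (Fin 3) ℂ :=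
  (pderiv 0)^[b 0] ((pderiv 1)^[b 1] ((pderiv 2)^[b 2] p))

theorem fr_iter (i : Fin 3) (k : ℕ) (p : MvPolynomial (Fin 3) ℂ) :
    fr ((pderiv i)^[k] p) = (DK i)^[k] (fr p) := by
  induction k with
  | zero => rfl
  | succ k ih => rw [Function.iterate_succ_apply', Function.iterate_succ_apply', ← ih, DK_fr]

theorem fr_DP (b : Fin 3 →₀ ℕ) (p : MvPolynomial (Fin 3) ℂ) : fr (DP b p) = DD b (fr p) := by
  unfold DP DD
  rw [fr_iter, fr_iter, fr_iter]

theorem hc_iter (i : Fin 3) (k : ℕ) : ∀ (j : ℕ) (p : MvPolynomial (Fin 3) ℂ),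
    homogeneousComponent j ((pderiv i)^[k] p) =
      (pderiv i)^[k] (homogeneousComponent (j + k) p) := by
  induction k with
  | zero => intro j p; rfl
  | succ k ih =>
    intro j p
    rw [Function.iterate_succ_apply', Function.iterate_succ_apply',
      MPb07157.homogeneousComponent_pderiv, ih, show j + 1 + k = j + (k + 1) by ring]

theorem hc_DP (b : Fin 3 →₀ ℕ) (j : ℕ) (p : MvPolynomial (Fin 3) ℂ) :
    homogeneousComponent j (DP b p) = DP b (homogeneousComponent (j + b.degree) p) := by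
  unfold DP
  have e : b.degree = b 0 + b 1 + b 2 := by
    rw [Finsupp.degree_eq_sum, Fin.sum_univ_three]
  rw [hc_iter, hc_iter, hc_iter, e, show j + b 0 + b 1 + b 2 = j + (b 0 + b 1 + b 2) by ring]

theorem DP_zero (b : Fin 3 →₀ ℕ) : DP b 0 = 0 := by
  apply fr_injective
  rw [fr_DP, map_zero, DD_map_zero]

/-- The part of degree zero. -/
def G0 (G : MvPolynomial (Fin 3) (MvPolynomial (Fin 3) ℂ)) :
    MvPolynomial (Fin 3) (MvPolynomial (Fin 3) ℂ) :=
  ∑ b ∈ G.support, monomial b (homogeneousComponent b.degree (coeff b G))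

theorem coeff_G0 (G : MvPolynomial (Fin 3) (MvPolynomial (Fin 3) ℂ)) (b : Fin 3 →₀ ℕ) :
    coeff b (G0 G) = homogeneousComponent b.degree (coeff b G) := by
  classical
  unfold G0
  rw [coeff_sum]
  simp only [coeff_monomial]
  rw [Finset.sum_ite_eq' G.support b]
  split_ifs with h
  · rfl
  · rw [notMem_support_iff.1 h, map_zero]

theorem psi_eq (G : MvPolynomial (Fin 3) (MvPolynomial (Fin 3) ℂ)) (u : MvPolynomial (Fin 3) ℂ)
    {s : Finset (Fin 3 →₀ ℕ)} (hs : G.support ⊆ s) :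
    PsiK (fr u) (map (fr : MvPolynomial (Fin 3) ℂ →+* Kf) G) =
      fr (∑ b ∈ s, DP b (coeff b G * u)) := by
  rw [PsiK_eq_sum (fr u) (s := s) ?_, map_sum]
  · refine Finset.sum_congr rfl fun b _ => ?_
    rw [fr_DP, map_mul, coeff_map]
    rfl
  · intro b hb
    apply hs
    rw [mem_support_iff] at hb ⊢
    intro h0
    apply hb
    rw [coeff_map, h0, map_zero]

theorem psi_G0 {f : MvPolynomial (Fin 3) ℂ} {d : ℕ} (hf : f.IsHomogeneous d)
    {G : MvPolynomial (Fin 3) (MvPolynomial (Fin 3) ℂ)}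
    (hG : ∀ q : ℕ, Psi ((f : MvPowerSeries (Fin 3) ℂ) ^ q) G = 0) (q : ℕ) :
    PsiK (fr f ^ q) (map (fr : MvPolynomial (Fin 3) ℂ →+* Kf) (G0 G)) = 0 := by
  have hs : (G0 G).support ⊆ G.support := by
    intro b hb
    rw [mem_support_iff] at hb ⊢
    intro h0
    apply hb
    rw [coeff_G0, h0, map_zero]
  have h1 := Psi_to_K f G q (hG q)
  rw [← map_pow, psi_eq G (f ^ q) (Finset.Subset.refl _)] at h1
  have h2 : ∑ b ∈ G.support, DP b (coeff b G * f ^ q) = 0 := by
    apply fr_injective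
    rw [h1, map_zero]
  have h3 := congrArg (homogeneousComponent (d * q)) h2
  rw [map_sum, map_zero] at h3
  rw [← map_pow, psi_eq (G0 G) (f ^ q) hs]
  have h4 : ∑ b ∈ G.support, DP b (coeff b (G0 G) * f ^ q) = 0 := by
    rw [← h3]
    refine Finset.sum_congr rfl fun b _ => ?_
    rw [hc_DP, coeff_G0, mul_comm (coeff b G), MPb07157.homogeneousComponent_mul_left (hf.pow q),
      mul_comm (f ^ q)]
  rw [h4, map_zero]

/-! ### Forms -/

theorem exists_lin (b : Fin 3 → ℂ) : ∃ l : MvPolynomial (Fin 3) ℂ, l.IsHomogeneous 1 ∧ l ≠ 0 ∧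
    eval b l = 0 := by
  by_cases h0 : b 0 = 0
  · exact ⟨X 0, isHomogeneous_X _ _, X_ne_zero _, by rw [eval_X, h0]⟩
  · refine ⟨C (b 1) * X 0 - C (b 0) * X 1, ?_, ?_, ?_⟩
    · exact (isHomogeneous_C_mul_X _ _).sub (isHomogeneous_C_mul_X _ _)
    · intro h
      apply h0
      have h1 := congrArg (eval (fun i : Fin 3 => if i = 1 then (-1 : ℂ) else 0)) h
      simpa using h1
    · simp only [map_sub, map_mul, eval_C, eval_X]
      ring

theorem exists_h0 {r : ℕ} (b : Fin r → Fin 3 → ℂ) : ∃ (e : ℕ) (h : MvPolynomial (Fin 3) ℂ),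
    0 < e ∧ h.IsHomogeneous e ∧ h ≠ 0 ∧ ∀ j, eval (b j) h = 0 := by
  choose l h1 h2 h3 using fun j => exists_lin (b j)
  refine ⟨1 + ∑ _j : Fin r, 1, X 0 * ∏ j, l j, by omega, ?_, ?_, ?_⟩
  · exact (isHomogeneous_X _ _).mul (IsHomogeneous.prod _ _ _ fun j _ => h1 j)
  · exact mul_ne_zero (X_ne_zero _) (Finset.prod_ne_zero_iff.2 fun j _ => h2 j)
  · intro j
    rw [map_mul, map_prod, Finset.prod_eq_zero (Finset.mem_univ j) (h3 j), mul_zero]

theorem exists_pt {h : MvPolynomial (Fin 3) ℂ} (h0 : h ≠ 0) : ∃ q, eval q h ≠ 0 := by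
  by_contra hcon
  push Not at hcon
  exact h0 (MvPolynomial.funext fun x => by rw [hcon x, map_zero])

end TotKAux

open TotKAux

theorem totK (h : Dat f P v d n) (hQ : ∀ q, OffB b q → eval q f = 0 → QHat f q)
    (hb : ∀ j, b j ≠ 0) (G : MvPolynomial (Fin 3) (MvPolynomial (Fin 3) ℂ))
    (hG : ∀ q : ℕ, Psi ((f : MvPowerSeries (Fin 3) ℂ) ^ q) G = 0) :
    ∃ t Sec, Sol f v n b (-(cc G)) t Sec := by
  set H : MvPolynomial (Fin 3) Kf := map (fr : MvPolynomial (Fin 3) ℂ →+* Kf) (G0 G) with hH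
  obtain ⟨M, hM⟩ := exists_deg H
  have hHr : ∀ q, RegP q H := by
    intro q β
    rw [hH, coeff_map]
    exact RegAt.fr q _
  have hHk : HkP 0 H := by
    intro β
    rw [hH, coeff_map, coeff_G0, add_zero]
    exact Hk.fr (homogeneousComponent_isHomogeneous _ _)
  have hdec : ∀ (e : ℕ) (hh : MvPolynomial (Fin 3) ℂ), 0 < e → hh.IsHomogeneous e → hh ≠ 0 →
      (∀ j, eval (b j) hh = 0) → ∃ T : Fin 3 → MvPolynomial (Fin 3) Kf,
        (∀ k q, eval q hh ≠ 0 → RegP q (T k)) ∧
        (∀ k, HkP 1 (T k)) ∧ ∑ k, T k * C (DK k (fr f)) = 0 ∧ H = dvg T :=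
    fun e hh he hhom hh0 hbj =>
      decK h hQ he hhom hh0 hbj M H (fun q _ => hHr q) hHk hM (psi_G0 h.hf hG)
  obtain ⟨e0, h0, he0, hhom0, hh0, hb0⟩ := exists_h0 b
  obtain ⟨T0, r0, k0, z0, d0⟩ := hdec e0 h0 he0 hhom0 hh0 hb0
  refine ⟨fun k => coeff 0 (T0 k), fun q g => ∃ (T : Fin 3 → MvPolynomial (Fin 3) Kf)
    (U : MvPolynomial (Fin 3) Kf) (u : Kf), (∀ k, RegP q (T k)) ∧
      (∀ k, T0 k - T k = cur (fun j => U * C (fr (v j))) k) ∧ RegAt q u ∧
      g = coeff 0 U + u, ?_, ?_, ?_, ?_, ?_, ?_, ?_⟩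
  · -- uniqueness
    rintro q g g' ⟨T, U, u, hT, hU, hu, rfl⟩ ⟨T', U', u', hT', hU', hu', rfl⟩
    have hw : ∀ k, T' k - T k = cur (fun j => (U - U') * C (fr (v j))) k := by
      intro k
      have e1 : (fun j => (U - U') * C (fr (v j))) =
          fun j => (fun j => U * C (fr (v j))) j - (fun j => U' * C (fr (v j))) j := by
        funext j
        ring
      rw [e1, cur_sub, ← hU, ← hU']
      ring
    obtain ⟨M', hM'⟩ := exists_deg' (fun k => T' k - T k)
    have hreg : ∀ k, RegP q (T' k - T k) := by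
      intro k β
      rw [coeff_sub]
      exact (hT' k β).sub (hT k β)
    have hkill : ∑ k, (T' k - T k) * C (DK k (fr f)) = 0 := by
      rw [← cur_kills h (U - U')]
      exact Finset.sum_congr rfl fun k _ => by rw [hw]
    have hdv : dvg (fun k => T' k - T k) = 0 := by
      rw [show (fun k => T' k - T k) = cur (fun j => (U - U') * C (fr (v j))) from funext hw]
      exact dvg_cur _
    obtain ⟨U'', hr'', hU''⟩ := cmpK h q M' (fun k => T' k - T k) hreg hM' hkill hdv
    have hz : U - U' - U'' = 0 := by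
      refine cur_injK h fun k => ?_
      have e1 : (fun j => (U - U' - U'') * C (fr (v j))) =
          fun j => (fun j => (U - U') * C (fr (v j))) j - (fun j => U'' * C (fr (v j))) j := by
        funext j
        ring
      rw [e1, cur_sub, ← hw, ← hU'', sub_self]
    have hc : coeff 0 U - coeff 0 U' = coeff 0 U'' := by
      have := congrArg (coeff 0) hz
      rw [coeff_sub, coeff_sub, coeff_zero] at this
      exact sub_eq_zero.1 this
    have e2 : coeff 0 U + u - (coeff 0 U' + u') = coeff 0 U'' + (u - u') := by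
      rw [← hc]
      ring
    rw [e2]
    exact (hr'' 0).add (hu.sub hu')
  · -- addition
    rintro q g u' ⟨T, U, u, hT, hU, hu, rfl⟩ hu'
    exact ⟨T, U, u + u', hT, hU, hu.add hu', by ring⟩
  · -- existence
    intro e hh he hhom hhn hbj
    obtain ⟨T, r1, k1, z1, d1⟩ := hdec e hh he hhom hhn hbj
    obtain ⟨q1, hq1⟩ := exists_pt (mul_ne_zero hh0 hhn)
    rw [map_mul] at hq1
    obtain ⟨hq0, hq1⟩ := mul_ne_zero_iff.1 hq1
    obtain ⟨M', hM'⟩ := exists_deg' (fun k => T0 k - T k)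
    obtain ⟨U, -, hU⟩ := cmpK h q1 M' (fun k => T0 k - T k) (fun k β => by
        rw [coeff_sub]
        exact (r0 k q1 hq0 β).sub (r1 k q1 hq1 β)) hM' (by
        simp only [sub_mul, Finset.sum_sub_distrib]
        rw [z0, z1, sub_zero]) (by rw [dvg_sub, ← d0, ← d1, sub_self])
    refine ⟨coeff 0 U, ?_, fun q hq => ⟨T, U, 0, fun k => r1 k q hq, hU, RegAt.zero q,
      (add_zero _).symm⟩⟩
    have hk : HkP (3 - n) U := by
      refine hkP_of_cur h fun k => ?_
      rw [← hU k]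
      intro β
      rw [coeff_sub]
      exact (k0 k β).sub (k1 k β)
    have := hk 0
    simpa using this
  · -- regularity
    rintro q g ⟨T, U, u, hT, hU, hu, rfl⟩ k
    have e1 : coeff 0 (T0 k) + cuK (fun j => coeff 0 U * fr (v j)) k = coeff 0 (T k) := by
      have h1 := congrArg (coeff 0) (hU k)
      rw [coeff_sub, coeff_cur] at h1
      simp only [coeff_mulC] at h1
      linear_combination h1
    have e2 : coeff 0 (T0 k) + cuK (fun j => (coeff 0 U + u) * fr (v j)) k =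
        coeff 0 (T k) + cuK (fun j => u * fr (v j)) k := by
      rw [← e1]
      unfold cuK
      simp only [add_mul, map_add]
      ring
    show RegAt q (coeff 0 (T0 k) + cuK (fun j => (coeff 0 U + u) * fr (v j)) k)
    rw [e2]
    refine (hT k 0).add ?_
    exact ((hu.mul (RegAt.fr q _)).DK _).sub ((hu.mul (RegAt.fr q _)).DK _)
  · intro k
    have := k0 k 0
    simpa using this
  · have := congrArg (coeff 0) z0
    rw [coeff_sum, coeff_zero] at this
    rw [← this]
    refine Finset.sum_congr rfl fun k _ => ?_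
    rw [coeff_mulC]
  · have h1 := congrArg (coeff 0) d0
    rw [coeff_dvg, hH, coeff_map, coeff_G0] at h1
    have h2 : dvK (fun k => coeff 0 (T0 k)) =
        - (fr : MvPolynomial (Fin 3) ℂ →+* Kf) (homogeneousComponent (0 : Fin 3 →₀ ℕ).degree
          (coeff 0 G)) := by
      rw [h1, neg_neg]
    rw [h2, map_zero, homogeneousComponent_zero, map_neg]
    show - fr (C (coeff 0 (coeff 0 G))) = _
    rw [fr_C]
    rfl

end MPb07157.OK
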