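import Pool.Agent.Lib.MP_b07157_agB2.LocK
import Pool.Agent.Lib.MP_b07157_agB2.RgB
import Pool.Agent.Lib.MP_b07157_agB.Vt
import Pool.Agent.Lib.MP_b07157_agB.Lin

/-!
# The local lemma at an arbitrary point
-/

noncomputable section

namespace MPb07157.OK

open MvPolynomial
open MPb07157.OB (Dat Vert)

/-- `x`, `y`, `z` are linear coordinates with `b = (x(b) : 0 : 0)`. -/
structure Crd (b : Fin 3 → ℂ) (x y z : MvPolynomial (Fin 3) ℂ) : Prop where
  hx : x.IsHomogeneous 1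
  hy : y.IsHomogeneous 1
  hz : z.IsHomogeneous 1
  xb : eval b x ≠ 0
  yb : eval b y = 0
  zb : eval b z = 0
  yz : ∀ q, eval q y = 0 → eval q z = 0 → ∃ c : ℂ, q = c • b

namespace TrAux

open MPb07157.OB.LinAux (sub sub_X sub_C sub_sub eval_subst homog_sub pderiv_sub sum_inv sum_inv'
  sum_row homogComp_sub translate_sub squarefree_equiv)

/-! ### Matrices -/

/-- The matrices `p`, `q` are inverse to each other, `D` is the determinant of `p`. -/
structure Mat (p q : Fin 3 → Fin 3 → ℂ) (D : ℂ) : Prop where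
  pq : ∀ l j, ∑ i, p l i * q i j = if l = j then 1 else 0
  qp : ∀ l j, ∑ i, q l i * p i j = if l = j then 1 else 0
  D0 : D ≠ 0
  cof : ∀ i j, D * q j i = p (i + 1) (j + 1) * p (i + 2) (j + 2) -
    p (i + 1) (j + 2) * p (i + 2) (j + 1)

theorem mat_of_det (p : Fin 3 → Fin 3 → ℂ) (D : ℂ) (hD : D ≠ 0)
    (h : D = p 0 0 * p 1 1 * p 2 2 - p 0 0 * p 1 2 * p 2 1 -
      p 0 1 * p 1 0 * p 2 2 + p 0 1 * p 1 2 * p 2 0 + p 0 2 * p 1 0 * p 2 1 -
      p 0 2 * p 1 1 * p 2 0) :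
    ∃ q, Mat p q D := by
  have a1 : (1 : Fin 3) + 1 = 2 := rfl
  have a2 : (1 : Fin 3) + 2 = 0 := rfl
  have a3 : (2 : Fin 3) + 1 = 0 := rfl
  have a4 : (2 : Fin 3) + 2 = 1 := rfl
  refine ⟨fun j i => D⁻¹ * (p (i + 1) (j + 1) * p (i + 2) (j + 2) -
    p (i + 1) (j + 2) * p (i + 2) (j + 1)), ?_, ?_, hD, ?_⟩
  · intro l j
    have key : ∀ l j, ∑ i, p l i * (p (j + 1) (i + 1) * p (j + 2) (i + 2) -
        p (j + 1) (i + 2) * p (j + 2) (i + 1)) = if l = j then D else 0 := by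
      intro l j
      fin_cases l <;> fin_cases j <;>
        simp only [Fin.sum_univ_three, Fin.zero_eta, Fin.mk_one, Fin.reduceFinMk, a1, a2, a3, a4,
          zero_add] <;> simp <;> (try rw [h]) <;> ring
    have h1 : ∑ i, p l i * (D⁻¹ * (p (j + 1) (i + 1) * p (j + 2) (i + 2) -
        p (j + 1) (i + 2) * p (j + 2) (i + 1))) = D⁻¹ * ∑ i, p l i *
        (p (j + 1) (i + 1) * p (j + 2) (i + 2) - p (j + 1) (i + 2) * p (j + 2) (i + 1)) := by
      rw [Finset.mul_sum]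
      exact Finset.sum_congr rfl fun i _ => by ring
    rw [h1, key]
    split_ifs
    · exact inv_mul_cancel₀ hD
    · exact mul_zero _
  · intro l j
    have key : ∀ l j, ∑ i, (p (i + 1) (l + 1) * p (i + 2) (l + 2) -
        p (i + 1) (l + 2) * p (i + 2) (l + 1)) * p i j = if l = j then D else 0 := by
      intro l j
      fin_cases l <;> fin_cases j <;>
        simp only [Fin.sum_univ_three, Fin.zero_eta, Fin.mk_one, Fin.reduceFinMk, a1, a2, a3, a4,
          zero_add] <;> simp <;> (try rw [h]) <;> ring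
    have h1 : ∑ i, D⁻¹ * (p (i + 1) (l + 1) * p (i + 2) (l + 2) -
        p (i + 1) (l + 2) * p (i + 2) (l + 1)) * p i j = D⁻¹ * ∑ i,
        (p (i + 1) (l + 1) * p (i + 2) (l + 2) - p (i + 1) (l + 2) * p (i + 2) (l + 1)) *
          p i j := by
      rw [Finset.mul_sum]
      exact Finset.sum_congr rfl fun i _ => by ring
    rw [h1, key]
    split_ifs
    · exact inv_mul_cancel₀ hD
    · exact mul_zero _
  · intro i j
    show D * (D⁻¹ * _) = _
    rw [← mul_assoc, mul_inv_cancel₀ hD, one_mul]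

theorem exists_mat {b : Fin 3 → ℂ} (hb : b ≠ 0) : ∃ p q D, Mat p q D ∧ p 0 = b := by
  obtain ⟨i, hi⟩ := Function.ne_iff.1 hb
  simp only [Pi.zero_apply] at hi
  fin_cases i
  · obtain ⟨q, hq⟩ := mat_of_det ![b, ![0, 1, 0], ![0, 0, 1]] (b 0) hi (by simp)
    exact ⟨_, q, _, hq, rfl⟩
  · obtain ⟨q, hq⟩ := mat_of_det ![b, ![0, 0, 1], ![1, 0, 0]] (b 1) hi (by simp)
    exact ⟨_, q, _, hq, rfl⟩
  · obtain ⟨q, hq⟩ := mat_of_det ![b, ![1, 0, 0], ![0, 1, 0]] (b 2) hi (by simp)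
    exact ⟨_, q, _, hq, rfl⟩

/-- The identity for the curl. -/
theorem curl_id {R : Type} [CommRing R] (P Q : Fin 3 → R) (W : Fin 3 → Fin 3 → R) :
    ∑ b, Q b * (∑ a, P a * W a b) - ∑ b, P b * (∑ a, Q a * W a b) =
      ∑ j, (P (j + 1) * Q (j + 2) - P (j + 2) * Q (j + 1)) *
        (W (j + 1) (j + 2) - W (j + 2) (j + 1)) := by
  have a1 : (1 : Fin 3) + 1 = 2 := rfl
  have a2 : (1 : Fin 3) + 2 = 0 := rfl
  have a3 : (2 : Fin 3) + 1 = 0 := rfl
  have a4 : (2 : Fin 3) + 2 = 1 := rfl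
  simp only [Fin.sum_univ_three, a1, a2, a3, a4, zero_add]
  ring

variable {p q : Fin 3 → Fin 3 → ℂ} {D : ℂ}

/-! ### Points and polynomials -/

/-- The linear change of coordinates. -/
def eqv (M : Mat p q D) : MvPolynomial (Fin 3) ℂ ≃ₐ[ℂ] MvPolynomial (Fin 3) ℂ :=
  AlgEquiv.ofAlgHom (sub p) (sub q) (sub_sub M.pq) (sub_sub M.qp)

theorem eqv_apply (M : Mat p q D) (f : MvPolynomial (Fin 3) ℂ) : eqv M f = sub p f := rfl

theorem eqv_symm (M : Mat p q D) (f : MvPolynomial (Fin 3) ℂ) : (eqv M).symm f = sub q f := rfl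

/-- The linear map. -/
def pt (p : Fin 3 → Fin 3 → ℂ) (x : Fin 3 → ℂ) : Fin 3 → ℂ := ∑ i, x i • p i

theorem eval_eqv (M : Mat p q D) (f : MvPolynomial (Fin 3) ℂ) (x : Fin 3 → ℂ) :
    eval x (eqv M f) = eval (pt p x) f := eval_subst p f x

theorem eval_symm (M : Mat p q D) (f : MvPolynomial (Fin 3) ℂ) (x : Fin 3 → ℂ) :
    eval (pt p x) ((eqv M).symm f) = eval x f := by
  rw [← eval_eqv M, AlgEquiv.apply_symm_apply]

theorem pt_single (p : Fin 3 → Fin 3 → ℂ) : pt p (Pi.single 0 1) = p 0 := by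
  unfold pt
  rw [Finset.sum_eq_single 0]
  · rw [Pi.single_eq_same, one_smul]
  · intro i _ hi
    rw [Pi.single_eq_of_ne hi, zero_smul]
  · intro h
    exact absurd (Finset.mem_univ _) h

theorem exists_pt (M : Mat p q D) (y : Fin 3 → ℂ) : ∃ x, pt p x = y := by
  refine ⟨fun i => ∑ j, q j i * y j, ?_⟩
  funext k
  unfold pt
  rw [Finset.sum_apply]
  have h := sum_inv' (R := ℂ) M.qp y k
  rw [← h]
  refine Finset.sum_congr rfl fun i _ => ?_
  rw [Pi.smul_apply, smul_eq_mul, mul_comm]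
  rfl

theorem hom_eqv (M : Mat p q D) {f : MvPolynomial (Fin 3) ℂ} {d : ℕ} (hf : f.IsHomogeneous d) :
    (eqv M f).IsHomogeneous d := homog_sub p hf

theorem hom_symm (M : Mat p q D) {f : MvPolynomial (Fin 3) ℂ} {d : ℕ} (hf : f.IsHomogeneous d) :
    ((eqv M).symm f).IsHomogeneous d := homog_sub q hf

theorem mu_eqv (M : Mat p q D) {m : ℕ} {f : MvPolynomial (Fin 3) ℂ} :
    Mu (Pi.single 0 1) m (eqv M f) ↔ Mu (p 0) m f := by
  unfold Mu
  refine forall_congr' fun j => imp_congr_right fun _ => ?_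
  rw [eqv_apply, translate_sub, homogComp_sub, ← eqv_apply M, map_eq_zero_iff _ (eqv M).injective]

theorem mu_symm (M : Mat p q D) {m : ℕ} {f : MvPolynomial (Fin 3) ℂ} :
    Mu (p 0) m ((eqv M).symm f) ↔ Mu (Pi.single 0 1) m f := by
  rw [← mu_eqv M, AlgEquiv.apply_symm_apply]

/-! ### Rational functions -/

/-- The field automorphism. -/
def phi (M : Mat p q D) : Kf ≃+* Kf :=
  IsFractionRing.ringEquivOfRingEquiv (A := MvPolynomial (Fin 3) ℂ)
    (B := MvPolynomial (Fin 3) ℂ) (eqv M).toRingEquiv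

theorem phi_fr (M : Mat p q D) (a : MvPolynomial (Fin 3) ℂ) : phi M (fr a) = fr (eqv M a) :=
  IsFractionRing.ringEquivOfRingEquiv_algebraMap _ _

theorem phi_C (M : Mat p q D) (c : ℂ) :
    phi M (algebraMap ℂ Kf c) = algebraMap ℂ Kf c := by
  rw [← fr_C, phi_fr, eqv_apply, sub_C]

theorem DK_phi (M : Mat p q D) (i : Fin 3) (g : Kf) :
    DK i (phi M g) = ∑ j, algebraMap ℂ Kf (p i j) * phi M (DK j g) := by
  have hfr : ∀ a : MvPolynomial (Fin 3) ℂ, DK i (phi M (fr a)) =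
      ∑ j, algebraMap ℂ Kf (p i j) * phi M (DK j (fr a)) := by
    intro a
    rw [phi_fr, DK_fr, eqv_apply, pderiv_sub, map_sum]
    refine Finset.sum_congr rfl fun j _ => ?_
    rw [DK_fr, phi_fr, map_mul, fr_C, eqv_apply]
  obtain ⟨a, b, hb, h⟩ := exists_frac g
  have hb' : phi M (fr b) ≠ 0 := (map_ne_zero (phi M)).2 (fr_ne_zero hb)
  have h1 := congrArg (fun x => DK i (phi M x)) h
  simp only [map_mul, DK_mul] at h1
  rw [hfr a, hfr b, ← h] at h1
  have h2 : ∑ j, algebraMap ℂ Kf (p i j) * phi M (DK j (g * fr b)) =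
      phi M g * (∑ j, algebraMap ℂ Kf (p i j) * phi M (DK j (fr b))) +
        phi M (fr b) * ∑ j, algebraMap ℂ Kf (p i j) * phi M (DK j g) := by
    rw [Finset.mul_sum, Finset.mul_sum, ← Finset.sum_add_distrib]
    refine Finset.sum_congr rfl fun j _ => ?_
    rw [DK_mul, map_add, map_mul, map_mul]
    ring
  rw [h2] at h1
  exact mul_left_cancel₀ hb' (add_left_cancel h1)

theorem regAt_phi (M : Mat p q D) {x : Fin 3 → ℂ} {g : Kf} :
    RegAt x (phi M g) ↔ RegAt (pt p x) g := by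
  constructor
  · rintro ⟨a, b, hb, h⟩
    refine ⟨(eqv M).symm a, (eqv M).symm b, by rwa [eval_symm], ?_⟩
    apply (phi M).injective
    rw [map_mul, phi_fr, phi_fr, AlgEquiv.apply_symm_apply, AlgEquiv.apply_symm_apply, h]
  · rintro ⟨a, b, hb, h⟩
    refine ⟨eqv M a, eqv M b, by rwa [eval_eqv], ?_⟩
    rw [← phi_fr, ← phi_fr, ← map_mul, h]

theorem hk_phi (M : Mat p q D) {k : ℤ} {g : Kf} : Hk k (phi M g) ↔ Hk k g := by
  constructor
  · rintro ⟨m, n, a, b, ha, hb, hb0, hk, h⟩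
    refine ⟨m, n, (eqv M).symm a, (eqv M).symm b, hom_symm M ha, hom_symm M hb,
      (map_ne_zero_iff _ (eqv M).symm.injective).2 hb0, hk, ?_⟩
    apply (phi M).injective
    rw [map_mul, phi_fr, phi_fr, AlgEquiv.apply_symm_apply, AlgEquiv.apply_symm_apply, h]
  · rintro ⟨m, n, a, b, ha, hb, hb0, hk, h⟩
    refine ⟨m, n, eqv M a, eqv M b, hom_eqv M ha, hom_eqv M hb,
      (map_ne_zero_iff _ (eqv M).injective).2 hb0, hk, ?_⟩
    rw [← phi_fr, ← phi_fr, ← map_mul, h]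

theorem ogR_phi (M : Mat p q D) {m : ℕ} {g : Kf} (h : OgR (Pi.single 0 1) m (phi M g)) :
    OgR (p 0) m g := by
  obtain ⟨a, b, hb, ha, h⟩ := h
  refine ⟨(eqv M).symm a, (eqv M).symm b, ?_, (mu_symm M).2 ha, ?_⟩
  · rw [← pt_single p, eval_symm]
    exact hb
  · apply (phi M).injective
    rw [map_mul, phi_fr, phi_fr, AlgEquiv.apply_symm_apply, AlgEquiv.apply_symm_apply, h]

theorem ogR_C_mul {b : Fin 3 → ℂ} {m : ℕ} {g : Kf} (c : ℂ) (h : OgR b m g) :
    OgR b m (algebraMap ℂ Kf c * g) := by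
  obtain ⟨a, e, he, ha, h⟩ := h
  refine ⟨C c * a, e, he, ?_, ?_⟩
  · intro j hj
    rw [MPb07157.OB.translate_C_mul, homogeneousComponent_C_mul, ha j hj, mul_zero]
  · rw [map_mul, fr_C, ← h]
    ring

theorem hk_C_mul {k : ℤ} {g : Kf} (c : ℂ) (h : Hk k g) : Hk k (algebraMap ℂ Kf c * g) := by
  have h1 := (Hk.fr (isHomogeneous_C (Fin 3) c)).mul h
  rw [fr_C, Nat.cast_zero, zero_add] at h1
  exact h1

theorem hk_sum {k : ℤ} {u : Fin 3 → Kf} (h : ∀ j, Hk k (u j)) : Hk k (∑ j, u j) := by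
  rw [Fin.sum_univ_three]
  exact ((h 0).add (h 1)).add (h 2)

/-! ### Vector fields -/

/-- The transform of a vector field. -/
def vf (M : Mat p q D) (t : Fin 3 → Kf) (i : Fin 3) : Kf :=
  ∑ j, algebraMap ℂ Kf (q j i) * phi M (t j)

theorem vf_reg (M : Mat p q D) {t : Fin 3 → Kf} {x : Fin 3 → ℂ}
    (h : ∀ k, RegAt (pt p x) (t k)) (k : Fin 3) : RegAt x (vf M t k) :=
  RegAt.sum fun j _ => (RegAt.const x _).mul ((regAt_phi M).2 (h j))

theorem vf_hk (M : Mat p q D) {t : Fin 3 → Kf} {l : ℤ} (h : ∀ k, Hk l (t k)) (k : Fin 3) :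
    Hk l (vf M t k) := hk_sum fun j => hk_C_mul _ ((hk_phi M).2 (h j))

theorem vf_kill (M : Mat p q D) {t : Fin 3 → Kf} {f : MvPolynomial (Fin 3) ℂ}
    (h : ∑ k, t k * DK k (fr f) = 0) : ∑ k, vf M t k * DK k (fr (eqv M f)) = 0 := by
  have h1 := sum_inv (R := Kf) M.qp (fun j => phi M (t j)) (fun j => phi M (DK j (fr f)))
  have h2 : ∀ k, DK k (fr (eqv M f)) = ∑ m, algebraMap ℂ Kf (p k m) * phi M (DK m (fr f)) := by
    intro k
    rw [← phi_fr, DK_phi]
  simp only [h2]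
  refine h1.trans ?_
  rw [← map_zero (phi M), ← h, map_sum]
  exact Finset.sum_congr rfl fun j _ => (map_mul _ _ _).symm

theorem vf_div (M : Mat p q D) (t : Fin 3 → Kf) : dvK (vf M t) = phi M (dvK t) := by
  unfold dvK
  have h1 : ∀ i, DK i (vf M t i) =
      ∑ j, algebraMap ℂ Kf (q j i) * ∑ l, algebraMap ℂ Kf (p i l) * phi M (DK l (t j)) := by
    intro i
    unfold vf
    rw [map_sum]
    refine Finset.sum_congr rfl fun j _ => ?_
    rw [DK_mul, DK_phi]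
    have h2 : DK i (algebraMap ℂ Kf (q j i)) = 0 := (DK i).map_algebraMap _
    rw [h2, mul_zero, add_zero]
  simp only [h1]
  rw [Finset.sum_comm, map_sum]
  refine Finset.sum_congr rfl fun j _ => ?_
  exact sum_row (R := Kf) M.qp (fun l => phi M (DK l (t j))) j

/-- The transform of the curl. -/
theorem vf_curl (M : Mat p q D) (w : Fin 3 → Kf) (k : Fin 3) :
    vf M (cuK w) k =
      cuK (fun j => algebraMap ℂ Kf D⁻¹ * ∑ l, algebraMap ℂ Kf (p j l) * phi M (w l)) k := by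
  have h1 : ∀ i j, DK i (algebraMap ℂ Kf D⁻¹ * ∑ l, algebraMap ℂ Kf (p j l) * phi M (w l)) =
      algebraMap ℂ Kf D⁻¹ * ∑ l, algebraMap ℂ Kf (p j l) *
        ∑ a, algebraMap ℂ Kf (p i a) * phi M (DK a (w l)) := by
    intro i j
    have h0 : ∀ c : ℂ, DK i (algebraMap ℂ Kf c) = 0 := fun c => (DK i).map_algebraMap _
    rw [DK_mul, h0, mul_zero, add_zero, map_sum]
    congr 1
    refine Finset.sum_congr rfl fun l _ => ?_
    rw [DK_mul, h0, mul_zero, add_zero, DK_phi]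
  have h2 := curl_id (fun a => algebraMap ℂ Kf (p (k + 1) a))
    (fun a => algebraMap ℂ Kf (p (k + 2) a)) (fun a b => phi M (DK a (w b)))
  unfold cuK
  rw [h1, h1, ← mul_sub, h2, Finset.mul_sum]
  unfold vf
  refine Finset.sum_congr rfl fun j _ => ?_
  have h3 : algebraMap ℂ Kf (q j k) = algebraMap ℂ Kf D⁻¹ *
      (algebraMap ℂ Kf (p (k + 1) (j + 1)) * algebraMap ℂ Kf (p (k + 2) (j + 2)) -
        algebraMap ℂ Kf (p (k + 1) (j + 2)) * algebraMap ℂ Kf (p (k + 2) (j + 1))) := by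
    rw [← map_mul, ← map_mul, ← map_sub, ← map_mul, ← M.cof k j, ← mul_assoc,
      inv_mul_cancel₀ M.D0, one_mul]
  rw [h3, map_sub]
  ring

/-- The logarithmic gradient. -/
theorem vv_eqv {r : ℕ} (M : Mat p q D) (g : Fin r → MvPolynomial (Fin 3) ℂ) (m : Fin r → ℕ)
    (i : Fin 3) : vv (fun j => eqv M (g j)) m i = ∑ l, C (p i l) * eqv M (vv g m l) := by
  unfold vv
  simp only [map_sum, map_mul, map_prod, Finset.mul_sum]
  rw [Finset.sum_comm]
  refine Finset.sum_congr rfl fun j _ => ?_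
  have h1 : pderiv i (eqv M (g j)) = ∑ l, C (p i l) * eqv M (pderiv l (g j)) := pderiv_sub p i _
  rw [h1, Finset.mul_sum]
  refine Finset.sum_congr rfl fun l _ => ?_
  have h2 : eqv M (C (m j : ℂ)) = C (m j : ℂ) := sub_C p _
  rw [h2]
  ring

theorem isFact_eqv {r : ℕ} (M : Mat p q D) {f : MvPolynomial (Fin 3) ℂ}
    {g : Fin r → MvPolynomial (Fin 3) ℂ} {m : Fin r → ℕ} (hf : IsFact f g m) :
    IsFact (eqv M f) (fun j => eqv M (g j)) m where
  irr i := (MulEquiv.irreducible_iff (eqv M)).2 (hf.irr i)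
  ne i j hij h := hf.ne i j hij (by
    have h1 := h.map ((eqv M).symm : MvPolynomial (Fin 3) ℂ →* MvPolynomial (Fin 3) ℂ)
    simpa using h1)
  pos := hf.pos
  eq := by
    rw [hf.eq]
    unfold prodPow
    rw [map_prod]
    exact Finset.prod_congr rfl fun j _ => map_pow _ _ _

theorem ordAt_eqv (M : Mat p q D) {f : MvPolynomial (Fin 3) ℂ} {d : ℕ} (h : OrdAt f d (p 0)) :
    OrdAt (eqv M f) d (Pi.single 0 1) := by
  obtain ⟨⟨F, k, μ, h1, h2, h3, h4, h5⟩, N, h6, h7, h8⟩ := h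
  refine ⟨⟨eqv M F, k, μ, squarefree_equiv (eqv M) h1, map_dvd (eqv M) h2, ?_, ?_, ?_⟩, N, ?_, ?_,
    h8⟩
  · rw [← map_pow]
    exact map_dvd (eqv M) h3
  · intro j hj
    rw [eqv_apply, translate_sub, homogComp_sub, h4 j hj, map_zero]
  · rw [eqv_apply, translate_sub, homogComp_sub]
    exact squarefree_equiv (eqv M) h5
  · intro j hj
    rw [eqv_apply, translate_sub, homogComp_sub, h6 j hj, map_zero]
  · rw [eqv_apply, translate_sub, homogComp_sub]
    intro h0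
    exact h7 ((eqv M).injective (by rw [map_zero]; exact h0))

theorem lh_eqv (M : Mat p q D) {f : MvPolynomial (Fin 3) ℂ} {v v' : Fin 3 → MvPolynomial (Fin 3) ℂ}
    {n : ℕ} {E : MvPolynomial (Fin 3) ℂ} {c : ℂ} {t₁ t₂ : Fin 3 → Kf} {G : Kf}
    (hv : ∀ i, v' i = ∑ l, C (p i l) * eqv M (v l))
    (H : LH f v n ((eqv M).symm (X 1)) ((eqv M).symm (X 2)) E c t₁ t₂ G) :
    LH (eqv M f) v' n (X 1) (X 2) (eqv M E) c (vf M t₁) (vf M t₂)
      (algebraMap ℂ Kf D⁻¹ * phi M G) := by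
  have e1 : ∀ x, eval x (X 1 * eqv M E) = eval (pt p x) ((eqv M).symm (X 1) * E) := fun x => by
    rw [map_mul, map_mul, eval_symm, eval_eqv]
  have e2 : ∀ x, eval x (X 2 * eqv M E) = eval (pt p x) ((eqv M).symm (X 2) * E) := fun x => by
    rw [map_mul, map_mul, eval_symm, eval_eqv]
  have e3 : ∀ x, eval x (X 1 * X 2 * eqv M E) =
      eval (pt p x) ((eqv M).symm (X 1) * (eqv M).symm (X 2) * E) := fun x => by
    rw [map_mul, map_mul, map_mul, map_mul, eval_symm, eval_symm, eval_eqv]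
  refine ⟨fun x hx k => ?_, fun x hx k => ?_, fun x hx => ?_, fun k => vf_hk M H.e₁ k,
    fun k => vf_hk M H.e₂ k, hk_C_mul _ ((hk_phi M).2 H.eg), vf_kill M H.k₁, vf_kill M H.k₂, ?_,
    ?_, fun k => ?_⟩
  · rw [e1] at hx
    exact vf_reg M (H.r₁ _ hx) k
  · rw [e2] at hx
    exact vf_reg M (H.r₂ _ hx) k
  · rw [e3] at hx
    exact (RegAt.const x _).mul ((regAt_phi M).2 (H.rg _ hx))
  · rw [vf_div, H.d₁, phi_C]
  · rw [vf_div, H.d₂, phi_C]
  · have h1 : vf M t₁ k - vf M t₂ k = vf M (cuK (fun j => G * fr (v j))) k := by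
      unfold vf
      rw [← Finset.sum_sub_distrib]
      refine Finset.sum_congr rfl fun j _ => ?_
      rw [← mul_sub, ← map_sub, H.cu j]
    have h2 : (fun j => algebraMap ℂ Kf D⁻¹ *
        ∑ l, algebraMap ℂ Kf (p j l) * phi M (G * fr (v l))) =
        fun j => algebraMap ℂ Kf D⁻¹ * phi M G * fr (v' j) := by
      funext j
      rw [hv, map_sum, mul_assoc, Finset.mul_sum (a := phi M G)]
      congr 1
      refine Finset.sum_congr rfl fun l _ => ?_
      rw [map_mul, map_mul, phi_fr, fr_C]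
      ring
    rw [h1, vf_curl, h2]

theorem lc_back (M : Mat p q D) {n μ : ℕ} {E : MvPolynomial (Fin 3) ℂ} {G : Kf}
    (H : LC n μ (Pi.single 0 1) (X 1) (X 2) (eqv M E) (algebraMap ℂ Kf D⁻¹ * phi M G)) :
    LC n μ (p 0) ((eqv M).symm (X 1)) ((eqv M).symm (X 2)) E G := by
  obtain ⟨γ, h1, h2, α, h3⟩ := H
  have e1 : ∀ x, eval x (X 1 * eqv M E) = eval (pt p x) ((eqv M).symm (X 1) * E) := fun x => by
    rw [map_mul, map_mul, eval_symm, eval_eqv]
  have e2 : ∀ x, eval x (X 2 * eqv M E) = eval (pt p x) ((eqv M).symm (X 2) * E) := fun x => by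
    rw [map_mul, map_mul, eval_symm, eval_eqv]
  have hφ : ∀ u : Kf, phi M (algebraMap ℂ Kf D * (phi M).symm u) = algebraMap ℂ Kf D * u :=
    fun u => by rw [map_mul, phi_C, RingEquiv.apply_symm_apply]
  have hD : algebraMap ℂ Kf D * algebraMap ℂ Kf D⁻¹ = 1 := by
    rw [← map_mul, mul_inv_cancel₀ M.D0, map_one]
  refine ⟨algebraMap ℂ Kf D * (phi M).symm γ, ?_, ?_,
    fun σ => algebraMap ℂ Kf D * (phi M).symm (α (eqv M σ)), fun σ hσ => ?_⟩
  · rw [← hk_phi M, hφ]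
    exact hk_C_mul _ h1
  · intro y hy
    obtain ⟨x, rfl⟩ := exists_pt M y
    rw [← regAt_phi M, hφ]
    rw [← e1] at hy
    exact (RegAt.const x _).mul (h2 x hy)
  · obtain ⟨a1, a2, a3, a4⟩ := h3 (eqv M σ) ⟨hom_eqv M hσ.1, (mu_eqv M).2 hσ.2⟩
    refine ⟨?_, ?_, ?_, ?_⟩
    · rw [← hk_phi M, hφ]
      exact hk_C_mul _ a1
    · intro y hy
      obtain ⟨x, rfl⟩ := exists_pt M y
      rw [← regAt_phi M, hφ]
      rw [← e1] at hy
      exact (RegAt.const x _).mul (a2 x hy)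
    · intro y hy
      obtain ⟨x, rfl⟩ := exists_pt M y
      rw [← e2] at hy
      rw [← regAt_phi M, map_sub, map_mul, map_sub, hφ, hφ, phi_fr]
      have h4 : fr (eqv M σ) * (phi M G - algebraMap ℂ Kf D * γ) -
          algebraMap ℂ Kf D * α (eqv M σ) = algebraMap ℂ Kf D *
          (fr (eqv M σ) * (algebraMap ℂ Kf D⁻¹ * phi M G - γ) - α (eqv M σ)) := by
        linear_combination (-(fr (eqv M σ) * phi M G)) * hD
      rw [h4]
      exact (RegAt.const x _).mul (a3 x hy)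
    · intro τ hτ
      have h5 := a4 (eqv M τ) ⟨hom_eqv M hτ.1, (mu_eqv M).2 hτ.2⟩
      apply ogR_phi M
      show OgR (Pi.single 0 1) (μ - 3) (phi M (fr τ * (algebraMap ℂ Kf D *
        (phi M).symm (α (eqv M σ))) - fr σ * (algebraMap ℂ Kf D * (phi M).symm (α (eqv M τ)))))
      rw [map_sub, map_mul (phi M) (fr τ), map_mul (phi M) (fr σ), hφ, hφ, phi_fr, phi_fr]
      have h6 : fr (eqv M τ) * (algebraMap ℂ Kf D * α (eqv M σ)) -
          fr (eqv M σ) * (algebraMap ℂ Kf D * α (eqv M τ)) = algebraMap ℂ Kf D *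
          (fr (eqv M τ) * α (eqv M σ) - fr (eqv M σ) * α (eqv M τ)) := by ring
      rw [h6]
      exact ogR_C_mul _ h5

end TrAux

open TrAux in
/-- The local lemma at an arbitrary ordinary multiple point `b`. -/
theorem loc_general {r : ℕ} {f : MvPolynomial (Fin 3) ℂ} {g : Fin r → MvPolynomial (Fin 3) ℂ}
    {m : Fin r → ℕ} {d n : ℕ} (hf : IsFact f g m) (h : Dat f (∏ j, g j) (vv g m) d n)
    (hn : 3 ≤ n) {b : Fin 3 → ℂ} (hb : b ≠ 0) (ho : OrdAt f d b) {μ : ℕ}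
    (hμ : Mu b μ (∏ j, g j)) (hμ' : ¬ Mu b (μ + 1) (∏ j, g j)) :
    ∃ x y z : MvPolynomial (Fin 3) ℂ, Crd b x y z ∧
      ∀ (e : MvPolynomial (Fin 3) ℂ) (k : ℕ) (c : ℂ) (t₁ t₂ : Fin 3 → Kf) (G : Kf),
        e.IsHomogeneous k → eval b e ≠ 0 → x ∣ e → c ≠ 0 →
        LH f (vv g m) n y z e c t₁ t₂ G → LC n μ b y z e G := by
  obtain ⟨p, q, D, M, hp⟩ := exists_mat hb
  subst hp
  have hf' := isFact_eqv M hf
  obtain ⟨n', h'⟩ := MPb07157.OB.dat_of_isFact hf' h.hd (hom_eqv M h.hf)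
  have hP : ∏ j, eqv M (g j) = eqv M (∏ j, g j) := (map_prod (eqv M) _ _).symm
  have hnn : n' = n := by
    have h1 := h'.hP
    rw [hP] at h1
    have h2 : eqv M (∏ j, g j) ≠ 0 := (map_ne_zero_iff _ (eqv M).injective).2 h.P0
    exact h1.inj_right (hom_eqv M h.hP) h2
  subst hnn
  obtain ⟨N, μ', hV, h3⟩ := MPb07157.OB.vert_of_ordAt hf' h' (ordAt_eqv M ho)
  have hμμ : μ' = μ := by
    have c1 : MPb07157.OB.Ge (MPb07157.OB.wt 0) μ (MPb07157.OB.io (∏ j, eqv M (g j))) := by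
      rw [MPb07157.OB.ge_iff h'.hP 0 μ, hP]
      exact (mu_eqv M).2 hμ
    have c2 : ¬ MPb07157.OB.Ge (MPb07157.OB.wt 0) ((μ + 1 : ℕ) : ℤ)
        (MPb07157.OB.io (∏ j, eqv M (g j))) := by
      rw [MPb07157.OB.ge_iff h'.hP 0 (μ + 1), hP]
      intro hc
      exact hμ' ((mu_eqv M).1 hc)
    rcases lt_trichotomy μ' μ with hlt | heq | hgt
    · exact absurd (MPb07157.OB.gc_eq_zero_of_lt c1 (by exact_mod_cast hlt)) hV.P2
    · exact heq
    · exact absurd (hV.P1.mono (by exact_mod_cast hgt)) c2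
  subst hμμ
  refine ⟨(eqv M).symm (X 0), (eqv M).symm (X 1), (eqv M).symm (X 2), ?_,
    fun e k c t₁ t₂ G he he0 hx hc H => lc_back M (MPb07157.OK.loc_vertex h' hn hV h3
      (hom_eqv M he) ?_ ?_ hc (lh_eqv M (fun i => vv_eqv M g m i) H))⟩
  · refine ⟨hom_symm M (isHomogeneous_X ℂ 0), hom_symm M (isHomogeneous_X ℂ 1),
      hom_symm M (isHomogeneous_X ℂ 2), ?_, ?_, ?_, fun y h1 h2 => ?_⟩
    · rw [← pt_single p, eval_symm, eval_X, Pi.single_eq_same]
      exact one_ne_zero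
    · rw [← pt_single p, eval_symm, eval_X]
      rfl
    · rw [← pt_single p, eval_symm, eval_X]
      rfl
    · obtain ⟨x, rfl⟩ := exists_pt M y
      rw [eval_symm, eval_X] at h1 h2
      refine ⟨x 0, ?_⟩
      unfold pt
      rw [Fin.sum_univ_three, h1, h2, zero_smul, zero_smul, add_zero, add_zero]
  · rw [eval_eqv, pt_single]
    exact he0
  · have h1 := map_dvd (eqv M) hx
    rwa [AlgEquiv.apply_symm_apply] at h1

end MPb07157.OK
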